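import Pool.Agent.Lib.MP_dc7d7b_co.TF.DefB

set_option autoImplicit false

/-!
LOVB (180 lines). (x, y, L) a bad triple with card L minimal. K = ((S.erase x).erase y) \ L is closed in S \ {x, y} too, nonempty.
(1) Every nonempty closed part M ≠ S \ {x, y} of S \ {x, y} contains a neighbour of x: otherwise M is closed in S.erase y,
so M = S.erase y by hcut, but x is not in M. The same for y.
(2) Let x', y' ∈ insert y L, K' closed in S \ {x', y'} with x ∈ K'. Then K ⊆ K': K \ K' is closed in S \ {x, y} (a in it, b ∈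
S \ {x, y} adjacent to a: b ∈ K; K is disjoint from insert y L, so a, b ∈ S \ {x', y'}; b ∈ K' would give a ∈ K'). If it is
nonempty, by (1) it contains a neighbour a of x (it is not all of S \ {x, y}, since L is nonempty), and x ∈ K', so
a ∈ K': contradiction.
(3) Let x' ≠ y' be in insert y L, with a common neighbour in S. Then they are adjacent. Otherwise by hbad there is L' closed
in S \ {x', y'}, nonempty, not everything; x ∈ S \ {x', y'}; replacing L' by its complement (`Cl.compl`) we may assume x ∉ L',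
x ∈ K' = complement. By (2) K ⊆ K', so L' ⊆ (insert y L) \ {x', y'} and card L' ≤ card L + 1 - 2 < card L, and
(x', y', L') is a bad triple: contradiction to hmin.
(4) Let a ∈ L, A = {b ∈ insert y L : b = a or b adjacent to a}. If b ∈ A, c ∈ insert y L, b adjacent to c, then c ∈ A by (3)
(c = a, or b = a, or b is a common neighbour of a and c). So L ∩ A is closed in S \ {x, y}, nonempty (a), so (x, y, L ∩ A) is a bad
triple (L ∩ A ≠ S \ {x, y}, as L ∩ A ⊆ L), and by hmin L ∩ A = L. By (1) y has a neighbour b in L, b ∈ A, so y ∈ A.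
-/

namespace Pool.Agent.MP_dc7d7b.TF

open Finset Classical

private theorem nbr {V : Type} {G : SimpleGraph V} {S : Finset V} {x y : V} (hx : x ∈ S) (hxy : x ≠ y)
    (hc : Con G (S.erase y)) {M : Finset V} (hM : Cl G ((S.erase x).erase y) M) (hne : M.Nonempty) :
    ∃ m ∈ M, G.Adj x m := by
  by_contra hno
  push Not at hno
  have hM' : Cl G (S.erase y) M := by
    refine ⟨fun m hm => ?_, fun a ha b hb hab => ?_⟩
    · have h := hM.1 hm
      rw [mem_erase, mem_erase] at h
      exact mem_erase.mpr ⟨h.1, h.2.2⟩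
    · by_cases hbx : b = x
      · rw [hbx] at hab
        exact absurd hab.symm (hno a ha)
      · refine hM.2 a ha b ?_ hab
        rw [mem_erase] at hb
        rw [mem_erase, mem_erase]
        exact ⟨hb.1, hbx, hb.2⟩
  have heq := hc M hM' hne
  have hxM : x ∈ M := by
    rw [heq]
    exact mem_erase.mpr ⟨hxy, hx⟩
  have h := hM.1 hxM
  rw [mem_erase, mem_erase] at h
  exact h.2.1 rfl

theorem lov_clique {V : Type} (G : SimpleGraph V) (S : Finset V) (hcut : ∀ c ∈ S, Con G (S.erase c))
    (hbad : Nog G S) {x y : V} {L : Finset V} (hB : Bt G S x y L)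
    (hmin : ∀ x' y' L', Bt G S x' y' L' → L.card ≤ L'.card) :
    ∀ a ∈ L, ∀ b ∈ insert y L, a ≠ b → G.Adj a b := by
  obtain ⟨hx, hy, hxy, hnadj, hcommon, hLne, hLcl, hLU⟩ := hB
  have hxL : x ∉ L := by
    intro h
    have h' := hLcl.1 h
    rw [mem_erase, mem_erase] at h'
    exact h'.2.1 rfl
  have hyL : y ∉ L := by
    intro h
    have h' := hLcl.1 h
    rw [mem_erase] at h'
    exact h'.1 rfl
  have hLS : ∀ b ∈ L, b ∈ S := by
    intro b hb
    have h' := hLcl.1 hb
    rw [mem_erase, mem_erase] at h'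
    exact h'.2.2
  have hIS : ∀ b ∈ insert y L, b ∈ S := by
    intro b hb
    rcases mem_insert.mp hb with e | hb'
    · rw [e]
      exact hy
    · exact hLS b hb'
  have hxI : x ∉ insert y L := by
    intro h
    rcases mem_insert.mp h with e | h'
    · exact hxy e
    · exact hxL h'
  have n1 : ∀ M, Cl G ((S.erase x).erase y) M → M.Nonempty → ∃ m ∈ M, G.Adj x m :=
    fun M hM hne => nbr hx hxy (hcut y hy) hM hne
  have n2 : ∀ M, Cl G ((S.erase x).erase y) M → M.Nonempty → ∃ m ∈ M, G.Adj y m :=
    fun M hM hne => nbr hy hxy.symm (hcut x hx) (by rw [erase_right_comm]; exact hM) hne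
  have hKcl : Cl G ((S.erase x).erase y) (((S.erase x).erase y) \ L) := hLcl.compl
  have step2 : ∀ x' ∈ insert y L, ∀ y' ∈ insert y L, ∀ K', Cl G ((S.erase x').erase y') K' →
      x ∈ K' → ((S.erase x).erase y) \ L ⊆ K' := by
    intro x' hx' y' hy' K' hK' hxK' k hk
    by_contra hkK'
    have hU' : ∀ b ∈ ((S.erase x).erase y) \ L, b ∈ (S.erase x').erase y' := by
      intro b hb
      rw [mem_sdiff, mem_erase, mem_erase] at hb
      have hbI : b ∉ insert y L := by
        intro h
        rcases mem_insert.mp h with e | h'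
        · exact hb.1.1 e
        · exact hb.2 h'
      rw [mem_erase, mem_erase]
      exact ⟨fun e => hbI (e ▸ hy'), fun e => hbI (e ▸ hx'), hb.1.2.2⟩
    have hMcl : Cl G ((S.erase x).erase y) ((((S.erase x).erase y) \ L) \ K') := by
      refine ⟨fun b hb => (mem_sdiff.mp (mem_sdiff.mp hb).1).1, fun a ha b hb hab => ?_⟩
      rw [mem_sdiff] at ha ⊢
      have hbK := hKcl.2 a ha.1 b hb hab
      exact ⟨hbK, fun hbK' => ha.2 (hK'.2 b hbK' a (hU' a ha.1) hab.symm)⟩
    obtain ⟨m, hm, hxm⟩ := n1 _ hMcl ⟨k, mem_sdiff.mpr ⟨hk, hkK'⟩⟩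
    rw [mem_sdiff] at hm
    exact hm.2 (hK'.2 x hxK' m (hU' m hm.1) hxm)
  have step3 : ∀ x' ∈ insert y L, ∀ y' ∈ insert y L, x' ≠ y' →
      (∃ v ∈ S, G.Adj v x' ∧ G.Adj v y') → G.Adj x' y' := by
    intro x' hx' y' hy' hne hcm
    by_contra hna
    obtain ⟨v, hv, hvx, hvy⟩ := hcm
    have hnc := hbad v hv x' (hIS x' hx') y' (hIS y' hy') hne hna hvx hvy
    have hxU' : x ∈ (S.erase x').erase y' := by
      rw [mem_erase, mem_erase]
      exact ⟨fun e => hxI (e ▸ hy'), fun e => hxI (e ▸ hx'), hx⟩
    have fin : ∀ L', Cl G ((S.erase x').erase y') L' → L'.Nonempty →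
        L' ≠ (S.erase x').erase y' → x ∉ L' → False := by
      intro L' hL' hL'ne hL'U hxL'
      have hK' : Cl G ((S.erase x').erase y') (((S.erase x').erase y') \ L') := hL'.compl
      have hsub := step2 x' hx' y' hy' _ hK' (mem_sdiff.mpr ⟨hxU', hxL'⟩)
      have hL'sub : L' ⊆ ((insert y L).erase x').erase y' := by
        intro b hb
        have hbU' := hL'.1 hb
        rw [mem_erase, mem_erase] at hbU'
        rw [mem_erase, mem_erase]
        refine ⟨hbU'.1, hbU'.2.1, ?_⟩
        rw [mem_insert]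
        by_contra hcon
        have hby : b ≠ y := fun e => hcon (Or.inl e)
        have hbL : b ∉ L := fun e => hcon (Or.inr e)
        have hbx : b ≠ x := fun e => hxL' (e ▸ hb)
        have hbK : b ∈ ((S.erase x).erase y) \ L := by
          rw [mem_sdiff, mem_erase, mem_erase]
          exact ⟨⟨hby, hbx, hbU'.2.2⟩, hbL⟩
        exact (mem_sdiff.mp (hsub hbK)).2 hb
      have hcard : L'.card + 1 ≤ L.card := by
        have h1 := card_le_card hL'sub
        have hy'' : y' ∈ (insert y L).erase x' := mem_erase.mpr ⟨hne.symm, hy'⟩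
        rw [card_erase_of_mem hy'', card_erase_of_mem hx', card_insert_of_notMem hyL] at h1
        have h2 : 0 < L'.card := hL'ne.card_pos
        omega
      have h3 := hmin x' y' L' ⟨hIS x' hx', hIS y' hy', hne, hna, ⟨v, hv, hvx, hvy⟩, hL'ne, hL', hL'U⟩
      omega
    apply hnc
    intro L' hL' hL'ne
    by_contra hL'U
    by_cases hxL' : x ∈ L'
    · refine fin (((S.erase x').erase y') \ L') hL'.compl ?_ ?_ ?_
      · rw [sdiff_nonempty]
        intro hsub
        exact hL'U (Subset.antisymm hL'.1 hsub)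
      · intro e
        have h : x ∈ ((S.erase x').erase y') \ L' := by
          rw [e]
          exact hxU'
        exact (mem_sdiff.mp h).2 hxL'
      · intro h
        exact (mem_sdiff.mp h).2 hxL'
    · exact fin L' hL' hL'ne hL'U hxL'
  intro a ha
  have hM : L.filter (fun b => b = a ∨ G.Adj a b) = L := by
    have hMcl : Cl G ((S.erase x).erase y) (L.filter (fun b => b = a ∨ G.Adj a b)) := by
      refine ⟨(filter_subset _ _).trans hLcl.1, fun b hb c hc hbc => ?_⟩
      rw [mem_filter] at hb ⊢
      have hcL := hLcl.2 b hb.1 c hc hbc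
      refine ⟨hcL, ?_⟩
      rcases hb.2 with e | hab
      · rw [e] at hbc
        exact Or.inr hbc
      · by_cases hca : c = a
        · exact Or.inl hca
        · exact Or.inr (step3 a (mem_insert_of_mem ha) c (mem_insert_of_mem hcL) (Ne.symm hca)
            ⟨b, hLS b hb.1, hab.symm, hbc⟩)
    refine eq_of_subset_of_card_le (filter_subset _ _) (hmin x y _
      ⟨hx, hy, hxy, hnadj, hcommon, ⟨a, mem_filter.mpr ⟨ha, Or.inl rfl⟩⟩, hMcl, ?_⟩)
    intro e
    apply hLU
    refine Subset.antisymm hLcl.1 ?_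
    rw [← e]
    exact filter_subset _ _
  have hLa : ∀ b ∈ L, b = a ∨ G.Adj a b := by
    intro b hb
    rw [← hM] at hb
    exact (mem_filter.mp hb).2
  intro b hb hab
  rcases mem_insert.mp hb with e | hbL
  · rw [e]
    have hay : a ≠ y := fun h => hyL (h ▸ ha)
    obtain ⟨m, hm, hym⟩ := n2 L hLcl hLne
    rcases hLa m hm with e' | ham
    · rw [← e']
      exact hym.symm
    · exact step3 a (mem_insert_of_mem ha) y (mem_insert_self y L) hay
        ⟨m, hLS m hm, ham.symm, hym.symm⟩
  · exact (hLa b hbL).resolve_left (Ne.symm hab)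

end Pool.Agent.MP_dc7d7b.TF
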