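import Pool.Agent.Lib.MP_dc7d7b_co.TF.DefB

set_option autoImplicit false

/-!
GLU (90 lines). `glue_zero`: f z = f1 z for z in L, f2 z otherwise; no edge of G (so none of H, hH.edge) between L and T \ L.
`glue_one`: f1 on insert c L, f2 on T \ L (contains c, since L ⊆ T.erase c). Let σ = (f1 c)⁻¹ * f2 c, so
f1 c (σ i) = f2 c i. g z = f1 z * σ for z ∈ L, f2 z otherwise. Two vertices of L: f1 at the index σ i. Two vertices of
T \ L: f2. u ∈ L and w ∈ T \ L: w = c: (f1 c) (σ i) = f2 c i, use f1 on insert c L; w ≠ c: not adjacent (w ∈ T.erase c would be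
in L).
-/

namespace Pool.Agent.MP_dc7d7b.TF

open Finset Classical

theorem glue_zero {V : Type} {G : SimpleGraph V} {H : SimpleGraph (V × Fin 8)} (hH : Cover G H) {T L : Finset V}
    (hL : Cl G T L) (h1 : ∃ f, Pk H L f) (h2 : ∃ f, Pk H (T \ L) f) : ∃ f, Pk H T f := by
  obtain ⟨f1, hf1⟩ := h1
  obtain ⟨f2, hf2⟩ := h2
  refine ⟨fun z => if z ∈ L then f1 z else f2 z, ?_⟩
  intro i u hu v hv hadj
  have hG : G.Adj u v := hH.edge _ _ _ _ hadj
  by_cases hu' : u ∈ L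
  · have hv' : v ∈ L := hL.2 u hu' v hv hG
    simp only [if_pos hu', if_pos hv'] at hadj
    exact hf1 i u hu' v hv' hadj
  · have hv' : v ∉ L := fun h => hu' (hL.2 v h u hu hG.symm)
    simp only [if_neg hu', if_neg hv'] at hadj
    exact hf2 i u (Finset.mem_sdiff.2 ⟨hu, hu'⟩) v (Finset.mem_sdiff.2 ⟨hv, hv'⟩) hadj

theorem glue_one {V : Type} {G : SimpleGraph V} {H : SimpleGraph (V × Fin 8)} (hH : Cover G H) {T L : Finset V} {c : V}
    (hc : c ∈ T) (hL : Cl G (T.erase c) L) (h1 : ∃ f, Pk H (insert c L) f) (h2 : ∃ f, Pk H (T \ L) f) :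
    ∃ f, Pk H T f := by
  obtain ⟨f1, hf1⟩ := h1
  obtain ⟨f2, hf2⟩ := h2
  obtain ⟨σ, hσ⟩ : ∃ σ : Equiv.Perm (Fin 8), ∀ i, f1 c (σ i) = f2 c i :=
    ⟨(f1 c)⁻¹ * f2 c, fun i => by simp⟩
  refine ⟨fun z => if z ∈ L then f1 z * σ else f2 z, ?_⟩
  have key : ∀ i u v, u ∈ L → v ∈ T → v ∉ L → ¬ H.Adj (u, f1 u (σ i)) (v, f2 v i) := by
    intro i u v hu hv hv' hadj
    by_cases hvc : v = c
    · subst hvc
      rw [← hσ i] at hadj
      exact hf1 (σ i) u (Finset.mem_insert_of_mem hu) v (Finset.mem_insert_self _ _) hadj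
    · exact hv' (hL.2 u hu v (Finset.mem_erase.2 ⟨hvc, hv⟩) (hH.edge _ _ _ _ hadj))
  intro i u hu v hv hadj
  by_cases hu' : u ∈ L
  · by_cases hv' : v ∈ L
    · simp only [if_pos hu', if_pos hv', Equiv.Perm.mul_apply] at hadj
      exact hf1 (σ i) u (Finset.mem_insert_of_mem hu') v (Finset.mem_insert_of_mem hv') hadj
    · simp only [if_pos hu', if_neg hv', Equiv.Perm.mul_apply] at hadj
      exact key i u v hu' hv hv' hadj
  · by_cases hv' : v ∈ L
    · simp only [if_neg hu', if_pos hv', Equiv.Perm.mul_apply] at hadj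
      exact key i v u hv' hu hu' hadj.symm
    · simp only [if_neg hu', if_neg hv'] at hadj
      exact hf2 i u (Finset.mem_sdiff.2 ⟨hu, hu'⟩) v (Finset.mem_sdiff.2 ⟨hv, hv'⟩) hadj

end Pool.Agent.MP_dc7d7b.TF
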