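import Pool.Agent.Lib.MP_dc7d7b_co.TF.LovA
import Pool.Agent.Lib.MP_dc7d7b_co.TF.LovB
import Pool.Agent.Lib.MP_dc7d7b_co.TF.LovC

set_option autoImplicit false

/-!
LOV (60 lines). Assume the conclusion fails: this is `Nog G S`. `dist_two` gives v, x, y; S \ {x, y} is not connected, so there is L
with Bt G S x y L. Choose a bad triple with card L minimal (well founded: minimum of the set of the numbers card L,
Nat.find). `lov_clique` for (x, y, L) and for (y, x, L) (Bt is symmetric in x and y: `Finset.erase_right_comm`, same card),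
then `lov_end`.
-/

namespace Pool.Agent.MP_dc7d7b.TF

open Finset Classical

private theorem lov_bt_symm {V : Type} {G : SimpleGraph V} {S : Finset V} {x y : V} {L : Finset V} (h : Bt G S x y L) :
    Bt G S y x L := by
  obtain ⟨h1, h2, h3, h4, ⟨v, hv, h5, h6⟩, h7, h8, h9⟩ := h
  refine ⟨h2, h1, h3.symm, fun hh => h4 hh.symm, ⟨v, hv, h6, h5⟩, h7, ?_, ?_⟩
  · rw [Finset.erase_right_comm]
    exact h8
  · rw [Finset.erase_right_comm]
    exact h9

theorem lovasz {V : Type} (G : SimpleGraph V) (S : Finset V) (hreg : ∀ v ∈ S, dg G S v = 6) (hconn : Con G S)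
    (hcut : ∀ c ∈ S, Con G (S.erase c)) (hpair : ∃ x ∈ S, ∃ y ∈ S, x ≠ y ∧ ¬ G.Adj x y) :
    ∃ v ∈ S, ∃ x ∈ S, ∃ y ∈ S, x ≠ y ∧ ¬ G.Adj x y ∧ G.Adj v x ∧ G.Adj v y ∧ Con G ((S.erase x).erase y) := by
  by_contra hcon
  have hbad : Nog G S := fun v hv x hx y hy hxy hna h1 h2 hc =>
    hcon ⟨v, hv, x, hx, y, hy, hxy, hna, h1, h2, hc⟩
  have hP : ∃ n : ℕ, ∃ (x y : V) (L : Finset V), Bt G S x y L ∧ L.card = n := by
    obtain ⟨v, hv, x, hx, y, hy, hxy, hna, h1, h2⟩ := dist_two G S hconn hpair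
    have hnc := hbad v hv x hx y hy hxy hna h1 h2
    unfold Con at hnc
    push Not at hnc
    obtain ⟨L, hL1, hL2, hL3⟩ := hnc
    exact ⟨L.card, x, y, L, ⟨hx, hy, hxy, hna, ⟨v, hv, h1, h2⟩, hL2, hL1, hL3⟩, rfl⟩
  obtain ⟨x, y, L, hB, hc⟩ := Nat.find_spec hP
  have hmin : ∀ x' y' L', Bt G S x' y' L' → L.card ≤ L'.card := by
    intro x' y' L' h
    rw [hc]
    exact Nat.find_min' hP ⟨x', y', L', h, rfl⟩
  exact lov_end G S hreg hcut hbad hB (lov_clique G S hcut hbad (lov_bt_symm hB) hmin)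
    (lov_clique G S hcut hbad hB hmin)

end Pool.Agent.MP_dc7d7b.TF
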