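import Pool.Agent.Lib.MP_dc7d7b_co.TF.Bro
import Pool.Agent.Lib.MP_dc7d7b_co.TF.Lov
import Pool.Agent.Lib.MP_dc7d7b_co.TF.Glu

set_option autoImplicit false

/-!
# Packings of 8-fold covers of graphs of maximum degree at most six without `K_7`
-/

namespace Pool.Agent.MP_dc7d7b.TF

open Finset Classical

theorem pack_all {V : Type} {G : SimpleGraph V} {H : SimpleGraph (V × Fin 8)} (hH : Cover G H)
    (hdeg : ∀ (T : Finset V) (v : V), dg G T v ≤ 6)
    (hK : ∀ S : Finset V, S.card = 7 → ∃ x ∈ S, ∃ y ∈ S, x ≠ y ∧ ¬ G.Adj x y) :
    ∀ S : Finset V, ∃ f : V → Equiv.Perm (Fin 8), Pk H S f := by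
  intro S
  induction S using Finset.strongInduction with
  | _ S ih =>
    rcases S.eq_empty_or_nonempty with rfl | hne
    · refine ⟨fun _ => 1, ?_⟩
      intro i u hu
      simp at hu
    by_cases h5 : ∃ v ∈ S, dg G S v ≤ 5
    · obtain ⟨v, hv, h5⟩ := h5
      obtain ⟨f, hf⟩ := ih (S.erase v) (Finset.erase_ssubset hv)
      exact pair_step hH (fun T w => hdeg T w) hv h5 hf
    push Not at h5
    have hreg : ∀ v ∈ S, dg G S v = 6 := fun v hv => by
      have h1 := h5 v hv
      have h2 := hdeg S v
      omega
    by_cases hcon : Con G S
    · by_cases hcut : ∀ c ∈ S, Con G (S.erase c)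
      · have hpair : ∃ x ∈ S, ∃ y ∈ S, x ≠ y ∧ ¬ G.Adj x y := by
          by_contra hall
          push Not at hall
          obtain ⟨v, hv⟩ := hne
          have h7 : S.card = 7 := by
            have h1 : S.filter (fun u => G.Adj v u) = S.erase v := by
              ext u
              rw [Finset.mem_filter, Finset.mem_erase]
              constructor
              · rintro ⟨h1, h2⟩
                refine ⟨fun h => ?_, h1⟩
                subst h
                exact G.loopless.irrefl _ h2
              · rintro ⟨h1, h2⟩
                exact ⟨h2, hall v hv u h2 (Ne.symm h1)⟩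
            have h2 := hreg v hv
            unfold dg at h2
            rw [h1, Finset.card_erase_of_mem hv] at h2
            omega
          obtain ⟨x, hx, y, hy, hxy, hn⟩ := hK S h7
          exact hn (hall x hx y hy hxy)
        obtain ⟨v, hv, x, hx, y, hy, hxy, hn, hvx, hvy, hc⟩ := lovasz G S hreg hcon hcut hpair
        exact brooks_step hH hdeg hv hx hy hxy hn hvx hvy (hreg v hv) hc
      · push Not at hcut
        obtain ⟨c, hc, hnc⟩ := hcut
        unfold Con at hnc
        push Not at hnc
        obtain ⟨L, hL, hLne, hLS⟩ := hnc
        refine glue_one hH hc hL (ih _ ?_) (ih _ ?_)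
        · rw [Finset.ssubset_iff_subset_ne]
          refine ⟨?_, ?_⟩
          · intro z hz
            rw [Finset.mem_insert] at hz
            rcases hz with rfl | hz
            · exact hc
            · exact Finset.mem_of_mem_erase (hL.1 hz)
          · intro h
            apply hLS
            refine Finset.Subset.antisymm hL.1 ?_
            intro z hz
            rw [Finset.mem_erase] at hz
            have : z ∈ insert c L := by rw [h]; exact hz.2
            rw [Finset.mem_insert] at this
            rcases this with h1 | h1
            · exact absurd h1 hz.1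
            · exact h1
        · obtain ⟨z, hz⟩ := hLne
          refine Finset.sdiff_ssubset ?_ ⟨z, hz⟩
          exact hL.1.trans (Finset.erase_subset _ _)
    · unfold Con at hcon
      push Not at hcon
      obtain ⟨L, hL, hLne, hLS⟩ := hcon
      refine glue_zero hH hL (ih L ?_) (ih _ ?_)
      · rw [Finset.ssubset_iff_subset_ne]
        exact ⟨hL.1, hLS⟩
      · exact Finset.sdiff_ssubset hL.1 hLne

end Pool.Agent.MP_dc7d7b.TF
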