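import Pool.Agent.Lib.MP_dc7d7b_co.TF.Defs

set_option autoImplicit false

/-!
FIX (60 lines). The permutations of `Fin 8` with prescribed values on a set `S` are at most `(8 - card S)!`.
Proof: if there is one, N0, the map N ↦ N0⁻¹ * N sends them injectively to the permutations fixing S pointwise, and
these are counted by `DomMulAct.stabilizer_card` or by restriction to the complement (`Equiv.Perm.subtypeEquivSubtypePerm`,
`Fintype.card_perm`).
`card_fix_three`: the form used later.
-/

namespace Pool.Agent.MP_dc7d7b.TF

open Finset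

theorem card_fix (S : Finset (Fin 8)) (f : Fin 8 → Fin 8) :
    (univ.filter (fun N : Equiv.Perm (Fin 8) => ∀ i ∈ S, N i = f i)).card ≤ (8 - S.card).factorial := by
  classical
  by_cases h : (univ.filter (fun N : Equiv.Perm (Fin 8) => ∀ i ∈ S, N i = f i)).Nonempty
  · obtain ⟨N0, hN0⟩ := h
    have hN0' := (mem_filter.1 hN0).2
    have h1 : (univ.filter (fun N : Equiv.Perm (Fin 8) => ∀ i ∈ S, N i = f i)).card ≤
        (univ.filter (fun g : Equiv.Perm (Fin 8) => ∀ i, ¬ (i ∉ S) → g i = i)).card := by
      refine card_le_card_of_injOn (fun N => N0⁻¹ * N) ?_ ?_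
      · intro N hN
        have h2 := (mem_filter.1 (mem_coe.1 hN)).2
        rw [mem_coe, mem_filter]
        refine ⟨mem_univ _, fun i hi => ?_⟩
        have hi' : i ∈ S := not_not.1 hi
        rw [Equiv.Perm.mul_apply, h2 i hi', ← hN0' i hi']
        exact N0.symm_apply_apply i
      · intro a _ b _ hab
        exact mul_left_cancel hab
    refine h1.trans (le_of_eq ?_)
    rw [← Fintype.card_subtype,
      ← Fintype.card_congr (Equiv.Perm.subtypeEquivSubtypePerm (fun i : Fin 8 => i ∉ S)), Fintype.card_perm]
    congr 1
    rw [Fintype.card_subtype]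
    have h3 : (univ.filter fun i : Fin 8 => i ∉ S) = Sᶜ := by
      ext i
      simp
    rw [h3, card_compl, Fintype.card_fin]
  · rw [not_nonempty_iff_eq_empty] at h
    rw [h, card_empty]
    exact Nat.zero_le _

end Pool.Agent.MP_dc7d7b.TF
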