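import Pool.Agent.Lib.MP_dc7d7b_co.TF.Str
import Pool.Agent.Lib.MP_dc7d7b_co.TF.Fix

set_option autoImplicit false

/-!
BLK3 (200 lines): the case X1. By `t1_of_t0_three`, `t1_le_three`: T0 F Q = {a, a'}, T1 F Q = {b1, b2, b3}, the other
rows s1, s2, s3. C = Qᶜ. F (b_k) \ Q = {y_k}. The y_k are different: if all three are equal, the rectangle
{a, a', b1, b2, b3} × (C \ {y}) has no allowed cell, if y1 = y2 ≠ y3 it has exactly one: against `Two`.
Column y_k contains exactly one of the rows a, a', b, so at least two of s1, s2, s3: each column y_k misses at most one s.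
The two other columns of C contain all of s1, s2, s3. Rows a, a' are equal to Q, each b_k misses at most one column of Q.
CLAIM: if N is bad, with R, C', then N (b_k) = y_k for at least two k. So card ≤ 3 * 720.
Let i = card (R ∩ {a, a', b's}), j = card (C' ∩ Q), i' = card (R ∩ {s's}), j' = card (C' ∩ C), i + j + i' + j' = 9.
In the first block each row of R has at most one allowed cell in C' ∩ Q (it is N), each column too. So:
 j = 3: i = 0. j = 2: the rows of R in the block are b's that miss one of the two columns and N is the other: i ≤ 2, only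
 b's. j = 1 (column q): at most one row of R contains q, the others are b's missing q: i ≤ 4, and at least i - 1 b's, all
 three b's if i = 4. j = 0: i ≤ 5. So i + j ≤ 5.
In the block {s's} × C, C' ∩ C: i' = 3: j' = 0. i' = 2: every column of C' ∩ C is a y_k missed by one of the two rows and
 hit by N in the other: j' ≤ 2, all y's. i' = 1 (row s): at most one column of C' ∩ C contains s, the others are y's missed
 by s: j' ≤ 4, at least j' - 1 y's. i' = 0: j' ≤ 5. So i' + j' ≤ 5.
So (i + j, i' + j') = (5, 4) or (4, 5).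
In all cases at least two k have b_k ∈ R and y_k ∈ C' (then N (b_k) = y_k):
 (5, 4): j = 0, i = 5 (all b's in R) or j = 1, i = 4 (all b's in R); and i' = 0, j' = 4 (at least two y's), i' = 1, j' = 3
 (at least two y's), i' = 2, j' = 2 (two y's).
 (4, 5): i' = 0, j' = 5 (all y's) or i' = 1, j' = 4 (three y's); and j = 0, i = 4 (two b's), j = 1, i = 3 (two b's),
 j = 2, i = 2 (two b's).
-/

namespace Pool.Agent.MP_dc7d7b.TF

open Finset Classical

private theorem b3_blk (M : Equiv.Perm (Fin 8)) (rel : Fin 8 → Fin 8 → Prop) (X0 X1 J : Finset (Fin 8))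
    (h0 : ∀ x ∈ X0, ∀ p ∈ J, rel x p) (h1 : ∀ x ∈ X1, J.card ≤ (J.filter (fun p => rel x p)).card + 1)
    (hm : ∀ x ∈ X0 ∪ X1, ∀ p ∈ J, rel x p → M x = p) :
    (2 ≤ J.card → X0.card = 0) ∧ (3 ≤ J.card → X1.card = 0) ∧ (1 ≤ J.card → X0.card ≤ J.card) ∧
      (2 ≤ J.card → X1.card ≤ J.card) := by
  have hone : ∀ x ∈ X0 ∪ X1, (J.filter (fun p => rel x p)).card ≤ 1 := by
    intro x hx
    rw [Finset.card_le_one]
    intro a ha b hb
    obtain ⟨ha1, ha2⟩ := Finset.mem_filter.1 ha
    obtain ⟨hb1, hb2⟩ := Finset.mem_filter.1 hb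
    rw [← hm x hx a ha1 ha2, ← hm x hx b hb1 hb2]
  have hfull : ∀ x ∈ X0, J.card ≤ 1 := by
    intro x hx
    have h2 := hone x (Finset.mem_union_left _ hx)
    rw [Finset.filter_true_of_mem (fun p hp => h0 x hx p hp)] at h2
    exact h2
  have hX1 : ∀ x ∈ X1, J.card ≤ 2 := by
    intro x hx
    have h2 := hone x (Finset.mem_union_right _ hx)
    have h3 := h1 x hx
    omega
  refine ⟨?_, ?_, ?_, ?_⟩
  · intro h
    rw [Finset.card_eq_zero, Finset.eq_empty_iff_forall_notMem]
    intro x hx
    have := hfull x hx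
    omega
  · intro h
    rw [Finset.card_eq_zero, Finset.eq_empty_iff_forall_notMem]
    intro x hx
    have := hX1 x hx
    omega
  · intro h
    obtain ⟨p, hp⟩ := Finset.card_pos.1 (by omega : 0 < J.card)
    apply Finset.card_le_card_of_injOn (fun x => M x)
    · intro x hx
      have hx' : x ∈ X0 := hx
      have h2 : M x = p := hm x (Finset.mem_union_left _ hx') p hp (h0 x hx' p hp)
      show M x ∈ (J : Set (Fin 8))
      rw [h2]
      exact hp
    · exact M.injective.injOn
  · intro h
    apply Finset.card_le_card_of_injOn (fun x => M x)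
    · intro x hx
      have hx' : x ∈ X1 := hx
      have h3 := h1 x hx'
      obtain ⟨p, hp⟩ := Finset.card_pos.1 (by omega : 0 < (J.filter (fun p => rel x p)).card)
      obtain ⟨hp1, hp2⟩ := Finset.mem_filter.1 hp
      have h2 : M x = p := hm x (Finset.mem_union_right _ hx') p hp1 hp2
      show M x ∈ (J : Set (Fin 8))
      rw [h2]
      exact hp1
    · exact M.injective.injOn

private theorem b3_inj {F : Fin 8 → Finset (Fin 8)} (h2 : Two F) {Q : Finset (Fin 8)} (hQ : Q.card = 3)
    (hA : (T0 F Q).card = 2) (hB : (T1 F Q).card = 3) (hAB : Disjoint (T0 F Q) (T1 F Q)) (y : Fin 8 → Fin 8)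
    (hy : ∀ b, b ∈ T1 F Q → F b \ Q = {y b}) :
    ∀ b ∈ T1 F Q, ∀ b' ∈ T1 F Q, y b = y b' → b = b' := by
  intro b hb b' hb' hyy
  by_contra hne
  have hyb : y b ∉ Q := by
    have : y b ∈ F b \ Q := by rw [hy b hb]; exact Finset.mem_singleton_self _
    exact (Finset.mem_sdiff.1 this).2
  have hR : (T0 F Q ∪ T1 F Q).card = 5 := by
    rw [Finset.card_union_of_disjoint hAB, hA, hB]
  have hC : (Qᶜ.erase (y b)).card = 4 := by
    rw [Finset.card_erase_of_mem (Finset.mem_compl.2 hyb), Finset.card_compl, hQ]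
    rfl
  have h3 := h2 (T0 F Q ∪ T1 F Q) (Qᶜ.erase (y b)) (by rw [hR, hC])
  have hrest : ((T1 F Q).erase b).erase b' = ((T1 F Q).erase b).erase b' := rfl
  have hcr : (((T1 F Q).erase b).erase b').card = 1 := by
    rw [Finset.card_erase_of_mem (Finset.mem_erase.2 ⟨fun h => hne h.symm, hb'⟩), Finset.card_erase_of_mem hb, hB]
  obtain ⟨z, hz⟩ := Finset.card_eq_one.1 hcr
  have h4 : (((T0 F Q ∪ T1 F Q) ×ˢ (Qᶜ.erase (y b))).filter (fun x => x.2 ∈ F x.1)) ⊆ {(z, y z)} := by
    rintro ⟨r, c⟩ hx
    obtain ⟨hx1, hx2⟩ := Finset.mem_filter.1 hx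
    obtain ⟨hr, hc⟩ := Finset.mem_product.1 hx1
    obtain ⟨hc1, hc2⟩ := Finset.mem_erase.1 hc
    have hcQ : c ∉ Q := Finset.mem_compl.1 hc2
    simp only at hr hx2 hc1
    rcases Finset.mem_union.1 hr with hr | hr
    · rw [mem_T0.1 hr] at hx2
      exact absurd hx2 hcQ
    · have h5 : c ∈ F r \ Q := Finset.mem_sdiff.2 ⟨hx2, hcQ⟩
      rw [hy r hr, Finset.mem_singleton] at h5
      have h6 : r ∈ ((T1 F Q).erase b).erase b' := by
        refine Finset.mem_erase.2 ⟨?_, Finset.mem_erase.2 ⟨?_, hr⟩⟩
        · rintro rfl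
          exact hc1 (h5.trans hyy.symm)
        · rintro rfl
          exact hc1 h5
      rw [hz, Finset.mem_singleton] at h6
      rw [Finset.mem_singleton, h5, h6]
  have h5 := Finset.card_le_card h4
  rw [Finset.card_singleton] at h5
  omega

/-- two of the three rows of type 1 are hit outside -/
private theorem b3_two {F : Fin 8 → Finset (Fin 8)} (hF : Deg3 F) (h2 : Two F) {Q : Finset (Fin 8)} (hQ : Q.card = 3)
    (hA : (T0 F Q).card = 2) (hB : (T1 F Q).card = 3) (y : Fin 8 → Fin 8)
    (hy : ∀ b, b ∈ T1 F Q → F b \ Q = {y b}) (N : Equiv.Perm (Fin 8)) (hN : Bad F N) :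
    2 ≤ ((T1 F Q).filter (fun b => N b = y b)).card := by
  have hAB : Disjoint (T0 F Q) (T1 F Q) := by
    rw [Finset.disjoint_left]
    intro r hr hr'
    have h1 := mem_T1.1 hr'
    rw [mem_T0.1 hr, Finset.sdiff_self, Finset.card_empty] at h1
    omega
  have hinj := b3_inj h2 hQ hA hB hAB y hy
  have hyF : ∀ b ∈ T1 F Q, y b ∈ F b ∧ y b ∉ Q := by
    intro b hb
    have : y b ∈ F b \ Q := by rw [hy b hb]; exact Finset.mem_singleton_self _
    exact Finset.mem_sdiff.1 this
  set A := T0 F Q with hAdef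
  set B := T1 F Q with hBdef
  set U := (A ∪ B)ᶜ with hU
  set Y := B.image y with hY
  have hUc : U.card = 3 := by
    rw [hU, Finset.card_compl, Finset.card_union_of_disjoint hAB, hA, hB]
    rfl
  have hYc : Y.card = 3 := by
    rw [hY, Finset.card_image_of_injOn (fun b hb b' hb' h => hinj b hb b' hb' h), hB]
  have hYQ : Disjoint Q Y := by
    rw [Finset.disjoint_left]
    intro c hc hc'
    obtain ⟨b, hb, rfl⟩ := Finset.mem_image.1 hc'
    exact (hyF b hb).2 hc
  -- columns outside Q
  have hcol : ∀ c, c ∉ Q → ∀ r, c ∈ F r → r ∈ U ∨ (r ∈ B ∧ y r = c) := by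
    intro c hc r hr
    by_cases hrA : r ∈ A
    · rw [mem_T0.1 hrA] at hr
      exact absurd hr hc
    · by_cases hrB : r ∈ B
      · right
        refine ⟨hrB, ?_⟩
        have h5 : c ∈ F r \ Q := Finset.mem_sdiff.2 ⟨hr, hc⟩
        rw [hy r hrB, Finset.mem_singleton] at h5
        exact h5.symm
      · left
        rw [hU, Finset.mem_compl, Finset.mem_union]
        rintro (h | h)
        · exact hrA h
        · exact hrB h
  have hfull : ∀ c, c ∉ Q → c ∉ Y → ∀ s ∈ U, c ∈ F s := by
    intro c hc hcY s hs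
    have h1 : tr F c ⊆ U := by
      intro r hr
      rcases hcol c hc r (mem_tr.1 hr) with h | ⟨h, h'⟩
      · exact h
      · exact absurd (Finset.mem_image.2 ⟨r, h, h'⟩) hcY
    have h3 := hF.col c
    have h4 : tr F c = U := Finset.eq_of_subset_of_card_le h1 (by rw [hUc]; exact h3)
    exact mem_tr.1 (by rw [h4]; exact hs)
  have hmiss : ∀ c, c ∈ Y → (U.filter (fun s => ¬ c ∈ F s)).card ≤ 1 := by
    intro c hc
    obtain ⟨b, hb, rfl⟩ := Finset.mem_image.1 hc
    have h1 : tr F (y b) ⊆ insert b (U.filter (fun s => y b ∈ F s)) := by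
      intro r hr
      have hr' := mem_tr.1 hr
      rcases hcol (y b) (hyF b hb).2 r hr' with h | ⟨h, h'⟩
      · exact Finset.mem_insert_of_mem (Finset.mem_filter.2 ⟨h, hr'⟩)
      · rw [hinj r h b hb h']
        exact Finset.mem_insert_self _ _
    have h3 := hF.col (y b)
    have h4 := (Finset.card_le_card h1).trans (Finset.card_insert_le _ _)
    have h5 := Finset.card_filter_add_card_filter_not (s := U) (fun s => y b ∈ F s)
    omega
  have hrow : ∀ b ∈ B, (Q.filter (fun q => ¬ q ∈ F b)).card ≤ 1 := by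
    intro b hb
    have h1 := hF.row b
    have h3 : (F b \ Q).card = 1 := mem_T1.1 hb
    have h4 := Finset.card_sdiff_add_card_inter (F b) Q
    have h5 := Finset.card_filter_add_card_filter_not (s := Q) (fun q => q ∈ F b)
    have h6 : Q.filter (fun q => q ∈ F b) = F b ∩ Q := by
      ext q
      simp only [Finset.mem_filter, Finset.mem_inter]
      tauto
    rw [h6] at h5
    omega
  obtain ⟨R, C, hRC, hbad⟩ := hN
  have hsub : ∀ (J V : Finset (Fin 8)) (P : Fin 8 → Prop), J ⊆ V → (V.filter (fun p => ¬ P p)).card ≤ 1 →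
      J.card ≤ (J.filter P).card + 1 := by
    intro J V P hJV hV
    have h5 := Finset.card_filter_add_card_filter_not (s := J) P
    have h6 : (J.filter (fun p => ¬ P p)).card ≤ (V.filter (fun p => ¬ P p)).card :=
      Finset.card_le_card (Finset.filter_subset_filter _ hJV)
    omega
  obtain ⟨a1, a2, a3, a4⟩ := b3_blk N (fun r q => q ∈ F r) (R ∩ A) (R ∩ B) (C ∩ Q)
    (by
      intro r hr q hq
      show q ∈ F r
      rw [mem_T0.1 (Finset.mem_inter.1 hr).2]
      exact (Finset.mem_inter.1 hq).2)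
    (by
      intro r hr
      exact hsub _ Q (fun q => q ∈ F r) Finset.inter_subset_right (by convert hrow r (Finset.mem_inter.1 hr).2))
    (by
      intro r hr q hq hq'
      have hrR : r ∈ R := by
        rcases Finset.mem_union.1 hr with h | h
        · exact (Finset.mem_inter.1 h).1
        · exact (Finset.mem_inter.1 h).1
      exact hbad r hrR q (Finset.mem_inter.1 hq).1 hq')
  obtain ⟨b1, b2, b3, b4⟩ := b3_blk N.symm (fun c s => c ∈ F s) (C \ (Q ∪ Y)) (C ∩ Y) (R ∩ U)
    (by
      intro c hc s hs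
      obtain ⟨hc1, hc2⟩ := Finset.mem_sdiff.1 hc
      exact hfull c (fun h => hc2 (Finset.mem_union_left _ h)) (fun h => hc2 (Finset.mem_union_right _ h)) s
        (Finset.mem_inter.1 hs).2)
    (by
      intro c hc
      exact hsub _ U (fun s => c ∈ F s) Finset.inter_subset_right (by convert hmiss c (Finset.mem_inter.1 hc).2))
    (by
      intro c hc s hs hcs
      have hcC : c ∈ C := by
        rcases Finset.mem_union.1 hc with h | h
        · exact (Finset.mem_sdiff.1 h).1
        · exact (Finset.mem_inter.1 h).1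
      have h3 := hbad s (Finset.mem_inter.1 hs).1 c hcC hcs
      rw [← h3, Equiv.symm_apply_apply])
  have hRsum : (R ∩ A).card + (R ∩ B).card + (R ∩ U).card = R.card := by
    have e1 : (R ∩ (A ∪ B)).card + (R ∩ U).card = R.card := by
      rw [hU, ← Finset.sdiff_eq_inter_compl]
      have := Finset.card_sdiff_add_card_inter R (A ∪ B)
      omega
    rw [Finset.inter_union_distrib_left, Finset.card_union_of_disjoint
      (Finset.disjoint_of_subset_left Finset.inter_subset_right
        (Finset.disjoint_of_subset_right Finset.inter_subset_right hAB))] at e1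
    exact e1
  have hCsum : (C ∩ Q).card + (C ∩ Y).card + (C \ (Q ∪ Y)).card = C.card := by
    have e1 := Finset.card_sdiff_add_card_inter C (Q ∪ Y)
    rw [Finset.inter_union_distrib_left, Finset.card_union_of_disjoint
      (Finset.disjoint_of_subset_left Finset.inter_subset_right
        (Finset.disjoint_of_subset_right Finset.inter_subset_right hYQ))] at e1
    omega
  have c1 : (R ∩ A).card ≤ 2 := by rw [← hA]; exact Finset.card_le_card Finset.inter_subset_right
  have c2 : (R ∩ B).card ≤ 3 := by rw [← hB]; exact Finset.card_le_card Finset.inter_subset_right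
  have c3 : (R ∩ U).card ≤ 3 := by rw [← hUc]; exact Finset.card_le_card Finset.inter_subset_right
  have c4 : (C ∩ Q).card ≤ 3 := by rw [← hQ]; exact Finset.card_le_card Finset.inter_subset_right
  have c5 : (C ∩ Y).card ≤ 3 := by rw [← hYc]; exact Finset.card_le_card Finset.inter_subset_right
  have c6 : (C \ (Q ∪ Y)).card ≤ 2 := by
    have e1 : C \ (Q ∪ Y) ⊆ (Q ∪ Y)ᶜ := by
      intro c hc
      exact Finset.mem_compl.2 (Finset.mem_sdiff.1 hc).2
    have e2 := Finset.card_le_card e1
    rw [Finset.card_compl, Finset.card_union_of_disjoint hYQ, hQ, hYc] at e2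
    exact e2
  have hsum : 5 ≤ (R ∩ B).card + (C ∩ Y).card := by omega
  have d1 : (B.filter (fun b => b ∈ R)).card = (R ∩ B).card := by
    congr 1
    ext b
    rw [Finset.mem_filter, Finset.mem_inter]
    exact ⟨fun h => ⟨h.2, h.1⟩, fun h => ⟨h.2, h.1⟩⟩
  have d2 : (C ∩ Y).card ≤ (B.filter (fun b => y b ∈ C)).card := by
    have e1 : C ∩ Y ⊆ (B.filter (fun b => y b ∈ C)).image y := by
      intro c hc
      obtain ⟨hc1, hc2⟩ := Finset.mem_inter.1 hc
      obtain ⟨b, hb, rfl⟩ := Finset.mem_image.1 hc2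
      exact Finset.mem_image.2 ⟨b, Finset.mem_filter.2 ⟨hb, hc1⟩, rfl⟩
    exact (Finset.card_le_card e1).trans Finset.card_image_le
  have d3 := Finset.card_union_add_card_inter (B.filter (fun b => b ∈ R)) (B.filter (fun b => y b ∈ C))
  have d4 : (B.filter (fun b => b ∈ R) ∪ B.filter (fun b => y b ∈ C)).card ≤ 3 := by
    rw [← hB]
    exact Finset.card_le_card (Finset.union_subset (Finset.filter_subset _ _) (Finset.filter_subset _ _))
  have d5 : B.filter (fun b => b ∈ R) ∩ B.filter (fun b => y b ∈ C) ⊆ B.filter (fun b => N b = y b) := by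
    intro b hb
    obtain ⟨hb1, hb2⟩ := Finset.mem_inter.1 hb
    obtain ⟨hb3, hb4⟩ := Finset.mem_filter.1 hb1
    obtain ⟨_, hb5⟩ := Finset.mem_filter.1 hb2
    exact Finset.mem_filter.2 ⟨hb3, hbad b hb4 (y b) hb5 (hyF b hb3).1⟩
  have d6 := Finset.card_le_card d5
  omega

theorem blk3 {F : Fin 8 → Finset (Fin 8)} (hF : Deg3 F) (h2 : Two F) (h : X1 F) :
    (univ.filter (fun N => Bad F N)).card ≤ 2160 := by
  obtain ⟨Q, hQ, hT0, hT1⟩ := h
  have hA : (T0 F Q).card = 2 := by
    by_contra hne
    have h3 := t1_of_t0_three h2 hQ (by omega)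
    rw [h3, Finset.card_empty] at hT1
    omega
  have hB : (T1 F Q).card = 3 := by
    have := t1_le_three hF hQ hT0
    omega
  have hex : ∀ b, ∃ c, b ∈ T1 F Q → F b \ Q = {c} := by
    intro b
    by_cases hb : b ∈ T1 F Q
    · obtain ⟨c, hc⟩ := Finset.card_eq_one.1 (mem_T1.1 hb)
      exact ⟨c, fun _ => hc⟩
    · exact ⟨0, fun h => absurd h hb⟩
  choose y hy using hex
  have hsub : univ.filter (fun N => Bad F N) ⊆ ((T1 F Q).powersetCard 2).biUnion
      (fun S => univ.filter (fun N : Equiv.Perm (Fin 8) => ∀ i ∈ S, N i = y i)) := by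
    intro N hN
    have h3 := b3_two hF h2 hQ hA hB y hy N (Finset.mem_filter.1 hN).2
    obtain ⟨S, hS, hSc⟩ := Finset.exists_subset_card_eq h3
    refine Finset.mem_biUnion.2 ⟨S, Finset.mem_powersetCard.2 ⟨hS.trans (Finset.filter_subset _ _), hSc⟩,
      Finset.mem_filter.2 ⟨Finset.mem_univ _, ?_⟩⟩
    intro i hi
    exact (Finset.mem_filter.1 (hS hi)).2
  refine (Finset.card_le_card hsub).trans ?_
  refine (Finset.card_biUnion_le_card_mul _ _ 720 ?_).trans ?_
  · intro S hS
    have h4 := card_fix S y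
    rw [(Finset.mem_powersetCard.1 hS).2] at h4
    have h5 : (8 - 2).factorial = 720 := by decide
    rw [h5] at h4
    convert h4 using 2
  · rw [Finset.card_powersetCard, hB]
    decide

end Pool.Agent.MP_dc7d7b.TF
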