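import Pool.Agent.Lib.MP_dc7d7b_co.TF.Str
import Pool.Agent.Lib.MP_dc7d7b_co.TF.Fix

set_option autoImplicit false

/-!
BLK4 (250 lines): one row a equal to Q and exactly four rows b1..b4 of type 1 with different outer cells y1..y4.
C = Qᶜ = {y1, y2, y3, y4, e}, the other rows s1, s2, s3 have card (F s \ Q) ≥ 2 (not in T0, T1). Column y_k contains b_k
and no other of a, b's: it misses at most one s. Column e contains no a, b: it contains all three s. Each b_k misses at
most one column of Q. Each s misses at most three y's.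
CLAIM: if N is bad, with R, C', then one of
 (1) N b_k = y_k for three different k;
 (2) N b_k = y_k, N b_l = y_l, k ≠ l, N a = x ∈ Q, x ∉ F b_k, x ∉ F b_l;
 (3) N b_k = y_k, N b_l = y_l, k ≠ l, N s = e, y_k ∉ F s, y_l ∉ F s;
 (4) N b_k = y_k, N a = x ∈ Q, x ∉ F b_k, N s = e, y_k ∉ F s.
COUNT: (1) 4 * 120, (2) for each of the 6 pairs at most one x (missed by b_k), 6 * 120, (3) for each pair at most one s
(missing y_k), 6 * 120, (4) for each k at most one x and one s: 4 * 120. Total 2400.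
PROOF. i = card (R ∩ {a, b's}), j = card (C' ∩ Q), i' = card (R ∩ {s's}), j' = card (C' ∩ C), i + j + i' + j' = 9.
D = {k | b_k ∈ R, y_k ∈ C'}; N b_k = y_k for k in D.
 First block: j = 3: i = 0. j = 2: only b's, i ≤ 2, and their N is in Q, so their y_k ∉ C'. j = 1 (column q): at most one row
 of R ∩ {a, b's} contains q (its N is q), the others are b's that miss q; i ≤ 5. j = 0: i ≤ 5.
 Second block: i' = 3: j' = 0. i' = 2: each column of C' ∩ C is a y_k, missed by one of the two s and equal to N of the other,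
 so b_k ∉ R; j' ≤ 2. i' = 1 (row s): at most one column of C' ∩ C is in F s (it is N s), the others are y's missed by s;
 if e ∈ C' then N s = e and all others are missed by s (at most three): j' ≤ 4. i' = 0: j' ≤ 5.
 i' = 3: i + j = 6, so j = 1, i = 5, R is everything and the column q has one cell: against Deg3.
 i' = 2: j' = 2: i + j = 5 and two b's are not in R: impossible. j' = 1: i + j = 6, i = 5, but a b is not in R.
 i' = 0: j = 0: (i, j') = (4, 5), (5, 4): card D ≥ 3: (1). j = 1: (i, j') = (5, 3), (4, 4), (3, 5): if a ∈ R then N a = q, the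
 i - 1 b's miss q, card D ≥ (i - 1) + (j' - 1) - 4 = 2: (2). If a ∉ R: card D ≥ i + (j' - 1) - 4 = 3: (1). j = 2: i = 2, j' = 5:
 impossible. j = 3: impossible.
 i' = 1, e ∈ C' (so N s = e, the other j' - 1 columns are y's missed by s): j = 0: (i, j') = (5, 3), (4, 4): card D ≥
 (i - 1) + (j' - 1) - 4 = 2: (3). j = 1, i + j' = 7: a ∈ R: card D ≥ (i - 1) + (j' - 1) - 4 = 1, N a = q missed by b_k: (4).
 a ∉ R: card D ≥ i + (j' - 1) - 4 = 2: (3). j = 2: i = 2, j' = 4: two b's in R with y_k ∉ C', but only one y is not in C'.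
 j = 3: j' = 5 impossible.
 i' = 1, e ∉ C' (all j' columns are y's): j = 0, i + j' = 8: card D ≥ (i - 1) + j' - 4 = 3: (1). j = 1, i + j' = 7: a ∈ R:
 card D ≥ (i - 1) + j' - 4 = 2, N a = q: (2). a ∉ R: card D ≥ i + j' - 4 = 3: (1). j = 2: j' = 4, i = 2 impossible.
-/

namespace Pool.Agent.MP_dc7d7b.TF

open Finset Classical

private theorem blk4_main {F : Fin 8 → Finset (Fin 8)} {Q T S : Finset (Fin 8)} {a e : Fin 8} {f : Fin 8 → Fin 8}
    (hdeg : ∀ c, 3 ≤ (tr F c).card) (hQ : Q.card = 3) (hT : T.card = 4) (hS : S.card = 3)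
    (haT : a ∉ T) (haS : a ∉ S) (hTS : Disjoint T S) (hall : ∀ r, r = a ∨ r ∈ T ∨ r ∈ S) (hFa : F a = Q)
    (hf1 : ∀ b ∈ T, f b ∈ F b) (hf2 : ∀ b ∈ T, f b ∉ Q) (hfi : ∀ b ∈ T, ∀ b' ∈ T, f b = f b' → b = b')
    (hfe : ∀ b ∈ T, f b ≠ e) (hcol : ∀ c, c ∈ Q ∨ c = e ∨ ∃ b ∈ T, f b = c)
    (hmb : ∀ b ∈ T, (Q \ F b).card ≤ 1) (hmy : ∀ b ∈ T, (S.filter (fun s => f b ∉ F s)).card ≤ 1)
    (hes : ∀ s ∈ S, e ∈ F s) (hsy : ∀ s ∈ S, ∃ b ∈ T, f b ∈ F s)
    {N : Equiv.Perm (Fin 8)} (hN : Bad F N) :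
    (∃ B ⊆ T, B.card = 3 ∧ ∀ b ∈ B, N b = f b) ∨
    (∃ B ⊆ T, B.card = 2 ∧ (∀ b ∈ B, N b = f b) ∧ N a ∈ Q ∧ ∀ b ∈ B, N a ∉ F b) ∨
    (∃ B ⊆ T, B.card = 2 ∧ (∀ b ∈ B, N b = f b) ∧ ∃ s ∈ S, N s = e ∧ ∀ b ∈ B, f b ∉ F s) ∨
    (∃ b ∈ T, N b = f b ∧ N a ∈ Q ∧ N a ∉ F b ∧ ∃ s ∈ S, N s = e ∧ f b ∉ F s) := by
  obtain ⟨R, C, hRC, hb⟩ := hN
  -- the sizes
  have hR : R.card = (R ∩ {a}).card + (R ∩ T).card + (R ∩ S).card := by
    have e1 : R = (R ∩ {a}) ∪ (R ∩ T) ∪ (R ∩ S) := by
      ext r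
      simp only [mem_union, mem_inter, mem_singleton]
      constructor
      · intro h
        rcases hall r with h1 | h1 | h1
        · exact Or.inl (Or.inl ⟨h, h1⟩)
        · exact Or.inl (Or.inr ⟨h, h1⟩)
        · exact Or.inr ⟨h, h1⟩
      · rintro ((h | h) | h) <;> exact h.1
    have d1 : Disjoint (R ∩ {a}) (R ∩ T) := by
      rw [Finset.disjoint_left]
      intro r h1 h2
      rw [mem_inter, mem_singleton] at h1
      rw [mem_inter] at h2
      exact haT (h1.2 ▸ h2.2)
    have d2 : Disjoint ((R ∩ {a}) ∪ (R ∩ T)) (R ∩ S) := by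
      rw [Finset.disjoint_left]
      intro r h1 h2
      rw [mem_union, mem_inter, mem_inter, mem_singleton] at h1
      rw [mem_inter] at h2
      rcases h1 with h1 | h1
      · exact haS (h1.2 ▸ h2.2)
      · exact Finset.disjoint_left.1 hTS h1.2 h2.2
    rw [← card_union_of_disjoint d1, ← card_union_of_disjoint d2, ← e1]
  have hC : C.card ≤ (C ∩ Q).card + (T.filter (fun b => f b ∈ C)).card + (C ∩ {e}).card := by
    have e1 : C ⊆ (C ∩ Q) ∪ (T.filter (fun b => f b ∈ C)).image f ∪ (C ∩ {e}) := by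
      intro c hc
      simp only [mem_union, mem_inter, mem_singleton, mem_image, mem_filter]
      rcases hcol c with h1 | h1 | ⟨b, hb1, h1⟩
      · exact Or.inl (Or.inl ⟨hc, h1⟩)
      · exact Or.inr ⟨hc, h1⟩
      · exact Or.inl (Or.inr ⟨b, ⟨hb1, by rw [h1]; exact hc⟩, h1⟩)
    have e2 := card_le_card e1
    have e3 := card_union_le ((C ∩ Q) ∪ (T.filter (fun b => f b ∈ C)).image f) (C ∩ {e})
    have e4 := card_union_le (C ∩ Q) ((T.filter (fun b => f b ∈ C)).image f)
    have e5 : ((T.filter (fun b => f b ∈ C)).image f).card ≤ (T.filter (fun b => f b ∈ C)).card := card_image_le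
    omega
  have bα : (R ∩ {a}).card ≤ 1 := (card_le_card inter_subset_right).trans (by rw [card_singleton])
  have bβ : (R ∩ T).card ≤ 4 := (card_le_card inter_subset_right).trans hT.le
  have bσ : (R ∩ S).card ≤ 3 := (card_le_card inter_subset_right).trans hS.le
  have bj : (C ∩ Q).card ≤ 3 := (card_le_card inter_subset_right).trans hQ.le
  have bη : (T.filter (fun b => f b ∈ C)).card ≤ 4 := (card_le_card (filter_subset _ _)).trans hT.le
  have bε : (C ∩ {e}).card ≤ 1 := (card_le_card inter_subset_right).trans (by rw [card_singleton])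
  have hD : (R ∩ T).card + (T.filter (fun b => f b ∈ C)).card ≤ 4 + ((R ∩ T).filter (fun b => f b ∈ C)).card := by
    have e1 := card_union_add_card_inter (R ∩ T) (T.filter (fun b => f b ∈ C))
    have e2 : ((R ∩ T) ∪ (T.filter (fun b => f b ∈ C))).card ≤ 4 :=
      (card_le_card (union_subset inter_subset_right (filter_subset _ _))).trans hT.le
    have e3 : (R ∩ T) ∩ (T.filter (fun b => f b ∈ C)) = (R ∩ T).filter (fun b => f b ∈ C) := by
      ext b
      simp only [mem_inter, mem_filter]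
      tauto
    rw [e3] at e1
    omega
  have hDN : ∀ b ∈ (R ∩ T).filter (fun b => f b ∈ C), b ∈ T ∧ b ∈ R ∧ f b ∈ C ∧ N b = f b := by
    intro b h
    rw [mem_filter, mem_inter] at h
    exact ⟨h.1.2, h.1.1, h.2, hb b h.1.1 _ h.2 (hf1 b h.1.2)⟩
  -- two columns of Q
  have hJa : 2 ≤ (C ∩ Q).card → (R ∩ {a}).card = 0 := by
    intro h
    rw [card_eq_zero, Finset.eq_empty_iff_forall_notMem]
    intro r hr
    rw [mem_inter, mem_singleton] at hr
    obtain ⟨q, hq, q', hq', hne⟩ := one_lt_card.1 (lt_of_lt_of_le one_lt_two h)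
    rw [mem_inter] at hq hq'
    have n1 := hb r hr.1 q hq.1 (by rw [hr.2, hFa]; exact hq.2)
    have n2 := hb r hr.1 q' hq'.1 (by rw [hr.2, hFa]; exact hq'.2)
    exact hne (n1.symm.trans n2)
  have hJb : 2 ≤ (C ∩ Q).card → ∀ b ∈ R ∩ T, N b ∈ C ∩ Q := by
    intro h b hb'
    rw [mem_inter] at hb'
    have h1 : ¬ (C ∩ Q) ⊆ Q \ F b := fun hsub => by
      have := card_le_card hsub
      have := hmb b hb'.2
      omega
    rw [Finset.not_subset] at h1
    obtain ⟨q, hq, hq'⟩ := h1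
    have hq2 := hq
    rw [mem_inter] at hq
    have hqF : q ∈ F b := by
      by_contra hc
      exact hq' (mem_sdiff.2 ⟨hq.2, hc⟩)
    rw [hb b hb'.1 q hq.1 hqF]
    exact hq2
  have hJd : 2 ≤ (C ∩ Q).card → ((R ∩ T).filter (fun b => f b ∈ C)).card = 0 := by
    intro h
    rw [card_eq_zero, Finset.eq_empty_iff_forall_notMem]
    intro b hb'
    have h1 := hDN b hb'
    have h2 := hJb h b (mem_inter.2 ⟨h1.2.1, h1.1⟩)
    rw [h1.2.2.2, mem_inter] at h2
    exact hf2 b h1.1 h2.2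
  have hJβ : 2 ≤ (C ∩ Q).card → (R ∩ T).card ≤ (C ∩ Q).card := fun h =>
    card_le_card_of_injOn N (fun b hb' => hJb h b hb') N.injective.injOn
  have hJ3 : (C ∩ Q).card = 3 → (R ∩ T).card = 0 := by
    intro h
    rw [card_eq_zero, Finset.eq_empty_iff_forall_notMem]
    intro b hb'
    rw [mem_inter] at hb'
    have h1 : 1 < ((C ∩ Q) ∩ F b).card := by
      have h2 := card_inter_add_card_sdiff (C ∩ Q) (F b)
      have h3 : ((C ∩ Q) \ F b).card ≤ 1 := (card_le_card (sdiff_subset_sdiff inter_subset_right (subset_refl _))).trans (hmb b hb'.2)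
      omega
    obtain ⟨q, hq, q', hq', hne⟩ := one_lt_card.1 h1
    rw [mem_inter, mem_inter] at hq hq'
    exact hne ((hb b hb'.1 q hq.1.1 hq.2).symm.trans (hb b hb'.1 q' hq'.1.1 hq'.2))
  -- two rows of S
  have hSe : 2 ≤ (R ∩ S).card → (C ∩ {e}).card = 0 := by
    intro h
    rw [card_eq_zero, Finset.eq_empty_iff_forall_notMem]
    intro c hc
    rw [mem_inter, mem_singleton] at hc
    obtain ⟨s, hs, s', hs', hne⟩ := one_lt_card.1 (lt_of_lt_of_le one_lt_two h)
    rw [mem_inter] at hs hs'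
    have n1 := hb s hs.1 c hc.1 (by rw [hc.2]; exact hes s hs.2)
    have n2 := hb s' hs'.1 c hc.1 (by rw [hc.2]; exact hes s' hs'.2)
    exact hne (N.injective (n1.trans n2.symm))
  have hSb : 2 ≤ (R ∩ S).card → ∀ b ∈ T.filter (fun b => f b ∈ C), ∃ s ∈ R ∩ S, N s = f b := by
    intro h b hb'
    rw [mem_filter] at hb'
    have h1 : ¬ (R ∩ S) ⊆ S.filter (fun s => f b ∉ F s) := fun hsub => by
      have := card_le_card hsub
      have := hmy b hb'.1
      omega
    rw [Finset.not_subset] at h1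
    obtain ⟨s, hs, hs'⟩ := h1
    have hs2 := hs
    rw [mem_inter] at hs
    have hsF : f b ∈ F s := by
      by_contra hc
      exact hs' (mem_filter.2 ⟨hs.2, hc⟩)
    exact ⟨s, hs2, hb s hs.1 _ hb'.2 hsF⟩
  have hSd : 2 ≤ (R ∩ S).card → ((R ∩ T).filter (fun b => f b ∈ C)).card = 0 := by
    intro h
    rw [card_eq_zero, Finset.eq_empty_iff_forall_notMem]
    intro b hb'
    have h1 := hDN b hb'
    obtain ⟨s, hs, hs'⟩ := hSb h b (mem_filter.2 ⟨h1.1, h1.2.2.1⟩)
    have h2 : s = b := N.injective (hs'.trans h1.2.2.2.symm)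
    rw [mem_inter, h2] at hs
    exact Finset.disjoint_left.1 hTS h1.1 hs.2
  have hSη : 2 ≤ (R ∩ S).card → (T.filter (fun b => f b ∈ C)).card ≤ (R ∩ S).card := by
    intro h
    refine card_le_card_of_injOn (fun b => N.symm (f b)) (fun b hb' => ?_) (fun b hb' b' hb'' hbb => ?_)
    · obtain ⟨s, hs, hs'⟩ := hSb h b hb'
      show N.symm (f b) ∈ (↑(R ∩ S) : Set (Fin 8))
      rw [← hs', Equiv.symm_apply_apply]
      exact hs
    · have h1 := (mem_filter.1 (mem_coe.1 hb')).1
      have h2 := (mem_filter.1 (mem_coe.1 hb'')).1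
      exact hfi b h1 b' h2 (N.symm.injective hbb)
  have hS3 : (R ∩ S).card = 3 → (T.filter (fun b => f b ∈ C)).card = 0 := by
    intro h
    rw [card_eq_zero, Finset.eq_empty_iff_forall_notMem]
    intro b hb'
    rw [mem_filter] at hb'
    have h1 : 1 < ((R ∩ S).filter (fun s => f b ∈ F s)).card := by
      have h2 := card_filter_add_card_filter_not (s := R ∩ S) (fun s => f b ∈ F s)
      have h3 : ((R ∩ S).filter (fun s => ¬ f b ∈ F s)).card ≤ 1 :=
        (card_le_card (filter_subset_filter _ inter_subset_right)).trans (hmy b hb'.1)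
      omega
    obtain ⟨s, hs, s', hs', hne⟩ := one_lt_card.1 h1
    rw [mem_filter, mem_inter] at hs hs'
    exact hne (N.injective ((hb s hs.1.1 _ hb'.2 hs.2).trans (hb s' hs'.1.1 _ hb'.2 hs'.2).symm))
  -- the column e
  have hE : ∀ s ∈ R ∩ S, (C ∩ {e}).card = 1 → N s = e ∧ ∀ b ∈ T.filter (fun b => f b ∈ C), f b ∉ F s := by
    intro s hs h
    rw [mem_inter] at hs
    have heC : e ∈ C := by
      obtain ⟨x, hx⟩ := card_pos.1 (by omega : 0 < (C ∩ {e}).card)
      rw [mem_inter, mem_singleton] at hx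
      rw [← hx.2]
      exact hx.1
    have h1 := hb s hs.1 e heC (hes s hs.2)
    refine ⟨h1, fun b hb' hc => ?_⟩
    rw [mem_filter] at hb'
    exact hfe b hb'.1 ((hb s hs.1 _ hb'.2 hc).symm.trans h1)
  have hE3 : (C ∩ {e}).card = 1 → (R ∩ S).card = 1 → (T.filter (fun b => f b ∈ C)).card ≤ 3 := by
    intro h1 h2
    obtain ⟨s, hs⟩ := card_pos.1 (by omega : 0 < (R ∩ S).card)
    have h3 := (hE s hs h1).2
    obtain ⟨b0, hb0, hb0'⟩ := hsy s (mem_inter.1 hs).2
    have h4 : T.filter (fun b => f b ∈ C) ⊆ T.erase b0 := by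
      intro b hb'
      refine mem_erase.2 ⟨fun h => ?_, (mem_filter.1 hb').1⟩
      exact h3 b hb' (by rw [h]; exact hb0')
    have h5 := card_le_card h4
    rw [card_erase_of_mem hb0, hT] at h5
    exact h5
  have hfull : 1 ≤ (C ∩ Q).card → R.card ≤ 7 := by
    intro h
    by_contra hc
    have h8 : R.card = 8 := by
      have h9 := card_le_univ R
      rw [Fintype.card_fin] at h9
      omega
    have hRu : R = univ := by
      rw [← card_eq_iff_eq_univ, h8, Fintype.card_fin]
    obtain ⟨q, hq⟩ := card_pos.1 (by omega : 0 < (C ∩ Q).card)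
    rw [mem_inter] at hq
    have h1 : tr F q ⊆ {N.symm q} := by
      intro r hr
      rw [mem_tr] at hr
      rw [mem_singleton, ← hb r (by rw [hRu]; exact mem_univ r) q hq.1 hr, Equiv.symm_apply_apply]
    have h2 := card_le_card h1
    have h3 := hdeg q
    rw [card_singleton] at h2
    omega
  -- at most one column of Q and one row of S
  have hj1 : (C ∩ Q).card ≤ 1 := by
    by_contra hc
    have g1 := hJa (by omega)
    have g2 := hJd (by omega)
    have g3 := hJβ (by omega)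
    by_cases h3 : (C ∩ Q).card = 3
    · have g4 := hJ3 h3
      by_cases s3 : (R ∩ S).card = 3
      · have g5 := hS3 s3
        omega
      · by_cases s2 : (R ∩ S).card = 2
        · have g5 := hSη (by omega)
          have g6 := hSe (by omega)
          omega
        · by_cases s1 : (R ∩ S).card = 1
          · by_cases ee : (C ∩ {e}).card = 1
            · have g5 := hE3 ee s1
              omega
            · omega
          · omega
    · by_cases s2 : 2 ≤ (R ∩ S).card
      · have g6 := hSe s2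
        by_cases s3 : (R ∩ S).card = 3
        · have g5 := hS3 s3
          omega
        · omega
      · omega
  have hs1 : (R ∩ S).card ≤ 1 := by
    by_contra hc
    have g1 := hSe (by omega)
    have g2 := hSd (by omega)
    by_cases s3 : (R ∩ S).card = 3
    · have g5 := hS3 s3
      have g6 := hfull
      omega
    · omega
  -- the column of Q and the row a
  have hA : (R ∩ {a}).card = 1 → (C ∩ Q).card = 1 → N a ∈ Q ∧
      ∀ b ∈ (R ∩ T).filter (fun b => f b ∈ C), N a ∉ F b := by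
    intro h1 h2
    have haR : a ∈ R := by
      obtain ⟨x, hx⟩ := card_pos.1 (by omega : 0 < (R ∩ {a}).card)
      rw [mem_inter, mem_singleton] at hx
      rw [← hx.2]
      exact hx.1
    obtain ⟨q, hq⟩ := card_pos.1 (by omega : 0 < (C ∩ Q).card)
    rw [mem_inter] at hq
    have h3 : N a = q := hb a haR q hq.1 (by rw [hFa]; exact hq.2)
    refine ⟨by rw [h3]; exact hq.2, fun b hb' hc => ?_⟩
    have h4 := hDN b hb'
    rw [h3] at hc
    have h5 := hb b h4.2.1 q hq.1 hc
    rw [h4.2.2.2] at h5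
    exact hf2 b h4.1 (by rw [h5]; exact hq.2)
  have hsubT : (R ∩ T).filter (fun b => f b ∈ C) ⊆ T := fun b hb' => (hDN b hb').1
  by_cases hc1 : (R ∩ S).card = 1 ∧ (C ∩ {e}).card = 1
  · obtain ⟨s, hs⟩ := card_pos.1 (by omega : 0 < (R ∩ S).card)
    obtain ⟨hse, hsF⟩ := hE s hs hc1.2
    have hsF' : ∀ b ∈ (R ∩ T).filter (fun b => f b ∈ C), f b ∉ F s := fun b hb' =>
      hsF b (mem_filter.2 ⟨(hDN b hb').1, (hDN b hb').2.2.1⟩)
    by_cases hc2 : (R ∩ {a}).card = 1 ∧ (C ∩ Q).card = 1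
    · obtain ⟨haQ, haF⟩ := hA hc2.1 hc2.2
      obtain ⟨b, hb'⟩ := card_pos.1 (by omega : 0 < ((R ∩ T).filter (fun b => f b ∈ C)).card)
      exact Or.inr (Or.inr (Or.inr ⟨b, (hDN b hb').1, (hDN b hb').2.2.2, haQ, haF b hb', s, (mem_inter.1 hs).2, hse, hsF' b hb'⟩))
    · obtain ⟨B, hB, hB2⟩ := exists_subset_card_eq (by omega : 2 ≤ ((R ∩ T).filter (fun b => f b ∈ C)).card)
      exact Or.inr (Or.inr (Or.inl ⟨B, hB.trans hsubT, hB2, fun b hb' => (hDN b (hB hb')).2.2.2, s, (mem_inter.1 hs).2, hse,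
        fun b hb' => hsF' b (hB hb')⟩))
  · by_cases hc2 : (R ∩ {a}).card = 1 ∧ (C ∩ Q).card = 1
    · obtain ⟨haQ, haF⟩ := hA hc2.1 hc2.2
      obtain ⟨B, hB, hB2⟩ := exists_subset_card_eq (by omega : 2 ≤ ((R ∩ T).filter (fun b => f b ∈ C)).card)
      exact Or.inr (Or.inl ⟨B, hB.trans hsubT, hB2, fun b hb' => (hDN b (hB hb')).2.2.2, haQ, fun b hb' => haF b (hB hb')⟩)
    · obtain ⟨B, hB, hB2⟩ := exists_subset_card_eq (by omega : 3 ≤ ((R ∩ T).filter (fun b => f b ∈ C)).card)
      exact Or.inl ⟨B, hB.trans hsubT, hB2, fun b hb' => (hDN b (hB hb')).2.2.2⟩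

private theorem blk4_count {F : Fin 8 → Finset (Fin 8)} {Q T S : Finset (Fin 8)} {a e : Fin 8} {f : Fin 8 → Fin 8}
    (hT : T.card = 4) (haT : a ∉ T) (haS : a ∉ S) (hTS : Disjoint T S)
    (hmb : ∀ b ∈ T, (Q \ F b).card ≤ 1) (hmy : ∀ b ∈ T, (S.filter (fun s => f b ∉ F s)).card ≤ 1)
    (P : Equiv.Perm (Fin 8) → Prop) (hP : ∀ N, P N →
      (∃ B ⊆ T, B.card = 3 ∧ ∀ b ∈ B, N b = f b) ∨
      (∃ B ⊆ T, B.card = 2 ∧ (∀ b ∈ B, N b = f b) ∧ N a ∈ Q ∧ ∀ b ∈ B, N a ∉ F b) ∨
      (∃ B ⊆ T, B.card = 2 ∧ (∀ b ∈ B, N b = f b) ∧ ∃ s ∈ S, N s = e ∧ ∀ b ∈ B, f b ∉ F s) ∨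
      (∃ b ∈ T, N b = f b ∧ N a ∈ Q ∧ N a ∉ F b ∧ ∃ s ∈ S, N s = e ∧ f b ∉ F s)) :
    (univ.filter (fun N => P N)).card ≤ 2400 := by
  have hfac : ∀ (B : Finset (Fin 8)) (g : Fin 8 → Fin 8), B.card = 3 →
      (univ.filter (fun N : Equiv.Perm (Fin 8) => ∀ i ∈ B, N i = g i)).card ≤ 120 := by
    intro B g hB
    have h := card_fix B g
    rw [hB] at h
    exact h.trans (by decide)
  have hB2 : ∀ B ∈ T.powersetCard 2, B ⊆ T ∧ B.card = 2 := fun B hB => mem_powersetCard.1 hB
  -- the four unions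
  have c1 : ((T.powersetCard 3).biUnion (fun B => univ.filter (fun N : Equiv.Perm (Fin 8) => ∀ i ∈ B, N i = f i))).card ≤
      480 := by
    refine (card_biUnion_le_card_mul _ _ 120 (fun B hB => hfac B f (mem_powersetCard.1 hB).2)).trans ?_
    rw [card_powersetCard, hT]
    decide
  have c2 : ((T.powersetCard 2).biUnion (fun B => (Q.filter (fun x => ∀ b ∈ B, x ∉ F b)).biUnion (fun x =>
      univ.filter (fun N : Equiv.Perm (Fin 8) => ∀ i ∈ insert a B, N i = if i = a then x else f i)))).card ≤ 720 := by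
    refine (card_biUnion_le_card_mul _ _ 120 (fun B hB => ?_)).trans ?_
    · have hB' := hB2 B hB
      have haB : a ∉ B := fun h => haT (hB'.1 h)
      have h1 : (Q.filter (fun x => ∀ b ∈ B, x ∉ F b)).card ≤ 1 := by
        obtain ⟨b, hb⟩ := card_pos.1 (by rw [hB'.2]; norm_num : 0 < B.card)
        refine (card_le_card ?_).trans (hmb b (hB'.1 hb))
        intro x hx
        rw [mem_filter] at hx
        exact mem_sdiff.2 ⟨hx.1, hx.2 b hb⟩
      refine (card_biUnion_le_card_mul _ _ 120 (fun x _ => hfac _ _ ?_)).trans ?_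
      · rw [card_insert_of_notMem haB, hB'.2]
      · calc _ ≤ 1 * 120 := Nat.mul_le_mul_right _ h1
          _ = 120 := by norm_num
    · rw [card_powersetCard, hT]
      decide
  have c3 : ((T.powersetCard 2).biUnion (fun B => (S.filter (fun s => ∀ b ∈ B, f b ∉ F s)).biUnion (fun s =>
      univ.filter (fun N : Equiv.Perm (Fin 8) => ∀ i ∈ insert s B, N i = if i = s then e else f i)))).card ≤ 720 := by
    refine (card_biUnion_le_card_mul _ _ 120 (fun B hB => ?_)).trans ?_
    · have hB' := hB2 B hB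
      have h1 : (S.filter (fun s => ∀ b ∈ B, f b ∉ F s)).card ≤ 1 := by
        obtain ⟨b, hb⟩ := card_pos.1 (by rw [hB'.2]; norm_num : 0 < B.card)
        refine (card_le_card ?_).trans (hmy b (hB'.1 hb))
        intro x hx
        rw [mem_filter] at hx ⊢
        exact ⟨hx.1, hx.2 b hb⟩
      refine (card_biUnion_le_card_mul _ _ 120 (fun s hs => hfac _ _ ?_)).trans ?_
      · have hsB : s ∉ B := fun h => Finset.disjoint_left.1 hTS (hB'.1 h) (mem_filter.1 hs).1
        rw [card_insert_of_notMem hsB, hB'.2]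
      · calc _ ≤ 1 * 120 := Nat.mul_le_mul_right _ h1
          _ = 120 := by norm_num
    · rw [card_powersetCard, hT]
      decide
  have c4 : (T.biUnion (fun b => (Q.filter (fun x => x ∉ F b)).biUnion (fun x => (S.filter (fun s => f b ∉ F s)).biUnion
      (fun s => univ.filter (fun N : Equiv.Perm (Fin 8) => ∀ i ∈ ({a, b, s} : Finset (Fin 8)), N i =
        if i = a then x else if i = s then e else f i))))).card ≤ 480 := by
    refine (card_biUnion_le_card_mul _ _ 120 (fun b hb => ?_)).trans ?_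
    · have h1 : (Q.filter (fun x => x ∉ F b)).card ≤ 1 := by
        refine (card_le_card ?_).trans (hmb b hb)
        intro x hx
        rw [mem_filter] at hx
        exact mem_sdiff.2 ⟨hx.1, hx.2⟩
      refine (card_biUnion_le_card_mul _ _ 120 (fun x _ => ?_)).trans ?_
      · refine (card_biUnion_le_card_mul _ _ 120 (fun s hs => hfac _ _ ?_)).trans ?_
        · have hsS := (mem_filter.1 hs).1
          have hab : a ≠ b := fun h => haT (h ▸ hb)
          have has : a ≠ s := fun h => haS (h ▸ hsS)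
          have hbs : b ≠ s := fun h => Finset.disjoint_left.1 hTS hb (h ▸ hsS)
          exact card_eq_three.2 ⟨a, b, s, hab, has, hbs, rfl⟩
        · calc _ ≤ 1 * 120 := Nat.mul_le_mul_right _ (hmy b hb)
            _ = 120 := by norm_num
      · calc _ ≤ 1 * 120 := Nat.mul_le_mul_right _ h1
          _ = 120 := by norm_num
    · rw [hT]
  have hsub : univ.filter (fun N => P N) ⊆
      (T.powersetCard 3).biUnion (fun B => univ.filter (fun N : Equiv.Perm (Fin 8) => ∀ i ∈ B, N i = f i)) ∪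
      (T.powersetCard 2).biUnion (fun B => (Q.filter (fun x => ∀ b ∈ B, x ∉ F b)).biUnion (fun x =>
        univ.filter (fun N : Equiv.Perm (Fin 8) => ∀ i ∈ insert a B, N i = if i = a then x else f i))) ∪
      ((T.powersetCard 2).biUnion (fun B => (S.filter (fun s => ∀ b ∈ B, f b ∉ F s)).biUnion (fun s =>
        univ.filter (fun N : Equiv.Perm (Fin 8) => ∀ i ∈ insert s B, N i = if i = s then e else f i))) ∪
      T.biUnion (fun b => (Q.filter (fun x => x ∉ F b)).biUnion (fun x => (S.filter (fun s => f b ∉ F s)).biUnion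
        (fun s => univ.filter (fun N : Equiv.Perm (Fin 8) => ∀ i ∈ ({a, b, s} : Finset (Fin 8)), N i =
          if i = a then x else if i = s then e else f i))))) := by
    intro N hN
    have hN' := hP N (mem_filter.1 hN).2
    rw [mem_union, mem_union, mem_union]
    rcases hN' with ⟨B, hB, hB3, hBN⟩ | ⟨B, hB, hBc, hBN, haQ, haF⟩ | ⟨B, hB, hBc, hBN, s, hs, hse, hsF⟩ |
      ⟨b, hb, hbN, haQ, haF, s, hs, hse, hsF⟩
    · exact Or.inl (Or.inl (mem_biUnion.2 ⟨B, mem_powersetCard.2 ⟨hB, hB3⟩, mem_filter.2 ⟨mem_univ _, hBN⟩⟩))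
    · refine Or.inl (Or.inr (mem_biUnion.2 ⟨B, mem_powersetCard.2 ⟨hB, hBc⟩, mem_biUnion.2
        ⟨N a, mem_filter.2 ⟨haQ, haF⟩, mem_filter.2 ⟨mem_univ _, ?_⟩⟩⟩))
      intro i hi
      by_cases hia : i = a
      · rw [if_pos hia, hia]
      · rw [if_neg hia]
        exact hBN i ((mem_insert.1 hi).resolve_left hia)
    · refine Or.inr (Or.inl (mem_biUnion.2 ⟨B, mem_powersetCard.2 ⟨hB, hBc⟩, mem_biUnion.2
        ⟨s, mem_filter.2 ⟨hs, hsF⟩, mem_filter.2 ⟨mem_univ _, ?_⟩⟩⟩))
      intro i hi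
      by_cases his : i = s
      · rw [if_pos his, his, hse]
      · rw [if_neg his]
        exact hBN i ((mem_insert.1 hi).resolve_left his)
    · refine Or.inr (Or.inr (mem_biUnion.2 ⟨b, hb, mem_biUnion.2 ⟨N a, mem_filter.2 ⟨haQ, haF⟩, mem_biUnion.2
        ⟨s, mem_filter.2 ⟨hs, hsF⟩, mem_filter.2 ⟨mem_univ _, ?_⟩⟩⟩⟩))
      intro i hi
      by_cases hia : i = a
      · rw [if_pos hia, hia]
      · rw [if_neg hia]
        by_cases his : i = s
        · rw [if_pos his, his, hse]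
        · rw [if_neg his]
          rw [mem_insert, mem_insert, mem_singleton] at hi
          rcases hi with h | h | h
          · exact absurd h hia
          · rw [h]
            exact hbN
          · exact absurd h his
  refine (card_le_card hsub).trans ((card_union_le _ _).trans ?_)
  have u1 := card_union_le
    ((T.powersetCard 3).biUnion (fun B => univ.filter (fun N : Equiv.Perm (Fin 8) => ∀ i ∈ B, N i = f i)))
    ((T.powersetCard 2).biUnion (fun B => (Q.filter (fun x => ∀ b ∈ B, x ∉ F b)).biUnion (fun x =>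
        univ.filter (fun N : Equiv.Perm (Fin 8) => ∀ i ∈ insert a B, N i = if i = a then x else f i))))
  have u2 := card_union_le
    ((T.powersetCard 2).biUnion (fun B => (S.filter (fun s => ∀ b ∈ B, f b ∉ F s)).biUnion (fun s =>
        univ.filter (fun N : Equiv.Perm (Fin 8) => ∀ i ∈ insert s B, N i = if i = s then e else f i))))
    (T.biUnion (fun b => (Q.filter (fun x => x ∉ F b)).biUnion (fun x => (S.filter (fun s => f b ∉ F s)).biUnion
        (fun s => univ.filter (fun N : Equiv.Perm (Fin 8) => ∀ i ∈ ({a, b, s} : Finset (Fin 8)), N i =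
          if i = a then x else if i = s then e else f i)))))
  omega

theorem blk4 {F : Fin 8 → Finset (Fin 8)} (hF : Deg3 F) {Q : Finset (Fin 8)} (hQ : Q.card = 3)
    (h0 : (T0 F Q).card = 1) (h4 : (T1 F Q).card = 4)
    (hd : ∀ r ∈ T1 F Q, ∀ r' ∈ T1 F Q, r ≠ r' → Disjoint (F r \ Q) (F r' \ Q)) :
    (univ.filter (fun N => Bad F N)).card ≤ 2400 := by
  obtain ⟨a, ha⟩ := card_eq_one.1 h0
  have hFa : F a = Q := mem_T0.1 (by rw [ha]; exact mem_singleton_self a)
  have haT : a ∉ T1 F Q := by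
    rw [mem_T1, hFa, sdiff_self, bot_eq_empty, card_empty]
    norm_num
  have hex : ∀ b, ∃ y, b ∈ T1 F Q → F b \ Q = {y} := by
    intro b
    by_cases hb : b ∈ T1 F Q
    · obtain ⟨y, hy⟩ := card_eq_one.1 (mem_T1.1 hb)
      exact ⟨y, fun _ => hy⟩
    · exact ⟨0, fun h => absurd h hb⟩
  choose f hf using hex
  have hf1 : ∀ b ∈ T1 F Q, f b ∈ F b := fun b hb =>
    (mem_sdiff.1 (by rw [hf b hb]; exact mem_singleton_self _ : f b ∈ F b \ Q)).1
  have hf2 : ∀ b ∈ T1 F Q, f b ∉ Q := fun b hb =>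
    (mem_sdiff.1 (by rw [hf b hb]; exact mem_singleton_self _ : f b ∈ F b \ Q)).2
  have hfi : ∀ b ∈ T1 F Q, ∀ b' ∈ T1 F Q, f b = f b' → b = b' := by
    intro b hb b' hb' h
    by_contra hne
    have h1 := hd b hb b' hb' hne
    rw [hf b hb, hf b' hb', disjoint_singleton] at h1
    exact h1 h
  have hout : ∀ b ∈ T1 F Q, ∀ c, c ∈ F b → c ∉ Q → c = f b := by
    intro b hb c hc hcQ
    have h1 : c ∈ F b \ Q := mem_sdiff.2 ⟨hc, hcQ⟩
    rw [hf b hb, mem_singleton] at h1
    exact h1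
  have himc : ((T1 F Q).image f).card = 4 := by
    rw [card_image_of_injOn (fun b hb b' hb' h => hfi b hb b' hb' h), h4]
  have himQ : (T1 F Q).image f ⊆ Qᶜ := by
    intro c hc
    obtain ⟨b, hb, rfl⟩ := mem_image.1 hc
    exact mem_compl.2 (hf2 b hb)
  have he1 : (Qᶜ \ (T1 F Q).image f).card = 1 := by
    rw [card_sdiff_of_subset himQ, card_compl, Fintype.card_fin, hQ, himc]
  obtain ⟨e, he⟩ := card_eq_one.1 he1
  have he' : e ∈ Qᶜ \ (T1 F Q).image f := by
    rw [he]
    exact mem_singleton_self e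
  rw [mem_sdiff, mem_compl] at he'
  have hfe : ∀ b ∈ T1 F Q, f b ≠ e := fun b hb h => he'.2 (h ▸ mem_image_of_mem f hb)
  have hcol : ∀ c, c ∈ Q ∨ c = e ∨ ∃ b ∈ T1 F Q, f b = c := by
    intro c
    by_cases h1 : c ∈ Q
    · exact Or.inl h1
    · by_cases h2 : c ∈ (T1 F Q).image f
      · obtain ⟨b, hb, h3⟩ := mem_image.1 h2
        exact Or.inr (Or.inr ⟨b, hb, h3⟩)
      · have h3 : c ∈ Qᶜ \ (T1 F Q).image f := mem_sdiff.2 ⟨mem_compl.2 h1, h2⟩
        rw [he, mem_singleton] at h3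
        exact Or.inr (Or.inl h3)
  have hSc : ((insert a (T1 F Q))ᶜ).card = 3 := by
    rw [card_compl, Fintype.card_fin, card_insert_of_notMem haT, h4]
  have haS : a ∉ (insert a (T1 F Q))ᶜ := by
    rw [mem_compl, not_not]
    exact mem_insert_self _ _
  have hTS : Disjoint (T1 F Q) (insert a (T1 F Q))ᶜ := by
    rw [Finset.disjoint_left]
    intro r h1 h2
    rw [mem_compl] at h2
    exact h2 (mem_insert_of_mem h1)
  have hall : ∀ r, r = a ∨ r ∈ T1 F Q ∨ r ∈ (insert a (T1 F Q))ᶜ := by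
    intro r
    by_cases h1 : r = a
    · exact Or.inl h1
    · by_cases h2 : r ∈ T1 F Q
      · exact Or.inr (Or.inl h2)
      · refine Or.inr (Or.inr (mem_compl.2 fun h => ?_))
        rcases mem_insert.1 h with h3 | h3
        · exact h1 h3
        · exact h2 h3
  have hmb : ∀ b ∈ T1 F Q, (Q \ F b).card ≤ 1 := by
    intro b hb
    have h1 := card_inter_add_card_sdiff (F b) Q
    have h2 := card_inter_add_card_sdiff Q (F b)
    have h3 := mem_T1.1 hb
    have h5 := hF.row b
    rw [inter_comm] at h2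
    omega
  have hmy : ∀ b ∈ T1 F Q, (((insert a (T1 F Q))ᶜ).filter (fun s => f b ∉ F s)).card ≤ 1 := by
    intro b hb
    have h1 : tr F (f b) ⊆ insert b (((insert a (T1 F Q))ᶜ).filter (fun s => f b ∈ F s)) := by
      intro r hr
      rw [mem_tr] at hr
      rcases hall r with h | h | h
      · rw [h, hFa] at hr
        exact absurd hr (hf2 b hb)
      · rw [mem_insert]
        exact Or.inl (hfi r h b hb (hout r h _ hr (hf2 b hb)).symm)
      · exact mem_insert_of_mem (mem_filter.2 ⟨h, hr⟩)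
    have h2 := card_le_card h1
    have h3 := card_insert_le b (((insert a (T1 F Q))ᶜ).filter (fun s => f b ∈ F s))
    have h5 := hF.col (f b)
    have h6 := card_filter_add_card_filter_not (s := (insert a (T1 F Q))ᶜ) (fun s => f b ∈ F s)
    omega
  have hes : ∀ s ∈ (insert a (T1 F Q))ᶜ, e ∈ F s := by
    have h1 : tr F e ⊆ ((insert a (T1 F Q))ᶜ).filter (fun s => e ∈ F s) := by
      intro r hr
      rw [mem_tr] at hr
      rcases hall r with h | h | h
      · rw [h, hFa] at hr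
        exact absurd hr he'.1
      · exact absurd (hout r h _ hr he'.1).symm (hfe r h)
      · exact mem_filter.2 ⟨h, hr⟩
    have h2 := card_le_card h1
    have h3 := hF.col e
    have h5 : ((insert a (T1 F Q))ᶜ).filter (fun s => e ∈ F s) = (insert a (T1 F Q))ᶜ :=
      eq_of_subset_of_card_le (filter_subset _ _) (by omega)
    intro s hs
    rw [← h5] at hs
    exact (mem_filter.1 hs).2
  have hsy : ∀ s ∈ (insert a (T1 F Q))ᶜ, ∃ b ∈ T1 F Q, f b ∈ F s := by
    intro s hs
    rw [mem_compl, mem_insert, not_or] at hs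
    have h1 : (F s \ Q).card ≠ 1 := fun h => hs.2 (mem_T1.2 h)
    have h2 : (F s \ Q).card ≠ 0 := by
      intro h
      have h3 : F s ⊆ Q := sdiff_eq_empty_iff_subset.1 (card_eq_zero.1 h)
      have h5 : F s = Q := eq_of_subset_of_card_le h3 (by rw [hQ]; exact hF.row s)
      have h6 : s ∈ T0 F Q := mem_T0.2 h5
      rw [ha, mem_singleton] at h6
      exact hs.1 h6
    obtain ⟨c, hc, hce⟩ := exists_mem_ne (by omega : 1 < (F s \ Q).card) e
    rw [mem_sdiff] at hc
    rcases hcol c with h | h | ⟨b, hb, h⟩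
    · exact absurd h hc.2
    · exact absurd h hce
    · exact ⟨b, hb, by rw [h]; exact hc.1⟩
  exact blk4_count h4 haT haS hTS hmb hmy (fun N => Bad F N) (fun N hN =>
    blk4_main hF.col hQ h4 hSc haT haS hTS hall hFa hf1 hf2 hfi hfe hcol hmb hmy hes hsy hN)

end Pool.Agent.MP_dc7d7b.TF
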