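import Pool.Agent.Lib.MP_dc7d7b_co.TF.Str
import Pool.Agent.Lib.MP_dc7d7b_co.TF.Fix

set_option autoImplicit false

/-!
BLK5 (200 lines): a row a equal to Q and five rows b1..b5 of type 1. C = Qᶜ (5 columns), s1, s2 the other rows.
Each column of C has at least 3 rows, at most two of them s's: so each column of C contains exactly one b (5 cells, 5
columns) and both s's. F (b_k) \ Q = {y_k}, the y_k are all of C. Each b_k misses at most one column of Q.
CLAIM: if N is bad, with R, C', then (1) N (b_k) = y_k for at least three k, or (2) N a = x ∈ Q and two different k with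
x ∉ F (b_k), N (b_k) = y_k. Count: (1) 10 * 120; (2) for each of the 10 pairs {k, l} there is at most one x in Q missed by
b_k, so at most 120: total 2400.
Proof of the claim. i = card (R ∩ {a, b's}), j = card (C' ∩ Q), i' = card (R ∩ {s1, s2}), j' = card (C' ∩ C), sum 9.
 Block {a, b's} × Q: j = 3: i = 0. j = 2: only b's, i ≤ 2, and N of these b's is in Q. j = 1 (column q): at most one row of R contains
 q and it has N = q. j = 0: i ≤ 6. Block {s1, s2} × C is full: if i' ≥ 1 and j' ≥ 1 then i' = j' = 1.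
 i' = 0. j = 0: i = 9 - j', so R contains at least i - 1 b's and C' contains j' of the y's: at least (i - 1) + j' - 5 = 3
 common k: (1). j = 1: i = 8 - j'. If a ∈ R then N a = q and the i - 1 b's of R miss q, common k at least
 (i - 1) + j' - 5 = 2: (2). If a ∉ R: i b's, common k at least i + j' - 5 = 3: (1). j = 2: i = 7 - j' ≤ 2, so j' = 5,
 i = 2: a b_k of R has y_k ∈ C', N (b_k) = y_k, but N (b_k) ∈ Q: impossible. j = 3: i = 0, j' = 6 impossible.
 i' = 1, j' = 1: i + j = 7: j = 1, i = 6: all b's and a in R, so the column y_k ∈ C' has N (b_k) = y_k and also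
 N s = y_k: impossible. i' = 1, j' = 0: i + j = 8 impossible. i' = 2, j' = 0: i + j = 7: j = 1, i = 6, R is everything and
 the column q has at most one cell: impossible. (i' = 2, j' ≥ 1 is impossible.)
-/

namespace Pool.Agent.MP_dc7d7b.TF

open Finset Classical

/-- The claim for one permutation. -/
private theorem b5_key {F : Fin 8 → Finset (Fin 8)} {Q B : Finset (Fin 8)} {a : Fin 8} {y : Fin 8 → Fin 8}
    (N : Equiv.Perm (Fin 8)) (hQ : Q.card = 3) (ha : F a = Q) (haB : a ∉ B) (hB : B.card = 5)
    (hy : ∀ b ∈ B, F b \ Q = {y b}) (hyi : ∀ b ∈ B, ∀ b' ∈ B, y b = y b' → b = b')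
    (hys : ∀ c, c ∉ Q → ∃ b ∈ B, y b = c)
    (hs : ∀ s, s ≠ a → s ∉ B → ∀ c, c ∉ Q → c ∈ F s) (h2 : ∀ b ∈ B, 2 ≤ (F b ∩ Q).card)
    (hcol : ∀ c, 3 ≤ (univ.filter (fun r => c ∈ F r)).card)
    (R C : Finset (Fin 8)) (hRC : R.card + C.card = 9) (hb : ∀ r ∈ R, ∀ c ∈ C, c ∈ F r → N r = c) :
    3 ≤ (B.filter (fun b => N b = y b)).card ∨
      ∃ x ∈ Q, N a = x ∧ 2 ≤ (B.filter (fun b => x ∉ F b ∧ N b = y b)).card := by
  have hyQ : ∀ b ∈ B, y b ∉ Q ∧ y b ∈ F b := by
    intro b hbB
    have h := mem_singleton_self (y b)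
    rw [← hy b hbB, mem_sdiff] at h
    exact ⟨h.2, h.1⟩
  -- the common ones
  have hGN : ∀ b ∈ (R ∩ B).filter (fun b => y b ∈ C), b ∈ B ∧ N b = y b := by
    intro b hbG
    rw [mem_filter, mem_inter] at hbG
    exact ⟨hbG.1.2, hb b hbG.1.1 (y b) hbG.2 (hyQ b hbG.1.2).2⟩
  have hBC : (B.filter (fun b => y b ∈ C)).card = (C \ Q).card := by
    refine card_bij (fun b _ => y b) ?_ ?_ ?_
    · intro b hb'
      rw [mem_filter] at hb'
      exact mem_sdiff.2 ⟨hb'.2, (hyQ b hb'.1).1⟩
    · intro b hb1 b' hb2 h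
      exact hyi b (mem_filter.1 hb1).1 b' (mem_filter.1 hb2).1 h
    · intro c hc
      obtain ⟨b, hb1, hb2⟩ := hys c (mem_sdiff.1 hc).2
      exact ⟨b, mem_filter.2 ⟨hb1, hb2 ▸ (mem_sdiff.1 hc).1⟩, hb2⟩
  have hG : (R ∩ B).card + (C \ Q).card ≤ ((R ∩ B).filter (fun b => y b ∈ C)).card + 5 := by
    rw [← hBC]
    have h1 : (R ∩ B).filter (fun b => y b ∈ C) = (R ∩ B) ∩ (B.filter (fun b => y b ∈ C)) := by
      ext b
      simp only [mem_filter, mem_inter]
      tauto
    have h2 := card_union_add_card_inter (R ∩ B) (B.filter (fun b => y b ∈ C))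
    have h3 : ((R ∩ B) ∪ (B.filter (fun b => y b ∈ C))).card ≤ B.card :=
      card_le_card (union_subset inter_subset_right (filter_subset _ _))
    rw [h1]
    omega
  have hone : ∀ r ∈ R, (F r ∩ (C ∩ Q)).card ≤ 1 := by
    intro r hr
    rw [card_le_one]
    intro c hc c' hc'
    simp only [mem_inter] at hc hc'
    rw [← hb r hr c hc.2.1 hc.1, ← hb r hr c' hc'.2.1 hc'.1]
  have hA : a ∈ R → (C ∩ Q).card ≤ 1 := by
    intro h
    have h1 := hone a h
    rwa [ha, inter_eq_right.2 inter_subset_right] at h1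
  have hBj : ∀ b ∈ B, (C ∩ Q).card ≤ (F b ∩ (C ∩ Q)).card + 1 := by
    intro b hbB
    have h1 := h2 b hbB
    have h3 : (Q \ F b).card ≤ 1 := by
      have := card_inter_add_card_sdiff Q (F b)
      rw [inter_comm] at this
      omega
    have h4 : ((C ∩ Q) \ F b).card ≤ (Q \ F b).card :=
      card_le_card (sdiff_subset_sdiff inter_subset_right le_rfl)
    have h5 := card_inter_add_card_sdiff (C ∩ Q) (F b)
    rw [inter_comm (C ∩ Q) (F b)] at h5
    omega
  have hC2 : 2 ≤ (C ∩ Q).card → (R ∩ B).card ≤ 2 ∧ ((R ∩ B).filter (fun b => y b ∈ C)).card = 0 ∧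
      ((C ∩ Q).card = 3 → (R ∩ B).card = 0) := by
    intro hj
    have hin : ∀ b ∈ R ∩ B, N b ∈ C ∩ Q := by
      intro b hbb
      rw [mem_inter] at hbb
      have h3 := hBj b hbb.2
      have h4 : (F b ∩ (C ∩ Q)).Nonempty := by
        rw [← card_pos]
        omega
      obtain ⟨c, hc⟩ := h4
      rw [mem_inter] at hc
      rw [hb b hbb.1 c (mem_inter.1 hc.2).1 hc.1]
      exact hc.2
    have h3 : (C ∩ Q).card = 3 → (R ∩ B).card = 0 := by
      intro h4
      rw [card_eq_zero, eq_empty_iff_forall_notMem]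
      intro b hbb
      have h5 := hone b (mem_inter.1 hbb).1
      have h6 := hBj b (mem_inter.1 hbb).2
      omega
    refine ⟨?_, ?_, h3⟩
    · by_cases h4 : (C ∩ Q).card = 3
      · rw [h3 h4]
        omega
      · have h5 : (C ∩ Q).card ≤ Q.card := card_le_card inter_subset_right
        have h6 : (R ∩ B).card ≤ (C ∩ Q).card := card_le_card_of_injOn N hin N.injective.injOn
        omega
    · rw [card_eq_zero, eq_empty_iff_forall_notMem]
      intro b hbG
      have h4 := hGN b hbG
      have h5 := hin b (mem_filter.1 hbG).1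
      rw [h4.2] at h5
      exact (hyQ b h4.1).1 (mem_inter.1 h5).2
  have hSC : ∀ s ∈ (R \ B).erase a, ∀ c ∈ C \ Q, N s = c := by
    intro s hs1 c hc
    rw [mem_erase, mem_sdiff] at hs1
    rw [mem_sdiff] at hc
    exact hb s hs1.2.1 c hc.1 (hs s hs1.1 hs1.2.2 c hc.2)
  have hD : ((R \ B).erase a).card = 0 ∨ (C \ Q).card = 0 ∨
      (((R \ B).erase a).card = 1 ∧ (C \ Q).card = 1) := by
    rcases ((R \ B).erase a).eq_empty_or_nonempty with h | ⟨s, hs1⟩
    · left
      rw [h, card_empty]
    rcases (C \ Q).eq_empty_or_nonempty with h | ⟨c, hc⟩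
    · right
      left
      rw [h, card_empty]
    right
    right
    constructor
    · apply le_antisymm
      · rw [card_le_one]
        intro s1 h1 s2 h2
        exact N.injective ((hSC s1 h1 c hc).trans (hSC s2 h2 c hc).symm)
      · exact card_pos.2 ⟨s, hs1⟩
    · apply le_antisymm
      · rw [card_le_one]
        intro c1 h1 c2 h2
        exact (hSC s hs1 c1 h1).symm.trans (hSC s hs1 c2 h2)
      · exact card_pos.2 ⟨c, hc⟩
  -- the numbers
  have n1 : (R ∩ B).card + (R \ B).card = R.card := card_inter_add_card_sdiff R B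
  have n2 : (C ∩ Q).card + (C \ Q).card = C.card := card_inter_add_card_sdiff C Q
  have n3 : (C ∩ Q).card ≤ Q.card := card_le_card inter_subset_right
  have n4 : (C \ Q).card ≤ 5 := by
    have h3 : (C \ Q).card ≤ (Qᶜ).card := card_le_card (fun x hx => mem_compl.2 (mem_sdiff.1 hx).2)
    rw [card_compl, hQ, Fintype.card_fin] at h3
    exact h3
  have n5 : (R ∩ B).card ≤ B.card := card_le_card inter_subset_right
  have n6 : ((R \ B).erase a).card ≤ 2 := by
    have h3 : ((R \ B).erase a).card ≤ ((Bᶜ).erase a).card :=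
      card_le_card (erase_subset_erase a (fun x hx => mem_compl.2 (mem_sdiff.1 hx).2))
    rw [card_erase_of_mem (mem_compl.2 haB), card_compl, hB, Fintype.card_fin] at h3
    exact h3
  have n7 : a ∈ R → ((R \ B).erase a).card + 1 = (R \ B).card := fun h =>
    card_erase_add_one (mem_sdiff.2 ⟨h, haB⟩)
  have n8 : a ∉ R → ((R \ B).erase a).card = (R \ B).card := fun h => by
    rw [erase_eq_of_notMem (fun h' => h (mem_sdiff.1 h').1)]
  have hGle : ((R ∩ B).filter (fun b => y b ∈ C)).card ≤ (B.filter (fun b => N b = y b)).card :=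
    card_le_card (fun b hbG => mem_filter.2 (hGN b hbG))
  by_cases hj2 : 2 ≤ (C ∩ Q).card
  · exfalso
    obtain ⟨c1, c2, c3⟩ := hC2 hj2
    have haR : a ∉ R := fun h => by
      have := hA h
      omega
    have := n8 haR
    rcases hD with d | d | ⟨d1, d2⟩ <;> omega
  · by_cases his : ((R \ B).erase a).card = 0
    · by_cases haR : a ∈ R
      · have e1 := n7 haR
        by_cases hj : (C ∩ Q).card = 0
        · left
          omega
        · right
          have h3 : (C ∩ Q).card = 1 := by omega
          obtain ⟨q, hq⟩ := card_eq_one.1 h3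
          have hqC : q ∈ C ∩ Q := hq ▸ mem_singleton_self q
          rw [mem_inter] at hqC
          have hNa : N a = q := hb a haR q hqC.1 (ha ▸ hqC.2)
          refine ⟨q, hqC.2, hNa, ?_⟩
          have h4 : (R ∩ B).filter (fun b => y b ∈ C) ⊆ B.filter (fun b => q ∉ F b ∧ N b = y b) := by
            intro b hbG
            have h5 := hGN b hbG
            refine mem_filter.2 ⟨h5.1, ?_, h5.2⟩
            intro hqF
            have h6 := hb b (mem_inter.1 (mem_filter.1 hbG).1).1 q hqC.1 hqF
            have h7 : b = a := N.injective (h6.trans hNa.symm)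
            exact haB (h7 ▸ h5.1)
          have h5 := card_le_card h4
          omega
      · left
        have := n8 haR
        omega
    · rcases hD with d | d | ⟨d1, d2⟩
      · exact absurd d his
      · exfalso
        have haR : a ∈ R := by
          by_contra h
          have := n8 h
          omega
        have e1 := n7 haR
        have hR8 : R.card = Fintype.card (Fin 8) := by
          rw [Fintype.card_fin]
          omega
        have hRu : R = univ := (card_eq_iff_eq_univ R).1 hR8
        have hj1 : (C ∩ Q).card = 1 := by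
          rw [Fintype.card_fin] at hR8
          omega
        obtain ⟨q, hq⟩ := card_eq_one.1 hj1
        have hqC : q ∈ C ∩ Q := hq ▸ mem_singleton_self q
        rw [mem_inter] at hqC
        have h3 := hcol q
        have h4 : (univ.filter (fun r => q ∈ F r)).card ≤ 1 := by
          rw [card_le_one]
          intro r hr r' hr'
          apply N.injective
          rw [hb r (hRu ▸ mem_univ r) q hqC.1 (mem_filter.1 hr).2,
            hb r' (hRu ▸ mem_univ r') q hqC.1 (mem_filter.1 hr').2]
        omega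
      · exfalso
        have haR : a ∈ R := by
          by_contra h
          have := n8 h
          omega
        have e1 := n7 haR
        have hBR : B.card ≤ (R ∩ B).card := by omega
        have hRB : R ∩ B = B := eq_of_subset_of_card_le inter_subset_right hBR
        obtain ⟨s, hs1⟩ := card_pos.1 (by omega : 0 < ((R \ B).erase a).card)
        obtain ⟨c, hc⟩ := card_pos.1 (by omega : 0 < (C \ Q).card)
        obtain ⟨b, hbB, hbc⟩ := hys c (mem_sdiff.1 hc).2
        have hbRB : b ∈ R ∩ B := by
          rw [hRB]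
          exact hbB
        have hbR : b ∈ R := (mem_inter.1 hbRB).1
        have h3 : N b = c := hb b hbR c (mem_sdiff.1 hc).1 (hbc ▸ (hyQ b hbB).2)
        have h4 := hSC s hs1 c hc
        have h5 : s = b := N.injective (h4.trans h3.symm)
        rw [mem_erase, mem_sdiff] at hs1
        exact hs1.2.2 (h5 ▸ hbB)

theorem blk5 {F : Fin 8 → Finset (Fin 8)} (hF : Deg3 F) {Q : Finset (Fin 8)} (hQ : Q.card = 3)
    (h0 : (T0 F Q).Nonempty) (h5 : (T1 F Q).card = 5) :
    (univ.filter (fun N => Bad F N)).card ≤ 2400 := by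
  obtain ⟨a, haT⟩ := h0
  have ha : F a = Q := mem_T0.1 haT
  have haB : a ∉ T1 F Q := by
    intro h
    have h' := mem_T1.1 h
    rw [ha, sdiff_self] at h'
    simp at h'
  have hBm : ∀ b, b ∈ T1 F Q → (F b \ Q).card = 1 := fun b h => mem_T1.1 h
  generalize T1 F Q = B at *
  have hy0 : ∀ b, ∃ c, b ∈ B → F b \ Q = {c} := by
    intro b
    by_cases hb : b ∈ B
    · obtain ⟨c, hc⟩ := card_eq_one.1 (hBm b hb)
      exact ⟨c, fun _ => hc⟩
    · exact ⟨0, fun h => absurd h hb⟩
  choose y hy using hy0
  have hyQ : ∀ b ∈ B, y b ∉ Q ∧ y b ∈ F b := by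
    intro b hbB
    have h := mem_singleton_self (y b)
    rw [← hy b hbB, mem_sdiff] at h
    exact ⟨h.2, h.1⟩
  have hQc : (Qᶜ).card = 5 := by
    rw [card_compl, hQ, Fintype.card_fin]
  have hcol : ∀ c, 3 ≤ (univ.filter (fun r => c ∈ F r)).card := hF.col
  have hSc : ((Bᶜ).erase a).card = 2 := by
    rw [card_erase_of_mem (mem_compl.2 haB), card_compl, h5, Fintype.card_fin]
  have hys : ∀ c, c ∉ Q → ∃ b ∈ B, y b = c := by
    intro c hc
    by_contra hno
    push Not at hno
    have h3 := hcol c
    have h4 : (univ.filter (fun r => c ∈ F r)) ⊆ (Bᶜ).erase a := by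
      intro r hr
      have hr' := (mem_filter.1 hr).2
      rw [mem_erase, mem_compl]
      refine ⟨?_, ?_⟩
      · rintro rfl
        exact hc (ha ▸ hr')
      · intro hrB
        have h6 : c ∈ F r \ Q := mem_sdiff.2 ⟨hr', hc⟩
        rw [hy r hrB, mem_singleton] at h6
        exact hno r hrB h6.symm
    have := card_le_card h4
    omega
  have himg : B.image y = Qᶜ := by
    ext c
    constructor
    · intro h
      obtain ⟨b, hb, rfl⟩ := mem_image.1 h
      exact mem_compl.2 (hyQ b hb).1
    · intro h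
      obtain ⟨b, hb, hbc⟩ := hys c (mem_compl.1 h)
      exact mem_image.2 ⟨b, hb, hbc⟩
  have hyi : ∀ b ∈ B, ∀ b' ∈ B, y b = y b' → b = b' := by
    have h6 : Set.InjOn y B := card_image_iff.1 (by rw [himg, hQc, h5])
    intro b hb b' hb' h
    exact h6 hb hb' h
  have hs : ∀ s, s ≠ a → s ∉ B → ∀ c, c ∉ Q → c ∈ F s := by
    intro s hsa hsB c hc
    by_contra hno
    have h3 := hcol c
    obtain ⟨b, hbB, hbc⟩ := hys c hc
    have h4 : (univ.filter (fun r => c ∈ F r)) ⊆ insert b (((Bᶜ).erase a).erase s) := by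
      intro r hr
      have hr' := (mem_filter.1 hr).2
      by_cases hrB : r ∈ B
      · have h6 : c ∈ F r \ Q := mem_sdiff.2 ⟨hr', hc⟩
        rw [hy r hrB, mem_singleton] at h6
        have h7 : r = b := hyi r hrB b hbB (by rw [hbc, h6])
        rw [h7]
        exact mem_insert_self _ _
      · refine mem_insert_of_mem ?_
        rw [mem_erase, mem_erase, mem_compl]
        refine ⟨?_, ?_, hrB⟩
        · rintro rfl
          exact hno hr'
        · rintro rfl
          exact hc (ha ▸ hr')
    have h6 := card_le_card h4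
    have h7 := card_insert_le b (((Bᶜ).erase a).erase s)
    have h8 : (((Bᶜ).erase a).erase s).card = 1 := by
      rw [card_erase_of_mem (mem_erase.2 ⟨hsa, mem_compl.2 hsB⟩), hSc]
    omega
  have h2 : ∀ b ∈ B, 2 ≤ (F b ∩ Q).card := by
    intro b hb
    have h3 := hF.row b
    have h4 := card_inter_add_card_sdiff (F b) Q
    rw [hy b hb, card_singleton] at h4
    omega
  -- the count
  have hsub : univ.filter (fun N => Bad F N) ⊆
      ((powersetCard 3 B).biUnion (fun T => univ.filter (fun N : Equiv.Perm (Fin 8) => ∀ b ∈ T, N b = y b))) ∪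
      ((powersetCard 2 B).biUnion (fun T => univ.filter (fun N : Equiv.Perm (Fin 8) =>
        ∃ x ∈ Q, N a = x ∧ ∀ b ∈ T, x ∉ F b ∧ N b = y b))) := by
    intro N hN
    obtain ⟨R, C, hRC, hb⟩ := (mem_filter.1 hN).2
    rcases b5_key N hQ ha haB h5 hy hyi hys hs h2 hcol R C hRC hb with h3 | ⟨x, hx, hNa, h3⟩
    · obtain ⟨T, hT1, hT2⟩ := exists_subset_card_eq h3
      exact mem_union_left _ (mem_biUnion.2 ⟨T, mem_powersetCard.2 ⟨hT1.trans (filter_subset _ _), hT2⟩,
        mem_filter.2 ⟨mem_univ _, fun b hb => (mem_filter.1 (hT1 hb)).2⟩⟩)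
    · obtain ⟨T, hT1, hT2⟩ := exists_subset_card_eq h3
      exact mem_union_right _ (mem_biUnion.2 ⟨T, mem_powersetCard.2 ⟨hT1.trans (filter_subset _ _), hT2⟩,
        mem_filter.2 ⟨mem_univ _, x, hx, hNa, fun b hb => (mem_filter.1 (hT1 hb)).2⟩⟩)
  have c1 : ((powersetCard 3 B).biUnion (fun T => univ.filter (fun N : Equiv.Perm (Fin 8) =>
      ∀ b ∈ T, N b = y b))).card ≤ 10 * 120 := by
    have h6 : (powersetCard 3 B).card = 10 := by
      rw [card_powersetCard, h5]
      decide
    rw [← h6]
    refine card_biUnion_le_card_mul _ _ 120 ?_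
    intro T hT
    have h7 := card_fix T y
    rw [(mem_powersetCard.1 hT).2] at h7
    exact h7
  have c2 : ((powersetCard 2 B).biUnion (fun T => univ.filter (fun N : Equiv.Perm (Fin 8) =>
      ∃ x ∈ Q, N a = x ∧ ∀ b ∈ T, x ∉ F b ∧ N b = y b))).card ≤ 10 * 120 := by
    have h6 : (powersetCard 2 B).card = 10 := by
      rw [card_powersetCard, h5]
      decide
    rw [← h6]
    refine card_biUnion_le_card_mul _ _ 120 ?_
    intro T hT
    obtain ⟨hTB, hT2⟩ := mem_powersetCard.1 hT
    obtain ⟨b0, hb0⟩ : T.Nonempty := by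
      rw [← card_pos]
      omega
    by_cases hx : ∃ x0 ∈ Q, x0 ∉ F b0
    · obtain ⟨x0, hx0, hx1⟩ := hx
      have h7 := card_fix (insert a T) (fun i => if i = a then x0 else y i)
      rw [card_insert_of_notMem (fun h => haB (hTB h)), hT2] at h7
      refine le_trans (card_le_card ?_) h7
      intro N hN
      obtain ⟨x, hxQ, hNa, hNT⟩ := (mem_filter.1 hN).2
      refine mem_filter.2 ⟨mem_univ _, ?_⟩
      -- x = x0
      have hxx : x = x0 := by
        have h8 : (Q \ F b0).card ≤ 1 := by
          have h9 := card_inter_add_card_sdiff Q (F b0)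
          rw [inter_comm] at h9
          have := h2 b0 (hTB hb0)
          omega
        exact card_le_one.1 h8 x (mem_sdiff.2 ⟨hxQ, (hNT b0 hb0).1⟩) x0 (mem_sdiff.2 ⟨hx0, hx1⟩)
      intro i hi
      by_cases hia : i = a
      · simp only [hia, if_true]
        rw [hNa, hxx]
      · simp only [if_neg hia]
        exact (hNT i (mem_of_mem_insert_of_ne hi hia)).2
    · have h7 : (univ.filter (fun N : Equiv.Perm (Fin 8) =>
          ∃ x ∈ Q, N a = x ∧ ∀ b ∈ T, x ∉ F b ∧ N b = y b)) = ∅ := by
        rw [filter_eq_empty_iff]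
        rintro N - ⟨x, hxQ, -, hNT⟩
        exact hx ⟨x, hxQ, (hNT b0 hb0).1⟩
      rw [h7, card_empty]
      omega
  have c3 := card_le_card hsub
  have c4 := card_union_le
    ((powersetCard 3 B).biUnion (fun T => univ.filter (fun N : Equiv.Perm (Fin 8) => ∀ b ∈ T, N b = y b)))
    ((powersetCard 2 B).biUnion (fun T => univ.filter (fun N : Equiv.Perm (Fin 8) =>
        ∃ x ∈ Q, N a = x ∧ ∀ b ∈ T, x ∉ F b ∧ N b = y b)))
  omega

end Pool.Agent.MP_dc7d7b.TF
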