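import Pool.Agent.Lib.MP_dc7d7b_co.TF.Str
import Pool.Agent.Lib.MP_dc7d7b_co.TF.Blk3
import Pool.Agent.Lib.MP_dc7d7b_co.TF.Blk4
import Pool.Agent.Lib.MP_dc7d7b_co.TF.Blk5

set_option autoImplicit false

/-! The exceptional families have at most 2400 bad permutations. -/

namespace Pool.Agent.MP_dc7d7b.TF

open Finset Classical

private theorem bad_tr_count' (F : Fin 8 → Finset (Fin 8)) :
    (univ.filter (fun N => Bad F N)).card ≤ (univ.filter (fun N => Bad (tr F) N)).card := by
  refine Finset.card_le_card_of_injOn (fun N => N⁻¹) ?_ (inv_injective.injOn)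
  intro N hN
  simp only [Finset.coe_filter, Finset.mem_univ, true_and, Set.mem_ofPred_eq] at hN ⊢
  exact bad_tr hN

private theorem x2_count' {F : Fin 8 → Finset (Fin 8)} (hF : Deg3 F) (h : X2 F) :
    (univ.filter (fun N => Bad F N)).card ≤ 2400 := by
  obtain ⟨Q, hQ, h0, S, hS, hS4, hd⟩ := h
  have h5 := t1_le_five hF hQ h0
  have h4 : 4 ≤ (T1 F Q).card := by
    have := Finset.card_le_card hS
    omega
  rcases Nat.lt_or_ge 4 (T1 F Q).card with h6 | h6
  · exact blk5 hF hQ h0 (by omega)
  · have h7 : (T1 F Q).card = 4 := by omega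
    have h8 : S = T1 F Q := Finset.eq_of_subset_of_card_le hS (by omega)
    subst h8
    have h9 : (T0 F Q).card = 1 := by
      have h10 : 1 ≤ (T0 F Q).card := Finset.card_pos.mpr h0
      by_contra hne
      have := t1_le_three hF hQ (by omega)
      omega
    exact blk4 hF hQ h9 h7 hd

theorem blk_count {F : Fin 8 → Finset (Fin 8)} (hF : Deg3 F) (h2 : Two F) (h : X1 F ∨ X1 (tr F) ∨ X2 F ∨ X2 (tr F)) :
    (univ.filter (fun N => Bad F N)).card ≤ 2400 := by
  rcases h with h | h | h | h
  · exact (blk3 hF h2 h).trans (by norm_num)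
  · exact (bad_tr_count' F).trans ((blk3 hF.tr h2.tr h).trans (by norm_num))
  · exact x2_count' hF h
  · exact (bad_tr_count' F).trans (x2_count' hF.tr h)

end Pool.Agent.MP_dc7d7b.TF
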