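import Pool.Agent.Lib.MP_dc7d7b_co.TF.Def4

set_option autoImplicit false

/-!
ELU (130 lines). The set Q of `RB` is unique. Let Q ≠ Q', R ⊆ R4 E Q, R' ⊆ R4 E Q', card 4, the rows of R are hit by N outside
Q, the rows of R' by N' outside Q'. For r in R, E r \ Q = {N r} (card 4 - 3 = 1), these are different columns.
(a) card (Q ∩ Q') = 2 (p = Q ∩ Q'): a row in R and R' has E r = Q ∪ Q', so N r is the element of Q' \ Q; so at most one such
row, card (R ∪ R') ≥ 7. The six columns outside p have at least 4 rows each: at least 24 cells outside p. The rows of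
R ∪ R' have two cells outside p each, another row at most 6: at most 7 * 2 + 6 = 20 (or 16). Contradiction.
(b) card (Q ∩ Q') ≤ 1: a row in R and R' has card (E r) ≥ card (Q ∪ Q') ≥ 5: none. So R' = Rᶜ and all rows have exactly 4
cells, 32 in total, and all columns at least 4, so exactly 4. A column of Q' contains the 4 rows of R', so it contains
no row of R: the 4 elements N r (r in R) are not in Q' (N r ∈ E r), not in Q; so card (Q ∪ Q') ≤ 4, contradiction.
-/

namespace Pool.Agent.MP_dc7d7b.TF

open Finset

private theorem elu_sum (F : Fin 8 → Finset (Fin 8)) (S : Finset (Fin 8)) :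
    ∑ r, (F r ∩ S).card = ∑ e ∈ S, (tr F e).card := by
  have h1 : ∀ r, (F r ∩ S).card = ∑ e ∈ S, if e ∈ F r then 1 else 0 := by
    intro r
    rw [← card_filter]
    congr 1
    ext x
    simp only [mem_inter, mem_filter]
    exact and_comm
  have h2 : ∀ e, (tr F e).card = ∑ r, if e ∈ F r then 1 else 0 := by
    intro e
    unfold tr
    rw [card_filter]
  simp_rw [h1, h2]
  exact sum_comm

theorem rb_unique {E : Fin 8 → Finset (Fin 8)} (hE : Deg4 E) {N N' : Equiv.Perm (Fin 8)} {Q Q' : Finset (Fin 8)}
    (h : RB E N Q) (h' : RB E N' Q') : Q = Q' := by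
  by_contra hne
  obtain ⟨hQ, R, hR, hR4, hN⟩ := h
  obtain ⟨hQ', R', hR', hR4', hN'⟩ := h'
  have hRm : ∀ r ∈ R, Q ⊆ E r ∧ (E r).card = 4 := fun r hr => mem_R4.1 (hR hr)
  have hRm' : ∀ r ∈ R', Q' ⊆ E r ∧ (E r).card = 4 := fun r hr => mem_R4.1 (hR' hr)
  have hint : (Q ∩ Q').card ≤ 2 := by
    by_contra hc
    have h1 : Q ∩ Q' = Q := eq_of_subset_of_card_le inter_subset_left (by omega)
    have h2 : Q ⊆ Q' := inter_eq_left.1 h1
    exact hne (eq_of_subset_of_card_le h2 (by omega))
  have hun : (Q ∪ Q').card + (Q ∩ Q').card = 6 := by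
    rw [card_union_add_card_inter]
    omega
  have hRR : (R ∪ R').card + (R ∩ R').card = 8 := by
    rw [card_union_add_card_inter]
    omega
  rcases Nat.lt_or_ge (Q ∩ Q').card 2 with hi | hi
  · have hdis : R ∩ R' = ∅ := by
      rw [eq_empty_iff_forall_notMem]
      intro r hr
      rw [mem_inter] at hr
      have h1 := card_le_card (union_subset (hRm r hr.1).1 (hRm' r hr.2).1)
      have h2 := (hRm r hr.1).2
      omega
    rw [hdis, card_empty] at hRR
    have huniv : R ∪ R' = univ := by
      apply eq_of_subset_of_card_le (subset_univ _)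
      rw [card_univ, Fintype.card_fin]
      omega
    have hrow : ∀ r, (E r).card = 4 := by
      intro r
      have h1 : r ∈ R ∪ R' := by
        rw [huniv]
        exact mem_univ r
      rcases mem_union.1 h1 with h1 | h1
      · exact (hRm r h1).2
      · exact (hRm' r h1).2
    have hcolsum : ∑ c, (tr E c).card = 32 := by
      rw [← elu_sum E univ]
      simp [hrow]
    have hcol : ∀ c, (tr E c).card = 4 := by
      intro c
      have h1 := hE.col c
      by_contra hc
      have h2 : ∑ _c : Fin 8, 4 < ∑ c, (tr E c).card :=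
        sum_lt_sum (fun i _ => hE.col i) ⟨c, mem_univ c, by omega⟩
      rw [sum_const, card_univ, Fintype.card_fin, smul_eq_mul] at h2
      omega
    have hR'col : ∀ c ∈ Q', tr E c = R' := by
      intro c hc
      symm
      apply eq_of_subset_of_card_le
      · intro r hr
        rw [mem_tr]
        exact (hRm' r hr).1 hc
      · rw [hcol c, hR4']
    have hsub : R.image N ⊆ (Q ∪ Q')ᶜ := by
      intro x hx
      obtain ⟨r, hr, rfl⟩ := mem_image.1 hx
      have h1 := mem_sdiff.1 (hN r hr)
      rw [mem_compl, mem_union, not_or]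
      refine ⟨h1.2, fun h2 => ?_⟩
      have h3 : r ∈ tr E (N r) := mem_tr.2 h1.1
      rw [hR'col _ h2] at h3
      have h4 : r ∈ R ∩ R' := mem_inter.2 ⟨hr, h3⟩
      rw [hdis] at h4
      exact absurd h4 (notMem_empty _)
    have h1 := card_le_card hsub
    rw [card_image_of_injective _ N.injective, card_compl, Fintype.card_fin] at h1
    omega
  · have h7 : (R ∩ R').card ≤ 1 := by
      obtain ⟨z, hz⟩ : ∃ z, Q' \ Q = {z} := by
        apply card_eq_one.1
        have h1 := card_sdiff_add_card_inter Q' Q
        rw [inter_comm] at h1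
        omega
      have key : ∀ r ∈ R ∩ R', N r = z := by
        intro r hr
        rw [mem_inter] at hr
        have h1 : Q ∪ Q' = E r :=
          eq_of_subset_of_card_le (union_subset (hRm r hr.1).1 (hRm' r hr.2).1) (by
            rw [(hRm r hr.1).2]
            omega)
        have h2 := hN r hr.1
        rw [← h1, mem_sdiff, mem_union] at h2
        have h3 : N r ∈ Q' \ Q := mem_sdiff.2 ⟨h2.1.resolve_left h2.2, h2.2⟩
        rw [hz, mem_singleton] at h3
        exact h3
      rw [card_le_one]
      intro a ha b hb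
      exact N.injective ((key a ha).trans (key b hb).symm)
    have hS : ((Q ∩ Q')ᶜ).card = 6 := by
      rw [card_compl, Fintype.card_fin]
      omega
    have hlow : 24 ≤ ∑ r, (E r ∩ (Q ∩ Q')ᶜ).card := by
      rw [elu_sum]
      have h1 : ∑ _c ∈ (Q ∩ Q')ᶜ, 4 ≤ ∑ e ∈ (Q ∩ Q')ᶜ, (tr E e).card := sum_le_sum (fun c _ => hE.col c)
      rw [sum_const, hS, smul_eq_mul] at h1
      omega
    have hup : ∑ r, (E r ∩ (Q ∩ Q')ᶜ).card ≤ (R ∪ R').card * 2 + ((R ∪ R')ᶜ).card * 6 := by
      rw [← sum_add_sum_compl (R ∪ R')]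
      apply add_le_add
      · rw [← smul_eq_mul]
        apply sum_le_card_nsmul
        intro r hr
        have h2 : Q ∩ Q' ⊆ E r ∧ (E r).card = 4 := by
          rcases mem_union.1 hr with h1 | h1
          · exact ⟨inter_subset_left.trans (hRm r h1).1, (hRm r h1).2⟩
          · exact ⟨inter_subset_right.trans (hRm' r h1).1, (hRm' r h1).2⟩
        have h3 : E r ∩ (Q ∩ Q')ᶜ = E r \ (Q ∩ Q') := by
          ext x
          rw [mem_inter, mem_compl, mem_sdiff]
        have h4 := card_sdiff_add_card_inter (E r) (Q ∩ Q')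
        rw [inter_eq_right.2 h2.1] at h4
        rw [h3]
        omega
      · rw [← smul_eq_mul]
        apply sum_le_card_nsmul
        intro r _
        exact (card_le_card inter_subset_right).trans hS.le
    have h8 : ((R ∪ R')ᶜ).card = 8 - (R ∪ R').card := by
      rw [card_compl, Fintype.card_fin]
    omega

end Pool.Agent.MP_dc7d7b.TF
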