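import Pool.Agent.Lib.MP_dc7d7b_co.TF.Def4

set_option autoImplicit false

/-!
ELX (90 lines). Q for the rows, Q' (a set of three rows) for the columns: R4 E Q and Q' are disjoint.
Let C' ⊆ R4 (tr E) Q', card C' = 4, be the four columns hit by N' outside Q', and R ⊆ R4 E Q the four rows.
Let r be in R4 E Q and in Q'. Row r has exactly 4 cells, and the 4 columns of C' contain Q' ∋ r, so E r = C', hence
Q ⊆ C'. Take two columns c ≠ c' of Q: they are in C', so have exactly 4 rows; all 4 rows of R contain Q, so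
tr E c = R = tr E c'. But tr E c \ Q' = {N' c} and tr E c' \ Q' = {N' c'} and N' c ≠ N' c'. Contradiction.
-/

namespace Pool.Agent.MP_dc7d7b.TF

open Finset

theorem rb_cross {E : Fin 8 → Finset (Fin 8)} (hE : Deg4 E) {N N' : Equiv.Perm (Fin 8)} {Q Q' : Finset (Fin 8)}
    (h : RB E N Q) (h' : RB (tr E) N' Q') : Disjoint (R4 E Q) Q' := by
  obtain ⟨hQ, R, hR, hRc, hRN⟩ := h
  obtain ⟨hQ', C', hC', hCc, hCN⟩ := h'
  rw [Finset.disjoint_left]
  intro r hr hrQ'
  obtain ⟨hQr, hEr⟩ := mem_R4.1 hr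
  have h1 : C' ⊆ E r := by
    intro c hc
    have h2 := (mem_R4.1 (hC' hc)).1 hrQ'
    exact mem_tr.1 h2
  have h3 : C' = E r := Finset.eq_of_subset_of_card_le h1 (by rw [hEr, hCc])
  obtain ⟨c, hc, c', hc', hne⟩ := Finset.one_lt_card.1 (by rw [hQ]; norm_num : 1 < Q.card)
  have h4 : ∀ a ∈ Q, a ∈ C' ∧ tr E a = R := by
    intro a ha
    have h5 : a ∈ C' := by rw [h3]; exact hQr ha
    refine ⟨h5, ?_⟩
    have h6 : R ⊆ tr E a := by
      intro r' hr'
      exact mem_tr.2 ((mem_R4.1 (hR hr')).1 ha)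
    have h7 : (tr E a).card = 4 := (mem_R4.1 (hC' h5)).2
    exact (Finset.eq_of_subset_of_card_le h6 (by rw [h7, hRc])).symm
  obtain ⟨k1, k2⟩ := h4 c hc
  obtain ⟨k1', k2'⟩ := h4 c' hc'
  have h8 : N' c ∈ R \ Q' := by
    have := hCN c k1
    rwa [k2] at this
  have h9 : N' c' ∈ R \ Q' := by
    have := hCN c' k1'
    rwa [k2'] at this
  have h10 : Q' ⊆ R := by
    have := (mem_R4.1 (hC' k1)).1
    rwa [k2] at this
  have h11 : (R \ Q').card = 1 := by
    rw [Finset.card_sdiff_of_subset h10, hRc, hQ']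
  obtain ⟨w, hw⟩ := Finset.card_eq_one.1 h11
  rw [hw, Finset.mem_singleton] at h8 h9
  exact hne (N'.injective (h8.trans h9.symm))

end Pool.Agent.MP_dc7d7b.TF
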