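import Pool.Agent.Lib.MP_dc7d7b_co.TF.ElA
import Pool.Agent.Lib.MP_dc7d7b_co.TF.ElU
import Pool.Agent.Lib.MP_dc7d7b_co.TF.ElM
import Pool.Agent.Lib.MP_dc7d7b_co.TF.ElX

set_option autoImplicit false

/-!
ELEM (150 lines). M of at most five cells hit by every bad N at least 4 times.
For a set Q let A Q be the set of cells (r, c) with r ∈ R4 E Q, c ∈ E r \ Q (one for each r), and B Q' the set of cells
(r, c) with c ∈ R4 (tr E) Q', r ∈ tr E c \ Q'.
If RB E N Q then N contains at least 4 cells of A Q; if RB (tr E) N⁻¹ Q' then N contains at least 4 cells of B Q'.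
Cases: (1) no RB E N Q for any N, Q and no RB (tr E) N Q: M = ∅ (no N is bad, `bad_four`). (2) RB E N0 Q for some N0, Q and none
for tr E: M = A Q (Q is the same for all N by `rb_unique`; `rb_match`: card ≤ 5, different columns). (3) the transposed case:
M = B Q'. (4) both: M = A Q ∪ B Q'. By `rb_cross` (for E, and for tr E with `tr_tr`) R4 E Q is disjoint from Q' and
R4 (tr E) Q' is disjoint from Q. So all cells of M are in Q'ᶜ × Qᶜ. Two different cells of M have different rows and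
columns: in A Q and in B Q' by `rb_match`; x = (r, c) ∈ A Q and y = (r', c') ∈ B Q': if r = r' then c' ∈ E r (allowed), c' ∉ Q, so
c' ∈ E r \ Q = {c}: x = y; if c = c' then r ∈ tr E c, r ∉ Q', so r ∈ tr E c \ Q' = {r'}: x = y. So the first coordinate is injective on
M with values in Q'ᶜ: card M ≤ 5. (Cases 2 and 3 are not special: card A Q = card (R4 E Q) ≤ 5.)
-/

namespace Pool.Agent.MP_dc7d7b.TF

open Finset

/-- the cells of the rows -/
private def cA (E : Fin 8 → Finset (Fin 8)) (Q : Finset (Fin 8)) : Finset (Fin 8 × Fin 8) :=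
  univ.filter fun x => x.1 ∈ R4 E Q ∧ x.2 ∈ E x.1 \ Q

/-- the cells of the columns -/
private def cB (E : Fin 8 → Finset (Fin 8)) (Q : Finset (Fin 8)) : Finset (Fin 8 × Fin 8) :=
  univ.filter fun x => x.2 ∈ R4 (tr E) Q ∧ x.1 ∈ tr E x.2 \ Q

private theorem mem_cA {E : Fin 8 → Finset (Fin 8)} {Q : Finset (Fin 8)} {x : Fin 8 × Fin 8} :
    x ∈ cA E Q ↔ x.1 ∈ R4 E Q ∧ x.2 ∈ E x.1 \ Q := by simp only [cA, mem_filter, mem_univ, true_and]

private theorem mem_cB {E : Fin 8 → Finset (Fin 8)} {Q : Finset (Fin 8)} {x : Fin 8 × Fin 8} :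
    x ∈ cB E Q ↔ x.2 ∈ R4 (tr E) Q ∧ x.1 ∈ tr E x.2 \ Q := by simp only [cB, mem_filter, mem_univ, true_and]

private theorem el_sing {E : Fin 8 → Finset (Fin 8)} {Q : Finset (Fin 8)} {r a b : Fin 8} (hQ : Q.card = 3) (hr : r ∈ R4 E Q)
    (ha : a ∈ E r \ Q) (hb : b ∈ E r \ Q) : a = b := by
  obtain ⟨h1, h2⟩ := mem_R4.1 hr
  have h3 := card_sdiff_of_subset h1
  exact card_le_one.1 (by omega) a ha b hb

private theorem matA {E : Fin 8 → Finset (Fin 8)} (hE : Deg4 E) {N : Equiv.Perm (Fin 8)} {Q : Finset (Fin 8)} (h : RB E N Q)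
    {x y : Fin 8 × Fin 8} (hx : x ∈ cA E Q) (hy : y ∈ cA E Q) (hxy : x ≠ y) : x.1 ≠ y.1 ∧ x.2 ≠ y.2 := by
  obtain ⟨hx1, hx2⟩ := mem_cA.1 hx
  obtain ⟨hy1, hy2⟩ := mem_cA.1 hy
  have h1 : x.1 ≠ y.1 := by
    intro h1
    apply hxy
    rw [← h1] at hy2
    exact Prod.ext h1 (el_sing h.1 hx1 hx2 hy2)
  refine ⟨h1, fun h2 => ?_⟩
  have h3 := (rb_match hE h).2 x.1 hx1 y.1 hy1 h1
  rw [disjoint_left] at h3
  rw [h2] at hx2
  exact h3 hx2 hy2

private theorem matB {E : Fin 8 → Finset (Fin 8)} (hE : Deg4 E) {N : Equiv.Perm (Fin 8)} {Q : Finset (Fin 8)} (h : RB (tr E) N Q)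
    {x y : Fin 8 × Fin 8} (hx : x ∈ cB E Q) (hy : y ∈ cB E Q) (hxy : x ≠ y) : x.1 ≠ y.1 ∧ x.2 ≠ y.2 := by
  have hx' : x.swap ∈ cA (tr E) Q := mem_cA.2 (mem_cB.1 hx)
  have hy' : y.swap ∈ cA (tr E) Q := mem_cA.2 (mem_cB.1 hy)
  have h1 := matA hE.tr h hx' hy' (fun h2 => hxy (Prod.swap_injective h2))
  exact ⟨h1.2, h1.1⟩

private theorem hitA {E : Fin 8 → Finset (Fin 8)} {N : Equiv.Perm (Fin 8)} {Q : Finset (Fin 8)} (h : RB E N Q)
    {M : Finset (Fin 8 × Fin 8)} (hM : cA E Q ⊆ M) : 4 ≤ hit M N := by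
  obtain ⟨-, R, hR, hc, hN⟩ := h
  rw [← hc]
  unfold hit
  refine card_le_card_of_injOn (fun r => (r, N r)) ?_ ?_
  · intro r hr
    have hr' : r ∈ R := hr
    exact mem_coe.2 (mem_filter.2 ⟨hM (mem_cA.2 ⟨hR hr', hN r hr'⟩), rfl⟩)
  · intro r _ r' _ h1
    exact (Prod.mk.inj h1).1

private theorem hitB {E : Fin 8 → Finset (Fin 8)} {N : Equiv.Perm (Fin 8)} {Q : Finset (Fin 8)} (h : RB (tr E) N⁻¹ Q)
    {M : Finset (Fin 8 × Fin 8)} (hM : cB E Q ⊆ M) : 4 ≤ hit M N := by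
  obtain ⟨-, R, hR, hc, hN⟩ := h
  rw [← hc]
  unfold hit
  refine card_le_card_of_injOn (fun c => (N⁻¹ c, c)) ?_ ?_
  · intro c hcR
    have hc' : c ∈ R := hcR
    exact mem_coe.2 (mem_filter.2 ⟨hM (mem_cB.2 ⟨hR hc', hN c hc'⟩), Equiv.apply_symm_apply N c⟩)
  · intro c _ c' _ h1
    exact (Prod.mk.inj h1).2

private theorem cardM {M : Finset (Fin 8 × Fin 8)} (hM : Mat M) {S : Finset (Fin 8)} (hS : ∀ x ∈ M, x.1 ∈ S) : M.card ≤ S.card := by
  refine card_le_card_of_injOn Prod.fst (fun x hx => mem_coe.2 (hS x (mem_coe.1 hx))) ?_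
  intro x hx y hy h
  by_contra hxy
  exact (hM x (mem_coe.1 hx) y (mem_coe.1 hy) hxy).1 h

private theorem cardM' {M : Finset (Fin 8 × Fin 8)} (hM : Mat M) {S : Finset (Fin 8)} (hS : ∀ x ∈ M, x.2 ∈ S) : M.card ≤ S.card := by
  refine card_le_card_of_injOn Prod.snd (fun x hx => mem_coe.2 (hS x (mem_coe.1 hx))) ?_
  intro x hx y hy h
  by_contra hxy
  exact (hM x (mem_coe.1 hx) y (mem_coe.1 hy) hxy).2 h

theorem elem {E : Fin 8 → Finset (Fin 8)} (hE : Deg4 E) :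
    ∃ M : Finset (Fin 8 × Fin 8), Mat M ∧ M.card ≤ 5 ∧ ∀ N : Equiv.Perm (Fin 8), Bad E N → 4 ≤ hit M N := by
  by_cases hA : ∃ N Q, RB E N Q
  · obtain ⟨N0, Q, h0⟩ := hA
    have hm := rb_match hE h0
    by_cases hB : ∃ N Q', RB (tr E) N Q'
    · obtain ⟨N1, Q', h1⟩ := hB
      have hd1 : Disjoint (R4 E Q) Q' := rb_cross hE h0 h1
      have hd2 : Disjoint (R4 (tr E) Q') Q := rb_cross hE.tr h1 (by rw [tr_tr]; exact h0)
      rw [disjoint_left] at hd1 hd2
      have key : ∀ x ∈ cA E Q, ∀ y ∈ cB E Q', x ≠ y → x.1 ≠ y.1 ∧ x.2 ≠ y.2 := by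
        intro x hx y hy hxy
        obtain ⟨hx1, hx2⟩ := mem_cA.1 hx
        obtain ⟨hy1, hy2⟩ := mem_cB.1 hy
        constructor
        · intro h
          apply hxy
          have h2 : y.2 ∈ E x.1 \ Q := by
            refine mem_sdiff.2 ⟨?_, hd2 hy1⟩
            rw [h]
            exact mem_tr.1 (mem_sdiff.1 hy2).1
          exact Prod.ext h (el_sing h0.1 hx1 hx2 h2)
        · intro h
          apply hxy
          have h2 : x.1 ∈ tr E y.2 \ Q' := by
            refine mem_sdiff.2 ⟨?_, hd1 hx1⟩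
            rw [← h]
            exact mem_tr.2 (mem_sdiff.1 hx2).1
          exact Prod.ext (el_sing h1.1 hy1 h2 hy2) h
      have hM : Mat (cA E Q ∪ cB E Q') := by
        intro x hx y hy hxy
        rcases mem_union.1 hx with hx | hx <;> rcases mem_union.1 hy with hy | hy
        · exact matA hE h0 hx hy hxy
        · exact key x hx y hy hxy
        · have h2 := key y hy x hx (Ne.symm hxy)
          exact ⟨h2.1.symm, h2.2.symm⟩
        · exact matB hE h1 hx hy hxy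
      refine ⟨cA E Q ∪ cB E Q', hM, ?_, ?_⟩
      · have h2 : (cA E Q ∪ cB E Q').card ≤ (Q'ᶜ).card := by
          refine cardM hM fun x hx => ?_
          rw [mem_compl]
          rcases mem_union.1 hx with hx | hx
          · exact hd1 (mem_cA.1 hx).1
          · exact (mem_sdiff.1 (mem_cB.1 hx).2).2
        rw [card_compl, Fintype.card_fin, h1.1] at h2
        exact h2
      · intro N hN
        rcases bad_four hE hN with ⟨Q1, hQ1⟩ | ⟨Q1, hQ1⟩
        · rw [← rb_unique hE h0 hQ1] at hQ1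
          exact hitA hQ1 subset_union_left
        · rw [← rb_unique hE.tr h1 hQ1] at hQ1
          exact hitB hQ1 subset_union_right
    · have hM : Mat (cA E Q) := fun x hx y hy hxy => matA hE h0 hx hy hxy
      refine ⟨cA E Q, hM, (cardM hM fun x hx => (mem_cA.1 hx).1).trans hm.1, fun N hN => ?_⟩
      rcases bad_four hE hN with ⟨Q1, hQ1⟩ | ⟨Q1, hQ1⟩
      · rw [← rb_unique hE h0 hQ1] at hQ1
        exact hitA hQ1 Subset.rfl
      · exact absurd ⟨_, Q1, hQ1⟩ hB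
  · by_cases hB : ∃ N Q', RB (tr E) N Q'
    · obtain ⟨N1, Q', h1⟩ := hB
      have hM : Mat (cB E Q') := fun x hx y hy hxy => matB hE h1 hx hy hxy
      refine ⟨cB E Q', hM, (cardM' hM fun x hx => (mem_cB.1 hx).1).trans (rb_match hE.tr h1).1, fun N hN => ?_⟩
      rcases bad_four hE hN with ⟨Q1, hQ1⟩ | ⟨Q1, hQ1⟩
      · exact absurd ⟨_, Q1, hQ1⟩ hA
      · rw [← rb_unique hE.tr h1 hQ1] at hQ1
        exact hitB hQ1 Subset.rfl
    · refine ⟨∅, fun x hx => absurd hx (notMem_empty x), by simp, fun N hN => ?_⟩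
      rcases bad_four hE hN with ⟨Q1, hQ1⟩ | ⟨Q1, hQ1⟩
      · exact absurd ⟨_, Q1, hQ1⟩ hA
      · exact absurd ⟨_, Q1, hQ1⟩ hB

end Pool.Agent.MP_dc7d7b.TF
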