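import Pool.Agent.Lib.MP_dc7d7b_co.TF.Flem
import Pool.Agent.Lib.MP_dc7d7b_co.TF.Elem

set_option autoImplicit false

/-! # The pair lemma: degrees at least three (with a perfect matching) and at least four -/

namespace Pool.Agent.MP_dc7d7b.TF

open Finset

theorem pair34 {F E : Fin 8 → Finset (Fin 8)} (hF : Deg3 F) (hP : ∃ P : Equiv.Perm (Fin 8), ∀ r, P r ∈ F r)
    (hE : Deg4 E) :
    ∃ P P' : Equiv.Perm (Fin 8), (∀ r, P r ∈ F r) ∧ ∀ r, P' r ∈ E r ∧ P' r ≠ P r := by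
  obtain ⟨M, hM, h5, hb⟩ := elem hE
  obtain ⟨P, hP1, hP2⟩ := flem hF hP M hM h5
  obtain ⟨P', hP'⟩ := good_of_not_bad E P (by
    intro h
    have := hb P h
    omega)
  exact ⟨P, P', hP1, hP'⟩

end Pool.Agent.MP_dc7d7b.TF
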