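import Pool.Agent.Lib.MP_dc7d7b_co.Main
import Pool.Agent.Lib.MP_dc7d7b_co.TF.P34

set_option autoImplicit false

/-!
# The pair step

If some vertex has degree at most five in `G[S]`, remove it and recolour it together with one neighbour by the pair
lemma.
-/

namespace Pool.Agent.MP_dc7d7b.TF

open Finset Classical

theorem fam_card {k : ℕ} {D : Fin 8 → Fin 8 → Prop} (hD : Deg k D) (π : Equiv.Perm (Fin 8)) :
    (∀ i, 8 - k ≤ (univ.filter (fun c => ¬ D i (π c))).card) ∧
    ∀ c, 8 - k ≤ (tr (fun i => univ.filter (fun c => ¬ D i (π c))) c).card := by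
  constructor
  · intro i
    have h1 : (univ.filter (fun c => D i (π c))).card ≤ k := by
      refine le_trans (Finset.card_le_card_of_injOn π ?_ π.injective.injOn) (hD.1 i)
      intro c hc
      simpa using hc
    have h2 : (univ.filter (fun c => D i (π c))).card + (univ.filter (fun c => ¬ D i (π c))).card = 8 := by
      have := Finset.card_filter_add_card_filter_not (s := (univ : Finset (Fin 8))) (fun c => D i (π c))
      rw [Finset.card_univ, Fintype.card_fin] at this
      exact this
    omega
  · intro c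
    have h1 := hD.2 (π c)
    have h2 : (univ.filter (fun i => D i (π c))).card + (tr (fun i => univ.filter (fun c => ¬ D i (π c))) c).card = 8 := by
      have := Finset.card_filter_add_card_filter_not (s := (univ : Finset (Fin 8))) (fun i => D i (π c))
      rw [Finset.card_univ, Fintype.card_fin] at this
      have h3 : tr (fun i => univ.filter (fun c => ¬ D i (π c))) c = univ.filter (fun i => ¬ D i (π c)) := by
        ext i
        rw [mem_tr]
        simp
      rw [h3]
      exact this
    omega

theorem pair_step {V : Type} {G : SimpleGraph V} {H : SimpleGraph (V × Fin 8)} (hH : Cover G H)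
    (hdeg : ∀ (S : Finset V) (v : V), (S.filter (fun u => G.Adj v u)).card ≤ 6) {S : Finset V} {v : V} (hv : v ∈ S)
    (h5 : (S.filter (fun u => G.Adj v u)).card ≤ 5) {f : V → Equiv.Perm (Fin 8)}
    (hf : ∀ i, ∀ x ∈ S.erase v, ∀ y ∈ S.erase v, ¬ H.Adj (x, f x i) (y, f y i)) :
    ∃ g : V → Equiv.Perm (Fin 8), ∀ i, ∀ x ∈ S, ∀ y ∈ S, ¬ H.Adj (x, g x i) (y, g y i) := by
  rcases (S.filter (fun u => G.Adj v u)).eq_empty_or_nonempty with h0 | ⟨u, hu⟩
  · refine ⟨f, ?_⟩
    have hno : ∀ x ∈ S, ¬ G.Adj v x := by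
      intro x hx hadj
      have : x ∈ S.filter (fun u => G.Adj v u) := Finset.mem_filter.mpr ⟨hx, hadj⟩
      rw [h0] at this
      simp at this
    intro i x hx y hy hadj
    by_cases hxv : x = v
    · subst hxv
      exact hno y hy (hH.edge _ _ _ _ hadj)
    · by_cases hyv : y = v
      · subst hyv
        exact hno x hx (hH.edge _ _ _ _ hadj).symm
      · exact hf i x (Finset.mem_erase.mpr ⟨hxv, hx⟩) y (Finset.mem_erase.mpr ⟨hyv, hy⟩) hadj
  rw [Finset.mem_filter] at hu
  obtain ⟨huS, huv⟩ := hu
  have hne : u ≠ v := fun h => by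
    subst h
    exact G.loopless.irrefl _ huv
  set W := (S.erase v).erase u with hW
  have hWmem : ∀ x, x ∈ W ↔ (x ∈ S ∧ x ≠ v ∧ x ≠ u) := by
    intro x
    rw [hW, Finset.mem_erase, Finset.mem_erase]
    tauto
  have hWv : (W.filter (fun w => G.Adj v w)).card ≤ 4 := by
    have h1 : insert u (W.filter (fun w => G.Adj v w)) ⊆ S.filter (fun w => G.Adj v w) := by
      intro x hx
      rw [Finset.mem_insert] at hx
      rcases hx with rfl | hx
      · exact Finset.mem_filter.mpr ⟨huS, huv⟩
      · rw [Finset.mem_filter] at hx ⊢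
        exact ⟨((hWmem x).mp hx.1).1, hx.2⟩
    have h2 := (Finset.card_le_card h1).trans h5
    rw [Finset.card_insert_of_notMem] at h2
    · omega
    · rw [Finset.mem_filter]
      rintro ⟨h3, _⟩
      exact ((hWmem u).mp h3).2.2 rfl
  have hWu : (W.filter (fun w => G.Adj u w)).card ≤ 5 := by
    have h1 : insert v (W.filter (fun w => G.Adj u w)) ⊆ S.filter (fun w => G.Adj u w) := by
      intro x hx
      rw [Finset.mem_insert] at hx
      rcases hx with rfl | hx
      · exact Finset.mem_filter.mpr ⟨hv, huv.symm⟩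
      · rw [Finset.mem_filter] at hx ⊢
        exact ⟨((hWmem x).mp hx.1).1, hx.2⟩
    have h2 := (Finset.card_le_card h1).trans (hdeg S u)
    rw [Finset.card_insert_of_notMem] at h2
    · omega
    · rw [Finset.mem_filter]
      rintro ⟨h3, _⟩
      exact ((hWmem v).mp h3).2.1 rfl
  obtain ⟨π, hπ⟩ : ∃ π : Equiv.Perm (Fin 8), ∀ a b, H.Adj (v, a) (u, b) → π a = b :=
    exists_extend (fun a b => H.Adj (v, a) (u, b)) (fun a b b' h h' => hH.mat _ _ _ _ _ h h')
      (fun a a' b h h' => hH.mat _ _ _ _ _ h.symm h'.symm)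
  set F : Fin 8 → Finset (Fin 8) := fun i => univ.filter (fun c => ¬ forb H W f u i (π c)) with hFdef
  set E : Fin 8 → Finset (Fin 8) := fun i => univ.filter (fun c => ¬ forb H W f v i ((1 : Equiv.Perm (Fin 8)) c)) with hEdef
  have hF : Deg3 F := by
    have h6 := fam_card ((forb_deg hH W f u).mono hWu) π
    exact ⟨fun r => h6.1 r, fun c => h6.2 c⟩
  have hE : Deg4 E := by
    have h6 := fam_card ((forb_deg hH W f v).mono hWv) 1
    exact ⟨fun r => h6.1 r, fun c => h6.2 c⟩
  have hP : ∃ P : Equiv.Perm (Fin 8), ∀ i, P i ∈ F i := by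
    refine ⟨(f u).trans π.symm, fun i => ?_⟩
    rw [hFdef]
    simp only [Equiv.trans_apply, Equiv.apply_symm_apply, Finset.mem_filter, Finset.mem_univ, true_and]
    rintro ⟨x, hx, hadj⟩
    have hx' := (hWmem x).mp hx
    exact hf i x (Finset.mem_erase.mpr ⟨hx'.2.1, hx'.1⟩) u (Finset.mem_erase.mpr ⟨hne, huS⟩) hadj
  obtain ⟨P, P', hP1, hP2⟩ := pair34 hF hP hE
  have hP1' : ∀ i, ¬ forb H W f u i (π (P i)) := by
    intro i
    have := hP1 i
    rw [hFdef] at this
    simpa using this
  have hP2' : ∀ i, ¬ forb H W f v i (P' i) := by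
    intro i
    have := (hP2 i).1
    rw [hEdef] at this
    simpa using this
  let g : V → Equiv.Perm (Fin 8) := fun x => if x = v then P' else if x = u then P.trans π else f x
  have gv : g v = P' := by simp [g]
  have gu : ∀ i, g u i = π (P i) := by
    intro i
    simp [g, hne]
  have gW : ∀ x, x ≠ v → x ≠ u → g x = f x := by
    intro x h1 h2
    simp [g, h1, h2]
  have kv : ∀ i, ∀ y ∈ S, ¬ H.Adj (v, g v i) (y, g y i) := by
    intro i y hy hadj
    by_cases hyv : y = v
    · subst hyv
      exact hH.fib _ _ _ hadj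
    · by_cases hyu : y = u
      · subst hyu
        rw [gv, gu] at hadj
        exact (hP2 i).2 (π.injective (hπ _ _ hadj))
      · rw [gv, gW y hyv hyu] at hadj
        exact hP2' i ⟨y, (hWmem y).mpr ⟨hy, hyv, hyu⟩, hadj.symm⟩
  have ku : ∀ i, ∀ y ∈ S, ¬ H.Adj (u, g u i) (y, g y i) := by
    intro i y hy hadj
    by_cases hyv : y = v
    · subst hyv
      exact kv i u huS hadj.symm
    · by_cases hyu : y = u
      · subst hyu
        exact hH.fib _ _ _ hadj
      · rw [gu, gW y hyv hyu] at hadj
        exact hP1' i ⟨y, (hWmem y).mpr ⟨hy, hyv, hyu⟩, hadj.symm⟩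
  refine ⟨g, ?_⟩
  intro i x hx y hy hadj
  by_cases hxv : x = v
  · subst hxv
    exact kv i y hy hadj
  · by_cases hxu : x = u
    · subst hxu
      exact ku i y hy hadj
    · by_cases hyv : y = v
      · subst hyv
        exact kv i x hx hadj.symm
      · by_cases hyu : y = u
        · subst hyu
          exact ku i x hx hadj.symm
        · rw [gW x hxv hxu, gW y hyv hyu] at hadj
          exact hf i x (Finset.mem_erase.mpr ⟨hxv, hx⟩) y (Finset.mem_erase.mpr ⟨hyv, hy⟩) hadj

end Pool.Agent.MP_dc7d7b.TF
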