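import Pool.Agent.Lib.MP_dc7d7b_co.TF.Prs
import Pool.Agent.Lib.MP_dc7d7b_co.TF.PStep

set_option autoImplicit false

/-!
# The last vertex

`v` has nonadjacent neighbours `x`, `y` such that the rest is connected: a packing of the rest in which `x` and `y` forbid
the same cells at `v`, and the pair lemma for `v` and a third neighbour.
-/

namespace Pool.Agent.MP_dc7d7b.TF

open Finset Classical

theorem brooks_step {V : Type} {G : SimpleGraph V} {H : SimpleGraph (V × Fin 8)} (hH : Cover G H)
    (hdeg : ∀ (T : Finset V) (v : V), dg G T v ≤ 6) {S : Finset V} {v x y : V} (hv : v ∈ S) (hx : x ∈ S) (hy : y ∈ S)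
    (hxy : x ≠ y) (hnxy : ¬ G.Adj x y) (hvx : G.Adj v x) (hvy : G.Adj v y) (h6 : dg G S v = 6)
    (hcon : Con G ((S.erase x).erase y)) : ∃ g : V → Equiv.Perm (Fin 8), Pk H S g := by
  have hxv : x ≠ v := fun h => by
    subst h
    exact G.loopless.irrefl _ hvx
  have hyv : y ≠ v := fun h => by
    subst h
    exact G.loopless.irrefl _ hvy
  have hπex : ∀ u : V, ∃ π : Equiv.Perm (Fin 8), ∀ a b, H.Adj (v, a) (u, b) → π a = b := fun u =>
    exists_extend (fun a b => H.Adj (v, a) (u, b)) (fun a b b' h h' => hH.mat _ _ _ _ _ h h')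
      (fun a a' b h h' => hH.mat _ _ _ _ _ h.symm h'.symm)
  choose pi hpi using hπex
  obtain ⟨f, fx, fy, hf⟩ := prescribed hH hdeg hv hxv hyv hxy hnxy hcon (pi x) (pi y) (S.erase v) (Finset.Subset.refl _)
  set N := S.filter (fun w => G.Adj v w) with hN
  have hN6 : N.card = 6 := h6
  have hxN : x ∈ N := Finset.mem_filter.mpr ⟨hx, hvx⟩
  have hyN : y ∈ N := Finset.mem_filter.mpr ⟨hy, hvy⟩
  obtain ⟨u, huN⟩ : ((N.erase x).erase y).Nonempty := by
    rw [← Finset.card_pos, Finset.card_erase_of_mem (Finset.mem_erase.mpr ⟨hxy.symm, hyN⟩),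
      Finset.card_erase_of_mem hxN, hN6]
    norm_num
  rw [Finset.mem_erase, Finset.mem_erase, hN, Finset.mem_filter] at huN
  obtain ⟨huy, hux, huS, huv⟩ := huN
  have hne : u ≠ v := fun h => by
    subst h
    exact G.loopless.irrefl _ huv
  set W := (S.erase v).erase u with hW
  have hWmem : ∀ z, z ∈ W ↔ (z ∈ S ∧ z ≠ v ∧ z ≠ u) := by
    intro z
    rw [hW, Finset.mem_erase, Finset.mem_erase]
    tauto
  set W' := (W.erase x).erase y with hW'
  have hWmem' : ∀ z, z ∈ W' ↔ (z ∈ S ∧ z ≠ v ∧ z ≠ u ∧ z ≠ x ∧ z ≠ y) := by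
    intro z
    rw [hW', Finset.mem_erase, Finset.mem_erase, hWmem]
    tauto
  have hWv : (W'.filter (fun w => G.Adj v w)).card ≤ 3 := by
    have h1 : insert u (insert x (insert y (W'.filter (fun w => G.Adj v w)))) ⊆ N := by
      intro z hz
      rw [Finset.mem_insert, Finset.mem_insert, Finset.mem_insert] at hz
      rcases hz with rfl | rfl | rfl | hz
      · exact Finset.mem_filter.mpr ⟨huS, huv⟩
      · exact hxN
      · exact hyN
      · rw [Finset.mem_filter] at hz
        exact Finset.mem_filter.mpr ⟨((hWmem' z).mp hz.1).1, hz.2⟩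
    have h2 := Finset.card_le_card h1
    rw [hN6, Finset.card_insert_of_notMem, Finset.card_insert_of_notMem, Finset.card_insert_of_notMem] at h2
    · omega
    · rw [Finset.mem_filter, hWmem']
      tauto
    · rw [Finset.mem_insert, Finset.mem_filter, hWmem']
      tauto
    · rw [Finset.mem_insert, Finset.mem_insert, Finset.mem_filter, hWmem']
      tauto
  have hWu : (W.filter (fun w => G.Adj u w)).card ≤ 5 := by
    have h1 : insert v (W.filter (fun w => G.Adj u w)) ⊆ S.filter (fun w => G.Adj u w) := by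
      intro z hz
      rw [Finset.mem_insert] at hz
      rcases hz with rfl | hz
      · exact Finset.mem_filter.mpr ⟨hv, huv.symm⟩
      · rw [Finset.mem_filter] at hz ⊢
        exact ⟨((hWmem z).mp hz.1).1, hz.2⟩
    have h2 := (Finset.card_le_card h1).trans (hdeg S u)
    rw [Finset.card_insert_of_notMem] at h2
    · omega
    · rw [Finset.mem_filter]
      rintro ⟨h3, _⟩
      exact ((hWmem v).mp h3).2.1 rfl
  obtain ⟨D, hDdef⟩ : ∃ D : Fin 8 → Fin 8 → Prop, ∀ i c, D i c ↔ (c = i ∨ forb H W' f v i c) :=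
    ⟨fun i c => c = i ∨ forb H W' f v i c, fun _ _ => Iff.rfl⟩
  have hD : Deg 4 D := by
    have h3 : Deg 3 (forb H W' f v) := (forb_deg hH W' f v).mono hWv
    constructor
    · intro i
      have h4 : univ.filter (fun c => D i c) ⊆ insert i (univ.filter (fun c => forb H W' f v i c)) := by
        intro c hc
        rw [Finset.mem_filter, hDdef] at hc
        rw [Finset.mem_insert, Finset.mem_filter]
        rcases hc.2 with h | h
        · exact Or.inl h
        · exact Or.inr ⟨Finset.mem_univ _, h⟩
      have h5 := (Finset.card_le_card h4).trans (Finset.card_insert_le _ _)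
      have h7 := h3.1 i
      omega
    · intro c
      have h4 : univ.filter (fun i => D i c) ⊆ insert c (univ.filter (fun i => forb H W' f v i c)) := by
        intro i hi
        rw [Finset.mem_filter, hDdef] at hi
        rw [Finset.mem_insert, Finset.mem_filter]
        rcases hi.2 with h | h
        · exact Or.inl h.symm
        · exact Or.inr ⟨Finset.mem_univ _, h⟩
      have h5 := (Finset.card_le_card h4).trans (Finset.card_insert_le _ _)
      have h7 := h3.2 c
      omega
  set F : Fin 8 → Finset (Fin 8) := fun i => univ.filter (fun c => ¬ forb H W f u i (pi u c)) with hFdef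
  set E : Fin 8 → Finset (Fin 8) := fun i => univ.filter (fun c => ¬ D i ((1 : Equiv.Perm (Fin 8)) c)) with hEdef
  have hF : Deg3 F := by
    have h7 := fam_card ((forb_deg hH W f u).mono hWu) (pi u)
    exact ⟨fun r => h7.1 r, fun c => h7.2 c⟩
  have hE : Deg4 E := by
    have h7 := fam_card hD 1
    exact ⟨fun r => h7.1 r, fun c => h7.2 c⟩
  have hP : ∃ P : Equiv.Perm (Fin 8), ∀ i, P i ∈ F i := by
    refine ⟨(f u).trans (pi u).symm, fun i => ?_⟩
    rw [hFdef]
    simp only [Equiv.trans_apply, Equiv.apply_symm_apply, Finset.mem_filter, Finset.mem_univ, true_and]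
    rintro ⟨z, hz, hadj⟩
    have hz' := (hWmem z).mp hz
    exact hf i z (Finset.mem_erase.mpr ⟨hz'.2.1, hz'.1⟩) u (Finset.mem_erase.mpr ⟨hne, huS⟩) hadj
  obtain ⟨P, P', hP1, hP2⟩ := pair34 hF hP hE
  have hP1' : ∀ i, ¬ forb H W f u i (pi u (P i)) := by
    intro i
    have := hP1 i
    rw [hFdef] at this
    simpa using this
  have hP2' : ∀ i, P' i ≠ i ∧ ¬ forb H W' f v i (P' i) := by
    intro i
    have h7 := (hP2 i).1
    rw [hEdef, Finset.mem_filter] at h7
    have h8 := h7.2
    rw [hDdef] at h8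
    simp only [Equiv.Perm.coe_one, id_eq, not_or] at h8
    exact h8
  let g : V → Equiv.Perm (Fin 8) := fun z => if z = v then P' else if z = u then P.trans (pi u) else f z
  have gv : g v = P' := by simp [g]
  have gu : ∀ i, g u i = pi u (P i) := by
    intro i
    simp [g, hne]
  have gW : ∀ z, z ≠ v → z ≠ u → g z = f z := by
    intro z h1 h2
    simp [g, h1, h2]
  have kv : ∀ i, ∀ z ∈ S, ¬ H.Adj (v, g v i) (z, g z i) := by
    intro i z hz hadj
    by_cases hzv : z = v
    · subst hzv
      exact hH.fib _ _ _ hadj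
    by_cases hzu : z = u
    · subst hzu
      rw [gv, gu] at hadj
      exact (hP2 i).2 ((pi z).injective (hpi z _ _ hadj))
    rw [gv, gW z hzv hzu] at hadj
    by_cases hzx : z = x
    · subst hzx
      rw [fx] at hadj
      exact (hP2' i).1 ((pi z).injective (hpi z _ _ hadj))
    by_cases hzy : z = y
    · subst hzy
      rw [fy] at hadj
      exact (hP2' i).1 ((pi z).injective (hpi z _ _ hadj))
    exact (hP2' i).2 ⟨z, (hWmem' z).mpr ⟨hz, hzv, hzu, hzx, hzy⟩, hadj.symm⟩
  have ku : ∀ i, ∀ z ∈ S, ¬ H.Adj (u, g u i) (z, g z i) := by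
    intro i z hz hadj
    by_cases hzv : z = v
    · subst hzv
      exact kv i u huS hadj.symm
    · by_cases hzu : z = u
      · subst hzu
        exact hH.fib _ _ _ hadj
      · rw [gu, gW z hzv hzu] at hadj
        exact hP1' i ⟨z, (hWmem z).mpr ⟨hz, hzv, hzu⟩, hadj.symm⟩
  refine ⟨g, ?_⟩
  intro i a ha b hb hadj
  by_cases hav : a = v
  · subst hav
    exact kv i b hb hadj
  · by_cases hau : a = u
    · subst hau
      exact ku i b hb hadj
    · by_cases hbv : b = v
      · subst hbv
        exact kv i a ha hadj.symm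
      · by_cases hbu : b = u
        · subst hbu
          exact ku i a ha hadj.symm
        · rw [gW a hav hau, gW b hbv hbu] at hadj
          exact hf i a (Finset.mem_erase.mpr ⟨hav, ha⟩) b (Finset.mem_erase.mpr ⟨hbv, hb⟩) hadj

end Pool.Agent.MP_dc7d7b.TF
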