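import Pool.Agent.Lib.MP_dc7d7b_co.TF.Defs

set_option autoImplicit false

/-!
KAP (80 lines): for a row b, the sets S with an event E36 that contain b.
For such S (with p, and N) the two rows of S \ {b} are in T1 F (F b): F r = p ∪ {x_r}, F b = p ∪ {x_b}, and
x_r ≠ x_b as there are no twins. If S ≠ S' both contain b with pairs p, p': p ≠ p' (with p = p' the last condition gives
S ⊆ S' and S' ⊆ S). A row r ≠ b in both S and S' contains p ∪ p' = F b (three cells), so F r = F b: twin, impossible.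
So the sets S \ {b} are pairwise disjoint two-element subsets of T1 F (F b).
-/

namespace Pool.Agent.MP_dc7d7b.TF

open Finset Classical

private theorem two_le_inter {F : Fin 8 → Finset (Fin 8)} {p : Finset (Fin 8)} {r b : Fin 8}
    (hp : p.card = 2) (hr : p ⊆ F r) (hb : p ⊆ F b) : 2 ≤ (F r ∩ F b).card := by
  rw [← hp]
  exact Finset.card_le_card (Finset.subset_inter hr hb)

private theorem eq_of_twin {F : Fin 8 → Finset (Fin 8)} {r b : Fin 8} (hT : T0 F (F b) = {b})
    (h : F r = F b) : r = b := by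
  have h1 : r ∈ T0 F (F b) := mem_T0.mpr h
  rw [hT] at h1
  exact Finset.mem_singleton.mp h1

private theorem type_one {F : Fin 8 → Finset (Fin 8)} {p : Finset (Fin 8)} {r b : Fin 8}
    (hp : p.card = 2) (hr3 : (F r).card = 3) (hb3 : (F b).card = 3) (hr : p ⊆ F r) (hb : p ⊆ F b)
    (hT : T0 F (F b) = {b}) (hrb : r ≠ b) : r ∈ T1 F (F b) := by
  rw [mem_T1]
  have h1 := two_le_inter hp hr hb
  have h2 := Finset.card_sdiff_add_card_inter (F r) (F b)
  have h3 : (F r \ F b).card ≠ 0 := by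
    intro h0
    rw [Finset.card_eq_zero, Finset.sdiff_eq_empty_iff_subset] at h0
    exact hrb (eq_of_twin hT (Finset.eq_of_subset_of_card_le h0 (by omega)))
  omega

private theorem union_eq {p p' A : Finset (Fin 8)} (hp : p.card = 2) (hp' : p'.card = 2) (hne : p ≠ p')
    (hA : A.card = 3) (h : p ⊆ A) (h' : p' ⊆ A) : p ∪ p' = A := by
  refine Finset.eq_of_subset_of_card_le (Finset.union_subset h h') ?_
  rw [hA]
  by_contra hlt
  have h1 : (p ∪ p').card ≤ 2 := by omega
  have h2 : p = p ∪ p' := Finset.eq_of_subset_of_card_le Finset.subset_union_left (by omega)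
  have h3 : p' = p ∪ p' := Finset.eq_of_subset_of_card_le Finset.subset_union_right (by omega)
  exact hne (h2.trans h3.symm)

theorem kap (F : Fin 8 → Finset (Fin 8)) (b : Fin 8) :
    2 * (univ.filter (fun S : Finset (Fin 8) => b ∈ S ∧ ∃ N, E36 F N S)).card ≤ (T1 F (F b)).card := by
  set 𝒮 := univ.filter (fun S : Finset (Fin 8) => b ∈ S ∧ ∃ N, E36 F N S) with h𝒮
  have hmem : ∀ S ∈ 𝒮, b ∈ S ∧ ∃ N, E36 F N S := fun S hS => (Finset.mem_filter.mp hS).2
  have hdis : ∀ S ∈ 𝒮, ∀ S' ∈ 𝒮, S ≠ S' → Disjoint (S.erase b) (S'.erase b) := by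
    intro S hS S' hS' hne
    obtain ⟨hbS, N, -, p, hp, hrow, hall⟩ := hmem S hS
    obtain ⟨hbS', N', -, p', hp', hrow', hall'⟩ := hmem S' hS'
    rw [Finset.disjoint_left]
    intro r hr hr'
    have hrb : r ≠ b := (Finset.mem_erase.mp hr).1
    have hrS : r ∈ S := (Finset.mem_erase.mp hr).2
    have hrS' : r ∈ S' := (Finset.mem_erase.mp hr').2
    by_cases hpp : p = p'
    · subst hpp
      apply hne
      apply Finset.Subset.antisymm
      · intro x hx
        exact hall' x (hrow x hx).1 (hrow x hx).2.1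
      · intro x hx
        exact hall x (hrow' x hx).1 (hrow' x hx).2.1
    · have h1 : p ∪ p' = F r :=
        union_eq hp hp' hpp (hrow r hrS).1 (hrow r hrS).2.1 (hrow' r hrS').2.1
      have h2 : p ∪ p' = F b :=
        union_eq hp hp' hpp (hrow b hbS).1 (hrow b hbS).2.1 (hrow' b hbS').2.1
      exact hrb (eq_of_twin (hrow b hbS).2.2.2 (h1.symm.trans h2))
  have hcard : ∀ S ∈ 𝒮, (S.erase b).card = 2 := by
    intro S hS
    obtain ⟨hbS, N, h3, -⟩ := hmem S hS
    rw [Finset.card_erase_of_mem hbS, h3]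
  have hsum : (𝒮.biUnion (fun S => S.erase b)).card = 2 * 𝒮.card := by
    rw [Finset.card_biUnion (fun S hS S' hS' hne => hdis S hS S' hS' hne), Finset.sum_congr rfl hcard,
      Finset.sum_const, smul_eq_mul, mul_comm]
  rw [← hsum]
  apply Finset.card_le_card
  intro r hr
  obtain ⟨S, hS, hrS⟩ := Finset.mem_biUnion.mp hr
  obtain ⟨hbS, N, -, p, hp, hrow, -⟩ := hmem S hS
  have hrb : r ≠ b := (Finset.mem_erase.mp hrS).1
  have hrS' : r ∈ S := (Finset.mem_erase.mp hrS).2
  exact type_one hp (hrow r hrS').1 (hrow b hbS).1 (hrow r hrS').2.1 (hrow b hbS).2.1 (hrow b hbS).2.2.2 hrb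

end Pool.Agent.MP_dc7d7b.TF
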