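import Pool.Agent.Lib.MP_dc7d7b_co.TF.Sets
import Pool.Agent.Lib.MP_dc7d7b_co.TF.Kap

set_option autoImplicit false

/-!
CNTB (120 lines): sizes of the index sets.
`kk_card`: every S in KK has 3 elements, all in UU (E36). Double counting: 3 card KK = sum over b in UU of the number of S in
KK containing b, and by `kap` 2 * (this number) ≤ card (T1 F (F b)) ≤ 2 m + 1, so the number is at most m.
`rr_card`: every R in RR has 4 elements: inside `powersetCard 4`, 70.
`rr_twin`: an R in RR does not contain both t and t' (E4: N t ∈ F t \ Q and F t ⊆ insert (N t) Q, so F t \ Q = {N t}, the same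
for t', so N t = N t'); so RR is inside the union of powersetCard 4 (univ \ {t}) and powersetCard 4 (univ \ {t'}) whose
intersection is powersetCard 4 (univ \ {t, t'}): 35 + 35 - 15 = 55.
`rr_ina`: powersetCard 4 (univ \ {s}): 35. `rr_ina_twin`: 15 + 15 - 5 = 25.
-/

namespace Pool.Agent.MP_dc7d7b.TF

open Finset Classical

private theorem CntB_two (A : Finset (Fin 8)) {t t' : Fin 8} (ht : t ∈ A) (ht' : t' ∈ A) (h : t ≠ t') :
    (powersetCard 4 (A.erase t) ∪ powersetCard 4 (A.erase t')).card + (A.card - 1 - 1).choose 4 =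
      2 * (A.card - 1).choose 4 := by
  have h1 := card_union_add_card_inter (powersetCard 4 (A.erase t)) (powersetCard 4 (A.erase t'))
  have h2 : powersetCard 4 (A.erase t) ∩ powersetCard 4 (A.erase t') = powersetCard 4 ((A.erase t).erase t') := by
    ext S
    simp only [mem_inter, mem_powersetCard, subset_erase]
    tauto
  rw [h2, card_powersetCard, card_powersetCard, card_powersetCard, card_erase_of_mem ht',
    card_erase_of_mem (mem_erase.2 ⟨h.symm, ht'⟩), card_erase_of_mem ht] at h1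
  omega

private theorem CntB_mem {F : Fin 8 → Finset (Fin 8)} {R : Finset (Fin 8)} (hR : R ∈ RR F) : ∃ N, E4 F N R := by
  simpa [RR] using hR

private theorem CntB_not {F : Fin 8 → Finset (Fin 8)} {t t' : Fin 8} (h : t ≠ t') (hF : F t = F t')
    {R : Finset (Fin 8)} (hR : R ∈ RR F) : t ∉ R ∨ t' ∉ R := by
  obtain ⟨N, _, Q, _, h1, _⟩ := CntB_mem hR
  by_contra hc
  push Not at hc
  obtain ⟨h2, h3⟩ := h1 t hc.1
  obtain ⟨h4, _⟩ := h1 t' hc.2
  rw [← hF] at h4
  obtain ⟨h5, h6⟩ := mem_sdiff.1 h4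
  have h7 := h3 h5
  rw [mem_insert] at h7
  rcases h7 with h7 | h7
  · exact h (N.injective h7).symm
  · exact h6 h7

theorem kk_card {F : Fin 8 → Finset (Fin 8)} (m : ℕ) (hm : ∀ c ∈ UU F, (T1 F (F c)).card ≤ 2 * m + 1) :
    3 * (KK F).card ≤ m * (UU F).card := by
  have h1 : ∀ S ∈ KK F, S.card = 3 ∧ S ⊆ UU F := by
    intro S hS
    have hS' : ∃ N, E36 F N S := by simpa [KK] using hS
    obtain ⟨N, h3, p, _, hr, _⟩ := hS'
    refine ⟨h3, fun b hb => ?_⟩
    obtain ⟨hb3, _, _, hT⟩ := hr b hb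
    simp only [UU, mem_filter, mem_univ, true_and]
    exact ⟨hT, hb3⟩
  have h2 : ∀ b ∈ UU F, ((KK F).filter (fun S => b ∈ S)).card ≤ m := by
    intro b hb
    have h3 := kap F b
    have h4 := hm b hb
    have h5 : (KK F).filter (fun S => b ∈ S) = univ.filter (fun S : Finset (Fin 8) => b ∈ S ∧ ∃ N, E36 F N S) := by
      ext S
      simp only [KK, mem_filter, mem_univ, true_and]
      tauto
    rw [h5]
    omega
  calc 3 * (KK F).card = ∑ S ∈ KK F, 3 := by rw [sum_const, smul_eq_mul, mul_comm]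
    _ = ∑ S ∈ KK F, ∑ b ∈ UU F, (if b ∈ S then 1 else 0) := by
        refine sum_congr rfl fun S hS => ?_
        have h3 : (UU F).filter (fun b => b ∈ S) = S := by
          ext b
          rw [mem_filter]
          exact ⟨fun h => h.2, fun h => ⟨(h1 S hS).2 h, h⟩⟩
        rw [← card_filter, h3, (h1 S hS).1]
    _ = ∑ b ∈ UU F, ∑ S ∈ KK F, (if b ∈ S then 1 else 0) := sum_comm
    _ ≤ ∑ b ∈ UU F, m := by
        refine sum_le_sum fun b hb => ?_
        rw [← card_filter]
        exact h2 b hb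
    _ = m * (UU F).card := by rw [sum_const, smul_eq_mul, mul_comm]

theorem rr_card (F : Fin 8 → Finset (Fin 8)) : (RR F).card ≤ 70 := by
  have h1 : RR F ⊆ powersetCard 4 univ := by
    intro R hR
    obtain ⟨N, h4, _⟩ := CntB_mem hR
    exact mem_powersetCard.2 ⟨subset_univ _, h4⟩
  refine (card_le_card h1).trans (le_of_eq ?_)
  rw [card_powersetCard, card_univ, Fintype.card_fin]
  decide

theorem rr_twin {F : Fin 8 → Finset (Fin 8)} {t t' : Fin 8} (h : t ≠ t') (hF : F t = F t') : (RR F).card ≤ 55 := by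
  have h1 : RR F ⊆ powersetCard 4 (univ.erase t) ∪ powersetCard 4 (univ.erase t') := by
    intro R hR
    obtain ⟨N, h4, _⟩ := CntB_mem hR
    rw [mem_union, mem_powersetCard, mem_powersetCard, subset_erase, subset_erase]
    rcases CntB_not h hF hR with h5 | h5
    · exact Or.inl ⟨⟨subset_univ _, h5⟩, h4⟩
    · exact Or.inr ⟨⟨subset_univ _, h5⟩, h4⟩
  have h2 := CntB_two univ (mem_univ t) (mem_univ t') h
  rw [card_univ, Fintype.card_fin] at h2
  have h3 : (8 - 1 - 1).choose 4 = 15 := by decide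
  have h4 : (8 - 1).choose 4 = 35 := by decide
  rw [h3, h4] at h2
  have h5 := card_le_card h1
  omega

theorem rr_ina {F : Fin 8 → Finset (Fin 8)} {s : Fin 8} (h : ∀ N R, E4 F N R → s ∉ R) : (RR F).card ≤ 35 := by
  have h1 : RR F ⊆ powersetCard 4 (univ.erase s) := by
    intro R hR
    obtain ⟨N, hN⟩ := CntB_mem hR
    rw [mem_powersetCard, subset_erase]
    exact ⟨⟨subset_univ _, h N R hN⟩, hN.1⟩
  refine (card_le_card h1).trans (le_of_eq ?_)
  rw [card_powersetCard, card_erase_of_mem (mem_univ s), card_univ, Fintype.card_fin]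
  decide

theorem rr_ina_twin {F : Fin 8 → Finset (Fin 8)} {s t t' : Fin 8} (h : ∀ N R, E4 F N R → s ∉ R) (h1 : t ≠ t')
    (h2 : F t = F t') (h3 : t ≠ s) (h4 : t' ≠ s) : (RR F).card ≤ 25 := by
  have e1 : RR F ⊆ powersetCard 4 ((univ.erase s).erase t) ∪ powersetCard 4 ((univ.erase s).erase t') := by
    intro R hR
    obtain ⟨N, hN⟩ := CntB_mem hR
    simp only [mem_union, mem_powersetCard, subset_erase]
    rcases CntB_not h1 h2 hR with h5 | h5
    · exact Or.inl ⟨⟨⟨subset_univ _, h N R hN⟩, h5⟩, hN.1⟩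
    · exact Or.inr ⟨⟨⟨subset_univ _, h N R hN⟩, h5⟩, hN.1⟩
  have e2 := CntB_two (univ.erase s) (mem_erase.2 ⟨h3, mem_univ t⟩) (mem_erase.2 ⟨h4, mem_univ t'⟩) h1
  rw [card_erase_of_mem (mem_univ s), card_univ, Fintype.card_fin] at e2
  have e3 : (8 - 1 - 1 - 1).choose 4 = 5 := by decide
  have e4 : (8 - 1 - 1).choose 4 = 15 := by decide
  rw [e3, e4] at e2
  have e5 := card_le_card e1
  omega

end Pool.Agent.MP_dc7d7b.TF
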