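import Pool.Agent.Lib.MP_dc7d7b_co.TF.Defs

set_option autoImplicit false

/-!
INA (80 lines). `inactive`: T0 F Q = {a}, card (T1 F Q) = 4. The other three rows have |F s \ Q| ≥ 2 and the columns of Qᶜ contain at
least 15 cells, 4 of them in T1 rows, so the three rows have at least 11 cells in Qᶜ: one of them, s, has at least 4.
Suppose s ∈ R and E4 F N R with Q': F s ⊆ insert (N s) Q', N s ∉ Q', card (F s \ Q) ≥ 4 and card (F s) ≤ 4, so
F s ∩ Q = ∅ and (card Q' = 3) F s = insert (N s) Q', so Q' ∩ Q = ∅. Every r ∈ R has card (F r \ {N r}) ≥ 2 inside Q',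
so card (F r \ Q) ≥ 2, so r is not a and not in T1 F Q: R is inside three rows, against card R = 4.
-/

namespace Pool.Agent.MP_dc7d7b.TF

open Finset

private lemma ina_dc (F : Fin 8 → Finset (Fin 8)) (Q : Finset (Fin 8)) :
    ∑ r, (F r \ Q).card = ∑ c ∈ Qᶜ, (tr F c).card := by
  have h1 : ∀ r, (F r \ Q).card = ∑ c ∈ Qᶜ, if c ∈ F r then 1 else 0 := by
    intro r
    rw [← Finset.card_filter]
    congr 1
    ext c
    simp only [mem_sdiff, mem_filter, mem_compl]
    tauto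
  have h2 : ∀ c, (tr F c).card = ∑ r, if c ∈ F r then 1 else 0 := by
    intro c
    rw [← Finset.card_filter]
    rfl
  simp only [h1, h2]
  exact Finset.sum_comm

private lemma ina_two {F : Fin 8 → Finset (Fin 8)} (hF : Deg3 F) {Q : Finset (Fin 8)} {r : Fin 8} {n : Fin 8} {Q' : Finset (Fin 8)}
    (hQQ : Disjoint Q' Q) (h2 : F r ⊆ insert n Q') : 2 ≤ (F r \ Q).card := by
  have h3 : (F r).erase n ⊆ F r \ Q := by
    intro c hc
    rw [mem_erase] at hc
    rw [mem_sdiff]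
    refine ⟨hc.2, ?_⟩
    have h4 := h2 hc.2
    rw [mem_insert] at h4
    exact fun h => (Finset.disjoint_left.1 hQQ) (h4.resolve_left hc.1) h
  have h4 := card_le_card h3
  have h5 := pred_card_le_card_erase (s := F r) (a := n)
  have h6 := hF.row r
  omega

theorem inactive {F : Fin 8 → Finset (Fin 8)} (hF : Deg3 F) {Q : Finset (Fin 8)} (hQ : Q.card = 3)
    (h : (T0 F Q).card = 1) (h4 : (T1 F Q).card = 4) :
    ∃ s, 4 ≤ (F s).card ∧ ∀ N R, E4 F N R → s ∉ R := by
  have hdis : Disjoint (T0 F Q) (T1 F Q) := by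
    rw [Finset.disjoint_left]
    intro r h0 h1
    rw [mem_T0] at h0
    rw [mem_T1, h0, Finset.sdiff_self, card_empty] at h1
    exact absurd h1 (by decide)
  have hU : (T0 F Q ∪ T1 F Q)ᶜ.card = 3 := by
    rw [card_compl, card_union_of_disjoint hdis, h, h4, Fintype.card_fin]
  have hsum : 15 ≤ ∑ r, (F r \ Q).card := by
    rw [ina_dc]
    have h1 : (Qᶜ : Finset (Fin 8)).card = 5 := by
      rw [card_compl, hQ, Fintype.card_fin]
    have h2 : ∑ c ∈ (Qᶜ : Finset (Fin 8)), 3 ≤ ∑ c ∈ Qᶜ, (tr F c).card := Finset.sum_le_sum fun c _ => hF.col c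
    rw [sum_const, h1, smul_eq_mul] at h2
    omega
  rw [← Finset.sum_add_sum_compl (T0 F Q ∪ T1 F Q), sum_union hdis] at hsum
  have hs0 : ∑ r ∈ T0 F Q, (F r \ Q).card = 0 := by
    refine Finset.sum_eq_zero fun r hr => ?_
    rw [mem_T0] at hr
    rw [hr, Finset.sdiff_self, card_empty]
  have hs1 : ∑ r ∈ T1 F Q, (F r \ Q).card = 4 := by
    rw [Finset.sum_congr rfl fun r hr => mem_T1.1 hr, sum_const, h4, smul_eq_mul]
  rw [hs0, hs1] at hsum
  obtain ⟨s, hsU, hs⟩ : ∃ s ∈ (T0 F Q ∪ T1 F Q)ᶜ, 4 ≤ (F s \ Q).card := by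
    by_contra hc
    push Not at hc
    have h1 : ∑ r ∈ (T0 F Q ∪ T1 F Q)ᶜ, (F r \ Q).card ≤ ∑ r ∈ (T0 F Q ∪ T1 F Q)ᶜ, 3 :=
      Finset.sum_le_sum fun r hr => by have := hc r hr; omega
    rw [sum_const, hU, smul_eq_mul] at h1
    omega
  have hsc : (F s \ Q).card ≤ (F s).card := card_le_card sdiff_subset
  refine ⟨s, hs.trans hsc, ?_⟩
  rintro N R ⟨hR, Q', hQ', hRQ, -⟩ hsR
  obtain ⟨hN, hsub⟩ := hRQ s hsR
  rw [mem_sdiff] at hN
  have hins : (insert (N s) Q').card = 4 := by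
    rw [card_insert_of_notMem hN.2, hQ']
  have hle : (F s).card ≤ 4 := by
    rw [← hins]
    exact card_le_card hsub
  have heq : F s = insert (N s) Q' := Finset.eq_of_subset_of_card_le hsub (by rw [hins]; omega)
  have hd1 : F s \ Q = F s := Finset.eq_of_subset_of_card_le sdiff_subset (by omega)
  have hdQ : Disjoint Q' Q := by
    rw [Finset.disjoint_left]
    intro c hc1 hc2
    have h1 : c ∈ F s := by
      rw [heq]
      exact mem_insert_of_mem hc1
    rw [← hd1, mem_sdiff] at h1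
    exact h1.2 hc2
  have hRU : R ⊆ (T0 F Q ∪ T1 F Q)ᶜ := by
    intro r hr
    obtain ⟨-, h2⟩ := hRQ r hr
    have h3 := ina_two hF hdQ h2
    rw [mem_compl, mem_union, not_or, mem_T0, mem_T1]
    refine ⟨fun h5 => ?_, by omega⟩
    rw [h5, Finset.sdiff_self, card_empty] at h3
    omega
  have := card_le_card hRU
  omega

end Pool.Agent.MP_dc7d7b.TF
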