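import Pool.Agent.Lib.MP_dc7d7b_co.TF.Defs

set_option autoImplicit false

/-!
ONE (120 lines): at most one set Q has an event E2.
Let a ≠ a' be rows equal to Q, c ≠ c' rows equal to Q', Q ≠ Q'. T1 F Q has exactly two rows b1, b2 (not X1, and
E2), hit by N in different columns, so F b1 \ Q ≠ F b2 \ Q (both singletons); d1, d2 for Q'.
c is not in T1 F Q: else c' is too (same set F c = Q'), and c, c' are b1, b2 with F c \ Q = F c' \ Q: contradiction.
c is not in T0 F Q. So card (Q' \ Q) ≥ 2, i.e. i = card (Q ∩ Q') ≤ 1. Let E = (Q ∪ Q')ᶜ, card E = 2 + i. Each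
column of E has at least 3 rows: at least 6 + 3 i cells in E. Rows a, a', c, c' have none. A row of T1 F Q or of
T1 F Q' has at most one cell in E, and a row b in both has none: F b ⊆ {y} ∪ Q and F b ⊆ {y'} ∪ Q'; if a cell of
F b is in E it is y = y' and then card (F b) ≤ 1 + i ≤ 2. The other four rows (different from a, a', c, c'): if k of
them are in T1 F Q ∪ T1 F Q' then k is 4, 3, 2 according to 0, 1, 2 common rows:
k = 4: at most 4 cells. k = 3: at most 2 + 0 + (2 + i). k = 2: at most 0 + 2 (2 + i). All less than 6 + 3 i.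
(Rows of T1 F Q are different from a, a', and from c, c' as shown.)
-/

namespace Pool.Agent.MP_dc7d7b.TF

open Finset

private theorem one_key {F : Fin 8 → Finset (Fin 8)} (hX : ¬ X1 F) {N : Equiv.Perm (Fin 8)}
    {Q : Finset (Fin 8)} (h : E2 F N Q) : ∀ x ∈ T1 F Q, ∀ y ∈ T1 F Q, x ≠ y → F x ≠ F y := by
  obtain ⟨hQ, h0, r, hr, r', hr', hne, h1, h2⟩ := h
  have hcard : (T1 F Q).card ≤ 2 := by
    by_contra hc
    exact hX ⟨Q, hQ, h0, by omega⟩
  have hsub : ({r, r'} : Finset (Fin 8)) ⊆ T1 F Q := by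
    intro x hx
    rw [mem_insert, mem_singleton] at hx
    rcases hx with rfl | rfl
    · exact hr
    · exact hr'
  have heq : ({r, r'} : Finset (Fin 8)) = T1 F Q :=
    Finset.eq_of_subset_of_card_le hsub (by rw [card_pair hne]; exact hcard)
  have hF : F r ≠ F r' := by
    intro hFF
    rw [mem_T1] at hr
    obtain ⟨z, hz⟩ := card_eq_one.1 hr
    rw [hz, mem_singleton] at h1
    rw [← hFF, hz, mem_singleton] at h2
    exact hne (N.injective (h1.trans h2.symm))
  intro x hx y hy hxy
  rw [← heq, mem_insert, mem_singleton] at hx hy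
  rcases hx with rfl | rfl <;> rcases hy with rfl | rfl
  · exact absurd rfl hxy
  · exact hF
  · exact hF.symm
  · exact absurd rfl hxy

private theorem one_two {F : Fin 8 → Finset (Fin 8)} (hX : ¬ X1 F) {N : Equiv.Perm (Fin 8)}
    {Q : Finset (Fin 8)} (h : E2 F N Q) : 2 ≤ (T1 F Q).card := by
  obtain ⟨_, _, r, hr, r', hr', hne, _, _⟩ := h
  exact one_lt_card.2 ⟨r, hr, r', hr', hne⟩

private theorem one_not {F : Fin 8 → Finset (Fin 8)} (hX : ¬ X1 F) {N : Equiv.Perm (Fin 8)}
    {Q Q' : Finset (Fin 8)} (h : E2 F N Q) {c c' : Fin 8} (hc : F c = Q') (hc' : F c' = Q')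
    (hne : c ≠ c') : (Q' \ Q).card ≠ 1 := by
  intro h1
  have h2 : c ∈ T1 F Q := by rw [mem_T1, hc]; exact h1
  have h3 : c' ∈ T1 F Q := by rw [mem_T1, hc']; exact h1
  exact one_key hX h c h2 c' h3 hne (hc.trans hc'.symm)

private theorem one_sum (F : Fin 8 → Finset (Fin 8)) (E : Finset (Fin 8)) :
    ∑ r, (F r ∩ E).card = ∑ e ∈ E, (tr F e).card := by
  have h1 : ∀ r, (F r ∩ E).card = ∑ e ∈ E, if e ∈ F r then 1 else 0 := by
    intro r
    rw [← card_filter]
    congr 1
    ext x
    simp only [mem_inter, mem_filter]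
    exact and_comm
  have h2 : ∀ e, (tr F e).card = ∑ r, if e ∈ F r then 1 else 0 := by
    intro e
    unfold tr
    rw [card_filter]
  simp_rw [h1, h2]
  exact sum_comm

private theorem one_le {Q E X : Finset (Fin 8)} (hE : Disjoint Q E) (h : (X \ Q).card = 1) :
    (X ∩ E).card ≤ 1 := by
  rw [← h]
  refine card_le_card fun x hx => ?_
  rw [mem_inter] at hx
  rw [mem_sdiff]
  exact ⟨hx.1, fun hQ => (disjoint_left.1 hE) hQ hx.2⟩

private theorem one_zero {Q Q' E X : Finset (Fin 8)} (hE : Disjoint Q E) (hE' : Disjoint Q' E)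
    (h : (X \ Q).card = 1) (h' : (X \ Q').card = 1) (hX : 3 ≤ X.card) (hQ : (Q ∩ Q').card ≤ 1) :
    (X ∩ E).card = 0 := by
  rw [card_eq_zero, eq_empty_iff_forall_notMem]
  intro e he
  rw [mem_inter] at he
  obtain ⟨y, hy⟩ := card_eq_one.1 h
  obtain ⟨y', hy'⟩ := card_eq_one.1 h'
  have h1 : e ∈ X \ Q := mem_sdiff.2 ⟨he.1, fun hQ => (disjoint_left.1 hE) hQ he.2⟩
  have h2 : e ∈ X \ Q' := mem_sdiff.2 ⟨he.1, fun hQ => (disjoint_left.1 hE') hQ he.2⟩
  rw [hy, mem_singleton] at h1
  rw [hy', mem_singleton] at h2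
  subst h1
  subst h2
  have h3 : X ⊆ insert e (Q ∩ Q') := by
    intro x hx
    rw [mem_insert, mem_inter]
    by_cases hxe : x = e
    · exact Or.inl hxe
    · right
      constructor
      · by_contra hn
        have h4 : x ∈ X \ Q := mem_sdiff.2 ⟨hx, hn⟩
        rw [hy, mem_singleton] at h4
        exact hxe h4
      · by_contra hn
        have h4 : x ∈ X \ Q' := mem_sdiff.2 ⟨hx, hn⟩
        rw [hy', mem_singleton] at h4
        exact hxe h4
  have h5 := (card_le_card h3).trans (card_insert_le _ _)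
  omega

theorem one {F : Fin 8 → Finset (Fin 8)} (hF : Deg3 F) (hX : ¬ X1 F) {N N' : Equiv.Perm (Fin 8)}
    {Q Q' : Finset (Fin 8)} (h : E2 F N Q) (h' : E2 F N' Q') : Q = Q' := by
  by_contra hQQ
  obtain ⟨hQ3, h0, -⟩ := id h
  obtain ⟨hQ3', h0', -⟩ := id h'
  obtain ⟨a, ha, a', ha', haa⟩ := one_lt_card.1 (show 1 < (T0 F Q).card by omega)
  obtain ⟨c, hc, c', hc', hcc⟩ := one_lt_card.1 (show 1 < (T0 F Q').card by omega)
  rw [mem_T0] at ha ha' hc hc'
  have n1 := one_not hX h hc hc' hcc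
  have n2 := one_not hX h' ha ha' haa
  have n3 : (Q' \ Q).card ≠ 0 := by
    intro h1
    rw [card_eq_zero, sdiff_eq_empty_iff_subset] at h1
    exact hQQ (eq_of_subset_of_card_le h1 (by omega)).symm
  have hint : (Q ∩ Q').card ≤ 1 := by
    have h1 := card_sdiff_add_card_inter Q' Q
    rw [inter_comm] at h1
    omega
  obtain ⟨E, hEdef⟩ : ∃ E : Finset (Fin 8), E = (Q ∪ Q')ᶜ := ⟨_, rfl⟩
  have hE : Disjoint Q E := by
    rw [disjoint_left, hEdef]
    intro x hx hx'
    rw [mem_compl, mem_union] at hx'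
    exact hx' (Or.inl hx)
  have hE' : Disjoint Q' E := by
    rw [disjoint_left, hEdef]
    intro x hx hx'
    rw [mem_compl, mem_union] at hx'
    exact hx' (Or.inr hx)
  have hm : 2 ≤ E.card := by
    have h1 := card_union_le Q Q'
    rw [hEdef, card_compl, Fintype.card_fin]
    omega
  have hcol : 3 * E.card ≤ ∑ r, (F r ∩ E).card := by
    rw [one_sum]
    calc 3 * E.card = ∑ _e ∈ E, 3 := by rw [sum_const, smul_eq_mul, mul_comm]
      _ ≤ _ := sum_le_sum fun e _ => hF.col e
  obtain ⟨S, hS⟩ : ∃ S : Finset (Fin 8), S = {a, a', c, c'} := ⟨_, rfl⟩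
  have hac : ∀ x y : Fin 8, F x = Q → F y = Q' → x ≠ y := fun x y hx hy hxy =>
    hQQ (by rw [← hx, ← hy, hxy])
  have hScard : S.card = 4 := by
    rw [hS, card_insert_of_notMem, card_insert_of_notMem, card_pair hcc]
    · rw [mem_insert, mem_singleton]
      exact fun hh => hh.elim (hac a' c ha' hc) (hac a' c' ha' hc')
    · rw [mem_insert, mem_insert, mem_singleton]
      exact fun hh => hh.elim haa fun hh => hh.elim (hac a c ha hc) (hac a c' ha hc')
  have hSF : ∀ r ∈ S, F r = Q ∨ F r = Q' := by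
    intro r hr
    rw [hS, mem_insert, mem_insert, mem_insert, mem_singleton] at hr
    rcases hr with rfl | rfl | rfl | rfl
    · exact Or.inl ha
    · exact Or.inl ha'
    · exact Or.inr hc
    · exact Or.inr hc'
  have hrow : ∀ r, 2 * (F r ∩ E).card + E.card * (if r ∈ T1 F Q then 1 else 0) +
      E.card * (if r ∈ T1 F Q' then 1 else 0) ≤ (if r ∈ S then 0 else 2 * E.card) := by
    intro r
    by_cases hrS : r ∈ S
    · have h1 : r ∉ T1 F Q := by
        rw [mem_T1]
        rcases hSF r hrS with hh | hh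
        · rw [hh, sdiff_self]
          simp
        · rw [hh]; exact n1
      have h2 : r ∉ T1 F Q' := by
        rw [mem_T1]
        rcases hSF r hrS with hh | hh
        · rw [hh]; exact n2
        · rw [hh, sdiff_self]
          simp
      have h3 : (F r ∩ E).card = 0 := by
        rw [card_eq_zero, ← disjoint_iff_inter_eq_empty]
        rcases hSF r hrS with hh | hh
        · rw [hh]; exact hE
        · rw [hh]; exact hE'
      rw [if_neg h1, if_neg h2, if_pos hrS, h3]
      simp
    · rw [if_neg hrS]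
      by_cases h1 : r ∈ T1 F Q <;> by_cases h2 : r ∈ T1 F Q'
      · have h3 := one_zero hE hE' (mem_T1.1 h1) (mem_T1.1 h2) (hF.row r) hint
        rw [if_pos h1, if_pos h2, h3]
        omega
      · have h3 := one_le hE (mem_T1.1 h1)
        rw [if_pos h1, if_neg h2]
        omega
      · have h3 := one_le hE' (mem_T1.1 h2)
        rw [if_neg h1, if_pos h2]
        omega
      · have h3 : (F r ∩ E).card ≤ E.card := card_le_card inter_subset_right
        rw [if_neg h1, if_neg h2]
        omega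
  have hsum := sum_le_sum fun r (_ : r ∈ (univ : Finset (Fin 8))) => hrow r
  rw [sum_add_distrib, sum_add_distrib, ← mul_sum, ← mul_sum, ← mul_sum] at hsum
  have hA : ∑ r : Fin 8, (if r ∈ T1 F Q then 1 else 0) = (T1 F Q).card := by simp
  have hB : ∑ r : Fin 8, (if r ∈ T1 F Q' then 1 else 0) = (T1 F Q').card := by simp
  have hC : ∑ r : Fin 8, (if r ∈ S then 0 else 2 * E.card) = 4 * (2 * E.card) := by
    have h1 : ∀ r : Fin 8, (if r ∈ S then 0 else 2 * E.card) = if r ∈ Sᶜ then 2 * E.card else 0 := by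
      intro r
      by_cases hr : r ∈ S
      · rw [if_pos hr, if_neg (by rw [mem_compl, not_not]; exact hr)]
      · rw [if_neg hr, if_pos (mem_compl.2 hr)]
    rw [sum_congr rfl fun r _ => h1 r, sum_ite_mem, univ_inter, sum_const, card_compl,
      Fintype.card_fin, hScard, smul_eq_mul]
  rw [hA, hB, hC] at hsum
  have hA2 : E.card * 2 ≤ E.card * (T1 F Q).card := Nat.mul_le_mul_left _ (one_two hX h)
  have hB2 : E.card * 2 ≤ E.card * (T1 F Q').card := Nat.mul_le_mul_left _ (one_two hX h')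
  omega

end Pool.Agent.MP_dc7d7b.TF
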