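import Pool.Agent.Lib.MP_dc7d7b_co.TF.Defs

set_option autoImplicit false

/-!
STR (110 lines): structure facts by counting cells in columns. C = Qᶜ has 5 columns, each with at least 3 rows.
`t1_of_t0_three`: if three rows equal Q and b ∈ T1 F Q, the rectangle {a, a', a'', b} × Qᶜ has exactly one allowed
cell: against `Two`.
`t1_le_three`: let a, a' be equal to Q and four rows in T1: these six rows have exactly 4 cells in Qᶜ (5 columns), so
some column of Qᶜ has none of them: it has at most 2 rows, against `Deg3`.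
`t1_le_four`: T0 nonempty (a) and not X2. If there were six rows in T1, the seven rows have 6 cells in Qᶜ, but each
column of Qᶜ has at least 3 - 1 = 2 of them, 10 cells. If exactly five: six rows, 5 cells, each column of Qᶜ at least
one, so the five outer cells are in different columns: X2. So card T1 ≤ 4, and if it is 4, then by not X2 two of the
outer cells coincide (the outer sets F r \ Q are singletons).
-/

namespace Pool.Agent.MP_dc7d7b.TF

open Finset

private theorem str_sd (F : Fin 8 → Finset (Fin 8)) (Q : Finset (Fin 8)) (r : Fin 8) : F r \ Q = Qᶜ.filter (fun c => c ∈ F r) := by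
  ext c
  rw [mem_sdiff, mem_filter, mem_compl]
  exact and_comm

private theorem str_dc (F : Fin 8 → Finset (Fin 8)) (Q S : Finset (Fin 8)) :
    ∑ r ∈ S, (F r \ Q).card = ∑ c ∈ Qᶜ, (S.filter (fun r => c ∈ F r)).card := by
  simp only [str_sd]
  exact Finset.sum_card_bipartiteAbove_eq_sum_card_bipartiteBelow (fun r c => c ∈ F r)

private theorem str_col {F : Fin 8 → Finset (Fin 8)} (hF : Deg3 F) (S : Finset (Fin 8)) (c : Fin 8) :
    S.card ≤ 5 + (S.filter (fun r => c ∈ F r)).card := by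
  have h1 := hF.col c
  have h2 : tr F c ⊆ S.filter (fun r => c ∈ F r) ∪ Sᶜ := by
    intro r hr
    rw [mem_tr] at hr
    rw [mem_union, mem_filter, mem_compl]
    by_cases h : r ∈ S
    · exact Or.inl ⟨h, hr⟩
    · exact Or.inr h
  have h3 := (card_le_card h2).trans (card_union_le _ _)
  have h4 : Sᶜ.card = 8 - S.card := by rw [card_compl, Fintype.card_fin]
  have h5 : S.card ≤ 8 := (card_le_univ S).trans (by rw [Fintype.card_fin])
  omega

private theorem str_c5 {Q : Finset (Fin 8)} (hQ : Q.card = 3) : Qᶜ.card = 5 := by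
  rw [card_compl, Fintype.card_fin, hQ]

private theorem str_ge {F : Fin 8 → Finset (Fin 8)} (hF : Deg3 F) {Q : Finset (Fin 8)} (hQ : Q.card = 3) (S : Finset (Fin 8)) :
    5 * S.card ≤ 25 + ∑ r ∈ S, (F r \ Q).card := by
  rw [str_dc]
  have h : ∑ c ∈ Qᶜ, S.card ≤ ∑ c ∈ Qᶜ, (5 + (S.filter (fun r => c ∈ F r)).card) := sum_le_sum fun c _ => str_col hF S c
  rw [sum_add_distrib, sum_const, sum_const, str_c5 hQ, smul_eq_mul, smul_eq_mul] at h
  exact h

private theorem str_disj (F : Fin 8 → Finset (Fin 8)) (Q : Finset (Fin 8)) {A B : Finset (Fin 8)} (hA : A ⊆ T0 F Q) (hB : B ⊆ T1 F Q) :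
    Disjoint A B := by
  rw [Finset.disjoint_left]
  intro r h1 h2
  have h3 := mem_T0.1 (hA h1)
  have h4 := mem_T1.1 (hB h2)
  rw [h3, sdiff_self] at h4
  simp at h4

private theorem str_sum (F : Fin 8 → Finset (Fin 8)) (Q : Finset (Fin 8)) {A B : Finset (Fin 8)} (hA : A ⊆ T0 F Q) (hB : B ⊆ T1 F Q) :
    (A ∪ B).card = A.card + B.card ∧ ∑ r ∈ A ∪ B, (F r \ Q).card = B.card := by
  have h := str_disj F Q hA hB
  refine ⟨card_union_of_disjoint h, ?_⟩
  rw [sum_union h]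
  have h1 : ∑ r ∈ A, (F r \ Q).card = 0 := sum_eq_zero fun r hr => by
    rw [mem_T0.1 (hA hr), sdiff_self]
    rfl
  have h2 : ∑ r ∈ B, (F r \ Q).card = B.card := by
    rw [card_eq_sum_ones]
    exact sum_congr rfl fun r hr => mem_T1.1 (hB hr)
  rw [h1, h2, zero_add]

theorem t1_of_t0_three {F : Fin 8 → Finset (Fin 8)} (h2 : Two F) {Q : Finset (Fin 8)} (hQ : Q.card = 3)
    (h : 3 ≤ (T0 F Q).card) : T1 F Q = ∅ := by
  by_contra hne
  obtain ⟨b, hb⟩ := nonempty_iff_ne_empty.2 hne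
  obtain ⟨A, hA, hA3⟩ := exists_subset_card_eq h
  obtain ⟨e1, e2⟩ := str_sum F Q hA (singleton_subset_iff.2 hb)
  rw [card_singleton] at e1 e2
  have h3 := h2 (A ∪ {b}) Qᶜ (by rw [e1, hA3, str_c5 hQ])
  have h4 : (((A ∪ {b}) ×ˢ Qᶜ).filter (fun x => x.2 ∈ F x.1)).card = ∑ r ∈ A ∪ {b}, (F r \ Q).card := by
    rw [card_filter, sum_product]
    refine sum_congr rfl fun r _ => ?_
    rw [str_sd, card_filter]
  omega

theorem t1_le_three {F : Fin 8 → Finset (Fin 8)} (hF : Deg3 F) {Q : Finset (Fin 8)} (hQ : Q.card = 3)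
    (h : 2 ≤ (T0 F Q).card) : (T1 F Q).card ≤ 3 := by
  by_contra hc
  obtain ⟨A, hA, hA2⟩ := exists_subset_card_eq h
  obtain ⟨B, hB, hB4⟩ := exists_subset_card_eq (show 4 ≤ (T1 F Q).card by omega)
  obtain ⟨e1, e2⟩ := str_sum F Q hA hB
  have h1 := str_ge hF hQ (A ∪ B)
  omega

private theorem str_five {F : Fin 8 → Finset (Fin 8)} (hF : Deg3 F) {Q : Finset (Fin 8)} (hQ : Q.card = 3)
    (h : (T0 F Q).Nonempty) : (T1 F Q).card ≤ 5 := by
  by_contra hc
  obtain ⟨a, ha⟩ := h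
  obtain ⟨B, hB, hB6⟩ := exists_subset_card_eq (show 6 ≤ (T1 F Q).card by omega)
  obtain ⟨e1, e2⟩ := str_sum F Q (singleton_subset_iff.2 ha) hB
  rw [card_singleton] at e1
  have h1 := str_ge hF hQ ({a} ∪ B)
  omega

theorem t1_le_four {F : Fin 8 → Finset (Fin 8)} (hF : Deg3 F) (hX : ¬ X2 F) {Q : Finset (Fin 8)} (hQ : Q.card = 3)
    (h : (T0 F Q).Nonempty) :
    (T1 F Q).card ≤ 4 ∧ ((T1 F Q).card = 4 → ∃ r ∈ T1 F Q, ∃ r' ∈ T1 F Q, r ≠ r' ∧ F r \ Q = F r' \ Q) := by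
  have key : ∀ S ⊆ T1 F Q, S.card = 4 → ∃ r ∈ S, ∃ r' ∈ S, r ≠ r' ∧ ¬ Disjoint (F r \ Q) (F r' \ Q) := by
    intro S hS hS4
    by_contra hc
    push Not at hc
    exact hX ⟨Q, hQ, h, S, hS, hS4, hc⟩
  have h5 := str_five hF hQ h
  refine ⟨?_, fun h4 => ?_⟩
  · by_contra hc
    have hc5 : (T1 F Q).card = 5 := by omega
    obtain ⟨a, ha⟩ := h
    obtain ⟨e1, e2⟩ := str_sum F Q (singleton_subset_iff.2 ha) (Subset.refl (T1 F Q))
    rw [card_singleton, hc5] at e1
    rw [hc5] at e2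
    rw [str_dc] at e2
    have hone : ∀ c ∈ Qᶜ, (({a} ∪ T1 F Q).filter (fun r => c ∈ F r)).card = 1 := by
      have hge : ∀ c ∈ Qᶜ, 1 ≤ (({a} ∪ T1 F Q).filter (fun r => c ∈ F r)).card := fun c _ => by
        have := str_col hF ({a} ∪ T1 F Q) c
        omega
      have hs : ∑ c ∈ Qᶜ, 1 = ∑ c ∈ Qᶜ, (({a} ∪ T1 F Q).filter (fun r => c ∈ F r)).card := by
        rw [e2, sum_const, str_c5 hQ]
        rfl
      intro c hcQ
      exact ((sum_eq_sum_iff_of_le hge).1 hs c hcQ).symm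
    obtain ⟨S, hS, hS4⟩ := exists_subset_card_eq (show 4 ≤ (T1 F Q).card by omega)
    obtain ⟨r, hr, r', hr', hne, hnd⟩ := key S hS hS4
    rw [Finset.not_disjoint_iff] at hnd
    obtain ⟨c, hc1, hc2⟩ := hnd
    rw [mem_sdiff] at hc1 hc2
    have h1 := hone c (mem_compl.2 hc1.2)
    rw [card_eq_one] at h1
    obtain ⟨x, hx⟩ := h1
    have m1 : r ∈ ({a} ∪ T1 F Q).filter (fun r => c ∈ F r) := mem_filter.2 ⟨mem_union_right _ (hS hr), hc1.1⟩
    have m2 : r' ∈ ({a} ∪ T1 F Q).filter (fun r => c ∈ F r) := mem_filter.2 ⟨mem_union_right _ (hS hr'), hc2.1⟩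
    rw [hx, mem_singleton] at m1 m2
    exact hne (m1.trans m2.symm)
  · obtain ⟨r, hr, r', hr', hne, hnd⟩ := key (T1 F Q) (Subset.refl _) h4
    refine ⟨r, hr, r', hr', hne, ?_⟩
    obtain ⟨x, hx⟩ := card_eq_one.1 (mem_T1.1 hr)
    obtain ⟨y, hy⟩ := card_eq_one.1 (mem_T1.1 hr')
    rw [hx, hy] at hnd ⊢
    rw [disjoint_singleton, not_not] at hnd
    rw [hnd]

theorem t1_le_five {F : Fin 8 → Finset (Fin 8)} (hF : Deg3 F) {Q : Finset (Fin 8)} (hQ : Q.card = 3)
    (h : (T0 F Q).Nonempty) : (T1 F Q).card ≤ 5 := by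
  exact str_five hF hQ h

end Pool.Agent.MP_dc7d7b.TF
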