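import Pool.Agent.Lib.MP_dc7d7b_co.TF.CntA
import Pool.Agent.Lib.MP_dc7d7b_co.TF.CntB
import Pool.Agent.Lib.MP_dc7d7b_co.TF.Str
import Pool.Agent.Lib.MP_dc7d7b_co.TF.Ina
import Pool.Agent.Lib.MP_dc7d7b_co.TF.One

set_option autoImplicit false

/-!
CNT (120 lines): the number of row-bad permutations, from `cnt_union`. card QQ ≤ 1 (`one`). If Q ∈ QQ then T0 F Q contains
t ≠ t', F t = F t' = Q; t, t' are not in UU.
Case (a): card (T1 F (F c)) ≤ 3 for all c in UU. Then w = 120 (`e3a`), 3 card KK ≤ card UU (`kk_card`, m = 1).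
   QQ empty: 120 * 8 + 120 * 2 + 24 * 70 = 2880.
   QQ = {Q}: card UU ≤ 6, card KK ≤ 2, card RR ≤ 55: 720 + 120 * 6 + 120 * 2 + 24 * 55 = 3000.
Case (b): some c0 in UU has card (T1 F (F c0)) ≥ 4; by `t1_le_four` (T0 F (F c) contains c) all c in UU have card ≤ 4 and if
4 then two equal outer sets, so w = 240 (`e3a`, `e3b`), 3 card KK ≤ 2 card UU (m = 2). `inactive` (Q = F c0) gives s with
card (F s) ≥ 4 (so s is not in UU), not in any R in RR.
   QQ empty: card UU ≤ 7, card KK ≤ 4, card RR ≤ 35: 240 * 7 + 120 * 4 + 24 * 35 = 3000.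
   QQ = {Q}: card UU ≤ 5 (t, t', s not in UU; card (F t) = 3 so t ≠ s), card KK ≤ 3, card RR ≤ 25:
   720 + 240 * 5 + 120 * 3 + 24 * 25 = 2880.
-/

namespace Pool.Agent.MP_dc7d7b.TF

open Finset Classical

private theorem cnt_UU {F : Fin 8 → Finset (Fin 8)} (X : Finset (Fin 8)) (h : ∀ x ∈ X, x ∉ UU F) :
    (UU F).card + X.card ≤ 8 := by
  have h1 : Disjoint (UU F) X := by
    rw [Finset.disjoint_left]
    intro a ha hx
    exact h a hx ha
  rw [← Finset.card_union_of_disjoint h1]
  exact (Finset.card_le_univ _).trans (by simp)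

private theorem cnt_tw {F : Fin 8 → Finset (Fin 8)} {t t' : Fin 8} (h : t ≠ t') (hF : F t' = F t) : t ∉ UU F := by
  intro ht
  unfold UU at ht
  rw [mem_filter] at ht
  have h1 : t' ∈ T0 F (F t) := mem_T0.2 hF
  rw [ht.2.1, mem_singleton] at h1
  exact h h1.symm

theorem row_count {F : Fin 8 → Finset (Fin 8)} (hF : Deg3 F) (h2 : Two F) (h1 : ¬ X1 F) (hX : ¬ X2 F) :
    (univ.filter (fun N => RowBad F N)).card ≤ 3000 := by
  have hQ1 : (QQ F).card ≤ 1 := by
    refine Finset.card_le_one.2 fun Q hQ Q' hQ' => ?_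
    unfold QQ at hQ hQ'
    rw [mem_filter] at hQ hQ'
    obtain ⟨N, hN⟩ := hQ.2
    obtain ⟨N', hN'⟩ := hQ'.2
    exact one hF h1 hN hN'
  have hU8 : (UU F).card ≤ 8 := (Finset.card_le_univ _).trans (by simp)
  have hR70 := rr_card F
  -- the twins
  have htw : (QQ F).card = 0 ∨ ∃ t t' : Fin 8, t ≠ t' ∧ F t = F t' ∧ (F t).card = 3 ∧ t ∉ UU F ∧ t' ∉ UU F := by
    rcases Nat.eq_zero_or_pos (QQ F).card with h0 | h0
    · exact Or.inl h0
    · obtain ⟨Q, hQ⟩ := Finset.card_pos.1 h0
      unfold QQ at hQ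
      rw [mem_filter] at hQ
      obtain ⟨-, N, hN⟩ := hQ
      obtain ⟨hc, h2', -⟩ := hN
      obtain ⟨t, ht, t', ht', hne⟩ := Finset.one_lt_card.1 h2'
      rw [mem_T0] at ht ht'
      refine Or.inr ⟨t, t', hne, ht.trans ht'.symm, ?_, ?_, ?_⟩
      · rw [ht]
        exact hc
      · exact cnt_tw hne (ht'.trans ht.symm)
      · exact cnt_tw hne.symm (ht.trans ht'.symm)
  by_cases ha : ∀ c ∈ UU F, (T1 F (F c)).card ≤ 3
  · have hc := cnt_union hF h2 h1 120 fun c hc => e3a c (ha c hc)
    have hk := kk_card (F := F) 1 fun c hc => ha c hc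
    rcases htw with h0 | ⟨t, t', hne, hF', -, ht, ht'⟩
    · omega
    · have h3 := rr_twin hne hF'
      have h4 := cnt_UU (F := F) {t, t'} (by
        intro x hx
        rw [mem_insert, mem_singleton] at hx
        rcases hx with rfl | rfl
        · exact ht
        · exact ht')
      rw [Finset.card_pair hne] at h4
      omega
  · push Not at ha
    obtain ⟨c0, hc0, h4c0⟩ := ha
    have hle : ∀ c ∈ UU F, (T1 F (F c)).card ≤ 4 ∧
        ((T1 F (F c)).card = 4 → ∃ r ∈ T1 F (F c), ∃ r' ∈ T1 F (F c), r ≠ r' ∧ F r \ F c = F r' \ F c) := fun c hc => by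
      unfold UU at hc
      rw [mem_filter] at hc
      exact t1_le_four hF hX hc.2.2 ⟨c, mem_T0.2 rfl⟩
    have hc := cnt_union hF h2 h1 240 fun c hc => by
      by_cases h3 : (T1 F (F c)).card ≤ 3
      · exact (e3a c h3).trans (by norm_num)
      · have h5 := hle c hc
        exact e3b c h5.1 (h5.2 (by omega))
    have hk := kk_card (F := F) 2 fun c hc => (hle c hc).1.trans (by norm_num)
    have hc0' := hc0
    unfold UU at hc0'
    rw [mem_filter] at hc0'
    obtain ⟨s, hs4, hs⟩ := inactive hF hc0'.2.2 (by rw [hc0'.2.1, card_singleton]) (by have := (hle c0 hc0).1; omega)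
    have hsU : s ∉ UU F := by
      intro h
      unfold UU at h
      rw [mem_filter] at h
      omega
    have hr := rr_ina hs
    rcases htw with h0 | ⟨t, t', hne, hF', h3, ht, ht'⟩
    · have h4 := cnt_UU (F := F) {s} (by
        intro x hx
        rw [mem_singleton] at hx
        rwa [hx])
      rw [card_singleton] at h4
      omega
    · have hts : t ≠ s := by
        rintro rfl
        omega
      have hts' : t' ≠ s := by
        rintro rfl
        rw [hF'] at h3
        omega
      have h5 := rr_ina_twin hs hne hF' hts hts'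
      have h4 := cnt_UU (F := F) {t, t', s} (by
        intro x hx
        rw [mem_insert, mem_insert, mem_singleton] at hx
        rcases hx with rfl | rfl | rfl
        · exact ht
        · exact ht'
        · exact hsU)
      rw [Finset.card_eq_three.2 ⟨t, t', s, hne, hts, hts', rfl⟩] at h4
      omega

end Pool.Agent.MP_dc7d7b.TF
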