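import Pool.Agent.Lib.MP_dc7d7b_co.TF.Defs

set_option autoImplicit false

/-!
COV (120 lines): every row-bad permutation is in one of the events.
Second case of `RowBad` (R with 4 rows, Q with 3 columns, F r ⊆ insert (N r) Q for r ∈ R). For r ∈ R either
F r ⊆ Q, and then F r = Q as card (F r) ≥ 3, or N r ∈ F r \ Q and F r \ Q = {N r}, so r ∈ T1 F Q.
 * If all four rows are equal to Q: no allowed cell in R × Qᶜ, against `Two`. If exactly three are: exactly one
   allowed cell in R × Qᶜ, against `Two`. So at least two rows r, r' of R are hit outside Q.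
 * If some row c (in R or not) has F c = Q: if T0 F Q has at least two elements then E2. Otherwise T0 F Q = {c};
   at most one row of R is in T0, so three rows of R are hit: E3 F N c.
 * If no row is equal to Q: all four rows are hit. If three of them have F r ⊆ insert (N r) p, card p = 2: this is the
   first case of `RowBad`. Otherwise E4 F N R.
First case (R with 3 rows, p with 2 columns, F r ⊆ insert (N r) p): as card (F r) ≥ 3, F r = insert (N r) p, N r ∉ p.
 * If b ∈ R has a twin b' ≠ b (F b' = F b): put Q = F b. The other two rows of R are in T1 F Q and hit outside Q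
   (N injective): E2 F N Q.
 * Otherwise no row of R has a twin. If a row e ∉ R has card (F e) = 3 and p ⊆ F e: put Q = F e. For b ∈ R,
   N b ∉ F e (else F b = F e, a twin), so b ∈ T1 F Q hit outside. If T0 F Q = {e}: E3 F N e; else E2 F N Q.
 * Otherwise E36 F N R.
-/

namespace Pool.Agent.MP_dc7d7b.TF

open Finset

private lemma sd_first {F : Fin 8 → Finset (Fin 8)} (hF : Deg3 F) {N : Equiv.Perm (Fin 8)} {p : Finset (Fin 8)}
    (hp : p.card = 2) {r : Fin 8} (h : F r ⊆ insert (N r) p) : F r = insert (N r) p ∧ N r ∉ p := by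
  have h3 := hF.row r
  have hle : (insert (N r) p).card ≤ 3 := (Finset.card_insert_le _ _).trans (by omega)
  have heq : F r = insert (N r) p := Finset.eq_of_subset_of_card_le h (by omega)
  refine ⟨heq, fun hm => ?_⟩
  rw [heq, Finset.insert_eq_self.2 hm] at h3
  omega

private lemma two_of {S : Finset (Fin 8)} (h : 2 ≤ S.card) : ∃ r ∈ S, ∃ r' ∈ S, r ≠ r' := by
  obtain ⟨a, ha, b, hb, hab⟩ := Finset.one_lt_card.1 (show 1 < S.card by omega)
  exact ⟨a, ha, b, hb, hab⟩

private lemma T0_cases {F : Fin 8 → Finset (Fin 8)} {c : Fin 8} {Q : Finset (Fin 8)} (hc : F c = Q) :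
    2 ≤ (T0 F Q).card ∨ T0 F Q = {c} := by
  have hm : c ∈ T0 F Q := mem_T0.2 hc
  rcases Nat.lt_or_ge (T0 F Q).card 2 with h | h
  · right
    refine (Finset.eq_of_subset_of_card_le (Finset.singleton_subset_iff.2 hm) ?_).symm
    rw [Finset.card_singleton]; omega
  · exact Or.inl h

private lemma e2_of {F : Fin 8 → Finset (Fin 8)} {N : Equiv.Perm (Fin 8)} {Q S : Finset (Fin 8)} (hQ : Q.card = 3)
    (h0 : 2 ≤ (T0 F Q).card) (hS : 2 ≤ S.card) (h : ∀ r ∈ S, r ∈ T1 F Q ∧ N r ∈ F r \ Q) : E2 F N Q := by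
  obtain ⟨a, ha, b, hb, hab⟩ := two_of hS
  exact ⟨hQ, h0, a, (h a ha).1, b, (h b hb).1, hab, (h a ha).2, (h b hb).2⟩

/-- A row contained in `insert (N r) Q` and hit outside `Q` is of type 1. -/
private lemma hit {F : Fin 8 → Finset (Fin 8)} {N : Equiv.Perm (Fin 8)} {Q : Finset (Fin 8)} {r : Fin 8}
    (h : F r ⊆ insert (N r) Q) (hm : N r ∈ F r \ Q) : r ∈ T1 F Q := by
  rw [mem_T1, Finset.card_eq_one]
  refine ⟨N r, ?_⟩
  ext x
  rw [Finset.mem_singleton]
  constructor
  · intro hx
    rw [Finset.mem_sdiff] at hx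
    rcases Finset.mem_insert.1 (h hx.1) with h1 | h1
    · exact h1
    · exact absurd h1 hx.2
  · rintro rfl
    exact hm

/-- First case. -/
private lemma case1 {F : Fin 8 → Finset (Fin 8)} (hF : Deg3 F) {N : Equiv.Perm (Fin 8)} {R p : Finset (Fin 8)}
    (hR : R.card = 3) (hp : p.card = 2) (h : ∀ r ∈ R, F r ⊆ insert (N r) p) :
    (∃ Q, E2 F N Q) ∨ (∃ c, E3 F N c) ∨ (∃ S, E36 F N S) := by
  have hf : ∀ r ∈ R, F r = insert (N r) p ∧ N r ∉ p := fun r hr => sd_first hF hp (h r hr)
  have hc3 : ∀ r ∈ R, (F r).card = 3 := by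
    intro r hr
    rw [(hf r hr).1, Finset.card_insert_of_notMem (hf r hr).2, hp]
  have hpF : ∀ r ∈ R, p ⊆ F r := by
    intro r hr
    rw [(hf r hr).1]; exact Finset.subset_insert _ _
  have hNF : ∀ r ∈ R, N r ∈ F r := by
    intro r hr
    rw [(hf r hr).1]; exact Finset.mem_insert_self _ _
  by_cases ht : ∃ b ∈ R, ∃ b', b' ≠ b ∧ F b' = F b
  · obtain ⟨b, hb, b', hbb, hFb⟩ := ht
    left
    refine ⟨F b, e2_of (S := R.erase b) (hc3 b hb) ?_ ?_ ?_⟩
    · have : ({b, b'} : Finset (Fin 8)) ⊆ T0 F (F b) := by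
        intro x hx
        rw [Finset.mem_insert, Finset.mem_singleton] at hx
        rcases hx with rfl | rfl
        · exact mem_T0.2 rfl
        · exact mem_T0.2 hFb
      have h2 := Finset.card_le_card this
      rwa [Finset.card_pair (Ne.symm hbb)] at h2
    · rw [Finset.card_erase_of_mem hb]; omega
    · intro r hr
      rw [Finset.mem_erase] at hr
      have hn : N r ∉ F b := by
        rw [(hf b hb).1, Finset.mem_insert]
        rintro (h1 | h1)
        · exact hr.1 (N.injective h1)
        · exact (hf r hr.2).2 h1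
      have hm : N r ∈ F r \ F b := Finset.mem_sdiff.2 ⟨hNF r hr.2, hn⟩
      refine ⟨hit ?_ hm, hm⟩
      exact (h r hr.2).trans (Finset.insert_subset_insert _ (hpF b hb))
  · push Not at ht
    by_cases he : ∃ e, e ∉ R ∧ (F e).card = 3 ∧ p ⊆ F e
    · obtain ⟨e, heR, he3, hpe⟩ := he
      have key : ∀ r ∈ R, r ∈ T1 F (F e) ∧ N r ∈ F r \ F e := by
        intro r hr
        have hn : N r ∉ F e := by
          intro hm
          have hsub : F r ⊆ F e := by
            rw [(hf r hr).1]; exact Finset.insert_subset hm hpe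
          have heq : F r = F e := Finset.eq_of_subset_of_card_le hsub (by rw [he3, hc3 r hr])
          exact ht r hr e (fun h1 => heR (h1 ▸ hr)) heq.symm
        have hm : N r ∈ F r \ F e := Finset.mem_sdiff.2 ⟨hNF r hr, hn⟩
        exact ⟨hit ((h r hr).trans (Finset.insert_subset_insert _ hpe)) hm, hm⟩
      rcases T0_cases (F := F) (c := e) rfl with h0 | h0
      · exact Or.inl ⟨F e, e2_of he3 h0 (by omega) key⟩
      · exact Or.inr (Or.inl ⟨e, h0, he3, R, fun r hr => (key r hr).1, hR, fun r hr => (key r hr).2⟩)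
    · push Not at he
      refine Or.inr (Or.inr ⟨R, hR, p, hp, ?_, ?_⟩)
      · intro r hr
        refine ⟨hc3 r hr, hpF r hr, Finset.mem_sdiff.2 ⟨hNF r hr, (hf r hr).2⟩, ?_⟩
        ext x
        rw [mem_T0, Finset.mem_singleton]
        constructor
        · intro hx
          by_contra hne
          exact ht r hr x hne hx
        · rintro rfl; rfl
      · intro r h3 hpr
        by_contra hr
        exact he r hr h3 hpr

theorem cover {F : Fin 8 → Finset (Fin 8)} (hF : Deg3 F) (h2 : Two F) {N : Equiv.Perm (Fin 8)} (h : RowBad F N) :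
    (∃ Q, E2 F N Q) ∨ (∃ c, E3 F N c) ∨ (∃ S, E36 F N S) ∨ (∃ R, E4 F N R) := by
  have hc1 : ∀ R p : Finset (Fin 8), R.card = 3 → p.card = 2 → (∀ r ∈ R, F r ⊆ insert (N r) p) →
      (∃ Q, E2 F N Q) ∨ (∃ c, E3 F N c) ∨ (∃ S, E36 F N S) ∨ (∃ R, E4 F N R) := by
    intro R p hR hp hh
    rcases case1 hF hR hp hh with h1 | h1 | h1
    · exact Or.inl h1
    · exact Or.inr (Or.inl h1)
    · exact Or.inr (Or.inr (Or.inl h1))
  rcases h with ⟨R, p, hR, hp, hh⟩ | ⟨R, Q, hR, hQ, hh⟩
  · exact hc1 R p hR hp hh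
  · -- rows not hit outside `Q` are equal to `Q`
    have hnot : ∀ r ∈ R, N r ∉ F r \ Q → F r = Q := by
      intro r hr hn
      have hsub : F r ⊆ Q := by
        intro x hx
        rcases Finset.mem_insert.1 (hh r hr hx) with h1 | h1
        · by_contra hxQ
          exact hn (Finset.mem_sdiff.2 ⟨h1 ▸ hx, h1 ▸ hxQ⟩)
        · exact h1
      exact Finset.eq_of_subset_of_card_le hsub (by rw [hQ]; exact hF.row r)
    let H : Finset (Fin 8) := R.filter (fun r => N r ∈ F r \ Q)
    have hH : ∀ r, r ∈ H ↔ r ∈ R ∧ N r ∈ F r \ Q := fun r => Finset.mem_filter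
    have hkey : ∀ r ∈ H, r ∈ T1 F Q ∧ N r ∈ F r \ Q := by
      intro r hr
      rw [hH] at hr
      exact ⟨hit (hh r hr.1) hr.2, hr.2⟩
    have hH2 : 2 ≤ H.card := by
      refine (h2 R Qᶜ ?_).trans ?_
      · rw [hR, Finset.card_compl, Fintype.card_fin, hQ]
      · have hcell : ∀ x ∈ (R ×ˢ Qᶜ).filter (fun x => x.2 ∈ F x.1), x.2 = N x.1 := by
          intro x hx
          rw [Finset.mem_filter, Finset.mem_product, Finset.mem_compl] at hx
          rcases Finset.mem_insert.1 (hh x.1 hx.1.1 hx.2) with h1 | h1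
          · exact h1
          · exact absurd h1 hx.1.2
        refine Finset.card_le_card_of_injOn Prod.fst ?_ ?_
        · intro x hx
          have hx' := Finset.mem_coe.1 hx
          have h1 := hcell x hx'
          rw [Finset.mem_filter, Finset.mem_product, Finset.mem_compl] at hx'
          refine Finset.mem_coe.2 ((hH x.1).2 ⟨hx'.1.1, ?_⟩)
          rw [← h1]
          exact Finset.mem_sdiff.2 ⟨hx'.2, hx'.1.2⟩
        · intro x hx y hy hxy
          have h1 := hcell x (Finset.mem_coe.1 hx)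
          have h3 := hcell y (Finset.mem_coe.1 hy)
          refine Prod.ext hxy ?_
          rw [h1, h3]
          exact congrArg N hxy
    by_cases hc : ∃ c, F c = Q
    · obtain ⟨c, hc⟩ := hc
      rcases T0_cases hc with h0 | h0
      · exact Or.inl ⟨Q, e2_of hQ h0 hH2 hkey⟩
      · have hsub : R \ H ⊆ {c} := by
          intro r hr
          rw [Finset.mem_sdiff, hH] at hr
          rw [← h0, mem_T0]
          exact hnot r hr.1 (fun h1 => hr.2 ⟨hr.1, h1⟩)
        have hcard : (R \ H).card ≤ 1 := by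
          have := Finset.card_le_card hsub
          rwa [Finset.card_singleton] at this
        have h3 : 3 ≤ H.card := by
          have h4 := Finset.card_sdiff_add_card R H
          have h5 : R.card ≤ (R ∪ H).card := Finset.card_le_card Finset.subset_union_left
          omega
        obtain ⟨S, hSH, hS3⟩ := Finset.exists_subset_card_eq h3
        refine Or.inr (Or.inl ⟨c, ?_, ?_, S, ?_, hS3, ?_⟩)
        · rw [hc]; exact h0
        · rw [hc]; exact hQ
        · intro r hr
          rw [hc]; exact (hkey r (hSH hr)).1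
        · intro r hr
          rw [hc]; exact (hkey r (hSH hr)).2
    · push Not at hc
      have hall : ∀ r ∈ R, N r ∈ F r \ Q := by
        intro r hr
        by_contra hn
        exact hc r (hnot r hr hn)
      by_cases hS : ∃ p S : Finset (Fin 8), p.card = 2 ∧ S ⊆ R ∧ S.card = 3 ∧ ∀ r ∈ S, F r ⊆ insert (N r) p
      · obtain ⟨p, S, hp, _, hS3, hh'⟩ := hS
        exact hc1 S p hS3 hp hh'
      · refine Or.inr (Or.inr (Or.inr ⟨R, hR, Q, hQ, fun r hr => ⟨hall r hr, hh r hr⟩, ?_⟩))
        intro p S hp hSR hS3 hh'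
        exact hS ⟨p, S, hp, hSR, hS3, hh'⟩

end Pool.Agent.MP_dc7d7b.TF
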