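import Pool.Agent.Lib.MP_dc7d7b_co.TF.Fix

set_option autoImplicit false

/-!
EV (100 lines): how many permutations are in one event. All from `card_fix`.
`e2`: T1 F Q has at most 2 rows, so r, r' are these two rows, and N r is the only element of F r \ Q: N is prescribed
on 2 rows, 6! = 720.
`e3a`: T1 F (F c) has at most 3 rows, so S is all of it, N prescribed on 3 rows: 5! = 120.
`e3b`: T1 F (F c) = {t1, t2, t3, t4} and t1, t2 have the same outer cell y. S cannot contain both t1 and t2
(N injective), so S = {t1, t3, t4} or {t2, t3, t4}: 2 * 120.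
-/

namespace Pool.Agent.MP_dc7d7b.TF

open Finset Classical

private theorem outer (F : Fin 8 → Finset (Fin 8)) (Q : Finset (Fin 8)) :
    ∃ f : Fin 8 → Fin 8, ∀ r ∈ T1 F Q, F r \ Q = {f r} := by
  have h : ∀ r, ∃ x, r ∈ T1 F Q → F r \ Q = {x} := by
    intro r
    by_cases hr : r ∈ T1 F Q
    · obtain ⟨x, hx⟩ := Finset.card_eq_one.mp (mem_T1.mp hr)
      exact ⟨x, fun _ => hx⟩
    · exact ⟨0, fun h => absurd h hr⟩
  choose f hf using h
  exact ⟨f, hf⟩

private theorem fix_le {S : Finset (Fin 8)} {k n : ℕ} (f : Fin 8 → Fin 8) (hS : S.card = k) (hn : (8 - k).factorial = n)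
    (P : Equiv.Perm (Fin 8) → Prop) (hP : ∀ N, P N → ∀ i ∈ S, N i = f i) : (univ.filter (fun N => P N)).card ≤ n := by
  have h1 : univ.filter (fun N => P N) ⊆ univ.filter (fun N : Equiv.Perm (Fin 8) => ∀ i ∈ S, N i = f i) := by
    intro N hN
    rw [Finset.mem_filter] at hN ⊢
    exact ⟨Finset.mem_univ _, hP N hN.2⟩
  have h2 := card_fix S f
  rw [hS, hn] at h2
  refine (Finset.card_le_card h1).trans ?_
  convert h2

theorem e2 {F : Fin 8 → Finset (Fin 8)} (Q : Finset (Fin 8)) (h : (T1 F Q).card ≤ 2) :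
    (univ.filter (fun N => E2 F N Q)).card ≤ 720 := by
  obtain ⟨f, hf⟩ := outer F Q
  by_cases hex : ∃ N0, E2 F N0 Q
  · obtain ⟨N0, -, -, r, hr, r', hr', hne, -, -⟩ := hex
    have hc : (T1 F Q).card = 2 := by
      have : 1 < (T1 F Q).card := Finset.one_lt_card.mpr ⟨r, hr, r', hr', hne⟩
      omega
    refine fix_le f hc rfl (fun N => E2 F N Q) ?_
    rintro N ⟨-, -, s, hs, s', hs', hss, h1, h2⟩ i hi
    have hsub : ({s, s'} : Finset (Fin 8)) ⊆ T1 F Q := by
      intro x hx
      rw [Finset.mem_insert, Finset.mem_singleton] at hx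
      rcases hx with rfl | rfl
      · exact hs
      · exact hs'
    have heq : ({s, s'} : Finset (Fin 8)) = T1 F Q :=
      Finset.eq_of_subset_of_card_le hsub (by rw [Finset.card_pair hss]; exact h)
    rw [← heq, Finset.mem_insert, Finset.mem_singleton] at hi
    rcases hi with rfl | rfl
    · rw [hf i hs, Finset.mem_singleton] at h1
      exact h1
    · rw [hf i hs', Finset.mem_singleton] at h2
      exact h2
  · have h1 : univ.filter (fun N => E2 F N Q) = ∅ := by
      rw [Finset.filter_eq_empty_iff]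
      intro N _ hN
      exact hex ⟨N, hN⟩
    rw [h1]
    simp

theorem e3a {F : Fin 8 → Finset (Fin 8)} (c : Fin 8) (h : (T1 F (F c)).card ≤ 3) :
    (univ.filter (fun N => E3 F N c)).card ≤ 120 := by
  obtain ⟨f, hf⟩ := outer F (F c)
  by_cases hex : ∃ N0, E3 F N0 c
  · obtain ⟨N0, -, -, S0, hS0, hS0c, -⟩ := hex
    have hc : (T1 F (F c)).card = 3 := by
      have := Finset.card_le_card hS0
      omega
    refine fix_le f hc rfl (fun N => E3 F N c) ?_
    rintro N ⟨-, -, S, hS, hSc, h1⟩ i hi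
    have heq : S = T1 F (F c) := Finset.eq_of_subset_of_card_le hS (by omega)
    have h2 := h1 i (by rw [heq]; exact hi)
    rw [hf i hi, Finset.mem_singleton] at h2
    exact h2
  · have h1 : univ.filter (fun N => E3 F N c) = ∅ := by
      rw [Finset.filter_eq_empty_iff]
      intro N _ hN
      exact hex ⟨N, hN⟩
    rw [h1]
    simp

theorem e3b {F : Fin 8 → Finset (Fin 8)} (c : Fin 8) (h : (T1 F (F c)).card ≤ 4)
    (h4 : ∃ r ∈ T1 F (F c), ∃ r' ∈ T1 F (F c), r ≠ r' ∧ F r \ F c = F r' \ F c) :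
    (univ.filter (fun N => E3 F N c)).card ≤ 240 := by
  obtain ⟨f, hf⟩ := outer F (F c)
  obtain ⟨r, hr, r', hr', hne, hrr⟩ := h4
  have key : ∀ N, E3 F N c → (T1 F (F c)).card = 4 ∧
      ((∀ i ∈ (T1 F (F c)).erase r, N i = f i) ∨ (∀ i ∈ (T1 F (F c)).erase r', N i = f i)) := by
    rintro N ⟨-, -, S, hS, hSc, h1⟩
    have hN : ∀ i ∈ S, N i = f i := by
      intro i hi
      have h2 := h1 i hi
      rw [hf i (hS hi), Finset.mem_singleton] at h2
      exact h2
    have hff : f r = f r' := by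
      have h2 : ({f r} : Finset (Fin 8)) = {f r'} := by rw [← hf r hr, ← hf r' hr', hrr]
      exact Finset.singleton_injective h2
    have er : ((T1 F (F c)).erase r).card = (T1 F (F c)).card - 1 := Finset.card_erase_of_mem hr
    have er' : ((T1 F (F c)).erase r').card = (T1 F (F c)).card - 1 := Finset.card_erase_of_mem hr'
    by_cases hrS : r ∈ S
    · have hr'S : r' ∉ S := by
        intro hr'S
        apply hne
        apply N.injective
        rw [hN r hrS, hN r' hr'S, hff]
      have hsub : S ⊆ (T1 F (F c)).erase r' := fun x hx =>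
        Finset.mem_erase.mpr ⟨fun hxr => hr'S (hxr ▸ hx), hS hx⟩
      have hcard := Finset.card_le_card hsub
      have heq : S = (T1 F (F c)).erase r' := Finset.eq_of_subset_of_card_le hsub (by omega)
      exact ⟨by omega, Or.inr (fun i hi => hN i (by rw [heq]; exact hi))⟩
    · have hsub : S ⊆ (T1 F (F c)).erase r := fun x hx =>
        Finset.mem_erase.mpr ⟨fun hxr => hrS (hxr ▸ hx), hS hx⟩
      have hcard := Finset.card_le_card hsub
      have heq : S = (T1 F (F c)).erase r := Finset.eq_of_subset_of_card_le hsub (by omega)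
      exact ⟨by omega, Or.inl (fun i hi => hN i (by rw [heq]; exact hi))⟩
  by_cases hex : ∃ N0, E3 F N0 c
  · obtain ⟨N0, hN0⟩ := hex
    have hc := (key N0 hN0).1
    have er : ((T1 F (F c)).erase r).card = 3 := by
      rw [Finset.card_erase_of_mem hr, hc]
    have er' : ((T1 F (F c)).erase r').card = 3 := by
      rw [Finset.card_erase_of_mem hr', hc]
    obtain ⟨P1, hP1⟩ : ∃ P1 : Equiv.Perm (Fin 8) → Prop, ∀ N, P1 N ↔ ∀ i ∈ (T1 F (F c)).erase r, N i = f i := ⟨_, fun _ => Iff.rfl⟩
    obtain ⟨P2, hP2⟩ : ∃ P2 : Equiv.Perm (Fin 8) → Prop, ∀ N, P2 N ↔ ∀ i ∈ (T1 F (F c)).erase r', N i = f i := ⟨_, fun _ => Iff.rfl⟩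
    have hA := fix_le (n := 120) f er rfl P1 (fun N hN => (hP1 N).1 hN)
    have hB := fix_le (n := 120) f er' rfl P2 (fun N hN => (hP2 N).1 hN)
    have hsub : univ.filter (fun N => E3 F N c) ⊆ univ.filter (fun N => P1 N) ∪ univ.filter (fun N => P2 N) := by
      intro N hN
      have h2 := (key N (Finset.mem_filter.mp hN).2).2
      rw [Finset.mem_union, Finset.mem_filter, Finset.mem_filter]
      rcases h2 with h2 | h2
      · exact Or.inl ⟨Finset.mem_univ _, (hP1 N).2 h2⟩
      · exact Or.inr ⟨Finset.mem_univ _, (hP2 N).2 h2⟩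
    have h3 := (Finset.card_le_card hsub).trans (Finset.card_union_le _ _)
    omega
  · have h1 : univ.filter (fun N => E3 F N c) = ∅ := by
      rw [Finset.filter_eq_empty_iff]
      intro N _ hN
      exact hex ⟨N, hN⟩
    rw [h1]
    simp

end Pool.Agent.MP_dc7d7b.TF
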