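import Pool.Agent.Lib.MP_dc7d7b_co.TF.Fix

set_option autoImplicit false

/-!
EV4 (100 lines): how many permutations are in one event. From `card_fix`.
`e36`: p is the intersection of the F r, r ∈ S (if p, p' are two such pairs, p ≠ p', then two rows of S contain
p ∪ p', a set with at least 3 elements, so they are equal: but they have no twins). So N is prescribed on S: for two
such permutations N, N' (with p, p') p = p' and N r, N' r are both the only element of F r \ p.
`e4`: let N, N' be two such permutations for the same R, with Q, Q'. If r ∈ R and N r ≠ N' r then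
N r ∈ F r \ Q and N r ∈ Q' (as F r ⊆ insert (N' r) Q'), so N r ∈ Q' \ Q. Rows with N r = N' r have
F r ⊆ insert (N r) (Q ∩ Q'), with at least 3 elements, so card (Q ∩ Q') ≥ 2. If there is a row with N r ≠ N' r
then Q ≠ Q'; if there is a row with equality, card (Q ∩ Q') = 2, card (Q' \ Q) = 1, so exactly one row differs and
the other three have F r ⊆ insert (N r) (Q ∩ Q'): excluded by the last condition. If all four rows differ, N maps
four rows injectively to Q' \ Q with at most 3 elements. So N = N' on R: at most 4! = 24.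
-/

namespace Pool.Agent.MP_dc7d7b.TF

open Finset Classical

private theorem key36 {F : Fin 8 → Finset (Fin 8)} {S : Finset (Fin 8)} {N N' : Equiv.Perm (Fin 8)}
    (h : E36 F N S) (h' : E36 F N' S) : ∀ r ∈ S, N r = N' r := by
  obtain ⟨hS, p, hp, h1, -⟩ := h
  obtain ⟨-, p', hp', h1', -⟩ := h'
  have hpp : p = p' := by
    by_contra hne
    obtain ⟨r1, hr1, r2, hr2, hr⟩ := Finset.one_lt_card.mp (by omega : 1 < S.card)
    have hu : 3 ≤ (p ∪ p').card := by
      by_contra hlt
      have h2 : (p ∪ p').card ≤ 2 := by omega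
      have h3 : p = p ∪ p' :=
        Finset.eq_of_subset_of_card_le Finset.subset_union_left (by omega)
      have h4 : p' = p ∪ p' :=
        Finset.eq_of_subset_of_card_le Finset.subset_union_right (by omega)
      exact hne (h3.trans h4.symm)
    have e1 : p ∪ p' = F r1 := by
      refine Finset.eq_of_subset_of_card_le
        (Finset.union_subset (h1 r1 hr1).2.1 (h1' r1 hr1).2.1) ?_
      have := (h1 r1 hr1).1
      omega
    have e2 : p ∪ p' = F r2 := by
      refine Finset.eq_of_subset_of_card_le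
        (Finset.union_subset (h1 r2 hr2).2.1 (h1' r2 hr2).2.1) ?_
      have := (h1 r2 hr2).1
      omega
    have h5 : r2 ∈ T0 F (F r1) := by
      rw [mem_T0, ← e1, ← e2]
    rw [(h1 r1 hr1).2.2.2, Finset.mem_singleton] at h5
    exact hr h5.symm
  subst hpp
  intro r hr
  obtain ⟨a1, a2, a3, -⟩ := h1 r hr
  obtain ⟨-, -, b3, -⟩ := h1' r hr
  have hc : (F r \ p).card = 1 := by
    rw [Finset.card_sdiff_of_subset a2]
    omega
  obtain ⟨x, hx⟩ := Finset.card_eq_one.mp hc
  rw [hx, Finset.mem_singleton] at a3 b3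
  rw [a3, b3]

private theorem key4 {F : Fin 8 → Finset (Fin 8)} (hF : ∀ r, 3 ≤ (F r).card) {R : Finset (Fin 8)}
    {N N' : Equiv.Perm (Fin 8)} (h : E4 F N R) (h' : E4 F N' R) : ∀ r ∈ R, N r = N' r := by
  obtain ⟨hR, Q, hQ, h1, h2⟩ := h
  obtain ⟨-, Q', hQ', h1', -⟩ := h'
  intro r0 hr0
  by_contra hne
  have hD : ∀ r ∈ R, N r ≠ N' r → N r ∈ Q' \ Q := by
    intro r hr hnr
    have a := (h1 r hr).1
    rw [Finset.mem_sdiff] at a ⊢
    have b := (h1' r hr).2 a.1
    rw [Finset.mem_insert] at b
    rcases b with b | b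
    · exact absurd b hnr
    · exact ⟨b, a.2⟩
  have hE : ∀ r ∈ R, N r = N' r → F r ⊆ insert (N r) (Q ∩ Q') := by
    intro r hr hnr x hx
    have a := (h1 r hr).2 hx
    have b := (h1' r hr).2 hx
    rw [Finset.mem_insert] at a b ⊢
    rcases a with a | a
    · exact Or.inl a
    · rcases b with b | b
      · left
        rw [b, hnr]
      · right
        exact Finset.mem_inter.mpr ⟨a, b⟩
  have hDc : (R.filter (fun r => N r ≠ N' r)).card ≤ (Q' \ Q).card := by
    refine Finset.card_le_card_of_injOn (fun r => N r) ?_ (N.injective.injOn)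
    intro r hr
    have hr' : r ∈ R.filter (fun r => N r ≠ N' r) := hr
    rw [Finset.mem_filter] at hr'
    exact hD r hr'.1 hr'.2
  have hD1 : 1 ≤ (R.filter (fun r => N r ≠ N' r)).card :=
    Finset.card_pos.mpr ⟨r0, Finset.mem_filter.mpr ⟨hr0, hne⟩⟩
  have hsum : (R.filter (fun r => N r ≠ N' r)).card + (R.filter (fun r => ¬ N r ≠ N' r)).card = 4 := by
    rw [← hR]
    exact Finset.card_filter_add_card_filter_not _
  have hQc : (Q' \ Q).card + (Q' ∩ Q).card = 3 := by
    rw [← hQ']
    exact Finset.card_sdiff_add_card_inter Q' Q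
  rw [Finset.inter_comm] at hQc
  have hEpos : 0 < (R.filter (fun r => ¬ N r ≠ N' r)).card := by omega
  obtain ⟨r1, hr1⟩ := Finset.card_pos.mp hEpos
  rw [Finset.mem_filter, not_not] at hr1
  have h3 := Finset.card_le_card (hE r1 hr1.1 hr1.2)
  have h4 := Finset.card_insert_le (N r1) (Q ∩ Q')
  have h5 := hF r1
  have h6 : 3 ≤ (R.filter (fun r => ¬ N r ≠ N' r)).card := by omega
  obtain ⟨S, hS, hSc⟩ := Finset.exists_subset_card_eq h6
  have h7 : (Q ∩ Q').card = 2 := by omega
  refine h2 (Q ∩ Q') S h7 (hS.trans (Finset.filter_subset _ _)) hSc ?_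
  intro r hr
  have h8 := hS hr
  rw [Finset.mem_filter, not_not] at h8
  exact hE r h8.1 h8.2

theorem e36 {F : Fin 8 → Finset (Fin 8)} (S : Finset (Fin 8)) :
    (univ.filter (fun N => E36 F N S)).card ≤ 120 := by
  by_cases hex : ∃ N0, E36 F N0 S
  · obtain ⟨N0, hN0⟩ := hex
    have h1 : univ.filter (fun N => E36 F N S) ⊆
        univ.filter (fun N : Equiv.Perm (Fin 8) => ∀ i ∈ S, N i = N0 i) := by
      intro N hN
      rw [Finset.mem_filter] at hN ⊢
      exact ⟨Finset.mem_univ _, key36 hN.2 hN0⟩
    have h2 := card_fix S (fun i => N0 i)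
    have h3 : (8 - S.card).factorial = 120 := by
      rw [hN0.1]
      rfl
    rw [h3] at h2
    refine (Finset.card_le_card h1).trans ?_
    convert h2
  · have h1 : univ.filter (fun N => E36 F N S) = ∅ := by
      rw [Finset.filter_eq_empty_iff]
      intro N _ hN
      exact hex ⟨N, hN⟩
    rw [h1]
    simp

theorem e4 {F : Fin 8 → Finset (Fin 8)} (hF : ∀ r, 3 ≤ (F r).card) (R : Finset (Fin 8)) :
    (univ.filter (fun N => E4 F N R)).card ≤ 24 := by
  by_cases hex : ∃ N0, E4 F N0 R
  · obtain ⟨N0, hN0⟩ := hex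
    have h1 : univ.filter (fun N => E4 F N R) ⊆
        univ.filter (fun N : Equiv.Perm (Fin 8) => ∀ i ∈ R, N i = N0 i) := by
      intro N hN
      rw [Finset.mem_filter] at hN ⊢
      exact ⟨Finset.mem_univ _, key4 hF hN.2 hN0⟩
    have h2 := card_fix R (fun i => N0 i)
    have h3 : (8 - R.card).factorial = 24 := by
      rw [hN0.1]
      rfl
    rw [h3] at h2
    refine (Finset.card_le_card h1).trans ?_
    convert h2
  · have h1 : univ.filter (fun N => E4 F N R) = ∅ := by
      rw [Finset.filter_eq_empty_iff]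
      intro N _ hN
      exact hex ⟨N, hN⟩
    rw [h1]
    simp

end Pool.Agent.MP_dc7d7b.TF
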