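import Pool.Agent.Lib.MP_dc7d7b_co.TF.Sets
import Pool.Agent.Lib.MP_dc7d7b_co.TF.Ev
import Pool.Agent.Lib.MP_dc7d7b_co.TF.Ev4
import Pool.Agent.Lib.MP_dc7d7b_co.TF.Cov

set_option autoImplicit false

/-!
CNTA (70 lines): the union bound. By `cover` every row-bad N is in an event E2 F N Q (Q ∈ QQ, then card (T1 F Q) ≤ 2 by
not X1: `e2`, 720), E3 F N c (c ∈ UU: w), E36 F N S (S ∈ KK: `e36`, 120) or E4 F N R (R ∈ RR: `e4`, 24).
-/

namespace Pool.Agent.MP_dc7d7b.TF

open Finset Classical

theorem cnt_union {F : Fin 8 → Finset (Fin 8)} (hF : Deg3 F) (h2 : Two F) (h1 : ¬ X1 F) (w : ℕ)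
    (hw : ∀ c ∈ UU F, (univ.filter (fun N => E3 F N c)).card ≤ w) :
    (univ.filter (fun N => RowBad F N)).card ≤
      720 * (QQ F).card + w * (UU F).card + 120 * (KK F).card + 24 * (RR F).card := by
  have hsub : (univ.filter (fun N => RowBad F N)) ⊆
      ((((QQ F).biUnion fun Q => univ.filter (fun N => E2 F N Q)) ∪
        ((UU F).biUnion fun c => univ.filter (fun N => E3 F N c))) ∪
        ((KK F).biUnion fun S => univ.filter (fun N => E36 F N S))) ∪
        ((RR F).biUnion fun R => univ.filter (fun N => E4 F N R)) := by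
    intro N hN
    have hb : RowBad F N := (mem_filter.1 hN).2
    rcases cover hF h2 hb with ⟨Q, hQ⟩ | ⟨c, hc⟩ | ⟨S, hS⟩ | ⟨R, hR⟩
    · refine mem_union_left _ (mem_union_left _ (mem_union_left _ (mem_biUnion.2 ⟨Q, ?_, ?_⟩)))
      · exact mem_filter.2 ⟨mem_univ _, N, hQ⟩
      · exact mem_filter.2 ⟨mem_univ _, hQ⟩
    · refine mem_union_left _ (mem_union_left _ (mem_union_right _ (mem_biUnion.2 ⟨c, ?_, ?_⟩)))
      · exact mem_filter.2 ⟨mem_univ _, hc.1, hc.2.1⟩
      · exact mem_filter.2 ⟨mem_univ _, hc⟩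
    · refine mem_union_left _ (mem_union_right _ (mem_biUnion.2 ⟨S, ?_, ?_⟩))
      · exact mem_filter.2 ⟨mem_univ _, N, hS⟩
      · exact mem_filter.2 ⟨mem_univ _, hS⟩
    · refine mem_union_right _ (mem_biUnion.2 ⟨R, ?_, ?_⟩)
      · exact mem_filter.2 ⟨mem_univ _, N, hR⟩
      · exact mem_filter.2 ⟨mem_univ _, hR⟩
  have c1 : ((QQ F).biUnion fun Q => univ.filter (fun N => E2 F N Q)).card ≤ (QQ F).card * 720 := by
    refine card_biUnion_le_card_mul _ _ _ fun Q hQ => ?_
    obtain ⟨-, N, hN⟩ := mem_filter.1 hQ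
    refine e2 Q ?_
    by_contra hc
    exact h1 ⟨Q, hN.1, hN.2.1, by omega⟩
  have c2 : ((UU F).biUnion fun c => univ.filter (fun N => E3 F N c)).card ≤ (UU F).card * w :=
    card_biUnion_le_card_mul _ _ _ hw
  have c3 : ((KK F).biUnion fun S => univ.filter (fun N => E36 F N S)).card ≤ (KK F).card * 120 :=
    card_biUnion_le_card_mul _ _ _ fun S _ => e36 S
  have c4 : ((RR F).biUnion fun R => univ.filter (fun N => E4 F N R)).card ≤ (RR F).card * 24 :=
    card_biUnion_le_card_mul _ _ _ fun R _ => e4 hF.row R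
  have u3 := card_union_le ((((QQ F).biUnion fun Q => univ.filter (fun N => E2 F N Q)) ∪
        ((UU F).biUnion fun c => univ.filter (fun N => E3 F N c))) ∪
        ((KK F).biUnion fun S => univ.filter (fun N => E36 F N S)))
        ((RR F).biUnion fun R => univ.filter (fun N => E4 F N R))
  have u2 := card_union_le (((QQ F).biUnion fun Q => univ.filter (fun N => E2 F N Q)) ∪
        ((UU F).biUnion fun c => univ.filter (fun N => E3 F N c)))
        ((KK F).biUnion fun S => univ.filter (fun N => E36 F N S))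
  have u1 := card_union_le ((QQ F).biUnion fun Q => univ.filter (fun N => E2 F N Q))
        ((UU F).biUnion fun c => univ.filter (fun N => E3 F N c))
  have u0 := card_le_card hsub
  have m1 : (QQ F).card * 720 = 720 * (QQ F).card := Nat.mul_comm _ _
  have m2 : (UU F).card * w = w * (UU F).card := Nat.mul_comm _ _
  have m3 : (KK F).card * 120 = 120 * (KK F).card := Nat.mul_comm _ _
  have m4 : (RR F).card * 24 = 24 * (RR F).card := Nat.mul_comm _ _
  rw [m1] at c1
  rw [m2] at c2
  rw [m3] at c3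
  rw [m4] at c4
  omega

end Pool.Agent.MP_dc7d7b.TF
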