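import Pool.Agent.Lib.MP_dc7d7b_co.TF.Defs

set_option autoImplicit false

/-!
# Definitions of the pair lemma
-/

namespace Pool.Agent.MP_dc7d7b.TF

open Finset

/-- All rows and columns have at least four allowed cells. -/
structure Deg4 (E : Fin 8 → Finset (Fin 8)) : Prop where
  row : ∀ r, 4 ≤ (E r).card
  col : ∀ c, 4 ≤ (tr E c).card

theorem Deg4.tr {E : Fin 8 → Finset (Fin 8)} (h : Deg4 E) : Deg4 (tr E) :=
  ⟨h.col, by rw [tr_tr]; exact h.row⟩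

/-- A set of cells with different rows and different columns. -/
def Mat (M : Finset (Fin 8 × Fin 8)) : Prop := ∀ x ∈ M, ∀ y ∈ M, x ≠ y → x.1 ≠ y.1 ∧ x.2 ≠ y.2

/-- The number of cells of `M` in the permutation `N`. -/
def hit (M : Finset (Fin 8 × Fin 8)) (N : Equiv.Perm (Fin 8)) : ℕ := (M.filter (fun x => N x.1 = x.2)).card

/-- Rows of four cells containing `Q`. -/
def R4 (E : Fin 8 → Finset (Fin 8)) (Q : Finset (Fin 8)) : Finset (Fin 8) :=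
  univ.filter (fun r => Q ⊆ E r ∧ (E r).card = 4)

/-- Four rows of `R4 E Q` are hit by `N` outside `Q`. -/
def RB (E : Fin 8 → Finset (Fin 8)) (N : Equiv.Perm (Fin 8)) (Q : Finset (Fin 8)) : Prop :=
  Q.card = 3 ∧ ∃ R ⊆ R4 E Q, R.card = 4 ∧ ∀ r ∈ R, N r ∈ E r \ Q

/-- Two rows equal to `Q`, and the rows of `m`, `m'` have exactly the cells `m`, `m'` outside `Q`. -/
def PT (F : Fin 8 → Finset (Fin 8)) (m m' : Fin 8 × Fin 8) : Prop :=
  ∃ Q : Finset (Fin 8), Q.card = 3 ∧ 2 ≤ (T0 F Q).card ∧ m.1 ∈ T1 F Q ∧ m'.1 ∈ T1 F Q ∧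
    m.2 ∈ F m.1 \ Q ∧ m'.2 ∈ F m'.1 \ Q

theorem mem_R4 {E : Fin 8 → Finset (Fin 8)} {Q : Finset (Fin 8)} {r : Fin 8} :
    r ∈ R4 E Q ↔ Q ⊆ E r ∧ (E r).card = 4 := by
  simp [R4]

end Pool.Agent.MP_dc7d7b.TF
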