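import Pool.Agent.Lib.MP_dc7d7b_co.Main

set_option autoImplicit false

/-!
# Definitions: closed parts, connected sets, packings on a set, bad triples
-/

namespace Pool.Agent.MP_dc7d7b.TF

open Finset

/-- `L` is a part of `T` without edges to the rest of `T`. -/
def Cl {V : Type} (G : SimpleGraph V) (T L : Finset V) : Prop :=
  L ⊆ T ∧ ∀ a ∈ L, ∀ b ∈ T, G.Adj a b → b ∈ L

/-- `T` is connected (or empty). -/
def Con {V : Type} (G : SimpleGraph V) (T : Finset V) : Prop :=
  ∀ L, Cl G T L → L.Nonempty → L = T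

/-- `f` is a packing on `T`. -/
def Pk {V : Type} (H : SimpleGraph (V × Fin 8)) (T : Finset V) (f : V → Equiv.Perm (Fin 8)) : Prop :=
  ∀ i, ∀ u ∈ T, ∀ v ∈ T, ¬ H.Adj (u, f u i) (v, f v i)

open Classical in
/-- The degree of `v` in `T`. -/
noncomputable def dg {V : Type} (G : SimpleGraph V) (T : Finset V) (v : V) : ℕ :=
  (T.filter (fun u => G.Adj v u)).card

open Classical in
/-- `x`, `y` not adjacent, with a common neighbour, and `L` a proper closed part of `S` without `x`, `y`. -/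
def Bt {V : Type} (G : SimpleGraph V) (S : Finset V) (x y : V) (L : Finset V) : Prop :=
  x ∈ S ∧ y ∈ S ∧ x ≠ y ∧ ¬ G.Adj x y ∧ (∃ v ∈ S, G.Adj v x ∧ G.Adj v y) ∧
    L.Nonempty ∧ Cl G ((S.erase x).erase y) L ∧ L ≠ (S.erase x).erase y

open Classical in
/-- No two nonadjacent vertices with a common neighbour leave a connected rest. -/
def Nog {V : Type} (G : SimpleGraph V) (S : Finset V) : Prop :=
  ∀ v ∈ S, ∀ x ∈ S, ∀ y ∈ S, x ≠ y → ¬ G.Adj x y → G.Adj v x → G.Adj v y → ¬ Con G ((S.erase x).erase y)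

theorem Cl.compl {V : Type} [DecidableEq V] {G : SimpleGraph V} {T L : Finset V} (h : Cl G T L) : Cl G T (T \ L) := by
  refine ⟨Finset.sdiff_subset, ?_⟩
  intro a ha b hb hab
  rw [Finset.mem_sdiff] at ha ⊢
  exact ⟨hb, fun hbL => ha.2 (h.2 b hbL a ha.1 hab.symm)⟩

end Pool.Agent.MP_dc7d7b.TF
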