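import Mathlib

set_option autoImplicit false

/-!
# Star lemma in `K_{8,8}`: definitions

`F r` is the set of columns allowed in row `r` (8 rows, 8 columns). `N` is a permutation (a perfect matching).
`T0 F Q` are the rows equal to `Q`, `T1 F Q` the rows with exactly one allowed column outside `Q`.
-/

namespace Pool.Agent.MP_dc7d7b.TF

open Finset

/-- The transposed family. -/
def tr (F : Fin 8 → Finset (Fin 8)) : Fin 8 → Finset (Fin 8) := fun c => univ.filter (fun r => c ∈ F r)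

/-- All rows and columns have at least three allowed cells. -/
structure Deg3 (F : Fin 8 → Finset (Fin 8)) : Prop where
  row : ∀ r, 3 ≤ (F r).card
  col : ∀ c, 3 ≤ (tr F c).card

/-- Every rectangle with `card R + card C = 9` contains at least two allowed cells. -/
def Two (F : Fin 8 → Finset (Fin 8)) : Prop :=
  ∀ R C : Finset (Fin 8), R.card + C.card = 9 → 2 ≤ ((R ×ˢ C).filter (fun x => x.2 ∈ F x.1)).card

/-- `N` is bad for `F`: a rectangle with `card R + card C = 9` all of whose allowed cells are in `N`. -/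
def Bad (F : Fin 8 → Finset (Fin 8)) (N : Equiv.Perm (Fin 8)) : Prop :=
  ∃ R C : Finset (Fin 8), R.card + C.card = 9 ∧ ∀ r ∈ R, ∀ c ∈ C, c ∈ F r → N r = c

/-- Row part of badness. -/
def RowBad (F : Fin 8 → Finset (Fin 8)) (N : Equiv.Perm (Fin 8)) : Prop :=
  (∃ R p : Finset (Fin 8), R.card = 3 ∧ p.card = 2 ∧ ∀ r ∈ R, F r ⊆ insert (N r) p) ∨
  (∃ R Q : Finset (Fin 8), R.card = 4 ∧ Q.card = 3 ∧ ∀ r ∈ R, F r ⊆ insert (N r) Q)

/-- Rows equal to `Q`. -/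
def T0 (F : Fin 8 → Finset (Fin 8)) (Q : Finset (Fin 8)) : Finset (Fin 8) := univ.filter (fun r => F r = Q)

/-- Rows with exactly one allowed column outside `Q`. -/
def T1 (F : Fin 8 → Finset (Fin 8)) (Q : Finset (Fin 8)) : Finset (Fin 8) :=
  univ.filter (fun r => (F r \ Q).card = 1)

/-- Two equal rows and three rows of type 1. -/
def X1 (F : Fin 8 → Finset (Fin 8)) : Prop :=
  ∃ Q : Finset (Fin 8), Q.card = 3 ∧ 2 ≤ (T0 F Q).card ∧ 3 ≤ (T1 F Q).card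

/-- A row of three cells and four rows of type 1 with different outer cells. -/
def X2 (F : Fin 8 → Finset (Fin 8)) : Prop :=
  ∃ Q : Finset (Fin 8), Q.card = 3 ∧ (T0 F Q).Nonempty ∧ ∃ S ⊆ T1 F Q, S.card = 4 ∧
    ∀ r ∈ S, ∀ r' ∈ S, r ≠ r' → Disjoint (F r \ Q) (F r' \ Q)

/-- Two equal rows, two rows of type 1 hit outside. -/
def E2 (F : Fin 8 → Finset (Fin 8)) (N : Equiv.Perm (Fin 8)) (Q : Finset (Fin 8)) : Prop :=
  Q.card = 3 ∧ 2 ≤ (T0 F Q).card ∧ ∃ r ∈ T1 F Q, ∃ r' ∈ T1 F Q, r ≠ r' ∧ N r ∈ F r \ Q ∧ N r' ∈ F r' \ Q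

/-- A row `c` of three cells without twin, and three rows of type 1 hit outside `F c`. -/
def E3 (F : Fin 8 → Finset (Fin 8)) (N : Equiv.Perm (Fin 8)) (c : Fin 8) : Prop :=
  T0 F (F c) = {c} ∧ (F c).card = 3 ∧ ∃ S ⊆ T1 F (F c), S.card = 3 ∧ ∀ r ∈ S, N r ∈ F r \ F c

/-- Exactly three rows of three cells contain the pair `p`; they have no twins and are hit outside `p`. -/
def E36 (F : Fin 8 → Finset (Fin 8)) (N : Equiv.Perm (Fin 8)) (S : Finset (Fin 8)) : Prop :=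
  S.card = 3 ∧ ∃ p : Finset (Fin 8), p.card = 2 ∧
    (∀ r ∈ S, (F r).card = 3 ∧ p ⊆ F r ∧ N r ∈ F r \ p ∧ T0 F (F r) = {r}) ∧
    ∀ r, (F r).card = 3 → p ⊆ F r → r ∈ S

/-- Four rows of type 1 with respect to `Q`, all hit outside `Q`, no three of them with a common pair. -/
def E4 (F : Fin 8 → Finset (Fin 8)) (N : Equiv.Perm (Fin 8)) (R : Finset (Fin 8)) : Prop :=
  R.card = 4 ∧ ∃ Q : Finset (Fin 8), Q.card = 3 ∧ (∀ r ∈ R, N r ∈ F r \ Q ∧ F r ⊆ insert (N r) Q) ∧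
    ∀ p S : Finset (Fin 8), p.card = 2 → S ⊆ R → S.card = 3 → ¬ ∀ r ∈ S, F r ⊆ insert (N r) p

theorem mem_tr {F : Fin 8 → Finset (Fin 8)} {r c : Fin 8} : r ∈ tr F c ↔ c ∈ F r := by simp [tr]

theorem tr_tr (F : Fin 8 → Finset (Fin 8)) : tr (tr F) = F := by
  funext r; ext c; simp [tr]

theorem Deg3.tr {F : Fin 8 → Finset (Fin 8)} (h : Deg3 F) : Deg3 (tr F) :=
  ⟨h.col, by rw [tr_tr]; exact h.row⟩

theorem Two.tr {F : Fin 8 → Finset (Fin 8)} (h : Two F) : Two (tr F) := by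
  intro R C hRC
  refine (h C R (by omega)).trans (Finset.card_le_card_of_injOn Prod.swap ?_ (Prod.swap_injective.injOn))
  intro x hx
  simp only [Finset.coe_filter, Finset.mem_product, Set.mem_ofPred_eq, Prod.fst_swap, Prod.snd_swap, mem_tr] at hx ⊢
  exact ⟨⟨hx.1.2, hx.1.1⟩, hx.2⟩

theorem bad_tr {F : Fin 8 → Finset (Fin 8)} {N : Equiv.Perm (Fin 8)} (h : Bad F N) : Bad (tr F) N⁻¹ := by
  obtain ⟨R, C, h1, h2⟩ := h
  refine ⟨C, R, by omega, ?_⟩
  intro c hc r hr hm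
  rw [mem_tr] at hm
  rw [← h2 r hr c hc hm]
  simp

theorem mem_T0 {F : Fin 8 → Finset (Fin 8)} {Q : Finset (Fin 8)} {r : Fin 8} : r ∈ T0 F Q ↔ F r = Q := by
  simp [T0]

theorem mem_T1 {F : Fin 8 → Finset (Fin 8)} {Q : Finset (Fin 8)} {r : Fin 8} :
    r ∈ T1 F Q ↔ (F r \ Q).card = 1 := by
  simp [T1]

end Pool.Agent.MP_dc7d7b.TF
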