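import Pool.Agent.Lib.MP_dc7d7b_co.TF.Def4

set_option autoImplicit false

/-!
ELA (80 lines). E has at least four cells in all rows and columns. N bad: a rectangle R × C with card R + card C = 9 and
all allowed cells in N. A row r of R has at most one allowed cell in C (it is N r), so at least three in Cᶜ: card C ≤ 5;
by columns card R ≤ 5. So (card R, card C) is (4, 5) or (5, 4). (4, 5): Q = Cᶜ, card Q = 3; for r in R: E r ⊆ insert (N r) Q and
card (E r) ≥ 4, so E r = insert (N r) Q, N r ∉ Q: r is in R4 E Q and N r ∈ E r \ Q. (5, 4): the same for tr E and N⁻¹.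
-/

namespace Pool.Agent.MP_dc7d7b.TF

open Finset

private theorem ela_sub {E : Fin 8 → Finset (Fin 8)} {N : Equiv.Perm (Fin 8)} {R C : Finset (Fin 8)}
    (h : ∀ r ∈ R, ∀ c ∈ C, c ∈ E r → N r = c) {r : Fin 8} (hr : r ∈ R) : E r ⊆ insert (N r) Cᶜ := by
  intro x hx
  rw [mem_insert, mem_compl]
  by_cases hxC : x ∈ C
  · exact Or.inl (h r hr x hxC hx).symm
  · exact Or.inr hxC

private theorem ela_le {E : Fin 8 → Finset (Fin 8)} (hE : ∀ r, 4 ≤ (E r).card) {N : Equiv.Perm (Fin 8)}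
    {R C : Finset (Fin 8)} (h : ∀ r ∈ R, ∀ c ∈ C, c ∈ E r → N r = c) (hR : R.Nonempty) : C.card ≤ 5 := by
  obtain ⟨r, hr⟩ := hR
  have h1 := (card_le_card (ela_sub h hr)).trans (card_insert_le _ _)
  rw [card_compl, Fintype.card_fin] at h1
  have h2 := hE r
  omega

private theorem ela_RB {E : Fin 8 → Finset (Fin 8)} (hE : ∀ r, 4 ≤ (E r).card) {N : Equiv.Perm (Fin 8)}
    {R C : Finset (Fin 8)} (h : ∀ r ∈ R, ∀ c ∈ C, c ∈ E r → N r = c) (hR : R.card = 4) (hC : C.card = 5) :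
    RB E N Cᶜ := by
  have hQ : (Cᶜ).card = 3 := by rw [card_compl, Fintype.card_fin, hC]
  have key : ∀ r ∈ R, E r = insert (N r) Cᶜ ∧ N r ∉ Cᶜ ∧ (E r).card = 4 := by
    intro r hr
    have h1 := ela_sub h hr
    have h2 : (insert (N r) Cᶜ).card ≤ 4 := (card_insert_le _ _).trans (by omega)
    have h3 := hE r
    have h4 : E r = insert (N r) Cᶜ := eq_of_subset_of_card_le h1 (by omega)
    refine ⟨h4, fun h5 => ?_, ?_⟩
    · rw [h4, insert_eq_of_mem h5] at h3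
      omega
    · rw [← h4] at h2
      omega
  refine ⟨hQ, R, fun r hr => ?_, hR, fun r hr => ?_⟩
  · obtain ⟨h4, _, h6⟩ := key r hr
    rw [mem_R4]
    refine ⟨?_, h6⟩
    rw [h4]
    exact subset_insert _ _
  · obtain ⟨h4, h5, _⟩ := key r hr
    rw [mem_sdiff, h4]
    exact ⟨mem_insert_self _ _, h5⟩

theorem bad_four {E : Fin 8 → Finset (Fin 8)} (hE : Deg4 E) {N : Equiv.Perm (Fin 8)} (h : Bad E N) :
    (∃ Q, RB E N Q) ∨ ∃ Q, RB (tr E) N⁻¹ Q := by
  obtain ⟨R, C, h9, h1⟩ := h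
  have h2 : ∀ c ∈ C, ∀ r ∈ R, r ∈ tr E c → N⁻¹ c = r := by
    intro c hc r hr hm
    rw [mem_tr] at hm
    rw [← h1 r hr c hc hm]
    simp
  have hR8 : R.card ≤ 8 := by simpa using card_le_univ R
  have hC8 : C.card ≤ 8 := by simpa using card_le_univ C
  have hR0 : R.Nonempty := by
    rw [← card_pos]
    omega
  have hC0 : C.Nonempty := by
    rw [← card_pos]
    omega
  have h3 := ela_le hE.row h1 hR0
  have h4 := ela_le hE.tr.row h2 hC0
  rcases (show (R.card = 4 ∧ C.card = 5) ∨ (R.card = 5 ∧ C.card = 4) by omega) with ⟨h5, h6⟩ | ⟨h5, h6⟩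
  · exact Or.inl ⟨_, ela_RB hE.row h1 h5 h6⟩
  · exact Or.inr ⟨_, ela_RB hE.tr.row h2 h6 h5⟩

end Pool.Agent.MP_dc7d7b.TF
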