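import Pool.Agent.Lib.MP_dc7d7b_co.TF.DefB
import Pool.Agent.Lib.MP_dc7d7b_co.TF.PStep

set_option autoImplicit false

/-! The pair step with control of the changes: only `t` and its neighbour `u` are recoloured. -/

namespace Pool.Agent.MP_dc7d7b.TF

open Finset Classical

theorem ext_five {V : Type} {G : SimpleGraph V} {H : SimpleGraph (V × Fin 8)} (hH : Cover G H)
    (hdeg : ∀ (T : Finset V) (v : V), dg G T v ≤ 6) {T : Finset V} {t u : V} (ht : t ∈ T) (hu : u ∈ T)
    (hut : G.Adj t u) (h5 : dg G T t ≤ 5) {f : V → Equiv.Perm (Fin 8)} (hf : Pk H (T.erase t) f) :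
    ∃ g : V → Equiv.Perm (Fin 8), Pk H T g ∧ ∀ z, z ≠ t → z ≠ u → g z = f z := by
  have hne : u ≠ t := fun h => by
    subst h
    exact G.loopless.irrefl _ hut
  set W := (T.erase t).erase u with hW
  have hWmem : ∀ x, x ∈ W ↔ (x ∈ T ∧ x ≠ t ∧ x ≠ u) := by
    intro x
    rw [hW, Finset.mem_erase, Finset.mem_erase]
    tauto
  have hWt : (W.filter (fun w => G.Adj t w)).card ≤ 4 := by
    have h1 : insert u (W.filter (fun w => G.Adj t w)) ⊆ T.filter (fun w => G.Adj t w) := by
      intro x hx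
      rw [Finset.mem_insert] at hx
      rcases hx with rfl | hx
      · exact Finset.mem_filter.mpr ⟨hu, hut⟩
      · rw [Finset.mem_filter] at hx ⊢
        exact ⟨((hWmem x).mp hx.1).1, hx.2⟩
    have h2 := (Finset.card_le_card h1).trans h5
    rw [Finset.card_insert_of_notMem] at h2
    · omega
    · rw [Finset.mem_filter]
      rintro ⟨h3, _⟩
      exact ((hWmem u).mp h3).2.2 rfl
  have hWu : (W.filter (fun w => G.Adj u w)).card ≤ 5 := by
    have h1 : insert t (W.filter (fun w => G.Adj u w)) ⊆ T.filter (fun w => G.Adj u w) := by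
      intro x hx
      rw [Finset.mem_insert] at hx
      rcases hx with rfl | hx
      · exact Finset.mem_filter.mpr ⟨ht, hut.symm⟩
      · rw [Finset.mem_filter] at hx ⊢
        exact ⟨((hWmem x).mp hx.1).1, hx.2⟩
    have h2 := (Finset.card_le_card h1).trans (hdeg T u)
    rw [Finset.card_insert_of_notMem] at h2
    · omega
    · rw [Finset.mem_filter]
      rintro ⟨h3, _⟩
      exact ((hWmem t).mp h3).2.1 rfl
  obtain ⟨π, hπ⟩ : ∃ π : Equiv.Perm (Fin 8), ∀ a b, H.Adj (t, a) (u, b) → π a = b :=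
    exists_extend (fun a b => H.Adj (t, a) (u, b)) (fun a b b' h h' => hH.mat _ _ _ _ _ h h')
      (fun a a' b h h' => hH.mat _ _ _ _ _ h.symm h'.symm)
  set F : Fin 8 → Finset (Fin 8) := fun i => univ.filter (fun c => ¬ forb H W f u i (π c)) with hFdef
  set E : Fin 8 → Finset (Fin 8) := fun i => univ.filter (fun c => ¬ forb H W f t i ((1 : Equiv.Perm (Fin 8)) c)) with hEdef
  have hF : Deg3 F := by
    have h6 := fam_card ((forb_deg hH W f u).mono hWu) π
    exact ⟨fun r => h6.1 r, fun c => h6.2 c⟩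
  have hE : Deg4 E := by
    have h6 := fam_card ((forb_deg hH W f t).mono hWt) 1
    exact ⟨fun r => h6.1 r, fun c => h6.2 c⟩
  have hP : ∃ P : Equiv.Perm (Fin 8), ∀ i, P i ∈ F i := by
    refine ⟨(f u).trans π.symm, fun i => ?_⟩
    rw [hFdef]
    simp only [Equiv.trans_apply, Equiv.apply_symm_apply, Finset.mem_filter, Finset.mem_univ, true_and]
    rintro ⟨x, hx, hadj⟩
    have hx' := (hWmem x).mp hx
    exact hf i x (Finset.mem_erase.mpr ⟨hx'.2.1, hx'.1⟩) u (Finset.mem_erase.mpr ⟨hne, hu⟩) hadj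
  obtain ⟨P, P', hP1, hP2⟩ := pair34 hF hP hE
  have hP1' : ∀ i, ¬ forb H W f u i (π (P i)) := by
    intro i
    have := hP1 i
    rw [hFdef] at this
    simpa using this
  have hP2' : ∀ i, ¬ forb H W f t i (P' i) := by
    intro i
    have := (hP2 i).1
    rw [hEdef] at this
    simpa using this
  let g : V → Equiv.Perm (Fin 8) := fun x => if x = t then P' else if x = u then P.trans π else f x
  have gv : g t = P' := by simp [g]
  have gu : ∀ i, g u i = π (P i) := by
    intro i
    simp [g, hne]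
  have gW : ∀ x, x ≠ t → x ≠ u → g x = f x := by
    intro x h1 h2
    simp [g, h1, h2]
  have kv : ∀ i, ∀ y ∈ T, ¬ H.Adj (t, g t i) (y, g y i) := by
    intro i y hy hadj
    by_cases hyv : y = t
    · subst hyv
      exact hH.fib _ _ _ hadj
    · by_cases hyu : y = u
      · subst hyu
        rw [gv, gu] at hadj
        exact (hP2 i).2 (π.injective (hπ _ _ hadj))
      · rw [gv, gW y hyv hyu] at hadj
        exact hP2' i ⟨y, (hWmem y).mpr ⟨hy, hyv, hyu⟩, hadj.symm⟩
  have ku : ∀ i, ∀ y ∈ T, ¬ H.Adj (u, g u i) (y, g y i) := by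
    intro i y hy hadj
    by_cases hyv : y = t
    · subst hyv
      exact kv i u hu hadj.symm
    · by_cases hyu : y = u
      · subst hyu
        exact hH.fib _ _ _ hadj
      · rw [gu, gW y hyv hyu] at hadj
        exact hP1' i ⟨y, (hWmem y).mpr ⟨hy, hyv, hyu⟩, hadj.symm⟩
  refine ⟨g, ?_, gW⟩
  intro i x hx y hy hadj
  by_cases hxv : x = t
  · subst hxv
    exact kv i y hy hadj
  · by_cases hxu : x = u
    · subst hxu
      exact ku i y hy hadj
    · by_cases hyv : y = t
      · subst hyv
        exact kv i x hx hadj.symm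
      · by_cases hyu : y = u
        · subst hyu
          exact ku i x hx hadj.symm
        · rw [gW x hxv hxu, gW y hyv hyu] at hadj
          exact hf i x (Finset.mem_erase.mpr ⟨hxv, hx⟩) y (Finset.mem_erase.mpr ⟨hyv, hy⟩) hadj

end Pool.Agent.MP_dc7d7b.TF
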