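import Pool.Agent.Lib.MP_dc7d7b_co.TF.Defs

set_option autoImplicit false

/-!
EXC (250 lines): at most six families; those outside A (at least two) have at most two cells to avoid, which lie in the
permutation P j. For permutations P' j (j in A) let D be the set of cells (r, c) with P' j r = c, j in A, or (r, c) ∈ Z j,
j not in A. A permutation N avoiding D is as wanted. Every row and column of D has at most 6 cells. If N does not exist:
(Hall, see `Pair.lean` one level up, theorem `hall`) R × C ⊆ D, card R + card C = 9, so card R, card C ≤ 6. With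
a = card A, m = card ι - a ≥ 2, a + m ≤ 6, D has at most a * min (card R, card C) + 2 m cells in R × C.
(3, 6), (6, 3): 18 ≤ 3 a + 2 m ≤ 16 impossible. (4, 5), (5, 4): 20 ≤ 4 a + 2 m: only a = 4, m = 2, and equality: every
P' j (j in A) has four cells in R × C, all Z-cells are four and in R × C, and all these cells are different
(blocked by 4 × 5, or 5 × 4).
So let a = 4, m = 2, fix j0 ∈ A and P' j = P j for the other three; ZZ = the union of the Z j (j not in A), a set of 4 cells.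
Suppose every perfect matching P0 of F j0 is blocked. If blocked by 4 × 5 with R, C: each row of R has 5 cells in C, one of each
of the four permutations and so exactly one of ZZ: R = rows of ZZ. If P0, P0' are both blocked by 4 × 5, with C, C', then R is
the same; the cells of the three other permutations and ZZ in a row r of R are 4 different cells in C ∩ C'. If C ≠ C' then
C ∩ C' has exactly 4 elements and P0 r is the element of C \ C' for each of the four rows r: impossible. So C = C' and P0, P0'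
agree on R. Similarly for 5 × 4 (transposed). Choose a P0 that is blocked by 4 × 5, say (the other case is transposed). If no
perfect matching of F j0 is blocked by 5 × 4, take a cell (r, P0 r), r ∈ R, and a perfect matching P1 avoiding it (hfree): it is
blocked by 4 × 5, so agrees with P0 on R: contradiction. Otherwise let P1 be blocked by 5 × 4, with R', C', C' = columns of ZZ
(4 columns), R ⊆ R', C' ⊆ C (ZZ is inside both). Let c* be the element of C \ C'. The four cells (r, c*), r ∈ R, are covered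
by P0 and the three others (not by ZZ, whose columns are C'), so each of these four permutations has exactly one of them, and
exactly three cells in R × C' (four cells in R × C). In R × C' (16 cells) the three others cover 9, ZZ covers 4: three cells
are left, a set K that does not depend on P0, P1. K ⊆ P0 and also K ⊆ P1 (P1 covers R' × C' together with them). Take a cell of K
and a perfect matching P2 of F j0 avoiding it: blocked by 4 × 5 it agrees with P0 on R, blocked by 5 × 4 it contains K (the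
same R × C' = rows of ZZ × columns of ZZ): contradiction.
-/

namespace Pool.Agent.MP_dc7d7b.TF

open Finset

/-- Hall's theorem for permutations avoiding `D`. -/
private theorem hall8 (D : Fin 8 → Fin 8 → Prop) (h : ¬ ∃ σ : Equiv.Perm (Fin 8), ∀ i, ¬ D i (σ i)) :
    ∃ R C : Finset (Fin 8), R.card + C.card = 9 ∧ ∀ i ∈ R, ∀ c ∈ C, D i c := by
  classical
  have h1 : ¬ ∀ s : Finset (Fin 8), s.card ≤ (s.biUnion (fun i => univ.filter (fun c => ¬ D i c))).card := by
    intro hs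
    obtain ⟨f, hf, hf2⟩ := (Finset.all_card_le_biUnion_card_iff_exists_injective _).mp hs
    refine h ⟨Equiv.ofBijective f ((Fintype.bijective_iff_injective_and_card f).mpr ⟨hf, rfl⟩), ?_⟩
    intro i
    have := hf2 i
    simpa using this
  push Not at h1
  obtain ⟨s, hs⟩ := h1
  obtain ⟨T, hT⟩ : ∃ T, T = s.biUnion (fun i => univ.filter (fun c => ¬ D i c)) := ⟨_, rfl⟩
  rw [← hT] at hs
  have hTc : T.card + Tᶜ.card = Fintype.card (Fin 8) := Finset.card_add_card_compl T
  rw [Fintype.card_fin] at hTc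
  have hs8 : s.card ≤ 8 := by
    have := Finset.card_le_univ s
    rwa [Fintype.card_fin] at this
  have hle : 9 - s.card ≤ Tᶜ.card := by omega
  obtain ⟨C, hC, hCc⟩ := Finset.exists_subset_card_eq hle
  refine ⟨s, C, by omega, ?_⟩
  intro i hi c hc
  by_contra hn
  have h2 : c ∈ T := by
    rw [hT, Finset.mem_biUnion]
    exact ⟨i, hi, by simpa using hn⟩
  exact (Finset.mem_compl.mp (hC hc)) h2

/-- cells of a permutation in a rectangle -/
private theorem cells_le (S : Equiv.Perm (Fin 8)) (R C : Finset (Fin 8)) :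
    ((R ×ˢ C).filter (fun x => S x.1 = x.2)).card ≤ R.card ∧
      ((R ×ˢ C).filter (fun x => S x.1 = x.2)).card ≤ C.card := by
  constructor
  · refine Finset.card_le_card_of_injOn Prod.fst ?_ ?_
    · intro x hx
      exact (Finset.mem_product.mp (Finset.mem_filter.mp (Finset.mem_coe.mp hx)).1).1
    · intro x hx y hy hxy
      have h1 := (Finset.mem_filter.mp (Finset.mem_coe.mp hx)).2
      have h2 := (Finset.mem_filter.mp (Finset.mem_coe.mp hy)).2
      refine Prod.ext hxy ?_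
      rw [← h1, ← h2, hxy]
  · refine Finset.card_le_card_of_injOn Prod.snd ?_ ?_
    · intro x hx
      exact (Finset.mem_product.mp (Finset.mem_filter.mp (Finset.mem_coe.mp hx)).1).2
    · intro x hx y hy hxy
      have h1 := (Finset.mem_filter.mp (Finset.mem_coe.mp hx)).2
      have h2 := (Finset.mem_filter.mp (Finset.mem_coe.mp hy)).2
      refine Prod.ext (S.injective ?_) hxy
      rw [h1, h2, hxy]

/-- counting -/
private theorem count8 {ι : Type} [Fintype ι] [DecidableEq ι] (hι : Fintype.card ι ≤ 6)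
    (P P' : ι → Equiv.Perm (Fin 8)) (A : Finset ι) (hA : A.card + 2 ≤ Fintype.card ι)
    (Z : ι → Finset (Fin 8 × Fin 8)) (hZ : ∀ j, j ∉ A → (Z j).card ≤ 2 ∧ ∀ z ∈ Z j, P j z.1 = z.2)
    (R C : Finset (Fin 8)) (hRC : R.card + C.card = 9)
    (hcov : ∀ r ∈ R, ∀ c ∈ C, (∃ j ∈ A, P' j r = c) ∨ ∃ j, j ∉ A ∧ (r, c) ∈ Z j) :
    A.card = 4 ∧ Fintype.card ι = 6 ∧ ((R.card = 4 ∧ C.card = 5) ∨ (R.card = 5 ∧ C.card = 4)) := by
  classical
  have hcard : A.card + Aᶜ.card = Fintype.card ι := Finset.card_add_card_compl A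
  have hR8 : R.card ≤ 8 := by
    have := Finset.card_le_univ R
    rwa [Fintype.card_fin] at this
  have hC8 : C.card ≤ 8 := by
    have := Finset.card_le_univ C
    rwa [Fintype.card_fin] at this
  obtain ⟨r, hr⟩ : R.Nonempty := by
    rw [← Finset.card_pos]; omega
  obtain ⟨c, hc⟩ : C.Nonempty := by
    rw [← Finset.card_pos]; omega
  have hC6 : C.card ≤ 6 := by
    have h1 : C ⊆ A.image (fun j => P' j r) ∪ Aᶜ.image (fun j => P j r) := by
      intro x hx
      rw [Finset.mem_union, Finset.mem_image, Finset.mem_image]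
      rcases hcov r hr x hx with ⟨j, hj, h⟩ | ⟨j, hj, h⟩
      · exact Or.inl ⟨j, hj, h⟩
      · exact Or.inr ⟨j, Finset.mem_compl.mpr hj, (hZ j hj).2 _ h⟩
    have h2 := (Finset.card_le_card h1).trans (Finset.card_union_le _ _)
    have h3 : (A.image (fun j => P' j r)).card ≤ A.card := Finset.card_image_le
    have h4 : (Aᶜ.image (fun j => P j r)).card ≤ Aᶜ.card := Finset.card_image_le
    omega
  have hR6 : R.card ≤ 6 := by
    have h1 : R ⊆ A.image (fun j => (P' j).symm c) ∪ Aᶜ.image (fun j => (P j).symm c) := by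
      intro x hx
      rw [Finset.mem_union, Finset.mem_image, Finset.mem_image]
      rcases hcov x hx c hc with ⟨j, hj, h⟩ | ⟨j, hj, h⟩
      · exact Or.inl ⟨j, hj, by rw [Equiv.symm_apply_eq]; exact h.symm⟩
      · exact Or.inr ⟨j, Finset.mem_compl.mpr hj, by
          rw [Equiv.symm_apply_eq]; exact ((hZ j hj).2 _ h).symm⟩
    have h2 := (Finset.card_le_card h1).trans (Finset.card_union_le _ _)
    have h3 : (A.image (fun j => (P' j).symm c)).card ≤ A.card := Finset.card_image_le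
    have h4 : (Aᶜ.image (fun j => (P j).symm c)).card ≤ Aᶜ.card := Finset.card_image_le
    omega
  have htot : ∀ k : ℕ, (∀ j, ((R ×ˢ C).filter (fun x => P' j x.1 = x.2)).card ≤ k) →
      R.card * C.card ≤ A.card * k + Aᶜ.card * 2 := by
    intro k hk
    have h1 : R ×ˢ C ⊆ A.biUnion (fun j => (R ×ˢ C).filter (fun x => P' j x.1 = x.2)) ∪
        Aᶜ.biUnion Z := by
      intro x hx
      have hx' := Finset.mem_product.mp hx
      rw [Finset.mem_union, Finset.mem_biUnion, Finset.mem_biUnion]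
      rcases hcov x.1 hx'.1 x.2 hx'.2 with ⟨j, hj, h⟩ | ⟨j, hj, h⟩
      · exact Or.inl ⟨j, hj, Finset.mem_filter.mpr ⟨hx, h⟩⟩
      · exact Or.inr ⟨j, Finset.mem_compl.mpr hj, h⟩
    have h2 := (Finset.card_le_card h1).trans (Finset.card_union_le _ _)
    rw [Finset.card_product] at h2
    have h3 : (A.biUnion (fun j => (R ×ˢ C).filter (fun x => P' j x.1 = x.2))).card ≤ A.card * k :=
      Finset.card_biUnion_le_card_mul _ _ _ (fun j _ => hk j)
    have h4 : (Aᶜ.biUnion Z).card ≤ Aᶜ.card * 2 :=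
      Finset.card_biUnion_le_card_mul _ _ _ (fun j hj => (hZ j (Finset.mem_compl.mp hj)).1)
    omega
  have ht1 := htot R.card (fun j => (cells_le (P' j) R C).1)
  have ht2 := htot C.card (fun j => (cells_le (P' j) R C).2)
  obtain ⟨ρ, hρ⟩ : ∃ ρ, ρ = R.card := ⟨_, rfl⟩
  obtain ⟨γ, hγ⟩ : ∃ γ, γ = C.card := ⟨_, rfl⟩
  rw [← hρ] at hR6 ht1 ht2 hRC ⊢
  rw [← hγ] at hC6 ht1 ht2 hRC ⊢
  have hγ2 : γ = 9 - ρ := by omega
  subst hγ2
  have hρ3 : 3 ≤ ρ := by omega
  clear hρ hγ htot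
  interval_cases ρ <;> omega

private theorem core45 {ι : Type} [DecidableEq ι] (B : Finset ι) (hB : B.card ≤ 3) (S : ι → Equiv.Perm (Fin 8))
    (ZZ : Finset (Fin 8 × Fin 8)) (hZZ : ZZ.card ≤ 4) (Q : Equiv.Perm (Fin 8)) (R C : Finset (Fin 8))
    (hR : R.card = 4) (hC : C.card = 5)
    (hcov : ∀ r ∈ R, ∀ c ∈ C, Q r = c ∨ (∃ j ∈ B, S j r = c) ∨ (r, c) ∈ ZZ) :
    R = ZZ.image Prod.fst ∧ ∀ r ∈ R,
      C = insert (Q r) (B.image (fun j => S j r) ∪ (ZZ.filter (fun z => z.1 = r)).image Prod.snd) ∧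
      Q r ∉ B.image (fun j => S j r) ∪ (ZZ.filter (fun z => z.1 = r)).image Prod.snd ∧
      (B.image (fun j => S j r) ∪ (ZZ.filter (fun z => z.1 = r)).image Prod.snd).card = 4 := by
  classical
  have hsub : ∀ r ∈ R, C ⊆ insert (Q r) (B.image (fun j => S j r) ∪
      (ZZ.filter (fun z => z.1 = r)).image Prod.snd) := by
    intro r hr c hc
    rw [Finset.mem_insert, Finset.mem_union, Finset.mem_image, Finset.mem_image]
    rcases hcov r hr c hc with h | ⟨j, hj, h⟩ | h
    · exact Or.inl h.symm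
    · exact Or.inr (Or.inl ⟨j, hj, h⟩)
    · exact Or.inr (Or.inr ⟨(r, c), Finset.mem_filter.mpr ⟨h, rfl⟩, rfl⟩)
  have hW : ∀ r, (B.image (fun j => S j r) ∪ (ZZ.filter (fun z => z.1 = r)).image Prod.snd).card ≤
      3 + (ZZ.filter (fun z => z.1 = r)).card := by
    intro r
    have h1 := Finset.card_union_le (B.image (fun j => S j r)) ((ZZ.filter (fun z => z.1 = r)).image Prod.snd)
    have h2 : (B.image (fun j => S j r)).card ≤ B.card := Finset.card_image_le
    have h3 : ((ZZ.filter (fun z => z.1 = r)).image Prod.snd).card ≤ (ZZ.filter (fun z => z.1 = r)).card :=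
      Finset.card_image_le
    omega
  have hz1 : ∀ r ∈ R, 1 ≤ (ZZ.filter (fun z => z.1 = r)).card := by
    intro r hr
    have h1 := Finset.card_le_card (hsub r hr)
    have h2 := Finset.card_insert_le (Q r) (B.image (fun j => S j r) ∪
      (ZZ.filter (fun z => z.1 = r)).image Prod.snd)
    have h3 := hW r
    omega
  have hRsub : R ⊆ ZZ.image Prod.fst := by
    intro r hr
    have h1 := hz1 r hr
    obtain ⟨z, hz⟩ := Finset.card_pos.mp h1
    rw [Finset.mem_filter] at hz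
    exact Finset.mem_image.mpr ⟨z, hz.1, hz.2⟩
  have hReq : R = ZZ.image Prod.fst := by
    apply Finset.eq_of_subset_of_card_le hRsub
    have : (ZZ.image Prod.fst).card ≤ ZZ.card := Finset.card_image_le
    omega
  have hsum : ∑ r ∈ R, (ZZ.filter (fun z => z.1 = r)).card ≤ 4 := by
    have h1 : ∑ r ∈ R, (ZZ.filter (fun z => z.1 = r)).card = ZZ.card := by
      symm
      apply Finset.card_eq_sum_card_fiberwise
      intro z hz
      rw [hReq]
      exact Finset.mem_coe.mpr (Finset.mem_image_of_mem _ (Finset.mem_coe.mp hz))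
    omega
  have hz2 : ∀ r ∈ R, (ZZ.filter (fun z => z.1 = r)).card ≤ 1 := by
    intro r hr
    have h1 := Finset.add_sum_erase R (fun r => (ZZ.filter (fun z => z.1 = r)).card) hr
    have h2 : (R.erase r).card * 1 ≤ ∑ r' ∈ R.erase r, (ZZ.filter (fun z => z.1 = r')).card := by
      rw [← smul_eq_mul]
      apply Finset.card_nsmul_le_sum
      intro r' hr'
      exact hz1 r' (Finset.mem_of_mem_erase hr')
    rw [Finset.card_erase_of_mem hr] at h2
    omega
  refine ⟨hReq, fun r hr => ?_⟩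
  have h1 := hW r
  have h2 := hz2 r hr
  have h3 := Finset.card_le_card (hsub r hr)
  by_cases hq : Q r ∈ B.image (fun j => S j r) ∪ (ZZ.filter (fun z => z.1 = r)).image Prod.snd
  · rw [Finset.insert_eq_of_mem hq] at h3
    omega
  · have h4 := Finset.card_insert_of_notMem hq
    refine ⟨?_, hq, by omega⟩
    apply Finset.eq_of_subset_of_card_le (hsub r hr)
    omega

private theorem uniq45 {R C C' : Finset (Fin 8)} (W : Fin 8 → Finset (Fin 8)) (Q Q' : Equiv.Perm (Fin 8))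
    (hR : R.card = 4) (h : ∀ r ∈ R, C = insert (Q r) (W r) ∧ Q r ∉ W r)
    (h' : ∀ r ∈ R, C' = insert (Q' r) (W r) ∧ Q' r ∉ W r) : ∀ r ∈ R, Q' r = Q r := by
  intro r hr
  by_contra hne
  have hnot : Q r ∉ C' := by
    rw [(h' r hr).1, Finset.mem_insert, not_or]
    exact ⟨fun h1 => hne h1.symm, (h r hr).2⟩
  have hall : ∀ r' ∈ R, r' = r := by
    intro r' hr'
    have h1 : Q r ∈ C := by
      rw [(h r hr).1]
      exact Finset.mem_insert_self _ _
    rw [(h r' hr').1, Finset.mem_insert] at h1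
    rcases h1 with h1 | h1
    · exact (Q.injective h1).symm
    · exfalso
      apply hnot
      rw [(h' r' hr').1]
      exact Finset.mem_insert_of_mem h1
  have h1 : R ⊆ {r} := fun r' hr' => Finset.mem_singleton.mpr (hall r' hr')
  have h2 := Finset.card_le_card h1
  rw [Finset.card_singleton] at h2
  omega

private theorem core {ι : Type} [DecidableEq ι] (B : Finset ι) (hB : B.card ≤ 3) (S : ι → Equiv.Perm (Fin 8))
    (ZZ : Finset (Fin 8 × Fin 8)) (hZZ : ZZ.card ≤ 4) (𝒬 : Equiv.Perm (Fin 8) → Prop)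
    (hfree : ∀ r c, ∃ Q, 𝒬 Q ∧ Q r ≠ c)
    (hblk : ∀ Q, 𝒬 Q → ∃ R C : Finset (Fin 8), ((R.card = 4 ∧ C.card = 5) ∨ (R.card = 5 ∧ C.card = 4)) ∧
      ∀ r ∈ R, ∀ c ∈ C, Q r = c ∨ (∃ j ∈ B, S j r = c) ∨ (r, c) ∈ ZZ) : False := by
  classical
  -- rows and columns of `ZZ`
  obtain ⟨W, hWdef⟩ : ∃ W : Fin 8 → Finset (Fin 8), W = fun r => B.image (fun j => S j r) ∪
      (ZZ.filter (fun z => z.1 = r)).image Prod.snd := ⟨_, rfl⟩
  have hcard_swap : (ZZ.image Prod.swap).card ≤ 4 := Finset.card_image_le.trans hZZ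
  obtain ⟨V, hVdef⟩ : ∃ V : Fin 8 → Finset (Fin 8), V = fun c => B.image (fun j => (S j).symm c) ∪
      ((ZZ.image Prod.swap).filter (fun z => z.1 = c)).image Prod.snd := ⟨_, rfl⟩
  have himg : (ZZ.image Prod.swap).image Prod.fst = ZZ.image Prod.snd := by
    rw [Finset.image_image]
    rfl
  -- the two types
  have h45 : ∀ (Q : Equiv.Perm (Fin 8)) (R C : Finset (Fin 8)), R.card = 4 → C.card = 5 →
      (∀ r ∈ R, ∀ c ∈ C, Q r = c ∨ (∃ j ∈ B, S j r = c) ∨ (r, c) ∈ ZZ) →
      R = ZZ.image Prod.fst ∧ ∀ r ∈ R, C = insert (Q r) (W r) ∧ Q r ∉ W r ∧ (W r).card = 4 := by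
    intro Q R C hR hC hcov
    have := core45 B hB S ZZ hZZ Q R C hR hC hcov
    rw [hWdef]
    exact this
  have h54 : ∀ (Q : Equiv.Perm (Fin 8)) (R C : Finset (Fin 8)), R.card = 5 → C.card = 4 →
      (∀ r ∈ R, ∀ c ∈ C, Q r = c ∨ (∃ j ∈ B, S j r = c) ∨ (r, c) ∈ ZZ) →
      C = ZZ.image Prod.snd ∧ ∀ c ∈ C, R = insert (Q.symm c) (V c) ∧ Q.symm c ∉ V c ∧ (V c).card = 4 := by
    intro Q R C hR hC hcov
    have h1 := core45 B hB (fun j => (S j).symm) (ZZ.image Prod.swap) hcard_swap Q.symm C R hC hR (by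
      intro c hc r hr
      rcases hcov r hr c hc with h | ⟨j, hj, h⟩ | h
      · exact Or.inl (by rw [Equiv.symm_apply_eq]; exact h.symm)
      · exact Or.inr (Or.inl ⟨j, hj, by rw [Equiv.symm_apply_eq]; exact h.symm⟩)
      · exact Or.inr (Or.inr (Finset.mem_image.mpr ⟨(r, c), h, rfl⟩)))
    rw [himg] at h1
    rw [hVdef]
    exact h1
  -- it is enough to find a cell common to all members of `𝒬`
  have hcommon : ∀ r c, ¬ ∀ Q, 𝒬 Q → Q r = c := by
    intro r c hall
    obtain ⟨Q, hQ, hne⟩ := hfree r c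
    exact hne (hall Q hQ)
  have huniq45 : ∀ (Q Q' : Equiv.Perm (Fin 8)) (R C R' C' : Finset (Fin 8)), R.card = 4 → C.card = 5 →
      (∀ r ∈ R, ∀ c ∈ C, Q r = c ∨ (∃ j ∈ B, S j r = c) ∨ (r, c) ∈ ZZ) → R'.card = 4 → C'.card = 5 →
      (∀ r ∈ R', ∀ c ∈ C', Q' r = c ∨ (∃ j ∈ B, S j r = c) ∨ (r, c) ∈ ZZ) → ∀ r ∈ R, Q' r = Q r := by
    intro Q Q' R C R' C' hR hC hcov hR' hC' hcov'
    obtain ⟨e1, f1⟩ := h45 Q R C hR hC hcov
    obtain ⟨e2, f2⟩ := h45 Q' R' C' hR' hC' hcov'
    have e3 : R' = R := e2.trans e1.symm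
    rw [e3] at f2
    exact uniq45 W Q Q' hR (fun r hr => ⟨(f1 r hr).1, (f1 r hr).2.1⟩) (fun r hr => ⟨(f2 r hr).1, (f2 r hr).2.1⟩)
  have huniq54 : ∀ (Q Q' : Equiv.Perm (Fin 8)) (R C R' C' : Finset (Fin 8)), R.card = 5 → C.card = 4 →
      (∀ r ∈ R, ∀ c ∈ C, Q r = c ∨ (∃ j ∈ B, S j r = c) ∨ (r, c) ∈ ZZ) → R'.card = 5 → C'.card = 4 →
      (∀ r ∈ R', ∀ c ∈ C', Q' r = c ∨ (∃ j ∈ B, S j r = c) ∨ (r, c) ∈ ZZ) →
      ∀ c ∈ C, Q'.symm c = Q.symm c := by
    intro Q Q' R C R' C' hR hC hcov hR' hC' hcov'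
    obtain ⟨e1, f1⟩ := h54 Q R C hR hC hcov
    obtain ⟨e2, f2⟩ := h54 Q' R' C' hR' hC' hcov'
    have e3 : C' = C := e2.trans e1.symm
    rw [e3] at f2
    exact uniq45 V Q.symm Q'.symm hC (fun r hr => ⟨(f1 r hr).1, (f1 r hr).2.1⟩)
      (fun r hr => ⟨(f2 r hr).1, (f2 r hr).2.1⟩)
  by_cases hex45 : ∃ Q, 𝒬 Q ∧ ∃ R C : Finset (Fin 8), R.card = 4 ∧ C.card = 5 ∧
      ∀ r ∈ R, ∀ c ∈ C, Q r = c ∨ (∃ j ∈ B, S j r = c) ∨ (r, c) ∈ ZZ
  · obtain ⟨Q1, hQ1, R1, C1, hR1, hC1, hcov1⟩ := hex45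
    obtain ⟨e1, f1⟩ := h45 Q1 R1 C1 hR1 hC1 hcov1
    by_cases hex54 : ∃ Q, 𝒬 Q ∧ ∃ R C : Finset (Fin 8), R.card = 5 ∧ C.card = 4 ∧
        ∀ r ∈ R, ∀ c ∈ C, Q r = c ∨ (∃ j ∈ B, S j r = c) ∨ (r, c) ∈ ZZ
    · obtain ⟨Q2, hQ2, R2, C2, hR2, hC2, hcov2⟩ := hex54
      obtain ⟨e2, f2⟩ := h54 Q2 R2 C2 hR2 hC2 hcov2
      -- columns of `ZZ` are in `C1`, rows of `ZZ` are in `R2`
      have hCC : C2 ⊆ C1 := by
        intro c hc
        rw [e2] at hc
        obtain ⟨z, hz, hzc⟩ := Finset.mem_image.mp hc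
        have hz1 : z.1 ∈ R1 := by
          rw [e1]
          exact Finset.mem_image_of_mem _ hz
        rw [(f1 z.1 hz1).1, hWdef]
        apply Finset.mem_insert_of_mem
        apply Finset.mem_union_right
        exact Finset.mem_image.mpr ⟨z, Finset.mem_filter.mpr ⟨hz, rfl⟩, hzc⟩
      have hcell : ∃ r ∈ R1, ∃ c ∈ C2, c ∉ W r := by
        by_contra hcon
        push Not at hcon
        have hWeq : ∀ r ∈ R1, C2 = W r := by
          intro r hr
          apply Finset.eq_of_subset_of_card_le (fun c hc => hcon r hr c hc)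
          rw [(f1 r hr).2.2, hC2]
        have hone : ∀ r ∈ R1, ∀ r' ∈ R1, r = r' := by
          intro r hr r' hr'
          have h1 : Q1 r ∈ C1 := by
            rw [(f1 r hr).1]
            exact Finset.mem_insert_self _ _
          rw [(f1 r' hr').1, Finset.mem_insert] at h1
          rcases h1 with h1 | h1
          · exact Q1.injective h1
          · exfalso
            apply (f1 r hr).2.1
            rw [← hWeq r hr, hWeq r' hr']
            exact h1
        have := Finset.card_le_one.mpr hone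
        omega
      obtain ⟨r, hr, c, hc, hrc⟩ := hcell
      have hnE : ¬ ((∃ j ∈ B, S j r = c) ∨ (r, c) ∈ ZZ) := by
        intro h
        apply hrc
        rw [hWdef]
        rcases h with ⟨j, hj, h⟩ | h
        · exact Finset.mem_union_left _ (Finset.mem_image.mpr ⟨j, hj, h⟩)
        · exact Finset.mem_union_right _ (Finset.mem_image.mpr ⟨(r, c), Finset.mem_filter.mpr ⟨h, rfl⟩, rfl⟩)
      have hQ1c : Q1 r = c := (hcov1 r hr c (hCC hc)).resolve_right hnE
      apply hcommon r c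
      intro Q hQ
      obtain ⟨R, C, hcards, hcov⟩ := hblk Q hQ
      rcases hcards with ⟨hR, hC⟩ | ⟨hR, hC⟩
      · rw [huniq45 Q1 Q R1 C1 R C hR1 hC1 hcov1 hR hC hcov r hr, hQ1c]
      · obtain ⟨e3, f3⟩ := h54 Q R C hR hC hcov
        have hcC : c ∈ C := by
          rw [e3, ← e2]
          exact hc
        have hrR : r ∈ R := by
          rw [e1] at hr
          obtain ⟨z, hz, hzr⟩ := Finset.mem_image.mp hr
          have hz2 : z.2 ∈ C := by
            rw [e3]
            exact Finset.mem_image_of_mem _ hz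
          rw [(f3 z.2 hz2).1, hVdef]
          apply Finset.mem_insert_of_mem
          apply Finset.mem_union_right
          exact Finset.mem_image.mpr ⟨z.swap, Finset.mem_filter.mpr
            ⟨Finset.mem_image.mpr ⟨z, hz, rfl⟩, rfl⟩, hzr⟩
        exact (hcov r hrR c hcC).resolve_right hnE
    · obtain ⟨r, hr⟩ : R1.Nonempty := by
        rw [← Finset.card_pos]; omega
      apply hcommon r (Q1 r)
      intro Q hQ
      obtain ⟨R, C, hcards, hcov⟩ := hblk Q hQ
      rcases hcards with ⟨hR, hC⟩ | ⟨hR, hC⟩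
      · exact huniq45 Q1 Q R1 C1 R C hR1 hC1 hcov1 hR hC hcov r hr
      · exact absurd ⟨Q, hQ, R, C, hR, hC, hcov⟩ hex54
  · obtain ⟨Q2, hQ2, -⟩ := hfree 0 0
    obtain ⟨R2, C2, hcards2, hcov2⟩ := hblk Q2 hQ2
    rcases hcards2 with ⟨hR2, hC2⟩ | ⟨hR2, hC2⟩
    · exact absurd ⟨Q2, hQ2, R2, C2, hR2, hC2, hcov2⟩ hex45
    obtain ⟨c, hc⟩ : C2.Nonempty := by
      rw [← Finset.card_pos]; omega
    apply hcommon (Q2.symm c) c
    intro Q hQ
    obtain ⟨R, C, hcards, hcov⟩ := hblk Q hQ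
    rcases hcards with ⟨hR, hC⟩ | ⟨hR, hC⟩
    · exact absurd ⟨Q, hQ, R, C, hR, hC, hcov⟩ hex45
    · have h1 := huniq54 Q2 Q R2 C2 R C hR2 hC2 hcov2 hR hC hcov c hc
      rw [← h1, Equiv.apply_symm_apply]

theorem exc {ι : Type} [Fintype ι] [DecidableEq ι] (hι : Fintype.card ι ≤ 6) (F : ι → Fin 8 → Finset (Fin 8))
    (P : ι → Equiv.Perm (Fin 8)) (hP : ∀ j r, P j r ∈ F j r) (A : Finset ι) (hA : A.card + 2 ≤ Fintype.card ι)
    (Z : ι → Finset (Fin 8 × Fin 8)) (hZ : ∀ j, j ∉ A → (Z j).card ≤ 2 ∧ ∀ z ∈ Z j, P j z.1 = z.2)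
    (hfree : ∀ j ∈ A, ∀ r c, ∃ P' : Equiv.Perm (Fin 8), (∀ i, P' i ∈ F j i) ∧ P' r ≠ c) :
    ∃ N : Equiv.Perm (Fin 8), (∀ j ∈ A, ∃ P' : Equiv.Perm (Fin 8), ∀ r, P' r ∈ F j r ∧ P' r ≠ N r) ∧
      ∀ j, j ∉ A → ∀ z ∈ Z j, N z.1 ≠ z.2 := by
  classical
  by_contra hno
  have key : ∀ P' : ι → Equiv.Perm (Fin 8), (∀ j ∈ A, ∀ r, P' j r ∈ F j r) →
      A.card = 4 ∧ Fintype.card ι = 6 ∧ ∃ R C : Finset (Fin 8),
        ((R.card = 4 ∧ C.card = 5) ∨ (R.card = 5 ∧ C.card = 4)) ∧
        ∀ r ∈ R, ∀ c ∈ C, (∃ j ∈ A, P' j r = c) ∨ ∃ j, j ∉ A ∧ (r, c) ∈ Z j := by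
    intro P' hP'
    have hh : ¬ ∃ σ : Equiv.Perm (Fin 8), ∀ i, ¬ ((∃ j ∈ A, P' j i = σ i) ∨ ∃ j, j ∉ A ∧ (i, σ i) ∈ Z j) := by
      rintro ⟨N, hN⟩
      apply hno
      refine ⟨N, fun j hj => ⟨P' j, fun r => ⟨hP' j hj r, fun h => hN r (Or.inl ⟨j, hj, h⟩)⟩⟩, ?_⟩
      intro j hj z hz hNz
      apply hN z.1
      refine Or.inr ⟨j, hj, ?_⟩
      rw [hNz]
      exact hz
    obtain ⟨R, C, hRC, hcov⟩ := hall8 (fun i c => (∃ j ∈ A, P' j i = c) ∨ ∃ j, j ∉ A ∧ (i, c) ∈ Z j) hh
    obtain ⟨h1, h2, h3⟩ := count8 hι P P' A hA Z hZ R C hRC hcov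
    exact ⟨h1, h2, R, C, h3, hcov⟩
  obtain ⟨hA4, hι6, -⟩ := key P (fun j _ r => hP j r)
  obtain ⟨j0, hj0⟩ : A.Nonempty := by
    rw [← Finset.card_pos]; omega
  have hcard : A.card + Aᶜ.card = Fintype.card ι := Finset.card_add_card_compl A
  have hZZ : (Aᶜ.biUnion Z).card ≤ 4 := by
    have h4 : (Aᶜ.biUnion Z).card ≤ Aᶜ.card * 2 :=
      Finset.card_biUnion_le_card_mul _ _ _ (fun j hj => (hZ j (Finset.mem_compl.mp hj)).1)
    omega
  refine core (A.erase j0) (by rw [Finset.card_erase_of_mem hj0]; omega) P (Aᶜ.biUnion Z) hZZ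
    (fun Q => ∀ i, Q i ∈ F j0 i) (fun r c => hfree j0 hj0 r c) ?_
  intro Q hQ
  obtain ⟨-, -, R, C, hcards, hcov⟩ := key (Function.update P j0 Q) (by
    intro j hj r
    by_cases h : j = j0
    · subst h
      rw [Function.update_self]
      exact hQ r
    · rw [Function.update_of_ne h]
      exact hP j r)
  refine ⟨R, C, hcards, fun r hr c hc => ?_⟩
  rcases hcov r hr c hc with ⟨j, hj, h⟩ | ⟨j, hj, h⟩
  · by_cases hjj : j = j0
    · subst hjj
      rw [Function.update_self] at h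
      exact Or.inl h
    · rw [Function.update_of_ne hjj] at h
      exact Or.inr (Or.inl ⟨j, Finset.mem_erase.mpr ⟨hjj, hj⟩, h⟩)
  · exact Or.inr (Or.inr (Finset.mem_biUnion.mpr ⟨j, Finset.mem_compl.mpr hj, h⟩))

end Pool.Agent.MP_dc7d7b.TF
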