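import Pool.Agent.Lib.MP_dc7d7b_co.TF.Defs

set_option autoImplicit false

/-!
FRC (180 lines): a forced cell. Not `Two`: a rectangle R × C, card R + card C = 9, with at most one allowed cell; a perfect
matching has a cell in it, so there is exactly one allowed cell f = (r0, c0), and every perfect matching contains it.
Rows r ≠ r0 of R have F r ⊆ Cᶜ, so (R has at least two rows: otherwise card C = 8) card Cᶜ ≥ 3; columns c ≠ c0 of C have
all their rows in Rᶜ, card Rᶜ ≥ 3; card Cᶜ + card Rᶜ = 7. By transposition (tr, N⁻¹, Z swapped) let card Cᶜ = 3,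
card R = 4, card C = 5, card Rᶜ = 4. R1 = R \ {r0}: three rows with F r = Cᶜ. C2 = C \ {c0}: each of these 4 columns has
at least 3 of the 4 rows of Rᶜ and no others; so at most 4 cells of Rᶜ × C2 are missing. Every perfect matching maps R1
onto Cᶜ, r0 to c0, so Rᶜ onto C2. At most one row r' of Rᶜ has at most one cell in C2 (it misses three); by the perfect
matching it has exactly one, c'. Z = {(r0, c0)} or {(r0, c0), (r', c')}.
Let N be bad with R', C2'. i = card (R' ∩ R1), j = card (C' ∩ Cᶜ): all cells of the block are allowed, so i + j ≤ 3 (if both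
are positive they are 1). i' = card (R' ∩ Rᶜ), j' = card (C' ∩ C2): if j' ≥ 1 a column of C' ∩ C2 contains at least 3 rows
of Rᶜ, at most one of them in R' (N): i' ≤ 2; i' = 2: each column is missed by one row and N of the other: j' ≤ 2;
i' = 1: j' ≤ 4; j' = 4 only if the row r of R' ∩ Rᶜ has at most the cell N r in C2: then r = r', N r' = c': Z is hit.
Otherwise i' + j' ≤ 4 and 9 ≤ 3 + 4 + 1 + 1, so r0 ∈ R', c0 ∈ C', N r0 = c0: Z is hit.
-/

namespace Pool.Agent.MP_dc7d7b.TF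

open Finset

/-- the situation after normalisation -/
private structure FrcS (F : Fin 8 → Finset (Fin 8)) (R C : Finset (Fin 8)) (r0 c0 : Fin 8) : Prop where
  deg : Deg3 F
  cR : R.card = 4
  cC : C.card = 5
  r0R : r0 ∈ R
  c0C : c0 ∈ C
  h0 : c0 ∈ F r0
  hu : ∀ r ∈ R, ∀ c ∈ C, c ∈ F r → r = r0 ∧ c = c0

private lemma FrcS.row {F : Fin 8 → Finset (Fin 8)} {R C : Finset (Fin 8)} {r0 c0 : Fin 8}
    (S : FrcS F R C r0 c0) : ∀ r ∈ R.erase r0, F r = Cᶜ := by
  intro r hr
  rw [mem_erase] at hr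
  refine eq_of_subset_of_card_le (fun c hc => ?_) ?_
  · rw [mem_compl]
    intro hcC
    exact hr.1 (S.hu r hr.2 c hcC hc).1
  · rw [card_compl, Fintype.card_fin, S.cC]
    exact S.deg.row r

private lemma FrcS.miss {F : Fin 8 → Finset (Fin 8)} {R C : Finset (Fin 8)} {r0 c0 : Fin 8}
    (S : FrcS F R C r0 c0) (c : Fin 8) (hc : c ∈ C.erase c0) (r1 r2 : Fin 8) (h1 : r1 ∈ Rᶜ) (h2 : r2 ∈ Rᶜ)
    (hr1 : c ∉ F r1) (hr2 : c ∉ F r2) : r1 = r2 := by
  by_contra hne
  rw [mem_erase] at hc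
  have hsub : tr F c ⊆ (Rᶜ.erase r1).erase r2 := by
    intro r hr
    rw [mem_tr] at hr
    rw [mem_erase, mem_erase]
    refine ⟨?_, ?_, ?_⟩
    · rintro rfl
      exact hr2 hr
    · rintro rfl
      exact hr1 hr
    · rw [mem_compl]
      intro hrR
      exact hc.1 (S.hu r hrR c hc.2 hr).2
  have h3 := card_le_card hsub
  have h4 := S.deg.col c
  rw [card_erase_of_mem (by rw [mem_erase]; exact ⟨fun h => hne h.symm, h2⟩), card_erase_of_mem h1, card_compl,
    Fintype.card_fin, S.cR] at h3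
  omega

private lemma FrcS.weak {F : Fin 8 → Finset (Fin 8)} {R C : Finset (Fin 8)} {r0 c0 : Fin 8}
    (S : FrcS F R C r0 c0) (r1 r2 : Fin 8) (h1 : r1 ∈ Rᶜ) (h2 : r2 ∈ Rᶜ)
    (hr1 : (F r1 ∩ C.erase c0).card ≤ 1) (hr2 : (F r2 ∩ C.erase c0).card ≤ 1) : r1 = r2 := by
  by_contra hne
  have hsub : C.erase c0 ⊆ (F r1 ∩ C.erase c0) ∪ (F r2 ∩ C.erase c0) := by
    intro c hc
    rw [mem_union, mem_inter, mem_inter]
    by_contra h
    push Not at h
    exact hne (S.miss c hc r1 r2 h1 h2 (fun h' => h.1 h' hc) (fun h' => h.2 h' hc))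
  have h3 := (card_le_card hsub).trans (card_union_le _ _)
  rw [card_erase_of_mem S.c0C, S.cC] at h3
  omega

private lemma FrcS.img {F : Fin 8 → Finset (Fin 8)} {R C : Finset (Fin 8)} {r0 c0 : Fin 8}
    (S : FrcS F R C r0 c0) (P : Equiv.Perm (Fin 8)) (hP : ∀ r, P r ∈ F r) (r : Fin 8) (hr : r ∉ R.erase r0) :
    P r ∈ C := by
  have h1 : (R.erase r0).image P = Cᶜ := by
    refine eq_of_subset_of_card_le (fun c hc => ?_) ?_
    · obtain ⟨r, hr, rfl⟩ := mem_image.1 hc
      rw [← S.row r hr]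
      exact hP r
    · rw [card_image_of_injective _ P.injective, card_erase_of_mem S.r0R, card_compl, Fintype.card_fin, S.cC, S.cR]
  by_contra hc
  rw [← mem_compl, ← h1, mem_image] at hc
  obtain ⟨r', hr', h⟩ := hc
  rw [P.injective h] at hr'
  exact hr hr'

private lemma FrcS.fix {F : Fin 8 → Finset (Fin 8)} {R C : Finset (Fin 8)} {r0 c0 : Fin 8}
    (S : FrcS F R C r0 c0) (P : Equiv.Perm (Fin 8)) (hP : ∀ r, P r ∈ F r) : P r0 = c0 :=
  (S.hu r0 S.r0R (P r0) (S.img P hP r0 (by simp)) (hP r0)).2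

private lemma FrcS.two {F : Fin 8 → Finset (Fin 8)} {R C : Finset (Fin 8)} {r0 c0 : Fin 8}
    (S : FrcS F R C r0 c0) (P : Equiv.Perm (Fin 8)) (hP : ∀ r, P r ∈ F r) (r : Fin 8) (hr : r ∈ Rᶜ) :
    P r ∈ C.erase c0 := by
  rw [mem_compl] at hr
  rw [mem_erase]
  refine ⟨?_, S.img P hP r (fun h => hr (mem_of_mem_erase h))⟩
  intro h
  rw [← S.fix P hP] at h
  rw [P.injective h] at hr
  exact hr S.r0R

private lemma FrcS.notBad {F : Fin 8 → Finset (Fin 8)} {R C : Finset (Fin 8)} {r0 c0 : Fin 8}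
    (S : FrcS F R C r0 c0) (P : Equiv.Perm (Fin 8)) (hP : ∀ r, P r ∈ F r) (N : Equiv.Perm (Fin 8)) (hN0 : N r0 ≠ c0)
    (hNw : ∀ r ∈ Rᶜ, (F r ∩ C.erase c0).card ≤ 1 → N r ≠ P r) : ¬ Bad F N := by
  rintro ⟨R', C', hsum, hB⟩
  have cR1 : (R.erase r0).card = 3 := by rw [card_erase_of_mem S.r0R, S.cR]
  have cC2 : (C.erase c0).card = 4 := by rw [card_erase_of_mem S.c0C, S.cC]
  have cRc : Rᶜ.card = 4 := by rw [card_compl, Fintype.card_fin, S.cR]
  have cCc : Cᶜ.card = 3 := by rw [card_compl, Fintype.card_fin, S.cC]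
  -- sizes
  have hR' : R'.card ≤ (R' ∩ R.erase r0).card + (R' ∩ Rᶜ).card + (R' ∩ {r0}).card := by
    have h1 : R' ⊆ ((R' ∩ R.erase r0) ∪ (R' ∩ Rᶜ)) ∪ (R' ∩ {r0}) := by
      intro r hr
      simp only [mem_union, mem_inter, mem_erase, mem_compl, mem_singleton]
      by_cases h : r ∈ R
      · by_cases h' : r = r0
        · exact Or.inr ⟨hr, h'⟩
        · exact Or.inl (Or.inl ⟨hr, h', h⟩)
      · exact Or.inl (Or.inr ⟨hr, h⟩)
    refine (card_le_card h1).trans ((card_union_le _ _).trans ?_)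
    exact Nat.add_le_add_right (card_union_le _ _) _
  have hC' : C'.card ≤ (C' ∩ Cᶜ).card + (C' ∩ C.erase c0).card + (C' ∩ {c0}).card := by
    have h1 : C' ⊆ ((C' ∩ Cᶜ) ∪ (C' ∩ C.erase c0)) ∪ (C' ∩ {c0}) := by
      intro r hr
      simp only [mem_union, mem_inter, mem_erase, mem_compl, mem_singleton]
      by_cases h : r ∈ C
      · by_cases h' : r = c0
        · exact Or.inr ⟨hr, h'⟩
        · exact Or.inl (Or.inr ⟨hr, h', h⟩)
      · exact Or.inl (Or.inl ⟨hr, h⟩)
    refine (card_le_card h1).trans ((card_union_le _ _).trans ?_)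
    exact Nat.add_le_add_right (card_union_le _ _) _
  have hone : (R' ∩ {r0}).card + (C' ∩ {c0}).card ≤ 1 := by
    have h1 : (R' ∩ {r0}).card ≤ 1 := (card_le_card inter_subset_right).trans (card_singleton r0).le
    have h2 : (C' ∩ {c0}).card ≤ 1 := (card_le_card inter_subset_right).trans (card_singleton c0).le
    by_cases h3 : r0 ∈ R'
    · by_cases h4 : c0 ∈ C'
      · exact absurd (hB r0 h3 c0 h4 S.h0) hN0
      · rw [inter_singleton_of_notMem h4, card_empty]
        omega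
    · rw [inter_singleton_of_notMem h3, card_empty]
      omega
  have h3 : (R' ∩ R.erase r0).card + (C' ∩ Cᶜ).card ≤ 3 := by
    have h1 : (R' ∩ R.erase r0).card ≤ 3 := (card_le_card inter_subset_right).trans cR1.le
    have h2 : (C' ∩ Cᶜ).card ≤ 3 := (card_le_card inter_subset_right).trans cCc.le
    rcases (R' ∩ R.erase r0).eq_empty_or_nonempty with h | ⟨r, hr⟩
    · rw [h, card_empty]
      omega
    rcases (C' ∩ Cᶜ).eq_empty_or_nonempty with h | ⟨c, hc⟩
    · rw [h, card_empty]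
      omega
    have key : ∀ r ∈ R' ∩ R.erase r0, ∀ c ∈ C' ∩ Cᶜ, N r = c := by
      intro r hr c hc
      rw [mem_inter] at hr hc
      refine hB r hr.1 c hc.1 ?_
      rw [S.row r hr.2]
      exact hc.2
    have h4 : (R' ∩ R.erase r0).card ≤ 1 := by
      rw [card_le_one]
      intro r1 hr1 r2 hr2
      exact N.injective ((key r1 hr1 c hc).trans (key r2 hr2 c hc).symm)
    have h5 : (C' ∩ Cᶜ).card ≤ 1 := by
      rw [card_le_one]
      intro c1 hc1 c2 hc2
      exact (key r hr c1 hc1).symm.trans (key r hr c2 hc2)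
    omega
  have h4 : (R' ∩ Rᶜ).card + (C' ∩ C.erase c0).card ≤ 4 := by
    have h1 : (R' ∩ Rᶜ).card ≤ 4 := (card_le_card inter_subset_right).trans cRc.le
    have h2 : (C' ∩ C.erase c0).card ≤ 4 := (card_le_card inter_subset_right).trans cC2.le
    rcases (R' ∩ Rᶜ).eq_empty_or_nonempty with h | ⟨r, hr⟩
    · rw [h, card_empty]
      omega
    rcases (C' ∩ C.erase c0).eq_empty_or_nonempty with h | ⟨c, hc⟩
    · rw [h, card_empty]
      omega
    have h5 : (R' ∩ Rᶜ).card ≤ 2 := by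
      rw [← card_filter_add_card_filter_not (s := R' ∩ Rᶜ) (fun r => c ∈ F r)]
      have h6 : ((R' ∩ Rᶜ).filter (fun r => c ∈ F r)).card ≤ 1 := by
        rw [card_le_one]
        intro r1 hr1 r2 hr2
        rw [mem_filter, mem_inter] at hr1 hr2
        have hc' := (mem_inter.1 hc).1
        exact N.injective ((hB r1 hr1.1.1 c hc' hr1.2).trans (hB r2 hr2.1.1 c hc' hr2.2).symm)
      have h7 : ((R' ∩ Rᶜ).filter (fun r => ¬ c ∈ F r)).card ≤ 1 := by
        rw [card_le_one]
        intro r1 hr1 r2 hr2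
        rw [mem_filter, mem_inter] at hr1 hr2
        exact S.miss c (mem_inter.1 hc).2 r1 r2 hr1.1.2 hr2.1.2 hr1.2 hr2.2
      omega
    have h6 : (R' ∩ Rᶜ).card = 1 ∨ (R' ∩ Rᶜ).card = 2 := by
      have := card_pos.2 ⟨r, hr⟩
      omega
    rcases h6 with h6 | h6
    · -- one row
      by_contra h7
      have h8 : C' ∩ C.erase c0 = C.erase c0 := eq_of_subset_of_card_le inter_subset_right (by omega)
      have h9 : ∀ c ∈ C.erase c0, c ∈ F r → N r = c := by
        intro c hc hcF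
        rw [← h8, mem_inter] at hc
        exact hB r (mem_inter.1 hr).1 c hc.1 hcF
      have h10 : (F r ∩ C.erase c0).card ≤ 1 := by
        rw [card_le_one]
        intro c1 hc1 c2 hc2
        rw [mem_inter] at hc1 hc2
        exact (h9 c1 hc1.2 hc1.1).symm.trans (h9 c2 hc2.2 hc2.1)
      have hrR := (mem_inter.1 hr).2
      exact hNw r hrR h10 (h9 (P r) (S.two P hP r hrR) (hP r))
    · -- two rows
      obtain ⟨r1, r2, hne, h7⟩ := card_eq_two.1 h6
      have hr1 : r1 ∈ R' ∩ Rᶜ := by rw [h7]; simp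
      have hr2 : r2 ∈ R' ∩ Rᶜ := by rw [h7]; simp
      have h8 : C' ∩ C.erase c0 ⊆ {N r1, N r2} := by
        intro c hc
        rw [mem_inter] at hc hr1 hr2
        rw [mem_insert, mem_singleton]
        by_cases h9 : c ∈ F r1
        · exact Or.inl (hB r1 hr1.1 c hc.1 h9).symm
        · by_cases h10 : c ∈ F r2
          · exact Or.inr (hB r2 hr2.1 c hc.1 h10).symm
          · exact absurd (S.miss c hc.2 r1 r2 hr1.2 hr2.2 h9 h10) hne
      have h9 := (card_le_card h8).trans card_le_two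
      omega
  omega

private lemma FrcS.main {F : Fin 8 → Finset (Fin 8)} {R C : Finset (Fin 8)} {r0 c0 : Fin 8}
    (S : FrcS F R C r0 c0) (P : Equiv.Perm (Fin 8)) (hP : ∀ r, P r ∈ F r) :
    ∃ Z : Finset (Fin 8 × Fin 8), Z.card ≤ 2 ∧
      (∀ P : Equiv.Perm (Fin 8), (∀ r, P r ∈ F r) → ∀ z ∈ Z, P z.1 = z.2) ∧
      ∀ N : Equiv.Perm (Fin 8), (∀ z ∈ Z, N z.1 ≠ z.2) → ¬ Bad F N := by
  by_cases h : ∃ r' ∈ Rᶜ, (F r' ∩ C.erase c0).card ≤ 1
  · obtain ⟨r', hr', hw⟩ := h
    refine ⟨{(r0, c0), (r', P r')}, card_le_two, ?_, ?_⟩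
    · intro P' hP' z hz
      rw [mem_insert, mem_singleton] at hz
      rcases hz with rfl | rfl
      · exact S.fix P' hP'
      · rw [card_le_one] at hw
        exact hw _ (mem_inter.2 ⟨hP' r', S.two P' hP' r' hr'⟩) _ (mem_inter.2 ⟨hP r', S.two P hP r' hr'⟩)
    · intro N hN
      refine S.notBad P hP N (hN (r0, c0) (by simp)) ?_
      intro r hr hr1
      have h1 := S.weak r r' hr hr' hr1 hw
      rw [h1]
      exact hN (r', P r') (by simp)
  · refine ⟨{(r0, c0)}, by simp, ?_, ?_⟩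
    · intro P' hP' z hz
      rw [mem_singleton] at hz
      subst hz
      exact S.fix P' hP'
    · intro N hN
      refine S.notBad P hP N (hN (r0, c0) (by simp)) ?_
      intro r hr hr1
      exact absurd ⟨r, hr, hr1⟩ h

theorem frc {F : Fin 8 → Finset (Fin 8)} (hF : Deg3 F) (hP : ∃ P : Equiv.Perm (Fin 8), ∀ r, P r ∈ F r)
    (h : ¬ Two F) : ∃ Z : Finset (Fin 8 × Fin 8), Z.card ≤ 2 ∧
      (∀ P : Equiv.Perm (Fin 8), (∀ r, P r ∈ F r) → ∀ z ∈ Z, P z.1 = z.2) ∧
      ∀ N : Equiv.Perm (Fin 8), (∀ z ∈ Z, N z.1 ≠ z.2) → ¬ Bad F N := by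
  obtain ⟨P, hP⟩ := hP
  unfold Two at h
  push Not at h
  obtain ⟨R, C, hRC, hlt⟩ := h
  -- the cell of the perfect matching
  have hcell : ∃ r0 ∈ R, P r0 ∈ C := by
    by_contra hno
    push Not at hno
    have h1 : R.image P ⊆ Cᶜ := by
      intro c hc
      obtain ⟨r, hr, rfl⟩ := mem_image.1 hc
      rw [mem_compl]
      exact hno r hr
    have h2 := card_le_card h1
    rw [card_image_of_injective _ P.injective, card_compl, Fintype.card_fin] at h2
    have h3 : C.card ≤ 8 := by simpa using card_le_univ C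
    omega
  obtain ⟨r0, hr0, hc0⟩ := hcell
  have hu : ∀ r ∈ R, ∀ c ∈ C, c ∈ F r → r = r0 ∧ c = P r0 := by
    intro r hr c hc hcF
    have h1 : ((R ×ˢ C).filter (fun x => x.2 ∈ F x.1)).card ≤ 1 := by omega
    rw [card_le_one] at h1
    have h2 := h1 (r, c) (by rw [mem_filter, mem_product]; exact ⟨⟨hr, hc⟩, hcF⟩) (r0, P r0)
      (by rw [mem_filter, mem_product]; exact ⟨⟨hr0, hc0⟩, hP r0⟩)
    exact ⟨congrArg Prod.fst h2, congrArg Prod.snd h2⟩
  -- at least two rows and two columns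
  have hRpos : 1 ≤ R.card := card_pos.2 ⟨r0, hr0⟩
  have hCpos : 1 ≤ C.card := card_pos.2 ⟨P r0, hc0⟩
  have hR8 : R.card ≤ 8 := by simpa using card_le_univ R
  have hC8 : C.card ≤ 8 := by simpa using card_le_univ C
  have hCc : 3 ≤ Cᶜ.card := by
    by_cases h1 : R.card = 1
    · exfalso
      have h2 : C = univ := by
        rw [← card_eq_iff_eq_univ, Fintype.card_fin]
        omega
      have h3 : F r0 ⊆ {P r0} := by
        intro c hc
        rw [mem_singleton]
        exact (hu r0 hr0 c (by rw [h2]; exact mem_univ c) hc).2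
      have h4 := card_le_card h3
      rw [card_singleton] at h4
      have := hF.row r0
      omega
    · obtain ⟨r, hr, hne⟩ := exists_mem_ne (by omega : 1 < R.card) r0
      have h3 : F r ⊆ Cᶜ := by
        intro c hc
        rw [mem_compl]
        intro hcC
        exact hne (hu r hr c hcC hc).1
      exact (hF.row r).trans (card_le_card h3)
  have hRc : 3 ≤ Rᶜ.card := by
    by_cases h1 : C.card = 1
    · exfalso
      have h2 : R = univ := by
        rw [← card_eq_iff_eq_univ, Fintype.card_fin]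
        omega
      have h3 : tr F (P r0) ⊆ {r0} := by
        intro r hr
        rw [mem_tr] at hr
        rw [mem_singleton]
        exact (hu r (by rw [h2]; exact mem_univ r) (P r0) hc0 hr).1
      have h4 := card_le_card h3
      rw [card_singleton] at h4
      have := hF.col (P r0)
      omega
    · obtain ⟨c, hc, hne⟩ := exists_mem_ne (by omega : 1 < C.card) (P r0)
      have h3 : tr F c ⊆ Rᶜ := by
        intro r hr
        rw [mem_tr] at hr
        rw [mem_compl]
        intro hrR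
        exact hne (hu r hrR c hc hr).2
      exact (hF.col c).trans (card_le_card h3)
  rw [card_compl, Fintype.card_fin] at hCc hRc
  have hcase : (R.card = 4 ∧ C.card = 5) ∨ (R.card = 5 ∧ C.card = 4) := by omega
  rcases hcase with ⟨h1, h2⟩ | ⟨h1, h2⟩
  · exact FrcS.main ⟨hF, h1, h2, hr0, hc0, hP r0, hu⟩ P hP
  · have S : FrcS (tr F) C R (P r0) r0 := by
      refine ⟨hF.tr, h2, h1, hc0, hr0, mem_tr.2 (hP r0), ?_⟩
      intro c hc r hr h3
      rw [mem_tr] at h3
      exact ⟨(hu r hr c hc h3).2, (hu r hr c hc h3).1⟩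
    have hinv : ∀ Q : Equiv.Perm (Fin 8), (∀ r, Q r ∈ F r) → ∀ c, Q⁻¹ c ∈ tr F c := by
      intro Q hQ c
      rw [mem_tr]
      have h3 := hQ (Q⁻¹ c)
      have h4 : Q (Q⁻¹ c) = c := by simp
      rwa [h4] at h3
    obtain ⟨Z, hZ1, hZ2, hZ3⟩ := S.main P⁻¹ (hinv P hP)
    refine ⟨Z.image Prod.swap, card_image_le.trans hZ1, ?_, ?_⟩
    · intro P' hP' z hz
      obtain ⟨y, hy, rfl⟩ := mem_image.1 hz
      have h3 := hZ2 P'⁻¹ (hinv P' hP') y hy
      rw [Equiv.Perm.inv_eq_iff_eq] at h3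
      exact h3.symm
    · intro N hN hbad
      refine hZ3 N⁻¹ ?_ (bad_tr hbad)
      intro y hy h3
      rw [Equiv.Perm.inv_eq_iff_eq] at h3
      exact hN y.swap (mem_image.2 ⟨y, hy, rfl⟩) h3.symm

end Pool.Agent.MP_dc7d7b.TF
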