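import Pool.Agent.Lib.MP_dc7d7b_co.TF.Mca

set_option autoImplicit false

/-!
MCB (110 lines). At least 4800 permutations contain at least two of the five cells of M (different rows and columns).
Let X(N) = hit M N. For every natural number X ≤ 5: C(X, 2) ≤ [X ≥ 2] + 2 C(X, 3) (values 0, 0, 1, 3, 6, 10 against
0, 0, 1, 3, 9, 21). Sum over all N: Σ C(X, 2) = Σ over the 10 subsets T of M with 2 elements of the number of N
containing T (`card_powersetCard`, a subset T of M is contained in the filter iff all its cells are hit; exchange the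
sums) ≥ 10 * 720 (`card_two`); Σ C(X, 3) = the same for the 10 subsets with 3 elements ≤ 10 * 120 (`card_fix` with S =
the three rows, 5! = 120). So the number is ≥ 7200 - 2400 = 4800.
(Another way is allowed, only > 2400 is used.)
-/

namespace Pool.Agent.MP_dc7d7b.TF

open Finset

private theorem mcb_sum (M : Finset (Fin 8 × Fin 8)) (k : ℕ) :
    ∑ N : Equiv.Perm (Fin 8), (hit M N).choose k =
      ∑ T ∈ M.powersetCard k, (univ.filter (fun N : Equiv.Perm (Fin 8) => ∀ x ∈ T, N x.1 = x.2)).card := by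
  have h1 : ∀ N : Equiv.Perm (Fin 8), (hit M N).choose k =
      ((M.powersetCard k).filter (fun T => ∀ x ∈ T, N x.1 = x.2)).card := by
    intro N
    unfold hit
    rw [← card_powersetCard]
    congr 1
    ext T
    simp only [mem_powersetCard, mem_filter, subset_iff]
    constructor
    · rintro ⟨h, hk⟩
      exact ⟨⟨fun x hx => (h hx).1, hk⟩, fun x hx => (h hx).2⟩
    · rintro ⟨⟨h, hk⟩, h2⟩
      exact ⟨fun x hx => ⟨h hx, h2 x hx⟩, hk⟩
  simp only [h1, card_filter]
  exact sum_comm

private theorem mcb_two (M : Finset (Fin 8 × Fin 8)) (hM : Mat M) (T : Finset (Fin 8 × Fin 8))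
    (hT : T ∈ M.powersetCard 2) :
    720 ≤ (univ.filter (fun N : Equiv.Perm (Fin 8) => ∀ x ∈ T, N x.1 = x.2)).card := by
  rw [mem_powersetCard] at hT
  obtain ⟨x, y, hxy, rfl⟩ := card_eq_two.1 hT.2
  have h := hM x (hT.1 (by simp)) y (hT.1 (by simp)) hxy
  refine (card_two x.1 y.1 x.2 y.2 h.1 h.2).trans (le_of_eq ?_)
  congr 1
  ext N
  simp

private theorem mcb_three (M : Finset (Fin 8 × Fin 8)) (hM : Mat M) (T : Finset (Fin 8 × Fin 8))
    (hT : T ∈ M.powersetCard 3) :
    (univ.filter (fun N : Equiv.Perm (Fin 8) => ∀ x ∈ T, N x.1 = x.2)).card ≤ 120 := by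
  rw [mem_powersetCard] at hT
  rcases (univ.filter (fun N : Equiv.Perm (Fin 8) => ∀ x ∈ T, N x.1 = x.2)).eq_empty_or_nonempty with h | ⟨N0, h0⟩
  · rw [h, card_empty]
    omega
  · have h0' := (mem_filter.1 h0).2
    have h1 : (univ.filter (fun N : Equiv.Perm (Fin 8) => ∀ x ∈ T, N x.1 = x.2)) ⊆
        univ.filter (fun N : Equiv.Perm (Fin 8) => ∀ i ∈ T.image Prod.fst, N i = N0 i) := by
      intro N hN
      have hN' := (mem_filter.1 hN).2
      rw [mem_filter]
      refine ⟨mem_univ _, fun i hi => ?_⟩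
      obtain ⟨x, hx, rfl⟩ := mem_image.1 hi
      rw [hN' x hx, h0' x hx]
    have h2 : (T.image Prod.fst).card = 3 := by
      rw [card_image_of_injOn, hT.2]
      intro x hx y hy hxy
      by_contra hne
      exact (hM x (hT.1 hx) y (hT.1 hy) hne).1 hxy
    refine (card_le_card h1).trans ((card_fix _ _).trans ?_)
    rw [h2]
    decide

private theorem mcb_ch (x : ℕ) (hx : x ≤ 5) : x.choose 2 ≤ (if 2 ≤ x then 1 else 0) + 2 * x.choose 3 := by
  interval_cases x <;> decide

theorem two_cells (M : Finset (Fin 8 × Fin 8)) (hM : Mat M) (h5 : M.card = 5) :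
    2401 ≤ (univ.filter (fun N : Equiv.Perm (Fin 8) => 2 ≤ hit M N)).card := by
  have a1 : 10 * 720 ≤ ∑ N : Equiv.Perm (Fin 8), (hit M N).choose 2 := by
    rw [mcb_sum]
    have h := Finset.card_nsmul_le_sum (M.powersetCard 2)
      (fun T => (univ.filter (fun N : Equiv.Perm (Fin 8) => ∀ x ∈ T, N x.1 = x.2)).card) 720 (mcb_two M hM)
    rw [card_powersetCard, h5, smul_eq_mul] at h
    exact h
  have a2 : ∑ N : Equiv.Perm (Fin 8), (hit M N).choose 3 ≤ 10 * 120 := by
    rw [mcb_sum]
    have h := Finset.sum_le_card_nsmul (M.powersetCard 3)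
      (fun T => (univ.filter (fun N : Equiv.Perm (Fin 8) => ∀ x ∈ T, N x.1 = x.2)).card) 120 (mcb_three M hM)
    rw [card_powersetCard, h5, smul_eq_mul] at h
    exact h
  have a3 : ∑ N : Equiv.Perm (Fin 8), (hit M N).choose 2 ≤
      (univ.filter (fun N : Equiv.Perm (Fin 8) => 2 ≤ hit M N)).card + 2 * ∑ N : Equiv.Perm (Fin 8), (hit M N).choose 3 := by
    rw [card_filter, mul_sum, ← sum_add_distrib]
    refine sum_le_sum fun N _ => mcb_ch _ ?_
    unfold hit
    exact (card_filter_le _ _).trans h5.le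
  omega

end Pool.Agent.MP_dc7d7b.TF
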