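import Pool.Agent.Lib.MP_dc7d7b_co.TF.Def4
import Pool.Agent.Lib.MP_dc7d7b_co.TF.Fix

set_option autoImplicit false

/-!
MCA (90 lines). (1) `card_two`: at least 720 permutations have `N r = c` and `N r' = c'` (r ≠ r', c ≠ c'). For every pair
(x, y) with x ≠ y at most 720 permutations have N r = x, N r' = y (`card_fix` with S = {r, r'}, (8 - 2)! = 720); the 56
pairs cover all 40320 permutations, and 40320 - 55 * 720 = 720.
(2) `pick`: N with the cells m, m' and avoiding Z. For z in Z (z ≠ m, m') at most 120 permutations contain m, m' and z: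
none if z is in the row of m or m', else `card_fix` with S = {m.1, m'.1, z.1}, 5! = 120. So 720 - 2 * 120 > 0.
-/

namespace Pool.Agent.MP_dc7d7b.TF

open Finset

private lemma mca_two (r r' x y : Fin 8) (hr : r ≠ r') :
    (univ.filter (fun N : Equiv.Perm (Fin 8) => (N r, N r') = (x, y))).card ≤ if x = y then 0 else 720 := by
  split_ifs with h
  · rw [Nat.le_zero, card_eq_zero, filter_eq_empty_iff]
    intro N _ h1
    rw [Prod.mk.injEq] at h1
    exact hr (N.injective (by rw [h1.1, h1.2, h]))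
  · have h1 := card_fix {r, r'} (fun i => if i = r then x else y)
    rw [card_pair hr] at h1
    refine (card_le_card ?_).trans h1
    intro N hN
    rw [mem_filter, Prod.mk.injEq] at hN
    rw [mem_filter]
    refine ⟨mem_univ _, fun i hi => ?_⟩
    rw [mem_insert, mem_singleton] at hi
    rcases hi with rfl | rfl
    · rw [if_pos rfl]
      exact hN.2.1
    · rw [if_neg (Ne.symm hr)]
      exact hN.2.2

private lemma mca_sum : ∑ p : Fin 8 × Fin 8, (if p.1 = p.2 then 0 else 720) = 40320 := by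
  decide

private lemma mca_three (r r' z c c' d : Fin 8) (hr : r ≠ r') (hz : r ≠ z) (hz' : r' ≠ z) :
    (univ.filter (fun N : Equiv.Perm (Fin 8) => (N r = c ∧ N r' = c') ∧ N z = d)).card ≤ 120 := by
  have h1 := card_fix {r, r', z} (fun i => if i = r then c else if i = r' then c' else d)
  have h0 : ({r, r', z} : Finset (Fin 8)).card = 3 := by
    rw [card_insert_of_notMem, card_pair hz']
    rw [mem_insert, mem_singleton, not_or]
    exact ⟨hr, hz⟩
  rw [h0] at h1
  refine (card_le_card ?_).trans h1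
  intro N hN
  rw [mem_filter] at hN
  rw [mem_filter]
  refine ⟨mem_univ _, fun i hi => ?_⟩
  rw [mem_insert, mem_insert, mem_singleton] at hi
  rcases hi with rfl | rfl | rfl
  · rw [if_pos rfl]
    exact hN.2.1.1
  · rw [if_neg (Ne.symm hr), if_pos rfl]
    exact hN.2.1.2
  · rw [if_neg (Ne.symm hz), if_neg (Ne.symm hz')]
    exact hN.2.2

theorem card_two (r r' c c' : Fin 8) (hr : r ≠ r') (hc : c ≠ c') :
    720 ≤ (univ.filter (fun N : Equiv.Perm (Fin 8) => N r = c ∧ N r' = c')).card := by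
  have h1 : (univ : Finset (Equiv.Perm (Fin 8))).card =
      ∑ p : Fin 8 × Fin 8, (univ.filter (fun N : Equiv.Perm (Fin 8) => (N r, N r') = p)).card :=
    card_eq_sum_card_fiberwise fun _ _ => mem_coe.2 (mem_univ _)
  rw [card_univ, Fintype.card_perm, Fintype.card_fin, show Nat.factorial 8 = 40320 by rfl,
    ← Finset.add_sum_erase _ _ (mem_univ ((c, c') : Fin 8 × Fin 8))] at h1
  have h2 : ∑ p ∈ (univ : Finset (Fin 8 × Fin 8)).erase (c, c'),
      (univ.filter (fun N : Equiv.Perm (Fin 8) => (N r, N r') = p)).card ≤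
      ∑ p ∈ (univ : Finset (Fin 8 × Fin 8)).erase (c, c'), (if p.1 = p.2 then 0 else 720) :=
    Finset.sum_le_sum fun p _ => mca_two r r' p.1 p.2 hr
  have h3 := mca_sum
  rw [← Finset.add_sum_erase _ _ (mem_univ ((c, c') : Fin 8 × Fin 8)), if_neg hc] at h3
  have h4 : (univ.filter (fun N : Equiv.Perm (Fin 8) => (N r, N r') = (c, c'))) =
      (univ.filter (fun N : Equiv.Perm (Fin 8) => N r = c ∧ N r' = c')) := by
    ext N
    rw [mem_filter, mem_filter, Prod.mk.injEq]
  rw [h4] at h1
  omega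

theorem pick (m m' : Fin 8 × Fin 8) (h1 : m.1 ≠ m'.1) (h2 : m.2 ≠ m'.2) (Z : Finset (Fin 8 × Fin 8)) (hZ : Z.card ≤ 2)
    (hm : m ∉ Z) (hm' : m' ∉ Z) :
    ∃ N : Equiv.Perm (Fin 8), N m.1 = m.2 ∧ N m'.1 = m'.2 ∧ ∀ z ∈ Z, N z.1 ≠ z.2 := by
  by_contra hcon
  push Not at hcon
  have h3 := card_two m.1 m'.1 m.2 m'.2 h1 h2
  have h4 : (univ.filter (fun N : Equiv.Perm (Fin 8) => N m.1 = m.2 ∧ N m'.1 = m'.2)) ⊆
      Z.biUnion fun z => univ.filter (fun N : Equiv.Perm (Fin 8) => (N m.1 = m.2 ∧ N m'.1 = m'.2) ∧ N z.1 = z.2) := by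
    intro N hN
    rw [mem_filter] at hN
    obtain ⟨z, hz, hz1⟩ := hcon N hN.2.1 hN.2.2
    rw [mem_biUnion]
    exact ⟨z, hz, mem_filter.2 ⟨mem_univ _, hN.2, hz1⟩⟩
  have h5 : (Z.biUnion fun z => univ.filter (fun N : Equiv.Perm (Fin 8) => (N m.1 = m.2 ∧ N m'.1 = m'.2) ∧ N z.1 = z.2)).card ≤
      Z.card * 120 := by
    refine card_biUnion_le_card_mul _ _ _ fun z hz => ?_
    by_cases ha : m.1 = z.1
    · have : (univ.filter (fun N : Equiv.Perm (Fin 8) => (N m.1 = m.2 ∧ N m'.1 = m'.2) ∧ N z.1 = z.2)) = ∅ := by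
        rw [filter_eq_empty_iff]
        intro N _ h6
        refine hm ?_
        have h7 : m = z := Prod.ext ha (by rw [← h6.1.1, ha, h6.2])
        rw [h7]
        exact hz
      rw [this, card_empty]
      exact Nat.zero_le _
    · by_cases hb : m'.1 = z.1
      · have : (univ.filter (fun N : Equiv.Perm (Fin 8) => (N m.1 = m.2 ∧ N m'.1 = m'.2) ∧ N z.1 = z.2)) = ∅ := by
          rw [filter_eq_empty_iff]
          intro N _ h6
          refine hm' ?_
          have h7 : m' = z := Prod.ext hb (by rw [← h6.1.2, hb, h6.2])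
          rw [h7]
          exact hz
        rw [this, card_empty]
        exact Nat.zero_le _
      · exact mca_three _ _ _ _ _ _ h1 ha hb
  have h6 := card_le_card h4
  omega

end Pool.Agent.MP_dc7d7b.TF
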