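import Pool.Agent.Lib.MP_dc7d7b_co.Pair
import Pool.Agent.Lib.MP_dc7d7b_co.TF.Mca
import Pool.Agent.Lib.MP_dc7d7b_co.TF.One

set_option autoImplicit false

/-!
PRR (120 lines). (1) `pair_type`: no perfect matching of F avoids both m and m'. Hall (theorem `hall` of `Pair.lean` with
D i x := x ∉ F i ∨ (i, x) = m ∨ (i, x) = m'): a rectangle R × C, card R + card C = 9, whose allowed cells are among m, m'.
By `Two` it has at least two allowed cells, so m and m' are both in R × C and allowed. A row of R has at most one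
allowed cell in C (m.1 ≠ m'.1), so at least two in Cᶜ: card C ≤ 6, by columns card R ≤ 6, so both are at least 3; a
third row of R has none, so F r ⊆ Cᶜ and card Cᶜ ≥ 3: card C ≤ 5, by columns card R ≤ 5. If card R = 4, card C = 5:
Q = Cᶜ has three elements, the two other rows of R have F r ⊆ Q, so F r = Q (card F r ≥ 3), and F m.1 \ Q = {m.2},
F m'.1 \ Q = {m'.2}. If card R = 5, card C = 4: the same for the transposed family.
(2) `pt_once`: take N containing m, m1 and N' containing m, m2 (`pick` with Z = ∅). PT gives E2 F N Q and E2 F N' Q',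
so Q = Q' by `one`. Then T1 F Q contains the three different rows m.1, m1.1, m2.1 and T0 F Q has two rows: X1.
-/

namespace Pool.Agent.MP_dc7d7b.TF

open Finset

/-- all allowed cells of the rectangle are `m` and `m'`, which are allowed -/
private structure PrS (F : Fin 8 → Finset (Fin 8)) (R C : Finset (Fin 8)) (m m' : Fin 8 × Fin 8) : Prop where
  n1 : m.1 ≠ m'.1
  n2 : m.2 ≠ m'.2
  a1 : m.1 ∈ R
  a2 : m.2 ∈ C
  a3 : m.2 ∈ F m.1
  b1 : m'.1 ∈ R
  b2 : m'.2 ∈ C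
  b3 : m'.2 ∈ F m'.1
  hD : ∀ i ∈ R, ∀ c ∈ C, c ∈ F i → (i = m.1 ∧ c = m.2) ∨ (i = m'.1 ∧ c = m'.2)

private theorem PrS.tr {F : Fin 8 → Finset (Fin 8)} {R C : Finset (Fin 8)} {m m' : Fin 8 × Fin 8}
    (h : PrS F R C m m') : PrS (tr F) C R m.swap m'.swap where
  n1 := h.n2
  n2 := h.n1
  a1 := h.a2
  a2 := h.a1
  a3 := mem_tr.2 h.a3
  b1 := h.b2
  b2 := h.b1
  b3 := mem_tr.2 h.b3
  hD := by
    intro c hc i hi hm
    rcases h.hD i hi c hc (mem_tr.1 hm) with ⟨e1, e2⟩ | ⟨e1, e2⟩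
    · exact Or.inl ⟨e2, e1⟩
    · exact Or.inr ⟨e2, e1⟩

private theorem PrS.sing {F : Fin 8 → Finset (Fin 8)} {R C : Finset (Fin 8)} {m m' : Fin 8 × Fin 8}
    (h : PrS F R C m m') : F m.1 \ Cᶜ = {m.2} := by
  ext c
  rw [mem_sdiff, mem_compl, not_not, mem_singleton]
  constructor
  · rintro ⟨h1, h2⟩
    rcases h.hD m.1 h.a1 c h2 h1 with ⟨-, e⟩ | ⟨e, -⟩
    · exact e
    · exact absurd e h.n1
  · rintro rfl
    exact ⟨h.a3, h.a2⟩

private theorem PrS.comm {F : Fin 8 → Finset (Fin 8)} {R C : Finset (Fin 8)} {m m' : Fin 8 × Fin 8}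
    (h : PrS F R C m m') : PrS F R C m' m where
  n1 := h.n1.symm
  n2 := h.n2.symm
  a1 := h.b1
  a2 := h.b2
  a3 := h.b3
  b1 := h.a1
  b2 := h.a2
  b3 := h.a3
  hD := fun i hi c hc hm => (h.hD i hi c hc hm).symm

private theorem PrS.six {F : Fin 8 → Finset (Fin 8)} (hF : Deg3 F) {R C : Finset (Fin 8)} {m m' : Fin 8 × Fin 8}
    (h : PrS F R C m m') : C.card ≤ 6 := by
  have h1 : F m.1 ⊆ insert m.2 Cᶜ := by
    intro c hc
    rw [mem_insert]
    by_cases hcC : c ∈ Cᶜ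
    · exact Or.inr hcC
    · left
      have : c ∈ F m.1 \ Cᶜ := mem_sdiff.2 ⟨hc, hcC⟩
      rw [h.sing, mem_singleton] at this
      exact this
  have h2 := (card_le_card h1).trans (card_insert_le _ _)
  have h3 := hF.row m.1
  have h4 : C.card ≤ 8 := by
    have := card_le_univ C
    rwa [Fintype.card_fin] at this
  rw [card_compl, Fintype.card_fin] at h2
  omega

private theorem PrS.third {F : Fin 8 → Finset (Fin 8)} {R C : Finset (Fin 8)} {m m' : Fin 8 × Fin 8}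
    (h : PrS F R C m m') : ∀ r ∈ (R.erase m.1).erase m'.1, F r ⊆ Cᶜ := by
  intro r hr c hc
  rw [mem_erase, mem_erase] at hr
  rw [mem_compl]
  intro hcC
  rcases h.hD r hr.2.2 c hcC hc with ⟨e, -⟩ | ⟨e, -⟩
  · exact hr.2.1 e
  · exact hr.1 e

private theorem PrS.cardR {F : Fin 8 → Finset (Fin 8)} {R C : Finset (Fin 8)} {m m' : Fin 8 × Fin 8}
    (h : PrS F R C m m') : ((R.erase m.1).erase m'.1).card = R.card - 1 - 1 := by
  rw [card_erase_of_mem (mem_erase.2 ⟨h.n1.symm, h.b1⟩), card_erase_of_mem h.a1]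

private theorem PrS.five {F : Fin 8 → Finset (Fin 8)} (hF : Deg3 F) {R C : Finset (Fin 8)} {m m' : Fin 8 × Fin 8}
    (h : PrS F R C m m') (h3 : 3 ≤ R.card) : C.card ≤ 5 := by
  obtain ⟨r, hr⟩ := card_pos.1 (show 0 < ((R.erase m.1).erase m'.1).card by rw [h.cardR]; omega)
  have h2 := card_le_card (h.third r hr)
  have h4 := hF.row r
  have h5 : C.card ≤ 8 := by
    have := card_le_univ C
    rwa [Fintype.card_fin] at this
  rw [card_compl, Fintype.card_fin] at h2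
  omega

private theorem PrS.pt {F : Fin 8 → Finset (Fin 8)} (hF : Deg3 F) {R C : Finset (Fin 8)} {m m' : Fin 8 × Fin 8}
    (h : PrS F R C m m') (hR : R.card = 4) (hC : C.card = 5) : PT F m m' := by
  have hQ : Cᶜ.card = 3 := by
    rw [card_compl, Fintype.card_fin, hC]
  refine ⟨Cᶜ, hQ, ?_, ?_, ?_, ?_, ?_⟩
  · have h1 : (R.erase m.1).erase m'.1 ⊆ T0 F Cᶜ := by
      intro r hr
      rw [mem_T0]
      exact eq_of_subset_of_card_le (h.third r hr) (by rw [hQ]; exact hF.row r)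
    have h2 := card_le_card h1
    rw [h.cardR, hR] at h2
    exact h2
  · rw [mem_T1, h.sing, card_singleton]
  · rw [mem_T1, h.comm.sing, card_singleton]
  · rw [h.sing, mem_singleton]
  · rw [h.comm.sing, mem_singleton]

theorem pair_type {F : Fin 8 → Finset (Fin 8)} (hF : Deg3 F) (h2 : Two F) {m m' : Fin 8 × Fin 8} (h1 : m.1 ≠ m'.1)
    (h1' : m.2 ≠ m'.2)
    (hno : ∀ P : Equiv.Perm (Fin 8), (∀ i, P i ∈ F i) → P m.1 = m.2 ∨ P m'.1 = m'.2) :
    PT F m m' ∨ PT (tr F) m.swap m'.swap := by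
  obtain ⟨R, C, hRC, hb⟩ := hall (fun i x : Fin 8 => x ∉ F i ∨ (i, x) = m ∨ (i, x) = m') (by
    rintro ⟨σ, hσ⟩
    have e1 : ∀ i, σ i ∈ F i := by
      intro i
      by_contra hi
      exact hσ i (Or.inl hi)
    rcases hno σ e1 with e | e
    · exact hσ m.1 (Or.inr (Or.inl (by rw [e])))
    · exact hσ m'.1 (Or.inr (Or.inr (by rw [e]))))
  rw [Fintype.card_fin] at hRC
  have h3 := h2 R C (by omega)
  have h4 : (R ×ˢ C).filter (fun x => x.2 ∈ F x.1) ⊆ {m, m'} := by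
    intro x hx
    obtain ⟨hx1, hx2⟩ := mem_filter.1 hx
    obtain ⟨hx3, hx4⟩ := mem_product.1 hx1
    rw [mem_insert, mem_singleton]
    rcases hb x.1 hx3 x.2 hx4 with e | e | e
    · exact absurd hx2 e
    · exact Or.inl e
    · exact Or.inr e
  have hne : m ≠ m' := fun e => h1 (by rw [e])
  have h5 : (R ×ˢ C).filter (fun x => x.2 ∈ F x.1) = {m, m'} :=
    eq_of_subset_of_card_le h4 (by rw [card_pair hne]; exact h3)
  have ea : m ∈ (R ×ˢ C).filter (fun x => x.2 ∈ F x.1) := by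
    rw [h5]
    exact mem_insert_self _ _
  have eb : m' ∈ (R ×ˢ C).filter (fun x => x.2 ∈ F x.1) := by
    rw [h5]
    exact mem_insert_of_mem (mem_singleton_self _)
  obtain ⟨ea1, ea2⟩ := mem_filter.1 ea
  obtain ⟨ea3, ea4⟩ := mem_product.1 ea1
  obtain ⟨eb1, eb2⟩ := mem_filter.1 eb
  obtain ⟨eb3, eb4⟩ := mem_product.1 eb1
  have S : PrS F R C m m' := by
    refine ⟨h1, h1', ea3, ea4, ea2, eb3, eb4, eb2, ?_⟩
    intro i hi c hc hm
    rcases hb i hi c hc with e | e | e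
    · exact absurd hm e
    · left
      rw [← e]
      exact ⟨rfl, rfl⟩
    · right
      rw [← e]
      exact ⟨rfl, rfl⟩
  have c1 := S.six hF
  have c2 := S.tr.six hF.tr
  have c3 := S.five hF (by omega)
  have c4 := S.tr.five hF.tr (by omega)
  rcases (show (R.card = 4 ∧ C.card = 5) ∨ (C.card = 4 ∧ R.card = 5) by omega) with ⟨e1, e2⟩ | ⟨e1, e2⟩
  · exact Or.inl (S.pt hF e1 e2)
  · exact Or.inr (S.tr.pt hF.tr e1 e2)

theorem pt_once {F : Fin 8 → Finset (Fin 8)} (hF : Deg3 F) (hX : ¬ X1 F) {m m1 m2 : Fin 8 × Fin 8}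
    (ha : m.1 ≠ m1.1 ∧ m.2 ≠ m1.2) (hb : m.1 ≠ m2.1 ∧ m.2 ≠ m2.2) (hc : m1.1 ≠ m2.1 ∧ m1.2 ≠ m2.2)
    (h1 : PT F m m1) (h2 : PT F m m2) : False := by
  obtain ⟨Q, q1, q2, q3, q4, q5, q6⟩ := h1
  obtain ⟨Q', r1, r2, r3, r4, r5, r6⟩ := h2
  obtain ⟨N, n1, n2, -⟩ := pick m m1 ha.1 ha.2 ∅ (by simp) (notMem_empty _) (notMem_empty _)
  obtain ⟨N', n1', n2', -⟩ := pick m m2 hb.1 hb.2 ∅ (by simp) (notMem_empty _) (notMem_empty _)
  have e1 : E2 F N Q := ⟨q1, q2, m.1, q3, m1.1, q4, ha.1, by rw [n1]; exact q5, by rw [n2]; exact q6⟩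
  have e2 : E2 F N' Q' := ⟨r1, r2, m.1, r3, m2.1, r4, hb.1, by rw [n1']; exact r5, by rw [n2']; exact r6⟩
  have e3 : Q = Q' := one hF hX e1 e2
  subst e3
  apply hX
  refine ⟨Q, q1, q2, ?_⟩
  have e4 : ({m.1, m1.1, m2.1} : Finset (Fin 8)) ⊆ T1 F Q := by
    intro x hx
    rw [mem_insert, mem_insert, mem_singleton] at hx
    rcases hx with rfl | rfl | rfl
    · exact q3
    · exact q4
    · exact r4
  have e5 : ({m.1, m1.1, m2.1} : Finset (Fin 8)).card = 3 :=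
    card_eq_three.2 ⟨m.1, m1.1, m2.1, ha.1, hb.1, hc.1, rfl⟩
  rw [← e5]
  exact card_le_card e4

end Pool.Agent.MP_dc7d7b.TF
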