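import Pool.Agent.Lib.MP_dc7d7b_co.TF.Hall
import Pool.Agent.Lib.MP_dc7d7b_co.TF.Frc
import Pool.Agent.Lib.MP_dc7d7b_co.TF.Blc
import Pool.Agent.Lib.MP_dc7d7b_co.TF.Mcb
import Pool.Agent.Lib.MP_dc7d7b_co.TF.Prr

set_option autoImplicit false

/-!
FLEM (110 lines). F has a perfect matching, M at most five cells in different rows and columns: some perfect matching P
of F contains at most three cells of M. If card M ≤ 3: trivial. So card M is 4 or 5, and let all perfect matchings of F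
contain at least 4 cells of M (so at least card M - 1).
(a) Not `Two F`: `frc` gives Z, card Z ≤ 2; M \ Z has two different cells m, m'; `pick` gives N containing m, m' and
avoiding Z, so N is not bad, `good_of_not_bad` gives P disjoint from N: P misses m and m', so hit M P ≤ 3.
(b) `Two F`. For any two cells m ≠ m' of M let P be any perfect matching: it contains m or m' if card M = 5 (else hit M P ≤ 3).
If card M = 4: take m in M; there is P avoiding m (else by `hall`, as in `free_of_two`: copy it from below), so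
hit M P ≤ 3. [`free_of_two`: by Hall a rectangle with card R + card C = 9 whose allowed cells are all equal to (r, c),
contradiction to `Two`.]
card M = 5: if X1 F, X1 (tr F), X2 F or X2 (tr F): `blk_count` gives at most 2400 bad N, `two_cells` gives 2401 N with at
least two cells of M; one of them is not bad, P disjoint from it misses two cells of M. Otherwise (not X1 F, not X1 (tr F))
take four cells m, m1, m2, m3 of M; `pair_type` for (m, m1), (m, m2), (m, m3); two of the three are of the same type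
(PT F or PT (tr F) with swapped cells): contradiction to `pt_once` for F or tr F.
-/

namespace Pool.Agent.MP_dc7d7b.TF

open Finset

private theorem flem_hit_le (M : Finset (Fin 8 × Fin 8)) (P : Equiv.Perm (Fin 8)) {m : Fin 8 × Fin 8} (hm : m ∈ M)
    (h : P m.1 ≠ m.2) : hit M P + 1 ≤ M.card := by
  have h1 : M.filter (fun x => P x.1 = x.2) ⊆ M.erase m := by
    intro x hx
    rw [mem_filter] at hx
    refine mem_erase.2 ⟨?_, hx.1⟩
    rintro rfl
    exact h hx.2
  have h2 := card_le_card h1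
  rw [card_erase_of_mem hm] at h2
  have h3 : 0 < M.card := card_pos.2 ⟨m, hm⟩
  unfold hit
  omega

private theorem flem_hit_le2 (M : Finset (Fin 8 × Fin 8)) (P : Equiv.Perm (Fin 8)) {m m' : Fin 8 × Fin 8} (hm : m ∈ M)
    (hm' : m' ∈ M) (hne : m ≠ m') (h : P m.1 ≠ m.2) (h' : P m'.1 ≠ m'.2) : hit M P + 2 ≤ M.card := by
  have h1 : M.filter (fun x => P x.1 = x.2) ⊆ (M.erase m).erase m' := by
    intro x hx
    rw [mem_filter] at hx
    refine mem_erase.2 ⟨?_, mem_erase.2 ⟨?_, hx.1⟩⟩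
    · rintro rfl
      exact h' hx.2
    · rintro rfl
      exact h hx.2
  have h2 := card_le_card h1
  rw [card_erase_of_mem (mem_erase.2 ⟨hne.symm, hm'⟩), card_erase_of_mem hm] at h2
  have h3 : 1 < M.card := one_lt_card.2 ⟨m, hm, m', hm', hne⟩
  unfold hit
  omega

private theorem flem_free {F : Fin 8 → Finset (Fin 8)} (h2 : Two F) (r c : Fin 8) :
    ∃ P : Equiv.Perm (Fin 8), (∀ i, P i ∈ F i) ∧ P r ≠ c := by
  by_contra hc
  have h1 : ¬ ∃ σ : Equiv.Perm (Fin 8), ∀ i, ¬ (σ i ∉ F i ∨ (i = r ∧ σ i = c)) := by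
    rintro ⟨σ, hσ⟩
    refine hc ⟨σ, fun i => ?_, fun k => hσ r (Or.inr ⟨rfl, k⟩)⟩
    by_contra k
    exact hσ i (Or.inl k)
  obtain ⟨R, C, hRC, hall2⟩ := hall (fun i x => x ∉ F i ∨ (i = r ∧ x = c)) h1
  rw [Fintype.card_fin] at hRC
  have h3 := h2 R C hRC
  have h4 : (R ×ˢ C).filter (fun x => x.2 ∈ F x.1) ⊆ {(r, c)} := by
    intro x hx
    rw [mem_filter, mem_product] at hx
    rcases hall2 x.1 hx.1.1 x.2 hx.1.2 with k | ⟨k1, k2⟩
    · exact absurd hx.2 k
    · rw [mem_singleton]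
      exact Prod.ext k1 k2
  have h5 := card_le_card h4
  rw [card_singleton] at h5
  omega

/-- a permutation which is not bad and contains two cells of `M` -/
private theorem flem_two {F : Fin 8 → Finset (Fin 8)} (M : Finset (Fin 8 × Fin 8)) (h5 : M.card ≤ 5)
    {N : Equiv.Perm (Fin 8)} (hN : ¬ Bad F N) {m m' : Fin 8 × Fin 8} (hm : m ∈ M) (hm' : m' ∈ M) (hne : m ≠ m')
    (h : N m.1 = m.2) (h' : N m'.1 = m'.2) : ∃ P : Equiv.Perm (Fin 8), (∀ r, P r ∈ F r) ∧ hit M P ≤ 3 := by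
  obtain ⟨P, hP⟩ := good_of_not_bad F N hN
  refine ⟨P, fun r => (hP r).1, ?_⟩
  have h1 := flem_hit_le2 M P hm hm' hne (fun k => (hP m.1).2 (k.trans h.symm)) (fun k => (hP m'.1).2 (k.trans h'.symm))
  omega

theorem flem {F : Fin 8 → Finset (Fin 8)} (hF : Deg3 F) (hP : ∃ P : Equiv.Perm (Fin 8), ∀ r, P r ∈ F r)
    (M : Finset (Fin 8 × Fin 8)) (hM : Mat M) (h5 : M.card ≤ 5) :
    ∃ P : Equiv.Perm (Fin 8), (∀ r, P r ∈ F r) ∧ hit M P ≤ 3 := by
  classical
  by_contra hcon
  have hge : ∀ P : Equiv.Perm (Fin 8), (∀ r, P r ∈ F r) → 4 ≤ hit M P := by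
    intro P hPF
    by_contra k
    exact hcon ⟨P, hPF, by omega⟩
  obtain ⟨P0, hP0⟩ := hP
  have h4 : 4 ≤ M.card := (hge P0 hP0).trans (card_filter_le _ _)
  by_cases hT : Two F
  · have hM5 : M.card = 5 := by
      by_contra hne
      obtain ⟨m, hm⟩ := card_pos.1 (show 0 < M.card by omega)
      obtain ⟨P, hPF, hPm⟩ := flem_free hT m.1 m.2
      have h6 := flem_hit_le M P hm hPm
      have h7 := hge P hPF
      omega
    by_cases hX : X1 F ∨ X1 (tr F) ∨ X2 F ∨ X2 (tr F)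
    · have h6 := blk_count hF hT hX
      have h7 := two_cells M hM hM5
      obtain ⟨N, hN1, hN2⟩ : ∃ N ∈ univ.filter (fun N : Equiv.Perm (Fin 8) => 2 ≤ hit M N),
          N ∉ univ.filter (fun N => Bad F N) := by
        by_contra k
        push Not at k
        have h8 := card_le_card (show univ.filter (fun N : Equiv.Perm (Fin 8) => 2 ≤ hit M N) ⊆
          univ.filter (fun N => Bad F N) from fun N hN => k N hN)
        omega
      rw [mem_filter] at hN1
      have hN3 : ¬ Bad F N := fun k => hN2 (mem_filter.2 ⟨mem_univ _, k⟩)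
      obtain ⟨m, hm, m', hm', hne⟩ := one_lt_card.1 (show 1 < (M.filter (fun x => N x.1 = x.2)).card from hN1.2)
      rw [mem_filter] at hm hm'
      exact hcon (flem_two M h5 hN3 hm.1 hm'.1 hne hm.2 hm'.2)
    · push Not at hX
      obtain ⟨hX1, hX2, -, -⟩ := hX
      -- two cells of `M` are never both missed
      have hno : ∀ m ∈ M, ∀ m' ∈ M, m ≠ m' → ∀ P : Equiv.Perm (Fin 8), (∀ i, P i ∈ F i) → P m.1 = m.2 ∨ P m'.1 = m'.2 := by
        intro m hm m' hm' hne P hPF
        by_contra k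
        rw [not_or] at k
        have h6 := flem_hit_le2 M P hm hm' hne k.1 k.2
        have h7 := hge P hPF
        omega
      obtain ⟨T, hTM, hT4⟩ := exists_subset_card_eq h4
      obtain ⟨m, m1, m2, m3, e1, e2, e3, e4, e5, e6, rfl⟩ := card_eq_four.1 hT4
      have i0 : m ∈ M := hTM (by simp)
      have i1 : m1 ∈ M := hTM (by simp)
      have i2 : m2 ∈ M := hTM (by simp)
      have i3 : m3 ∈ M := hTM (by simp)
      have ht : ∀ m' ∈ M, m ≠ m' → PT F m m' ∨ PT (tr F) m.swap m'.swap := by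
        intro m' hm' hne
        have h6 := hM m i0 m' hm' hne
        exact pair_type hF hT h6.1 h6.2 (hno m i0 m' hm' hne)
      have hA : ∀ a ∈ M, ∀ b ∈ M, m ≠ a → m ≠ b → a ≠ b → ¬ (PT F m a ∧ PT F m b) := by
        intro a ha b hb ha1 hb1 hab k
        exact pt_once hF hX1 (hM m i0 a ha ha1) (hM m i0 b hb hb1) (hM a ha b hb hab) k.1 k.2
      have hB : ∀ a ∈ M, ∀ b ∈ M, m ≠ a → m ≠ b → a ≠ b → ¬ (PT (tr F) m.swap a.swap ∧ PT (tr F) m.swap b.swap) := by
        intro a ha b hb ha1 hb1 hab k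
        exact pt_once hF.tr hX2 (hM m i0 a ha ha1).symm (hM m i0 b hb hb1).symm (hM a ha b hb hab).symm k.1 k.2
      rcases ht m1 i1 e1 with a1 | a1 <;> rcases ht m2 i2 e2 with a2 | a2 <;> rcases ht m3 i3 e3 with a3 | a3
      · exact hA m1 i1 m2 i2 e1 e2 e4 ⟨a1, a2⟩
      · exact hA m1 i1 m2 i2 e1 e2 e4 ⟨a1, a2⟩
      · exact hA m1 i1 m3 i3 e1 e3 e5 ⟨a1, a3⟩
      · exact hB m2 i2 m3 i3 e2 e3 e6 ⟨a2, a3⟩
      · exact hA m2 i2 m3 i3 e2 e3 e6 ⟨a2, a3⟩
      · exact hB m1 i1 m3 i3 e1 e3 e5 ⟨a1, a3⟩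
      · exact hB m1 i1 m2 i2 e1 e2 e4 ⟨a1, a2⟩
      · exact hB m1 i1 m2 i2 e1 e2 e4 ⟨a1, a2⟩
  · obtain ⟨Z, hZ, hZ1, hZ2⟩ := frc hF ⟨P0, hP0⟩ hT
    have h6 : 1 < (M \ Z).card := by
      have := le_card_sdiff Z M
      omega
    obtain ⟨m, hm, m', hm', hne⟩ := one_lt_card.1 h6
    rw [mem_sdiff] at hm hm'
    obtain ⟨k1, k2⟩ := hM m hm.1 m' hm'.1 hne
    obtain ⟨N, hN1, hN2, hN3⟩ := pick m m' k1 k2 Z hZ hm.2 hm'.2
    exact hcon (flem_two M h5 (hZ2 N hN3) hm.1 hm'.1 hne hN1 hN2)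

end Pool.Agent.MP_dc7d7b.TF
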