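import Pool.Agent.Lib.MP_dc7d7b_co.TF.Defs

set_option autoImplicit false

/-!
HALL (80 lines). (1) `good_of_not_bad`: Hall's theorem for the sets `F r \ {N r}` (see `Pair.lean`, theorem `hall`,
same folder one level up, with D r c := c ∉ F r ∨ N r = c; importing it is allowed).
(2) `bad_cases`: let R, C be the rectangle. A row r in R has at most one allowed cell in C (it must be N r), so at
least two in Cᶜ: card C ≤ 6; by columns card R ≤ 6. If card R = 3 then p = Cᶜ has 2 elements, if card R = 4 then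
Q = Cᶜ has 3 elements and F r ⊆ insert (N r) Cᶜ. If card R = 5, 6 then card C = 4, 3 and the same for columns.
(3) `two_of_free`: take a perfect matching P; it has at least one cell in R × C (counting); take P' avoiding this
cell; it has another one.
-/

namespace Pool.Agent.MP_dc7d7b.TF

open Finset

theorem good_of_not_bad (F : Fin 8 → Finset (Fin 8)) (N : Equiv.Perm (Fin 8)) (h : ¬ Bad F N) :
    ∃ P : Equiv.Perm (Fin 8), ∀ r, P r ∈ F r ∧ P r ≠ N r := by
  have hH : ∀ s : Finset (Fin 8), s.card ≤ (s.biUnion fun r => (F r).erase (N r)).card := by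
    intro s
    by_contra hc
    rw [not_le] at hc
    apply h
    have h1 : (s.biUnion fun r => (F r).erase (N r))ᶜ.card = 8 - (s.biUnion fun r => (F r).erase (N r)).card := by
      rw [card_compl, Fintype.card_fin]
    have h2 : (s.biUnion fun r => (F r).erase (N r)).card ≤ 8 := by
      have := card_le_univ (s.biUnion fun r => (F r).erase (N r))
      rwa [Fintype.card_fin] at this
    obtain ⟨C, hC, hC2⟩ := exists_subset_card_eq (show 9 - s.card ≤ (s.biUnion fun r => (F r).erase (N r))ᶜ.card by omega)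
    refine ⟨s, C, ?_, ?_⟩
    · have h3 : s.card ≤ 8 := by
        have := card_le_univ s
        rwa [Fintype.card_fin] at this
      omega
    · intro r hr c hc hm
      by_contra hne
      have h4 := hC hc
      rw [mem_compl] at h4
      exact h4 (mem_biUnion.2 ⟨r, hr, mem_erase.2 ⟨fun k => hne k.symm, hm⟩⟩)
  obtain ⟨f, hf, hf2⟩ := (all_card_le_biUnion_card_iff_exists_injective fun r => (F r).erase (N r)).1 hH
  refine ⟨Equiv.ofBijective f (Finite.injective_iff_bijective.1 hf), fun r => ?_⟩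
  have := hf2 r
  rw [mem_erase] at this
  exact ⟨this.2, this.1⟩

private theorem hall_row {F : Fin 8 → Finset (Fin 8)} {N : Equiv.Perm (Fin 8)} {R C : Finset (Fin 8)}
    (h2 : ∀ r ∈ R, ∀ c ∈ C, c ∈ F r → N r = c) : ∀ r ∈ R, F r ⊆ insert (N r) Cᶜ := by
  intro r hr c hc
  rw [mem_insert, mem_compl]
  by_cases h : c ∈ C
  · exact Or.inl (h2 r hr c h hc).symm
  · exact Or.inr h

private theorem hall_six {F : Fin 8 → Finset (Fin 8)} (hF : Deg3 F) {N : Equiv.Perm (Fin 8)} {R C : Finset (Fin 8)}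
    (h1 : R.card + C.card = 9) (h2 : ∀ r ∈ R, ∀ c ∈ C, c ∈ F r → N r = c) : C.card ≤ 6 := by
  have hC : C.card ≤ 8 := by
    have := card_le_univ C
    rwa [Fintype.card_fin] at this
  obtain ⟨r, hr⟩ := card_pos.1 (show 0 < R.card by omega)
  have h3 := card_le_card (hall_row h2 r hr)
  have h4 := card_insert_le (N r) Cᶜ
  have h5 := hF.row r
  rw [card_compl, Fintype.card_fin] at h4
  omega

theorem bad_cases {F : Fin 8 → Finset (Fin 8)} (hF : Deg3 F) {N : Equiv.Perm (Fin 8)} (h : Bad F N) :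
    RowBad F N ∨ RowBad (tr F) N⁻¹ := by
  obtain ⟨R, C, h1, h2⟩ := h
  have h2' : ∀ c ∈ C, ∀ r ∈ R, r ∈ tr F c → N⁻¹ c = r := by
    intro c hc r hr hm
    rw [mem_tr] at hm
    rw [← h2 r hr c hc hm]
    simp
  have a1 := hall_six hF h1 h2
  have a2 := hall_six hF.tr (by omega : C.card + R.card = 9) h2'
  have b1 := hall_row h2
  have b2 := hall_row h2'
  have c1 : Cᶜ.card = 8 - C.card := by rw [card_compl, Fintype.card_fin]
  have c2 : Rᶜ.card = 8 - R.card := by rw [card_compl, Fintype.card_fin]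
  have hR : R.card = 3 ∨ R.card = 4 ∨ R.card = 5 ∨ R.card = 6 := by omega
  rcases hR with hR | hR | hR | hR
  · exact Or.inl (Or.inl ⟨R, Cᶜ, hR, by omega, b1⟩)
  · exact Or.inl (Or.inr ⟨R, Cᶜ, hR, by omega, b1⟩)
  · exact Or.inr (Or.inr ⟨C, Rᶜ, by omega, by omega, b2⟩)
  · exact Or.inr (Or.inl ⟨C, Rᶜ, by omega, by omega, b2⟩)

private theorem hall_hit (P : Equiv.Perm (Fin 8)) {R C : Finset (Fin 8)} (h1 : R.card + C.card = 9) :
    ∃ r ∈ R, P r ∈ C := by
  by_contra hc
  have hd : Disjoint (R.image P) C := by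
    rw [disjoint_left]
    intro x hx hx2
    obtain ⟨r, hr, rfl⟩ := mem_image.1 hx
    exact hc ⟨r, hr, hx2⟩
  have h2 := card_union_of_disjoint hd
  rw [card_image_of_injective _ P.injective] at h2
  have h3 := card_le_univ (R.image P ∪ C)
  rw [Fintype.card_fin] at h3
  omega

theorem two_of_free {F : Fin 8 → Finset (Fin 8)} (h : ∃ P : Equiv.Perm (Fin 8), ∀ r, P r ∈ F r)
    (hfree : ∀ r c, ∃ P : Equiv.Perm (Fin 8), (∀ i, P i ∈ F i) ∧ P r ≠ c) : Two F := by
  intro R C h1
  obtain ⟨P, hP⟩ := h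
  obtain ⟨r, hr, hrC⟩ := hall_hit P h1
  obtain ⟨P', hP', hne⟩ := hfree r (P r)
  obtain ⟨r', hr', hrC'⟩ := hall_hit P' h1
  refine one_lt_card.2 ⟨(r, P r), ?_, (r', P' r'), ?_, ?_⟩
  · rw [mem_filter, mem_product]
    exact ⟨⟨hr, hrC⟩, hP r⟩
  · rw [mem_filter, mem_product]
    exact ⟨⟨hr', hrC'⟩, hP' r'⟩
  · intro k
    rw [Prod.mk.injEq] at k
    obtain ⟨k1, k2⟩ := k
    rw [← k1] at k2
    exact hne k2.symm

end Pool.Agent.MP_dc7d7b.TF
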