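import Pool.Agent.Lib.MP_dc7d7b_co.Pair
import Pool.Agent.Lib.MP_dc7d7b_co.TF.Hall
import Pool.Agent.Lib.MP_dc7d7b_co.TF.Fix
import Pool.Agent.Lib.MP_dc7d7b_co.TF.Str
import Pool.Agent.Lib.MP_dc7d7b_co.TF.Cnt
import Pool.Agent.Lib.MP_dc7d7b_co.TF.Blk3
import Pool.Agent.Lib.MP_dc7d7b_co.TF.Blk4
import Pool.Agent.Lib.MP_dc7d7b_co.TF.Blk5
import Pool.Agent.Lib.MP_dc7d7b_co.TF.Frc
import Pool.Agent.Lib.MP_dc7d7b_co.TF.Exc

set_option autoImplicit false

/-!
# The star lemma

At most six families with a perfect matching and all degrees at least three: some permutation `N` is such that each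
family has a perfect matching disjoint from `N`.
-/

namespace Pool.Agent.MP_dc7d7b.TF

open Finset Classical

private theorem card_inv (p : Equiv.Perm (Fin 8) → Prop) :
    (univ.filter (fun N : Equiv.Perm (Fin 8) => p N⁻¹)).card ≤ (univ.filter (fun N : Equiv.Perm (Fin 8) => p N)).card := by
  refine Finset.card_le_card_of_injOn (fun N => N⁻¹) ?_ (inv_injective.injOn)
  intro N hN
  simpa using hN

private theorem bad_tr_count (F : Fin 8 → Finset (Fin 8)) :
    (univ.filter (fun N => Bad F N)).card ≤ (univ.filter (fun N => Bad (tr F) N)).card := by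
  refine le_trans (Finset.card_le_card ?_) (card_inv (Bad (tr F)))
  intro N hN
  simp only [Finset.mem_filter, Finset.mem_univ, true_and] at hN ⊢
  exact bad_tr hN

private theorem x2_count {F : Fin 8 → Finset (Fin 8)} (hF : Deg3 F) (h : X2 F) :
    (univ.filter (fun N => Bad F N)).card ≤ 6000 := by
  obtain ⟨Q, hQ, h0, S, hS, hS4, hd⟩ := h
  have h5 := t1_le_five hF hQ h0
  have h4 : 4 ≤ (T1 F Q).card := by
    have := Finset.card_le_card hS
    omega
  rcases Nat.lt_or_ge 4 (T1 F Q).card with h6 | h6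
  · exact (blk5 hF hQ h0 (by omega)).trans (by norm_num)
  · have h7 : (T1 F Q).card = 4 := by omega
    have h8 : S = T1 F Q := Finset.eq_of_subset_of_card_le hS (by omega)
    subst h8
    have h9 : (T0 F Q).card = 1 := by
      have h10 : 1 ≤ (T0 F Q).card := Finset.card_pos.mpr h0
      by_contra hne
      have := t1_le_three hF hQ (by omega)
      omega
    exact (blk4 hF hQ h9 h7 hd).trans (by norm_num)

theorem bad_count {F : Fin 8 → Finset (Fin 8)} (hF : Deg3 F) (h2 : Two F) :
    (univ.filter (fun N => Bad F N)).card ≤ 6000 := by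
  by_cases h1 : X1 F
  · exact (blk3 hF h2 h1).trans (by norm_num)
  by_cases h1' : X1 (tr F)
  · exact (bad_tr_count F).trans ((blk3 hF.tr h2.tr h1').trans (by norm_num))
  by_cases hx : X2 F
  · exact x2_count hF hx
  by_cases hx' : X2 (tr F)
  · exact (bad_tr_count F).trans (x2_count hF.tr hx')
  have hr := row_count hF h2 h1 hx
  have hc := row_count hF.tr h2.tr h1' hx'
  have hsub : univ.filter (fun N => Bad F N) ⊆
      univ.filter (fun N => RowBad F N) ∪ univ.filter (fun N : Equiv.Perm (Fin 8) => RowBad (tr F) N⁻¹) := by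
    intro N hN
    simp only [Finset.mem_union, Finset.mem_filter, Finset.mem_univ, true_and] at hN ⊢
    exact bad_cases hF hN
  have h3 := (Finset.card_le_card hsub).trans (Finset.card_union_le _ _)
  have h4 := card_inv (fun N => RowBad (tr F) N)
  omega

/-- `Two` gives a perfect matching avoiding a given cell. -/
theorem free_of_two {F : Fin 8 → Finset (Fin 8)} (h : Two F) (r c : Fin 8) :
    ∃ P : Equiv.Perm (Fin 8), (∀ i, P i ∈ F i) ∧ P r ≠ c := by
  by_contra hc
  obtain ⟨R, C, hRC, hb⟩ := hall (fun i x => x ∉ F i ∨ (i = r ∧ x = c)) (by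
    rintro ⟨σ, hσ⟩
    refine hc ⟨σ, fun i => ?_, fun h' => ?_⟩
    · have := hσ i
      push Not at this
      exact this.1
    · exact hσ r (Or.inr ⟨rfl, h'⟩))
  have h2 := h R C (by simpa using hRC)
  have h3 : (R ×ˢ C).filter (fun x => x.2 ∈ F x.1) ⊆ {(r, c)} := by
    intro x hx
    simp only [Finset.mem_filter, Finset.mem_product] at hx
    rcases hb x.1 hx.1.1 x.2 hx.1.2 with h4 | h4
    · exact absurd hx.2 h4
    · rw [Finset.mem_singleton]
      exact Prod.ext h4.1 h4.2
  have h4 := Finset.card_le_card h3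
  simp at h4
  omega

theorem star {ι : Type} [Fintype ι] [DecidableEq ι] (hι : Fintype.card ι ≤ 6) (F : ι → Fin 8 → Finset (Fin 8))
    (hF : ∀ j, Deg3 (F j)) (hP : ∀ j, ∃ P : Equiv.Perm (Fin 8), ∀ r, P r ∈ F j r) :
    ∃ N : Equiv.Perm (Fin 8), ∀ j, ∃ P' : Equiv.Perm (Fin 8), ∀ r, P' r ∈ F j r ∧ P' r ≠ N r := by
  choose P hP using hP
  set A : Finset ι := univ.filter (fun j => Two (F j)) with hA
  have hZex : ∀ j, ∃ Z : Finset (Fin 8 × Fin 8), j ∉ A → Z.card ≤ 2 ∧
      (∀ P : Equiv.Perm (Fin 8), (∀ r, P r ∈ F j r) → ∀ z ∈ Z, P z.1 = z.2) ∧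
      ∀ N : Equiv.Perm (Fin 8), (∀ z ∈ Z, N z.1 ≠ z.2) → ¬ Bad (F j) N := by
    intro j
    by_cases hj : j ∈ A
    · exact ⟨∅, fun h => absurd hj h⟩
    · have h2 : ¬ Two (F j) := by
        intro h
        exact hj (by rw [hA]; simpa using h)
      obtain ⟨Z, hZ⟩ := frc (hF j) ⟨P j, hP j⟩ h2
      exact ⟨Z, fun _ => hZ⟩
  choose Z hZ using hZex
  have hAc : A.card + Aᶜ.card = Fintype.card ι := Finset.card_add_card_compl A
  by_cases hm : A.card + 2 ≤ Fintype.card ι
  · obtain ⟨N, hN1, hN2⟩ := exc hι F P hP A hm Z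
      (fun j hj => ⟨(hZ j hj).1, fun z hz => (hZ j hj).2.1 (P j) (hP j) z hz⟩)
      (fun j hj r c => free_of_two (by rw [hA] at hj; simpa using hj) r c)
    refine ⟨N, fun j => ?_⟩
    by_cases hj : j ∈ A
    · exact hN1 j hj
    · exact good_of_not_bad (F j) N ((hZ j hj).2.2 N (hN2 j hj))
  · have hAc1 : Aᶜ.card ≤ 1 := by omega
    by_contra hno
    have hcover : (univ : Finset (Equiv.Perm (Fin 8))) ⊆
        A.biUnion (fun j => univ.filter (fun N => Bad (F j) N)) ∪
        Aᶜ.biUnion (fun j => (Z j).biUnion (fun z => univ.filter (fun N : Equiv.Perm (Fin 8) => ∀ i ∈ ({z.1} : Finset (Fin 8)), N i = z.2))) := by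
      intro N _
      by_contra hN
      apply hno
      refine ⟨N, fun j => ?_⟩
      apply good_of_not_bad
      by_cases hj : j ∈ A
      · intro hb
        apply hN
        rw [Finset.mem_union]
        left
        rw [Finset.mem_biUnion]
        exact ⟨j, hj, by simpa using hb⟩
      · apply (hZ j hj).2.2
        intro z hz hzN
        apply hN
        rw [Finset.mem_union]
        right
        rw [Finset.mem_biUnion]
        refine ⟨j, by simpa using hj, ?_⟩
        rw [Finset.mem_biUnion]
        exact ⟨z, hz, by simpa using hzN⟩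
    have h1 := Finset.card_le_card hcover
    have h2 : (univ : Finset (Equiv.Perm (Fin 8))).card = 40320 := by
      rw [Finset.card_univ, Fintype.card_perm, Fintype.card_fin]
      decide
    have h3 : (A.biUnion (fun j => univ.filter (fun N => Bad (F j) N))).card ≤ A.card * 6000 := by
      refine Finset.card_biUnion_le_card_mul _ _ _ ?_
      intro j hj
      exact bad_count (hF j) (by rw [hA] at hj; simpa using hj)
    have h4 : (Aᶜ.biUnion (fun j => (Z j).biUnion (fun z => univ.filter (fun N : Equiv.Perm (Fin 8) =>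
        ∀ i ∈ ({z.1} : Finset (Fin 8)), N i = z.2)))).card ≤ Aᶜ.card * 10080 := by
      refine Finset.card_biUnion_le_card_mul _ _ _ ?_
      intro j hj
      have h5 : ((Z j).biUnion (fun z => univ.filter (fun N : Equiv.Perm (Fin 8) =>
          ∀ i ∈ ({z.1} : Finset (Fin 8)), N i = z.2))).card ≤ (Z j).card * 5040 := by
        refine Finset.card_biUnion_le_card_mul _ _ _ ?_
        intro z _
        have := card_fix {z.1} (fun _ => z.2)
        have h6 : (8 - ({z.1} : Finset (Fin 8)).card).factorial = 5040 := by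
          rw [Finset.card_singleton]; decide
        rw [h6] at this
        exact this
      have h6 := (hZ j (by simpa using hj)).1
      nlinarith
    have h5 := Finset.card_union_le (A.biUnion (fun j => univ.filter (fun N => Bad (F j) N)))
      (Aᶜ.biUnion (fun j => (Z j).biUnion (fun z => univ.filter (fun N : Equiv.Perm (Fin 8) =>
        ∀ i ∈ ({z.1} : Finset (Fin 8)), N i = z.2))))
    omega

end Pool.Agent.MP_dc7d7b.TF
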