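import Pool.Agent.Lib.MP_dc7d7b_co.Main
import Pool.Agent.Lib.MP_dc7d7b_co.TF.Star
import Pool.Agent.Lib.MP_dc7d7b_co.TF.PStep

set_option autoImplicit false

/-!
# Packings of 8-fold covers of graphs of maximum degree at most six

Induction on the vertex set. If some vertex has degree at most five in `G[S]`, remove it and recolour it together with
one neighbour by the pair lemma. Otherwise some vertex `v` is in no triangle: remove it, keep the packing outside the
neighbourhood of `v`, choose the permutation of `v` by the star lemma and then those of its neighbours.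
-/

namespace Pool.Agent.MP_dc7d7b.TF

open Finset Classical

theorem star_step {V : Type} {G : SimpleGraph V} {H : SimpleGraph (V × Fin 8)} (hH : Cover G H)
    (hdeg : ∀ (S : Finset V) (v : V), (S.filter (fun u => G.Adj v u)).card ≤ 6) {S : Finset V} {v : V} (hv : v ∈ S)
    (htri : ∀ u ∈ S, ∀ w ∈ S, G.Adj v u → G.Adj v w → ¬ G.Adj u w) {f : V → Equiv.Perm (Fin 8)}
    (hf : ∀ i, ∀ x ∈ S.erase v, ∀ y ∈ S.erase v, ¬ H.Adj (x, f x i) (y, f y i)) :
    ∃ g : V → Equiv.Perm (Fin 8), ∀ i, ∀ x ∈ S, ∀ y ∈ S, ¬ H.Adj (x, g x i) (y, g y i) := by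
  set U := (S.erase v).filter (fun u => G.Adj v u) with hU
  set W := (S.erase v).filter (fun u => ¬ G.Adj v u) with hW
  have hUmem : ∀ u, u ∈ U ↔ (u ∈ S ∧ u ≠ v ∧ G.Adj v u) := by
    intro u
    rw [hU, Finset.mem_filter, Finset.mem_erase]
    tauto
  have hWmem : ∀ u, u ∈ W ↔ (u ∈ S ∧ u ≠ v ∧ ¬ G.Adj v u) := by
    intro u
    rw [hW, Finset.mem_filter, Finset.mem_erase]
    tauto
  have hUcard : U.card ≤ 6 := hdeg _ _
  -- the degree of a neighbour inside `W`
  have hdW : ∀ u ∈ U, (W.filter (fun w => G.Adj u w)).card ≤ 5 := by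
    intro u hu
    have h1 : insert v (W.filter (fun w => G.Adj u w)) ⊆ S.filter (fun w => G.Adj u w) := by
      intro x hx
      rw [Finset.mem_insert] at hx
      rcases hx with rfl | hx
      · exact Finset.mem_filter.mpr ⟨hv, ((hUmem u).mp hu).2.2.symm⟩
      · rw [Finset.mem_filter] at hx ⊢
        exact ⟨((hWmem x).mp hx.1).1, hx.2⟩
    have h2 := (Finset.card_le_card h1).trans (hdeg S u)
    rw [Finset.card_insert_of_notMem] at h2
    · omega
    · rw [Finset.mem_filter]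
      rintro ⟨h3, _⟩
      exact ((hWmem v).mp h3).2.1 rfl
  -- permutations of the edges at `v`
  have hπex : ∀ u : V, ∃ π : Equiv.Perm (Fin 8), ∀ a b, H.Adj (v, a) (u, b) → π a = b := fun u =>
    exists_extend (fun a b => H.Adj (v, a) (u, b)) (fun a b b' h h' => hH.mat _ _ _ _ _ h h')
      (fun a a' b h h' => hH.mat _ _ _ _ _ h.symm h'.symm)
  choose π hπ using hπex
  let Fam : {u // u ∈ U} → Fin 8 → Finset (Fin 8) := fun u i =>
    univ.filter (fun c => ¬ forb H W f u.1 i (π u.1 c))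
  have hFam : ∀ u i c, c ∈ Fam u i ↔ ¬ forb H W f u.1 i (π u.1 c) := by
    intro u i c
    simp [Fam]
  have hD : ∀ u : {u // u ∈ U}, Deg3 (Fam u) := by
    intro u
    have h5 : Deg 5 (forb H W f u.1) := (forb_deg hH W f u.1).mono (hdW u.1 u.2)
    have h6 := fam_card h5 (π u.1)
    exact ⟨fun r => h6.1 r, fun c => h6.2 c⟩
  have hPM : ∀ u : {u // u ∈ U}, ∃ P : Equiv.Perm (Fin 8), ∀ i, P i ∈ Fam u i := by
    intro u
    refine ⟨(f u.1).trans (π u.1).symm, fun i => ?_⟩
    rw [hFam]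
    simp only [Equiv.trans_apply, Equiv.apply_symm_apply]
    rintro ⟨x, hx, hadj⟩
    have hx' := (hWmem x).mp hx
    have hu' := (hUmem u.1).mp u.2
    exact hf i x (Finset.mem_erase.mpr ⟨hx'.2.1, hx'.1⟩) u.1 (Finset.mem_erase.mpr ⟨hu'.2.1, hu'.1⟩) hadj
  obtain ⟨N, hN⟩ := star (ι := {u // u ∈ U}) (by simpa using hUcard) Fam hD hPM
  choose P hP using hN
  let g : V → Equiv.Perm (Fin 8) := fun x =>
    if hx : x ∈ U then (P ⟨x, hx⟩).trans (π x) else if x = v then N else f x
  have gv : g v = N := by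
    have : v ∉ U := fun h => ((hUmem v).mp h).2.1 rfl
    simp [g, this]
  have gU : ∀ x (hx : x ∈ U), ∀ i, g x i = π x (P ⟨x, hx⟩ i) := by
    intro x hx i
    simp [g, hx]
  have gW : ∀ x, x ∉ U → x ≠ v → g x = f x := by
    intro x h1 h2
    simp [g, h1, h2]
  have key : ∀ i, ∀ x ∈ U, ∀ y ∈ S, y ∉ U → ¬ H.Adj (x, g x i) (y, g y i) := by
    intro i x hx y hy hyU hadj
    by_cases hyv : y = v
    · subst hyv
      rw [gv] at hadj
      have h1 := hπ x _ _ hadj.symm
      rw [gU x hx] at h1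
      exact (hP ⟨x, hx⟩ i).2 ((π x).injective h1).symm
    · rw [gW y hyU hyv] at hadj
      have h1 := (hP ⟨x, hx⟩ i).1
      rw [hFam] at h1
      apply h1
      refine ⟨y, ?_, ?_⟩
      · rw [hWmem]
        refine ⟨hy, hyv, fun h2 => hyU ?_⟩
        rw [hUmem]
        exact ⟨hy, hyv, h2⟩
      · have h3 := hadj.symm
        rw [gU x hx] at h3
        exact h3
  refine ⟨g, ?_⟩
  intro i x hx y hy hadj
  by_cases hxU : x ∈ U
  · by_cases hyU : y ∈ U
    · by_cases hxy : x = y
      · subst hxy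
        exact hH.fib _ _ _ hadj
      · exact htri x hx y hy ((hUmem x).mp hxU).2.2 ((hUmem y).mp hyU).2.2 (hH.edge _ _ _ _ hadj)
    · exact key i x hxU y hy hyU hadj
  · by_cases hyU : y ∈ U
    · exact key i y hyU x hx hxU hadj.symm
    · by_cases hxv : x = v
      · subst hxv
        by_cases hyv : y = x
        · subst hyv
          exact hH.fib _ _ _ hadj
        · exact hyU ((hUmem y).mpr ⟨hy, hyv, hH.edge _ _ _ _ hadj⟩)
      · by_cases hyv : y = v
        · subst hyv
          exact hxU ((hUmem x).mpr ⟨hx, hxv, (hH.edge _ _ _ _ hadj).symm⟩)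
        · rw [gW x hxU hxv, gW y hyU hyv] at hadj
          exact hf i x (Finset.mem_erase.mpr ⟨hxv, hx⟩) y (Finset.mem_erase.mpr ⟨hyv, hy⟩) hadj

theorem pack_local {V : Type} {G : SimpleGraph V} {H : SimpleGraph (V × Fin 8)} (hH : Cover G H)
    (hdeg : ∀ (S : Finset V) (v : V), (S.filter (fun u => G.Adj v u)).card ≤ 6)
    (hloc : ∀ S : Finset V, S.Nonempty → (∃ v ∈ S, (S.filter (fun u => G.Adj v u)).card ≤ 5) ∨
      ∃ v ∈ S, ∀ u ∈ S, ∀ w ∈ S, G.Adj v u → G.Adj v w → ¬ G.Adj u w) :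
    ∀ S : Finset V, ∃ f : V → Equiv.Perm (Fin 8),
      ∀ i, ∀ u ∈ S, ∀ v ∈ S, ¬ H.Adj (u, f u i) (v, f v i) := by
  intro S
  induction S using Finset.strongInduction with
  | _ S ih =>
    rcases S.eq_empty_or_nonempty with rfl | hne
    · exact ⟨fun _ => 1, by simp⟩
    rcases hloc S hne with ⟨v, hv, h5⟩ | ⟨v, hv, htri⟩
    · obtain ⟨f, hf⟩ := ih (S.erase v) (Finset.erase_ssubset hv)
      exact pair_step hH hdeg hv h5 hf
    · obtain ⟨f, hf⟩ := ih (S.erase v) (Finset.erase_ssubset hv)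
      exact star_step hH hdeg hv htri hf

end Pool.Agent.MP_dc7d7b.TF
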