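import Pool.Agent.Lib.MP_dc7d7b_co.TF.DefB

set_option autoImplicit false

/-!
LOVA (40 lines). A connected set T with two nonadjacent vertices contains two nonadjacent vertices with a common
neighbour. Take the nonadjacent x, y and A = {b ∈ T : b = x or b adjacent to x}. If there is no such triple, A is closed
in T: b ∈ A, c ∈ T, b adjacent to c: if b = x then c ∈ A; otherwise b is a common neighbour of x and c, so c = x or c is
adjacent to x. So A = T (x ∈ A), but y ∉ A.
-/

namespace Pool.Agent.MP_dc7d7b.TF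

open Finset Classical

theorem dist_two {V : Type} (G : SimpleGraph V) (T : Finset V) (hconn : Con G T)
    (hpair : ∃ x ∈ T, ∃ y ∈ T, x ≠ y ∧ ¬ G.Adj x y) :
    ∃ v ∈ T, ∃ x ∈ T, ∃ y ∈ T, x ≠ y ∧ ¬ G.Adj x y ∧ G.Adj v x ∧ G.Adj v y := by
  obtain ⟨x, hx, y, hy, hxy, hadj⟩ := hpair
  by_contra hno
  push Not at hno
  have hA : Cl G T (T.filter (fun b => b = x ∨ G.Adj b x)) := by
    refine ⟨Finset.filter_subset _ _, ?_⟩
    intro b hb c hc hbc
    rw [Finset.mem_filter] at hb ⊢
    refine ⟨hc, ?_⟩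
    rcases hb.2 with h | h
    · subst h
      exact Or.inr hbc.symm
    · by_contra hcx
      push Not at hcx
      exact hno b hb.1 x hx c hc (Ne.symm hcx.1) (fun h' => hcx.2 h'.symm) h hbc
  have hne : (T.filter (fun b => b = x ∨ G.Adj b x)).Nonempty :=
    ⟨x, Finset.mem_filter.mpr ⟨hx, Or.inl rfl⟩⟩
  have heq := hconn _ hA hne
  have hy' : y ∈ T.filter (fun b => b = x ∨ G.Adj b x) := by
    rw [heq]; exact hy
  rcases (Finset.mem_filter.mp hy').2 with h | h
  · exact hxy h.symm
  · exact hadj h.symm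

end Pool.Agent.MP_dc7d7b.TF
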