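import Pool.Agent.Lib.MP_dc7d7b_co.TF.Defs

set_option autoImplicit false

/-! The index sets of the events. -/

namespace Pool.Agent.MP_dc7d7b.TF

open Finset Classical

noncomputable def QQ (F : Fin 8 → Finset (Fin 8)) : Finset (Finset (Fin 8)) := univ.filter (fun Q => ∃ N, E2 F N Q)

noncomputable def UU (F : Fin 8 → Finset (Fin 8)) : Finset (Fin 8) :=
  univ.filter (fun c => T0 F (F c) = {c} ∧ (F c).card = 3)

noncomputable def KK (F : Fin 8 → Finset (Fin 8)) : Finset (Finset (Fin 8)) := univ.filter (fun S => ∃ N, E36 F N S)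

noncomputable def RR (F : Fin 8 → Finset (Fin 8)) : Finset (Finset (Fin 8)) := univ.filter (fun R => ∃ N, E4 F N R)

end Pool.Agent.MP_dc7d7b.TF
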